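import Pool.Agent.Lib_helper92.KSA.Base
import Pool.Agent.Lib_helper24.KS.Defs

/-!
# Block KPO: Poisson summation for the trivial character
-/

namespace Pool.Agent.KS

open NumberField NumberField.InfinitePlace NumberField.Units Complex MeasureTheory Filter Topology
open Pool.Agent.HZ Pool.Agent.AS

variable {K : Type} [Field K] [NumberField K]

/-- the Gaussian as a function of the absolute values -/
noncomputable def kpoF (y : InfinitePlace K → ℝ) : ℂ := ((Real.exp (-Real.pi * qn y) : ℝ) : ℂ)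

lemma kpo_qn_continuous : Continuous (qn : (InfinitePlace K → ℝ) → ℝ) := by
  unfold qn
  fun_prop

lemma kpo_good : GoodF (kpoF (K := K)) 1 Real.pi := by
  refine ⟨zero_le_one, Real.pi_pos, Continuous.continuousOn ?_, fun y _ => ?_⟩
  · unfold kpoF
    have := kpo_qn_continuous (K := K)
    fun_prop
  · unfold kpoF
    rw [Complex.norm_real, Real.norm_eq_abs, abs_of_pos (Real.exp_pos _), one_mul]

lemma kpo_kint (u : ℝ) : kint K kpoF u = (kg K Real.pi u : ℂ) := by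
  unfold kint kg kpoF
  exact integral_ofReal

lemma kpo_Hf (y : InfinitePlace K → ℝ) (hy : ∀ w, 0 < y w) (a : K) :
    Hf (0 : InfinitePlace K → ℤ) y a =
      ((Real.exp (-Real.pi * qn (fun w => y w * w a)) : ℝ) : ℂ) := by
  unfold Hf hloc qn
  simp only [Pi.zero_apply, Int.natAbs_zero, pow_zero, zpow_zero, one_mul]
  rw [← Complex.exp_sum]
  rw [Complex.ofReal_exp]
  congr 1
  rw [Finset.sum_neg_distrib, neg_mul, Finset.mul_sum]
  push_cast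
  congr 1
  refine Finset.sum_congr rfl fun w _ => ?_
  rw [norm_mul, Complex.norm_real, Real.norm_eq_abs, abs_of_pos (hy w), norm_embedding_eq]
  push_cast
  ring

lemma kpo_dual (u : ℝ) (x : Fin (rank K) → ℝ) {N : ℕ} (hN : 0 < N) (w : InfinitePlace K) :
    Yv K (-u - Module.finrank ℚ K * Real.log N) (-x) w = 1 / (N * Yv K u x w) := by
  have hn : (0 : ℝ) < Module.finrank ℚ K := by
    exact_mod_cast Module.finrank_pos
  have hN' : (0 : ℝ) < N := by exact_mod_cast hN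
  have h1 : Yv K (-u - Module.finrank ℚ K * Real.log N) (-x) w * Yv K u x w =
      Yv K (-(Module.finrank ℚ K * Real.log N)) 0 w := by
    rw [← Yv_add]
    congr 1
    · ring
    · simp
  have h2 : Yv K (-(Module.finrank ℚ K * Real.log N)) 0 w = 1 / N := by
    unfold Yv
    simp only [Pi.zero_apply, Real.rpow_zero, Finset.prod_const_one, mul_one]
    have : -(Module.finrank ℚ K * Real.log N) / (Module.finrank ℚ K : ℝ) = - Real.log N := by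
      field_simp
    rw [this, Real.exp_neg, Real.exp_log hN', one_div]
  have h3 := Yv_pos (K := K) u x w
  rw [h2] at h1
  rw [eq_div_iff (by positivity)]
  calc Yv K (-u - Module.finrank ℚ K * Real.log N) (-x) w * (N * Yv K u x w)
      = N * (Yv K (-u - Module.finrank ℚ K * Real.log N) (-x) w * Yv K u x w) := by ring
    _ = 1 := by rw [h1]; field_simp

/-- the theta series -/
noncomputable def kpoS (𝔟 : Ideal (𝓞 K)) (y : InfinitePlace K → ℝ) : ℝ :=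
  ∑' α : 𝔟, Real.exp (-Real.pi * qn (fun w => y w * w ((α : 𝓞 K) : K)))

lemma kpo_poisson {C₀ : ℝ} (hP : ∀ (κ : InfinitePlace K → ℤ)
    (_ : ∀ w : InfinitePlace K, w.IsReal → κ w = 0 ∨ κ w = 1) (𝔩 𝔫 : Ideal (𝓞 K)) (N : ℕ)
    (_ : 0 < N) (_ : 𝔩 * 𝔫 * differentIdeal ℤ (𝓞 K) = Ideal.span {(N : 𝓞 K)})
    (y : InfinitePlace K → ℝ) (_ : ∀ w, 0 < y w) (a : 𝓞 K),
    ∑' l : 𝔩, Hf κ y ((a + (l : 𝓞 K) : 𝓞 K) : K) =
      ((C₀ / (Ideal.absNorm 𝔩 * ∏ w, y w ^ w.mult) : ℝ) : ℂ) * (-I) ^ (∑ w, (κ w).natAbs) *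
        ∑' β : 𝔫, ee (((Algebra.trace ℚ K ((a * (β : 𝓞 K) : 𝓞 K) : K) : ℚ) : ℝ) / N) *
          starRingEnd ℂ (Hf κ (fun w => 1 / (N * y w)) ((β : 𝓞 K) : K)))
    (𝔩 𝔫 : Ideal (𝓞 K)) (N : ℕ) (hN : 0 < N)
    (h : 𝔩 * 𝔫 * differentIdeal ℤ (𝓞 K) = Ideal.span {(N : 𝓞 K)}) (u : ℝ)
    (x : Fin (rank K) → ℝ) :
    kpoS 𝔩 (Yv K u x) = C₀ / Ideal.absNorm 𝔩 * Real.exp (-u) *
      kpoS 𝔫 (Yv K (-u - Module.finrank ℚ K * Real.log N) (-x)) := by
  have h1 := hP 0 (fun w _ => Or.inl rfl) 𝔩 𝔫 N hN h (Yv K u x) (Yv_pos u x) 0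
  have hy' : ∀ w, 0 < 1 / ((N : ℝ) * Yv K u x w) := fun w => by
    have := Yv_pos (K := K) u x w
    have hN' : (0 : ℝ) < N := by exact_mod_cast hN
    positivity
  have e1 : ∀ l : 𝔩, Hf (0 : InfinitePlace K → ℤ) (Yv K u x) (((0 : 𝓞 K) + (l : 𝓞 K) : 𝓞 K) : K) =
      ((Real.exp (-Real.pi * qn (fun w => Yv K u x w * w ((l : 𝓞 K) : K))) : ℝ) : ℂ) := by
    intro l
    rw [kpo_Hf _ (Yv_pos u x), zero_add]
  have e2 : ∀ β : 𝔫, ee (((Algebra.trace ℚ K (((0 : 𝓞 K) * (β : 𝓞 K) : 𝓞 K) : K) : ℚ) : ℝ) / N) *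
      starRingEnd ℂ (Hf (0 : InfinitePlace K → ℤ) (fun w => 1 / (N * Yv K u x w))
        ((β : 𝓞 K) : K)) =
      ((Real.exp (-Real.pi * qn (fun w =>
        Yv K (-u - Module.finrank ℚ K * Real.log N) (-x) w * w ((β : 𝓞 K) : K))) : ℝ) : ℂ) := by
    intro β
    rw [kpo_Hf _ hy', Complex.conj_ofReal]
    have : ee (((Algebra.trace ℚ K (((0 : 𝓞 K) * (β : 𝓞 K) : 𝓞 K) : K) : ℚ) : ℝ) / N) = 1 := by
      simp [ee]
    rw [this, one_mul]
    simp only [kpo_dual u x hN]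
  rw [tsum_congr e1, tsum_congr e2, prod_Yv] at h1
  simp only [Pi.zero_apply, Int.natAbs_zero, Finset.sum_const_zero, pow_zero, mul_one] at h1
  rw [← Complex.ofReal_tsum, ← Complex.ofReal_tsum, ← Complex.ofReal_mul] at h1
  have h2 := Complex.ofReal_injective h1
  unfold kpoS
  rw [h2, Real.exp_neg]
  congr 1
  rw [div_mul_eq_div_div, div_eq_mul_inv (C₀ / _)]

lemma kpo_exp_bound (n : ℕ) (hn : 0 < n) (s : ℝ) (hs : 0 < s) :
    s * Real.exp (-(Real.pi / 2) * s ^ (2 / (n : ℝ))) ≤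
      1 + (n.factorial : ℝ) * (2 / Real.pi) ^ n := by
  have hn' : (0 : ℝ) < n := by exact_mod_cast hn
  have hpi := Real.pi_pos
  set t : ℝ := s ^ (2 / (n : ℝ)) with ht
  have ht0 : 0 ≤ t := Real.rpow_nonneg hs.le _
  have h1 : t ^ n = s ^ 2 := by
    rw [ht, ← Real.rpow_natCast, ← Real.rpow_mul hs.le]
    have : 2 / (n : ℝ) * n = 2 := by field_simp
    rw [this]
    exact_mod_cast Real.rpow_natCast s 2
  have h2 : (Real.pi / 2 * t) ^ n / n.factorial ≤ Real.exp (Real.pi / 2 * t) :=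
    Real.pow_div_factorial_le_exp _ (by positivity) n
  have h3 : s ^ 2 ≤ (n.factorial : ℝ) * (2 / Real.pi) ^ n * Real.exp (Real.pi / 2 * t) := by
    have h4 : (Real.pi / 2 * t) ^ n = (Real.pi / 2) ^ n * s ^ 2 := by rw [mul_pow, h1]
    rw [h4, div_le_iff₀ (by positivity)] at h2
    have h5 : (2 / Real.pi) ^ n * ((Real.pi / 2) ^ n * s ^ 2) = s ^ 2 := by
      rw [← mul_assoc, ← mul_pow]
      have : 2 / Real.pi * (Real.pi / 2) = 1 := by field_simp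
      rw [this, one_pow, one_mul]
    calc s ^ 2 = (2 / Real.pi) ^ n * ((Real.pi / 2) ^ n * s ^ 2) := h5.symm
      _ ≤ (2 / Real.pi) ^ n * (Real.exp (Real.pi / 2 * t) * n.factorial) :=
          mul_le_mul_of_nonneg_left h2 (by positivity)
      _ = _ := by ring
  have h6 : Real.exp (-(Real.pi / 2) * t) * Real.exp (Real.pi / 2 * t) = 1 := by
    rw [← Real.exp_add]
    simp
  have h7 : Real.exp (-(Real.pi / 2) * t) ≤ 1 := by
    rw [Real.exp_le_one_iff]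
    have : 0 ≤ Real.pi / 2 * t := by positivity
    linarith
  have h8 : s ≤ 1 + s ^ 2 := by nlinarith [sq_nonneg (s - 1)]
  have h9 := Real.exp_pos (-(Real.pi / 2) * t)
  calc s * Real.exp (-(Real.pi / 2) * t) ≤ (1 + s ^ 2) * Real.exp (-(Real.pi / 2) * t) :=
        mul_le_mul_of_nonneg_right h8 h9.le
    _ ≤ (1 + (n.factorial : ℝ) * (2 / Real.pi) ^ n * Real.exp (Real.pi / 2 * t)) *
        Real.exp (-(Real.pi / 2) * t) := by gcongr
    _ = Real.exp (-(Real.pi / 2) * t) + (n.factorial : ℝ) * (2 / Real.pi) ^ n *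
        (Real.exp (-(Real.pi / 2) * t) * Real.exp (Real.pi / 2 * t)) := by ring
    _ ≤ 1 + (n.factorial : ℝ) * (2 / Real.pi) ^ n := by
        rw [h6, mul_one]
        linarith

lemma kpo_S_sub_one {𝔫 : Ideal (𝓞 K)} (h𝔫 : 𝔫 ≠ ⊥) (u : ℝ) (x : Fin (rank K) → ℝ)
    (hx : x ∈ Set.Icc (-1 : Fin (rank K) → ℝ) 1) :
    (Summable fun α : 𝔫 => Real.exp (-Real.pi *
      qn (fun w => Yv K u x w * w ((α : 𝓞 K) : K)))) ∧
    (∀ t : 𝔫 → ℝ, (∀ α, α ≠ 0 → t α = Real.exp (-Real.pi *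
      qn (fun w => Yv K u x w * w ((α : 𝓞 K) : K)))) → t 0 = 0 →
      kpoS 𝔫 (Yv K u x) - 1 = ∑' α : 𝔫, t α) := by
  classical
  obtain ⟨C', hC', hlat⟩ := lattice_sum h𝔫 (c := Real.pi) Real.pi_pos
  obtain ⟨hsum, -⟩ := hlat u x hx
  refine ⟨hsum, fun t ht h0 => ?_⟩
  unfold kpoS
  rw [hsum.tsum_eq_add_tsum_ite 0]
  have : Real.exp (-Real.pi *
      qn (fun w => Yv K u x w * w (((0 : 𝔫) : 𝓞 K) : K))) = 1 := by
    simp [qn]
  rw [this, add_sub_cancel_left]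
  refine tsum_congr fun α => ?_
  split_ifs with h
  · rw [h, h0]
  · rw [ht α h]

lemma kpo_R {𝔫 : Ideal (𝓞 K)} (h𝔫 : 𝔫 ≠ ⊥) : ∃ C : ℝ, 0 ≤ C ∧ ∀ u : ℝ,
    ∀ x ∈ Set.Icc (-1 : Fin (rank K) → ℝ) 1,
      0 ≤ kpoS 𝔫 (Yv K u x) - 1 ∧ Real.exp u * (kpoS 𝔫 (Yv K u x) - 1) ≤ C := by
  classical
  have hn : 0 < Module.finrank ℚ K := Module.finrank_pos
  have hpi := Real.pi_pos
  obtain ⟨C', hC', hlat⟩ := lattice_sum h𝔫 (c := Real.pi / 2) (by positivity)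
  set B : ℝ := 1 + ((Module.finrank ℚ K).factorial : ℝ) * (2 / Real.pi) ^ (Module.finrank ℚ K)
    with hB
  refine ⟨C' * (1 + B), by positivity, ?_⟩
  intro u x hx
  obtain ⟨hsum, hle⟩ := hlat u x hx
  set q : 𝔫 → ℝ := fun α => qn (fun w => Yv K u x w * w ((α : 𝓞 K) : K)) with hq
  have hsum1 : Summable (fun α : 𝔫 => Real.exp (-Real.pi * q α)) := by
    refine Summable.of_nonneg_of_le (fun α => (Real.exp_pos _).le) (fun α => ?_) hsum
    apply Real.exp_le_exp.mpr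
    have h0 : 0 ≤ q α := by
      simp only [hq, qn]
      positivity
    nlinarith
  have hS : kpoS 𝔫 (Yv K u x) - 1 = ∑' α : 𝔫, if α = 0 then 0 else Real.exp (-Real.pi * q α) := by
    unfold kpoS
    rw [hsum1.tsum_eq_add_tsum_ite 0]
    have : Real.exp (-Real.pi * q 0) = 1 := by
      simp [hq, qn]
    rw [this]
    ring
  have hT : ∀ α : 𝔫, (if α = 0 then 0 else Real.exp (-Real.pi * q α)) ≤
      Real.exp (-(Real.pi / 2) * Real.exp u ^ (2 / (Module.finrank ℚ K : ℝ))) *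
        Real.exp (-(Real.pi / 2) * q α) := by
    intro α
    split_ifs with h0
    · positivity
    · have h1 := am_gm (𝔮 := ⊤) (𝔟 := 𝔫) (l := (α : 𝓞 K)) top_ne_bot h𝔫
        (by rw [Ideal.top_mul]; exact α.2) (by simpa using h0) u x
      rw [Ideal.absNorm_top, Nat.cast_one, mul_one] at h1
      rw [← Real.exp_add]
      apply Real.exp_le_exp.mpr
      change _ ≤ q α at h1
      nlinarith
  rw [hS]
  refine ⟨tsum_nonneg fun α => by split_ifs; exacts [le_rfl, (Real.exp_pos _).le], ?_⟩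
  have h2 : ∑' α : 𝔫, (if α = 0 then 0 else Real.exp (-Real.pi * q α)) ≤
      Real.exp (-(Real.pi / 2) * Real.exp u ^ (2 / (Module.finrank ℚ K : ℝ))) *
        (C' * (1 + Real.exp (-u))) := by
    have hsumT := hsum.mul_left
      (Real.exp (-(Real.pi / 2) * Real.exp u ^ (2 / (Module.finrank ℚ K : ℝ))))
    have h3 : Summable (fun α : 𝔫 => if α = 0 then 0 else Real.exp (-Real.pi * q α)) :=
      Summable.of_nonneg_of_le
        (fun α => by split_ifs; exacts [le_rfl, (Real.exp_pos _).le]) hT hsumT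
    refine (h3.tsum_le_tsum hT hsumT).trans ?_
    rw [tsum_mul_left]
    exact mul_le_mul_of_nonneg_left hle (Real.exp_pos _).le
  have h4 := kpo_exp_bound (Module.finrank ℚ K) hn (Real.exp u) (Real.exp_pos u)
  have h5 : Real.exp (-(Real.pi / 2) * Real.exp u ^ (2 / (Module.finrank ℚ K : ℝ))) ≤ 1 := by
    rw [Real.exp_le_one_iff]
    have : 0 ≤ Real.pi / 2 * Real.exp u ^ (2 / (Module.finrank ℚ K : ℝ)) := by positivity
    linarith
  set G := Real.exp (-(Real.pi / 2) * Real.exp u ^ (2 / (Module.finrank ℚ K : ℝ))) with hG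
  have h6 : Real.exp u * Real.exp (-u) = 1 := by
    rw [← Real.exp_add]
    simp
  calc Real.exp u * _ ≤ Real.exp u * (G * (C' * (1 + Real.exp (-u)))) :=
        mul_le_mul_of_nonneg_left h2 (Real.exp_pos u).le
    _ = C' * (Real.exp u * G + G * (Real.exp u * Real.exp (-u))) := by ring
    _ ≤ C' * (1 + B) := by
        rw [h6, mul_one]
        apply mul_le_mul_of_nonneg_left _ hC'
        linarith

open scoped Classical in
lemma kpo_class {C₀ : ℝ} (hC₀ : 0 < C₀) (hP : ∀ (κ : InfinitePlace K → ℤ)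
    (_ : ∀ w : InfinitePlace K, w.IsReal → κ w = 0 ∨ κ w = 1) (𝔩 𝔫 : Ideal (𝓞 K)) (N : ℕ)
    (_ : 0 < N) (_ : 𝔩 * 𝔫 * differentIdeal ℤ (𝓞 K) = Ideal.span {(N : 𝓞 K)})
    (y : InfinitePlace K → ℝ) (_ : ∀ w, 0 < y w) (a : 𝓞 K),
    ∑' l : 𝔩, Hf κ y ((a + (l : 𝓞 K) : 𝓞 K) : K) =
      ((C₀ / (Ideal.absNorm 𝔩 * ∏ w, y w ^ w.mult) : ℝ) : ℂ) * (-I) ^ (∑ w, (κ w).natAbs) *
        ∑' β : 𝔫, ee (((Algebra.trace ℚ K ((a * (β : 𝓞 K) : 𝓞 K) : K) : ℚ) : ℝ) / N) *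
          starRingEnd ℂ (Hf κ (fun w => 1 / (N * y w)) ((β : 𝓞 K) : K)))
    {𝔟 : Ideal (𝓞 K)} (h𝔟 : 𝔟 ≠ ⊥) : ∃ C : ℝ, ∀ u : ℝ,
    ‖Scl 𝔟 (fun 𝔠 => if 𝔠 = ⊥ then 0 else 1) kpoF u -
      ((C₀ / torsionOrder K * Real.exp (-u) : ℝ) : ℂ)‖ ≤ C := by
  -- the dual ideal
  have hdiff : differentIdeal ℤ (𝓞 K) ≠ ⊥ := differentIdeal_ne_bot
  set 𝔪 := 𝔟 * differentIdeal ℤ (𝓞 K) with h𝔪
  have h𝔪0 : 𝔪 ≠ ⊥ := mul_ne_zero h𝔟 hdiff
  set N := Ideal.absNorm 𝔪 with hNdef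
  have hN : 0 < N := Nat.pos_of_ne_zero (by rw [hNdef, Ne, Ideal.absNorm_eq_zero_iff]; exact h𝔪0)
  have hdvd : 𝔪 ∣ Ideal.span {(N : 𝓞 K)} := by
    rw [Ideal.dvd_span_singleton]
    exact Ideal.absNorm_mem 𝔪
  obtain ⟨𝔫, h𝔫⟩ := hdvd
  have hspan : Ideal.span {(N : 𝓞 K)} ≠ ⊥ := by
    rw [Ne, Ideal.span_singleton_eq_bot]
    exact_mod_cast hN.ne'
  have h𝔫0 : 𝔫 ≠ ⊥ := by
    rintro rfl
    rw [Ideal.mul_bot] at h𝔫
    exact hspan h𝔫
  have hmul : 𝔟 * 𝔫 * differentIdeal ℤ (𝓞 K) = Ideal.span {(N : 𝓞 K)} := by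
    rw [h𝔫, h𝔪]
    ring
  obtain ⟨C1, hC1, hR⟩ := kpo_R h𝔫0
  have hNb : (0 : ℝ) < Ideal.absNorm 𝔟 := by
    have : 0 < Ideal.absNorm 𝔟 :=
      Nat.pos_of_ne_zero (by rw [Ne, Ideal.absNorm_eq_zero_iff]; exact h𝔟)
    exact_mod_cast this
  have hN' : (0 : ℝ) < N := by exact_mod_cast hN
  have hn : (0 : ℝ) < Module.finrank ℚ K := by exact_mod_cast (Module.finrank_pos : 0 < _)
  set n := Module.finrank ℚ K with hndef
  -- pointwise bound
  have hpt : ∀ u : ℝ, ∀ x ∈ Set.Icc (-1 : Fin (rank K) → ℝ) 1,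
      |kpoS 𝔟 (Yv K u x) - 1 - C₀ / Ideal.absNorm 𝔟 * Real.exp (-u)| ≤
        1 + C₀ / Ideal.absNorm 𝔟 * (N : ℝ) ^ n * C1 := by
    intro u x hx
    have hx' : -x ∈ Set.Icc (-1 : Fin (rank K) → ℝ) 1 := by
      refine ⟨?_, ?_⟩
      · exact neg_le_neg hx.2
      · have := neg_le_neg hx.1
        simpa using this
    obtain ⟨h1, h2⟩ := hR (-u - n * Real.log N) (-x) hx'
    rw [kpo_poisson hP 𝔟 𝔫 N hN hmul u x]
    set S' := kpoS 𝔫 (Yv K (-u - n * Real.log N) (-x)) with hS'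
    have h3 : Real.exp (-u) = (N : ℝ) ^ n * Real.exp (-u - n * Real.log N) := by
      have h30 : (N : ℝ) ^ n = Real.exp (n * Real.log N) := by
        rw [Real.exp_nat_mul, Real.exp_log hN']
      rw [h30, ← Real.exp_add]
      congr 1
      ring
    have h4 : C₀ / Ideal.absNorm 𝔟 * Real.exp (-u) * S' - 1 -
        C₀ / Ideal.absNorm 𝔟 * Real.exp (-u) =
        C₀ / Ideal.absNorm 𝔟 * (N : ℝ) ^ n *
          (Real.exp (-u - n * Real.log N) * (S' - 1)) - 1 := by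
      rw [h3]
      ring
    rw [h4, abs_le]
    have h5 : 0 ≤ C₀ / Ideal.absNorm 𝔟 * (N : ℝ) ^ n := by positivity
    have h6 : 0 ≤ Real.exp (-u - n * Real.log N) * (S' - 1) :=
      mul_nonneg (Real.exp_pos _).le h1
    have h7 : C₀ / Ideal.absNorm 𝔟 * (N : ℝ) ^ n *
          (Real.exp (-u - n * Real.log N) * (S' - 1)) ≤
        C₀ / Ideal.absNorm 𝔟 * (N : ℝ) ^ n * C1 := mul_le_mul_of_nonneg_left h2 h5
    have h8 : 0 ≤ C₀ / Ideal.absNorm 𝔟 * (N : ℝ) ^ n *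
          (Real.exp (-u - n * Real.log N) * (S' - 1)) := mul_nonneg h5 h6
    constructor <;> linarith
  set M := 1 + C₀ / Ideal.absNorm 𝔟 * (N : ℝ) ^ n * C1 with hM
  have hτ : 0 < torsionOrder K := torsionOrder_pos K
  have hτ1 : (1 : ℝ) ≤ torsionOrder K := by exact_mod_cast hτ
  have hτ' : (0 : ℝ) < torsionOrder K := by linarith
  refine ⟨M / torsionOrder K, fun v => ?_⟩
  set u := v - Real.log (Ideal.absNorm 𝔟) with hu
  have hb : ∀ 𝔠 : Ideal (𝓞 K), ‖(fun 𝔠 : Ideal (𝓞 K) => if 𝔠 = ⊥ then (0 : ℂ) else 1) 𝔠‖ ≤ 1 := by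
    intro 𝔠
    dsimp only
    split_ifs <;> simp
  obtain ⟨hint, heq⟩ := unfold_units h𝔟 (kpo_good (K := K)) hb (by simp) 1 (Or.inl rfl) u
  rw [show u + Real.log (Ideal.absNorm 𝔟) = v by rw [hu]; ring] at heq
  have hval : ∀ x ∈ Set.Icc (0 : Fin (rank K) → ℝ) 1,
      ∑' α : 𝔟, (fun 𝔠 : Ideal (𝓞 K) => if 𝔠 = ⊥ then (0 : ℂ) else 1) (quo 𝔟 α) *
        kpoF (fun w => Yv K u ((1 : ℝ) • x) w * w ((α : 𝓞 K) : K)) =
      ((kpoS 𝔟 (Yv K u x) - 1 : ℝ) : ℂ) := by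
    intro x hx
    have hx' : x ∈ Set.Icc (-1 : Fin (rank K) → ℝ) 1 :=
      ⟨le_trans (by intro i; simp) hx.1, hx.2⟩
    rw [(kpo_S_sub_one h𝔟 u x hx').2 (fun α => if α = 0 then 0 else Real.exp (-Real.pi *
      qn (fun w => Yv K u x w * w ((α : 𝓞 K) : K)))) (fun α hα => if_neg hα) (if_pos rfl)]
    rw [Complex.ofReal_tsum]
    refine tsum_congr fun α => ?_
    by_cases hα : α = 0
    · have hq : quo 𝔟 ((α : 𝔟) : 𝓞 K) = ⊥ := by
        unfold quo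
        rw [dif_neg]
        rw [hα]
        simp
      change (if quo 𝔟 ((α : 𝔟) : 𝓞 K) = ⊥ then (0 : ℂ) else 1) * _ = _
      rw [if_pos hq, if_pos hα]
      simp
    · have hα0 : (α : 𝓞 K) ≠ 0 := by simpa using hα
      have hq : quo 𝔟 ((α : 𝔟) : 𝓞 K) ≠ ⊥ := by
        intro hq
        have h1 := quo_spec α.2 hα0
        rw [hq, Ideal.mul_bot] at h1
        exact hα0 (Ideal.span_singleton_eq_bot.mp h1.symm)
      simp only [hq, hα, if_false, one_mul, one_smul, kpoF]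
  have hvol : (volume : Measure (Fin (rank K) → ℝ)).real (Set.Icc 0 1) = 1 := by
    rw [Measure.real, Real.volume_Icc_pi]
    simp
  have hvol' : (volume : Measure (Fin (rank K) → ℝ)) (Set.Icc 0 1) < ⊤ := by
    rw [Real.volume_Icc_pi]
    simp
  have hc : ∫ _x in Set.Icc (0 : Fin (rank K) → ℝ) 1,
      ((C₀ / Ideal.absNorm 𝔟 * Real.exp (-u) : ℝ) : ℂ) =
      ((C₀ / Ideal.absNorm 𝔟 * Real.exp (-u) : ℝ) : ℂ) := by
    rw [setIntegral_const, hvol, one_smul]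
  have hmain : ‖(torsionOrder K : ℂ) *
      Scl 𝔟 (fun 𝔠 : Ideal (𝓞 K) => if 𝔠 = ⊥ then (0 : ℂ) else 1) kpoF v -
      ((C₀ / Ideal.absNorm 𝔟 * Real.exp (-u) : ℝ) : ℂ)‖ ≤ M := by
    rw [← heq, ← hc, ← integral_sub hint
      (integrableOn_const (by exact hvol'.ne))]
    refine (norm_setIntegral_le_of_norm_le_const hvol' (C := M) ?_).trans ?_
    · intro x hx
      have hx' : x ∈ Set.Icc (-1 : Fin (rank K) → ℝ) 1 :=
        ⟨le_trans (by intro i; simp) hx.1, hx.2⟩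
      rw [hval x hx, ← Complex.ofReal_sub, Complex.norm_real, Real.norm_eq_abs]
      exact hpt u x hx'
    · rw [hvol, mul_one]
  have hexp : C₀ / Ideal.absNorm 𝔟 * Real.exp (-u) = C₀ * Real.exp (-v) := by
    rw [hu, neg_sub, sub_eq_add_neg, Real.exp_add, Real.exp_log hNb]
    field_simp
  rw [hexp] at hmain
  have hfin : Scl 𝔟 (fun 𝔠 : Ideal (𝓞 K) => if 𝔠 = ⊥ then (0 : ℂ) else 1) kpoF v -
      ((C₀ / torsionOrder K * Real.exp (-v) : ℝ) : ℂ) =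
      ((torsionOrder K : ℂ))⁻¹ * ((torsionOrder K : ℂ) *
      Scl 𝔟 (fun 𝔠 : Ideal (𝓞 K) => if 𝔠 = ⊥ then (0 : ℂ) else 1) kpoF v -
      ((C₀ * Real.exp (-v) : ℝ) : ℂ)) := by
    have : (torsionOrder K : ℂ) ≠ 0 := by exact_mod_cast hτ.ne'
    push_cast
    field_simp
  rw [hfin, norm_mul, norm_inv, Complex.norm_natCast, inv_mul_eq_div]
  exact div_le_div_of_nonneg_right hmain hτ'.le

open scoped Classical in
theorem kg_poisson_pr : ∃ ρ C : ℝ, 0 < ρ ∧ ∀ u : ℝ,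
    |∑' 𝔠 : Ideal (𝓞 K), (if 𝔠 = ⊥ then 0 else kg K Real.pi (u + Real.log (Ideal.absNorm 𝔠))) -
      ρ * Real.exp (-u)| ≤ C := by
  obtain ⟨C₀, hC₀, hP⟩ := nf_poisson (K := K)
  have hτ : 0 < torsionOrder K := torsionOrder_pos K
  have hτ' : (0 : ℝ) < torsionOrder K := by exact_mod_cast hτ
  choose rep hrep' using (ClassGroup.mk0_surjective (R := 𝓞 K))
  have h0 : ∀ c, ((rep c : nonZeroDivisors (Ideal (𝓞 K))) : Ideal (𝓞 K)) ≠ ⊥ := fun c =>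
    nonZeroDivisors.coe_ne_zero _
  have hcl : ∀ c : ClassGroup (𝓞 K), ∃ C : ℝ, ∀ u : ℝ,
      ‖Scl ((rep c : nonZeroDivisors (Ideal (𝓞 K))) : Ideal (𝓞 K))
        (fun 𝔠 => if 𝔠 = ⊥ then 0 else 1) kpoF u -
      ((C₀ / torsionOrder K * Real.exp (-u) : ℝ) : ℂ)‖ ≤ C := fun c => kpo_class hC₀ hP (h0 c)
  choose Cc hCc using hcl
  refine ⟨Fintype.card (ClassGroup (𝓞 K)) * (C₀ / torsionOrder K), ∑ c, Cc c, ?_, ?_⟩
  · have : 0 < Fintype.card (ClassGroup (𝓞 K)) := Fintype.card_pos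
    positivity
  intro u
  have hb : ∀ 𝔠 : Ideal (𝓞 K), ‖(fun 𝔠 : Ideal (𝓞 K) => if 𝔠 = ⊥ then (0 : ℂ) else 1) 𝔠‖ ≤ 1 := by
    intro 𝔠
    dsimp only
    split_ifs <;> simp
  have h1 := Dser_classes (fun c => ((rep c : nonZeroDivisors (Ideal (𝓞 K))) : Ideal (𝓞 K))) h0
    (fun c => hrep' c) (kpo_good (K := K)) hb (by simp) u
  unfold Dser at h1
  have hE : (Real.exp (u / 2) : ℂ) ≠ 0 := by exact_mod_cast (Real.exp_pos _).ne'
  have h2 := mul_left_cancel₀ hE h1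
  have h3 : ((∑' 𝔠 : Ideal (𝓞 K), (if 𝔠 = ⊥ then 0 else
      kg K Real.pi (u + Real.log (Ideal.absNorm 𝔠))) : ℝ) : ℂ) =
      ∑ c, Scl ((rep c : nonZeroDivisors (Ideal (𝓞 K))) : Ideal (𝓞 K))
        (fun 𝔠 => if 𝔠 = ⊥ then 0 else 1) kpoF u := by
    rw [← h2, Complex.ofReal_tsum]
    refine tsum_congr fun 𝔠 => ?_
    rw [kpo_kint]
    by_cases h : 𝔠 = ⊥ <;> simp [h]
  have h4 : ((∑' 𝔠 : Ideal (𝓞 K), (if 𝔠 = ⊥ then 0 else
      kg K Real.pi (u + Real.log (Ideal.absNorm 𝔠))) -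
      Fintype.card (ClassGroup (𝓞 K)) * (C₀ / torsionOrder K) * Real.exp (-u) : ℝ) : ℂ) =
      ∑ c : ClassGroup (𝓞 K), (Scl ((rep c : nonZeroDivisors (Ideal (𝓞 K))) : Ideal (𝓞 K))
        (fun 𝔠 => if 𝔠 = ⊥ then 0 else 1) kpoF u -
        ((C₀ / torsionOrder K * Real.exp (-u) : ℝ) : ℂ)) := by
    rw [Finset.sum_sub_distrib, ← h3, Finset.sum_const, Finset.card_univ, nsmul_eq_mul]
    push_cast
    ring
  rw [← Real.norm_eq_abs, ← Complex.norm_real, h4]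
  exact (norm_sum_le _ _).trans (Finset.sum_le_sum fun c _ => hCc c u)

end Pool.Agent.KS

namespace Pool.Agent.KS

theorem kg_poisson : type_of% @kg_poisson_pr := @kg_poisson_pr

end Pool.Agent.KS
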