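import Pool.Agent.Lib_helper92.KSA.Base
import Pool.Agent.Lib_helper24.KS.Defs

/-! Block BRG (MP_77948b_nt, K-Selberg): ideals and `PK K →₀ ℕ`. -/

namespace Pool.Agent.KS

open NumberField NumberField.InfinitePlace NumberField.Units Complex MeasureTheory Filter Topology
open Pool.Agent.HZ Pool.Agent.AS

variable {K : Type} [Field K] [NumberField K]

theorem two_le_NK_pr (p : PK K) : 2 ≤ NK K p := by
  have h0 : NK K p ≠ 0 := by
    intro h
    exact p.ne_bot (Ideal.absNorm_eq_zero_iff.mp h)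
  have h1 : NK K p ≠ 1 := by
    intro h
    exact p.isPrime.ne_top (Ideal.absNorm_eq_one_iff.mp h)
  omega

theorem IK_ne_bot_pr (g : PK K →₀ ℕ) : IK g ≠ ⊥ := by
  rw [← Ideal.zero_eq_bot, IK, Finsupp.prod, Finset.prod_ne_zero_iff]
  intro p _
  exact pow_ne_zero _ p.ne_bot

theorem IK_zero_pr : IK (0 : PK K →₀ ℕ) = ⊤ := by
  rw [IK, Finsupp.prod_zero_index, Ideal.one_eq_top]

theorem IK_single_pr (p : PK K) (k : ℕ) : IK (Finsupp.single p k) = p.asIdeal ^ k := by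
  unfold IK
  exact Finsupp.prod_single_index (pow_zero _)

theorem IK_add_pr (g h : PK K →₀ ℕ) : IK (g + h) = IK g * IK h := by
  classical
  rw [IK, Finsupp.prod_add_index' (fun _ => pow_zero _) (fun _ _ _ => pow_add _ _ _)]
  rfl

theorem absNorm_IK_pr (g : PK K →₀ ℕ) : Ideal.absNorm (IK g) = nm (NK K) g := by
  rw [IK, nm, map_finsuppProd]
  refine Finsupp.prod_congr fun p _ => ?_
  rw [map_pow]
  rfl

theorem brg_prime (p : PK K) : Prime p.asIdeal := p.prime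

theorem brg_emult (p q : PK K) (h : p ≠ q) : emultiplicity p.asIdeal q.asIdeal = 0 := by
  rw [emultiplicity_eq_zero]
  intro hd
  apply h
  have h1 : q.asIdeal ≤ p.asIdeal := Ideal.le_of_dvd hd
  have h2 := q.isMaximal.eq_of_le p.isPrime.ne_top h1
  exact IsDedekindDomain.HeightOneSpectrum.ext h2.symm

theorem brg_emult_IK (p : PK K) (g : PK K →₀ ℕ) :
    emultiplicity p.asIdeal (IK g) = g p := by
  classical
  rw [IK, Finsupp.prod, Finset.emultiplicity_prod (brg_prime p)]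
  have h1 : ∀ q ∈ g.support, emultiplicity p.asIdeal (q.asIdeal ^ g q) =
      if q = p then (g p : ℕ∞) else 0 := by
    intro q _
    split_ifs with hq
    · rw [hq, emultiplicity_pow_self p.ne_bot (brg_prime p).not_isUnit]
    · rw [emultiplicity_pow (brg_prime p), brg_emult p q (Ne.symm hq), mul_zero]
  rw [Finset.sum_congr rfl h1, Finset.sum_ite_eq']
  split_ifs with h
  · rfl
  · rw [Finsupp.notMem_support_iff.mp h]; simp

theorem IK_inj_pr : Function.Injective (IK : (PK K →₀ ℕ) → Ideal (𝓞 K)) := by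
  intro g h hgh
  ext p
  have h1 := brg_emult_IK p g
  rw [hgh, brg_emult_IK] at h1
  exact_mod_cast h1.symm

theorem IK_surj_pr {𝔠 : Ideal (𝓞 K)} (h : 𝔠 ≠ ⊥) : ∃ g : PK K →₀ ℕ, IK g = 𝔠 := by
  induction 𝔠 using UniqueFactorizationMonoid.induction_on_prime with
  | h₁ => exact absurd rfl h
  | h₂ x hx =>
    refine ⟨0, ?_⟩
    rw [IK_zero_pr]
    exact (Ideal.isUnit_iff.mp hx).symm
  | h₃ a p ha hp ih =>
    obtain ⟨g, hg⟩ := ih (by rwa [← Ideal.zero_eq_bot])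
    have hp0 : p ≠ ⊥ := hp.ne_zero
    refine ⟨Finsupp.single (⟨p, Ideal.isPrime_of_prime hp, hp0⟩ : PK K) 1 + g, ?_⟩
    rw [IK_add_pr, IK_single_pr, hg, pow_one]

theorem IK_dvd_pr {g h : PK K →₀ ℕ} : IK g ∣ IK h ↔ g ≤ h := by
  constructor
  · intro hd p
    have h1 : p.asIdeal ^ (g p) ∣ IK g := by
      rw [pow_dvd_iff_le_emultiplicity, brg_emult_IK]
    have h2 := h1.trans hd
    rw [pow_dvd_iff_le_emultiplicity, brg_emult_IK] at h2
    exact_mod_cast h2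
  · intro hle
    have : h = g + (h - g) := (add_tsub_cancel_of_le hle).symm
    rw [this, IK_add_pr]
    exact dvd_mul_right _ _

theorem IK_sup_pr (g h : PK K →₀ ℕ) : IK g ⊔ IK h = IK (g ⊓ h) := by
  apply le_antisymm
  · refine sup_le ?_ ?_
    · exact Ideal.le_of_dvd (IK_dvd_pr.mpr inf_le_left)
    · exact Ideal.le_of_dvd (IK_dvd_pr.mpr inf_le_right)
  · have h0 : IK g ⊔ IK h ≠ ⊥ := by
      intro h1
      exact IK_ne_bot_pr g (le_bot_iff.mp (h1 ▸ le_sup_left))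
    obtain ⟨k, hk⟩ := IK_surj_pr h0
    rw [← hk]
    apply Ideal.le_of_dvd
    rw [IK_dvd_pr]
    refine le_inf ?_ ?_
    · rw [← IK_dvd_pr, Ideal.dvd_iff_le, hk]; exact le_sup_left
    · rw [← IK_dvd_pr, Ideal.dvd_iff_le, hk]; exact le_sup_right

theorem mem_QK_pr {𝔮 : Ideal (𝓞 K)} (h𝔮 : 𝔮 ≠ ⊥) (p : PK K) : p ∈ QK 𝔮 ↔ p.asIdeal ∣ 𝔮 := by
  have h : {p : PK K | p.asIdeal ∣ 𝔮}.Finite := Ideal.finite_factors h𝔮
  unfold QK
  rw [dif_pos h, Set.Finite.mem_toFinset]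
  rfl

theorem brg_dvd_IK (p : PK K) (g : PK K →₀ ℕ) : p.asIdeal ∣ IK g ↔ g p ≠ 0 := by
  have h1 : p.asIdeal ∣ IK g ↔ p.asIdeal ^ 1 ∣ IK g := by rw [pow_one]
  rw [h1, pow_dvd_iff_le_emultiplicity, brg_emult_IK]
  rw [Nat.cast_le]
  omega

theorem cop_QK_pr {𝔮 : Ideal (𝓞 K)} (h𝔮 : 𝔮 ≠ ⊥) (g : PK K →₀ ℕ) :
    Cop (QK 𝔮) g ↔ IsCoprime (IK g) 𝔮 := by
  rw [Ideal.isCoprime_iff_sup_eq]
  constructor
  · intro hc
    by_contra hne
    obtain ⟨m, hm, hle⟩ := Ideal.exists_le_maximal _ hne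
    have h1 : IK g ≤ m := le_sup_left.trans hle
    have h2 : 𝔮 ≤ m := le_sup_right.trans hle
    have hm0 : m ≠ ⊥ := by
      intro h
      exact IK_ne_bot_pr g (le_bot_iff.mp (h ▸ h1))
    set p : PK K := ⟨m, hm.isPrime, hm0⟩ with hp
    have h3 : p ∈ QK 𝔮 := (mem_QK_pr h𝔮 p).mpr (Ideal.dvd_iff_le.mpr h2)
    have h4 : p.asIdeal ∣ IK g := Ideal.dvd_iff_le.mpr h1
    exact (brg_dvd_IK p g).mp h4 (hc p h3)
  · intro hs p hp
    by_contra hne
    have h1 : IK g ≤ p.asIdeal := Ideal.le_of_dvd ((brg_dvd_IK p g).mpr hne)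
    have h2 : 𝔮 ≤ p.asIdeal := Ideal.le_of_dvd ((mem_QK_pr h𝔮 p).mp hp)
    exact p.isPrime.ne_top (top_le_iff.mp (hs ▸ sup_le h1 h2))

theorem summable_IK_pr (F : Ideal (𝓞 K) → ℝ) (h0 : F ⊥ = 0) :
    (Summable F ↔ Summable fun g : PK K →₀ ℕ => F (IK g)) ∧
      ∑' 𝔠, F 𝔠 = ∑' g : PK K →₀ ℕ, F (IK g) := by
  have h1 : ∀ x, x ∉ Set.range (IK : (PK K →₀ ℕ) → Ideal (𝓞 K)) → F x = 0 := by
    intro x hx
    by_cases hb : x = ⊥
    · rw [hb, h0]
    · exact absurd (IK_surj_pr hb) hx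
  refine ⟨(Function.Injective.summable_iff IK_inj_pr h1).symm, ?_⟩
  refine (Function.Injective.tsum_eq IK_inj_pr ?_).symm
  intro x hx
  by_contra hc
  exact hx (h1 x hc)

theorem summable_IK'_pr (F : Ideal (𝓞 K) → ℂ) (h0 : F ⊥ = 0) :
    (Summable F ↔ Summable fun g : PK K →₀ ℕ => F (IK g)) ∧
      ∑' 𝔠, F 𝔠 = ∑' g : PK K →₀ ℕ, F (IK g) := by
  have h1 : ∀ x, x ∉ Set.range (IK : (PK K →₀ ℕ) → Ideal (𝓞 K)) → F x = 0 := by
    intro x hx
    by_cases hb : x = ⊥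
    · rw [hb, h0]
    · exact absurd (IK_surj_pr hb) hx
  refine ⟨(Function.Injective.summable_iff IK_inj_pr h1).symm, ?_⟩
  refine (Function.Injective.tsum_eq IK_inj_pr ?_).symm
  intro x hx
  by_contra hc
  exact hx (h1 x hc)

theorem sum_log_QK_pr {𝔮 : Ideal (𝓞 K)} (h𝔮 : 𝔮 ≠ ⊥) :
    ∑ p ∈ QK 𝔮, Real.log (NK K p) ≤ Real.log (Ideal.absNorm 𝔮) := by
  obtain ⟨g, rfl⟩ := IK_surj_pr h𝔮
  have h1 : QK (IK g) = g.support := by
    ext p
    rw [mem_QK_pr h𝔮, brg_dvd_IK, Finsupp.mem_support_iff]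
  rw [h1, absNorm_IK_pr, nm, Finsupp.prod]
  push_cast
  rw [Real.log_prod]
  · refine Finset.sum_le_sum fun p hp => ?_
    rw [Real.log_pow]
    have h2 : (1 : ℝ) ≤ g p := by
      have := Finsupp.mem_support_iff.mp hp
      exact_mod_cast Nat.one_le_iff_ne_zero.mpr this
    have h3 : 0 ≤ Real.log (NK K p) := Real.log_natCast_nonneg _
    nlinarith
  · intro p _
    have := two_le_NK_pr p
    positivity

end Pool.Agent.KS

namespace Pool.Agent.KS

theorem two_le_NK : type_of% @two_le_NK_pr := @two_le_NK_pr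

theorem IK_ne_bot : type_of% @IK_ne_bot_pr := @IK_ne_bot_pr

theorem IK_zero : type_of% @IK_zero_pr := @IK_zero_pr

theorem IK_single : type_of% @IK_single_pr := @IK_single_pr

theorem IK_add : type_of% @IK_add_pr := @IK_add_pr

theorem IK_inj : type_of% @IK_inj_pr := @IK_inj_pr

theorem IK_surj : type_of% @IK_surj_pr := @IK_surj_pr

theorem absNorm_IK : type_of% @absNorm_IK_pr := @absNorm_IK_pr

theorem IK_dvd : type_of% @IK_dvd_pr := @IK_dvd_pr

theorem IK_sup : type_of% @IK_sup_pr := @IK_sup_pr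

theorem mem_QK : type_of% @mem_QK_pr := @mem_QK_pr

theorem cop_QK : type_of% @cop_QK_pr := @cop_QK_pr

theorem summable_IK : type_of% @summable_IK_pr := @summable_IK_pr

theorem summable_IK' : type_of% @summable_IK'_pr := @summable_IK'_pr

theorem sum_log_QK : type_of% @sum_log_QK_pr := @sum_log_QK_pr

end Pool.Agent.KS
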