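import Pool.Agent.Lib_helper92.KSA.Base

/-! Block LATU: uniform lattice sums (helper78). -/

namespace Pool.Agent.KS

open NumberField NumberField.InfinitePlace NumberField.Units Complex MeasureTheory Filter Topology
open Pool.Agent.HZ Pool.Agent.AS

variable {K : Type} [Field K] [NumberField K]

omit [NumberField K] in
theorem latu_equiv {𝔞 𝔟 : Ideal (𝓞 K)} {α β : 𝓞 K} (hα : α ≠ 0) (hβ : β ≠ 0)
    (h : Ideal.span {α} * 𝔞 = Ideal.span {β} * 𝔟) :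
    ∃ e : 𝔟 ≃ 𝔞, ∀ a : 𝔟, α * (e a : 𝓞 K) = β * (a : 𝓞 K) := by
  have h1 : ∀ a : 𝔟, ∃ a' : 𝔞, α * (a' : 𝓞 K) = β * (a : 𝓞 K) := by
    intro a
    have ha : β * (a : 𝓞 K) ∈ Ideal.span {α} * 𝔞 := by
      rw [h]
      exact Ideal.mul_mem_mul (Ideal.mem_span_singleton_self β) a.2
    rw [Ideal.mem_span_singleton_mul] at ha
    obtain ⟨z, hz, hz'⟩ := ha
    exact ⟨⟨z, hz⟩, hz'⟩
  have h2 : ∀ a : 𝔞, ∃ a' : 𝔟, β * (a' : 𝓞 K) = α * (a : 𝓞 K) := by
    intro a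
    have ha : α * (a : 𝓞 K) ∈ Ideal.span {β} * 𝔟 := by
      rw [← h]
      exact Ideal.mul_mem_mul (Ideal.mem_span_singleton_self α) a.2
    rw [Ideal.mem_span_singleton_mul] at ha
    obtain ⟨z, hz, hz'⟩ := ha
    exact ⟨⟨z, hz⟩, hz'⟩
  choose f hf using h1
  choose g hg using h2
  refine ⟨⟨f, g, fun a => ?_, fun a => ?_⟩, hf⟩
  · apply Subtype.ext
    apply mul_left_cancel₀ hβ
    rw [hg, hf]
  · apply Subtype.ext
    apply mul_left_cancel₀ hα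
    rw [hf, hg]

theorem latu_norm {α : 𝓞 K} :
    ∏ w : InfinitePlace K, w (α : K) ^ w.mult = ((Ideal.absNorm (Ideal.span {α}) : ℕ) : ℝ) := by
  rw [InfinitePlace.prod_eq_abs_norm, Ideal.absNorm_span_singleton, ← Algebra.coe_norm_int]
  simp [Nat.cast_natAbs]

theorem latu_one (𝔟 : Ideal (𝓞 K)) (h𝔟 : 𝔟 ≠ ⊥) {c : ℝ} (hc : 0 < c) : ∃ C : ℝ, 0 ≤ C ∧
    ∀ 𝔞 : Ideal (𝓞 K), 𝔞 ≠ ⊥ → (∃ α β : 𝓞 K, α ≠ 0 ∧ β ≠ 0 ∧
      Ideal.span {α} * 𝔞 = Ideal.span {β} * 𝔟) →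
    ∀ (u : ℝ) (x : Fin (rank K) → ℝ),
      Summable (fun α : 𝔞 => Real.exp (-c * qn (fun w => Yv K u x w * w ((α : 𝓞 K) : K)))) ∧
      ∑' α : 𝔞, Real.exp (-c * qn (fun w => Yv K u x w * w ((α : 𝓞 K) : K))) ≤
        C * (1 + Real.exp (-u) / Ideal.absNorm 𝔞) := by
  obtain ⟨C, hC0, hC⟩ := lattice_sum h𝔟 hc
  have hNb : (0 : ℝ) < Ideal.absNorm 𝔟 := by
    have : Ideal.absNorm 𝔟 ≠ 0 := by
      rw [Ne, Ideal.absNorm_eq_zero_iff]
      exact h𝔟
    positivity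
  have hNb1 : (1 : ℝ) ≤ Ideal.absNorm 𝔟 := by
    have : 0 < Ideal.absNorm 𝔟 := by exact_mod_cast hNb
    exact_mod_cast this
  refine ⟨C * Ideal.absNorm 𝔟, by positivity, ?_⟩
  rintro 𝔞 h𝔞 ⟨α, β, hα, hβ, hab⟩ u x
  have hNa : (0 : ℝ) < Ideal.absNorm 𝔞 := by
    have : Ideal.absNorm 𝔞 ≠ 0 := by
      rw [Ne, Ideal.absNorm_eq_zero_iff]
      exact h𝔞
    positivity
  have hα' : (α : K) ≠ 0 := by simpa using hα
  have hβ' : (β : K) ≠ 0 := by simpa using hβ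
  -- the norm of `γ = β / α`
  have hγpos : ∀ w : InfinitePlace K, 0 < w ((β : K) / α) := fun w => by
    have : (β : K) / α ≠ 0 := div_ne_zero hβ' hα'
    exact w.pos_iff.2 this
  obtain ⟨ξ, hξ⟩ := exists_Yv (fun w : InfinitePlace K => w ((β : K) / α)) hγpos
  have hprod : ∏ w : InfinitePlace K, w ((β : K) / α) ^ w.mult =
      Ideal.absNorm 𝔞 / Ideal.absNorm 𝔟 := by
    have h1 : ∏ w : InfinitePlace K, w ((β : K) / α) ^ w.mult =
        (∏ w : InfinitePlace K, w (β : K) ^ w.mult) / ∏ w : InfinitePlace K, w (α : K) ^ w.mult := by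
      rw [← Finset.prod_div_distrib]
      refine Finset.prod_congr rfl fun w _ => ?_
      rw [map_div₀, div_pow]
    rw [h1, latu_norm, latu_norm]
    have h2 : (Ideal.absNorm (Ideal.span {α}) : ℝ) * Ideal.absNorm 𝔞 =
        Ideal.absNorm (Ideal.span {β}) * Ideal.absNorm 𝔟 := by
      have := congrArg Ideal.absNorm hab
      rw [map_mul, map_mul] at this
      exact_mod_cast this
    have h3 : (Ideal.absNorm (Ideal.span {α}) : ℝ) ≠ 0 := by
      have : Ideal.absNorm (Ideal.span {α}) ≠ 0 := by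
        rw [Ne, Ideal.absNorm_eq_zero_iff]
        simpa using hα
      exact_mod_cast this
    rw [div_eq_div_iff h3 hNb.ne']
    linarith
  set v : ℝ := Real.log (∏ w : InfinitePlace K, w ((β : K) / α) ^ w.mult) with hv
  -- reduce the unit coordinates to the cube
  set m : Fin (rank K) → ℤ := fun i => -⌊x i + ξ i⌋ with hm
  set z : Fin (rank K) → ℝ := fun i => x i + ξ i + m i with hz
  have hz1 : z ∈ Set.Icc (-1 : Fin (rank K) → ℝ) 1 := by
    refine ⟨fun i => ?_, fun i => ?_⟩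
    · have := Int.floor_le (x i + ξ i)
      simp only [hz, hm, Pi.neg_apply, Pi.one_apply]
      push_cast
      linarith
    · have := Int.lt_floor_add_one (x i + ξ i)
      simp only [hz, hm, Pi.one_apply]
      push_cast
      linarith
  set ε : (𝓞 K)ˣ := ∏ i, fundSystem K i ^ m i with hε
  have hab' : Ideal.span {α} * 𝔞 = Ideal.span {β * (ε : 𝓞 K)} * 𝔟 := by
    rw [hab]
    congr 1
    rw [Ideal.span_singleton_eq_span_singleton]
    exact ⟨ε, rfl⟩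
  have hβε : β * (ε : 𝓞 K) ≠ 0 := mul_ne_zero hβ ε.ne_zero
  obtain ⟨e, he⟩ := latu_equiv hα hβε hab'
  have hY : ∀ (a : 𝔟) (w : InfinitePlace K), Yv K u x w * w ((e a : 𝓞 K) : K) =
      Yv K (u + v) z w * w ((a : 𝓞 K) : K) := by
    intro a w
    have h1 : ((e a : 𝓞 K) : K) = (β : K) / α * ((ε : 𝓞 K) : K) * ((a : 𝓞 K) : K) := by
      have h2 : ((α * (e a : 𝓞 K) : 𝓞 K) : K) = ((β * (ε : 𝓞 K) * (a : 𝓞 K) : 𝓞 K) : K) := by
        rw [he a]
      push_cast at h2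
      field_simp
      linear_combination h2
    have h3 : Yv K (u + v) z w = Yv K u x w * w ((β : K) / α) * w ((ε : 𝓞 K) : K) := by
      have h4 : z = (x + ξ) + fun i => (m i : ℝ) := by
        funext i
        simp [hz]
      have h5 : u + v = (u + v) + 0 := by ring
      rw [h4, h5, Yv_add, Yv_add, Yv_unit m w, ← hξ w]
    rw [h1, h3, map_mul, map_mul]
    ring
  have hS := hC (u + v) z hz1
  have hcongr : ∀ a : 𝔟, Real.exp (-c * qn (fun w => Yv K u x w * w ((e a : 𝓞 K) : K))) =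
      Real.exp (-c * qn (fun w => Yv K (u + v) z w * w ((a : 𝓞 K) : K))) := by
    intro a
    simp_rw [hY a]
  constructor
  · rw [← e.summable_iff]
    refine hS.1.congr fun a => ?_
    exact (hcongr a).symm
  · rw [← e.tsum_eq]
    simp_rw [hcongr]
    refine hS.2.trans ?_
    have hev : Real.exp (-(u + v)) = Real.exp (-u) * (Ideal.absNorm 𝔟 / Ideal.absNorm 𝔞) := by
      rw [neg_add, Real.exp_add, Real.exp_neg v, hv, hprod, Real.exp_log (by positivity), inv_div]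
    rw [hev, mul_assoc]
    refine mul_le_mul_of_nonneg_left ?_ hC0
    have : (0 : ℝ) < Real.exp (-u) := Real.exp_pos _
    calc 1 + Real.exp (-u) * (Ideal.absNorm 𝔟 / Ideal.absNorm 𝔞) ≤
        Ideal.absNorm 𝔟 + Real.exp (-u) * (Ideal.absNorm 𝔟 / Ideal.absNorm 𝔞) := by linarith
      _ = _ := by ring

theorem lattice_unif_pr {c : ℝ} (hc : 0 < c) : ∃ C : ℝ, 0 ≤ C ∧ ∀ 𝔞 : Ideal (𝓞 K), 𝔞 ≠ ⊥ →
    ∀ (u : ℝ) (x : Fin (rank K) → ℝ),
      Summable (fun α : 𝔞 => Real.exp (-c * qn (fun w => Yv K u x w * w ((α : 𝓞 K) : K)))) ∧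
      ∑' α : 𝔞, Real.exp (-c * qn (fun w => Yv K u x w * w ((α : 𝓞 K) : K))) ≤
        C * (1 + Real.exp (-u) / Ideal.absNorm 𝔞) := by
  classical
  choose rep hrep using (ClassGroup.mk0_surjective (R := 𝓞 K))
  have hne : ∀ j, ((rep j : Ideal (𝓞 K))) ≠ ⊥ := fun j => by
    simpa using nonZeroDivisors.coe_ne_zero (rep j)
  choose C hC0 hC using fun j : ClassGroup (𝓞 K) => latu_one (rep j : Ideal (𝓞 K)) (hne j) hc
  refine ⟨∑ j, C j, Finset.sum_nonneg fun j _ => hC0 j, fun 𝔞 h𝔞 u x => ?_⟩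
  set a0 : nonZeroDivisors (Ideal (𝓞 K)) := ⟨𝔞, mem_nonZeroDivisors_of_ne_zero h𝔞⟩ with ha0
  set j := ClassGroup.mk0 a0 with hj
  have h1 : ClassGroup.mk0 a0 = ClassGroup.mk0 (rep j) := by rw [hrep]
  rw [ClassGroup.mk0_eq_mk0_iff] at h1
  obtain ⟨α, β, hα, hβ, hab⟩ := h1
  obtain ⟨h2, h3⟩ := hC j 𝔞 h𝔞 ⟨α, β, hα, hβ, hab⟩ u x
  refine ⟨h2, h3.trans ?_⟩
  refine mul_le_mul_of_nonneg_right ?_ (by positivity)
  exact Finset.single_le_sum (f := C) (fun i _ => hC0 i) (Finset.mem_univ j)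

end Pool.Agent.KS

namespace Pool.Agent.KS

theorem lattice_unif : type_of% @lattice_unif_pr := @lattice_unif_pr

end Pool.Agent.KS
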