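import Pool.Agent.Lib_helper92.KSA.Base
import Pool.Agent.Lib_helper92.KSA.LATU

/-!
# Block LNZ : sums over the nonzero lattice points
-/

namespace Pool.Agent.KS

open NumberField NumberField.InfinitePlace NumberField.Units Complex MeasureTheory Filter Topology
open Pool.Agent.HZ Pool.Agent.AS

variable {K : Type} [Field K] [NumberField K]

theorem lnz_real {c : ℝ} (hc : 0 < c) {n : ℕ} (hn : 0 < n) {X : ℝ} (hX : 0 < X) :
    Real.exp (-(c / 2) * X ^ (2 / (n : ℝ))) * (1 + 1 / X) ≤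
      (2 + (n.factorial : ℝ) * (2 / c) ^ n) * (1 / X) := by
  have hn' : (n : ℝ) ≠ 0 := by positivity
  set t : ℝ := X ^ (2 / (n : ℝ)) with ht
  have ht0 : 0 < t := Real.rpow_pos_of_pos hX _
  have hXt : X ^ 2 = t ^ n := by
    rw [ht, ← Real.rpow_natCast (X ^ (2 / (n : ℝ))) n, ← Real.rpow_mul hX.le]
    rw [div_mul_cancel₀ _ hn']
    norm_cast
  have h1 : (c / 2 * t) ^ n / (n.factorial : ℝ) ≤ Real.exp (c / 2 * t) :=
    Real.pow_div_factorial_le_exp _ (by positivity) n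
  have hf : (0 : ℝ) < (n.factorial : ℝ) := by positivity
  have h2 : t ^ n ≤ (n.factorial : ℝ) * (2 / c) ^ n * Real.exp (c / 2 * t) := by
    have h3 : t ^ n = (2 / c) ^ n * (c / 2 * t) ^ n := by
      rw [← mul_pow]
      congr 1
      field_simp
    rw [h3]
    rw [div_le_iff₀ hf] at h1
    calc (2 / c) ^ n * (c / 2 * t) ^ n ≤ (2 / c) ^ n * (Real.exp (c / 2 * t) * n.factorial) := by
          gcongr
      _ = _ := by ring
  have h4 : Real.exp (-(c / 2) * t) * (X + 1) ≤ 2 + (n.factorial : ℝ) * (2 / c) ^ n := by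
    have h5 : X + 1 ≤ 2 + t ^ n := by
      rw [← hXt]
      nlinarith [sq_nonneg (X - 1)]
    have h6 : Real.exp (-(c / 2) * t) ≤ 1 := by
      apply Real.exp_le_one_iff.mpr
      have : 0 < c / 2 * t := by positivity
      linarith
    calc Real.exp (-(c / 2) * t) * (X + 1) ≤ Real.exp (-(c / 2) * t) * (2 + t ^ n) := by gcongr
      _ = Real.exp (-(c / 2) * t) * 2 + Real.exp (-(c / 2) * t) * t ^ n := by ring
      _ ≤ 1 * 2 + Real.exp (-(c / 2) * t) *
          ((n.factorial : ℝ) * (2 / c) ^ n * Real.exp (c / 2 * t)) := by gcongr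
      _ = 2 + (n.factorial : ℝ) * (2 / c) ^ n *
          (Real.exp (-(c / 2) * t) * Real.exp (c / 2 * t)) := by ring
      _ = 2 + (n.factorial : ℝ) * (2 / c) ^ n := by
          rw [← Real.exp_add, show -(c / 2) * t + c / 2 * t = 0 by ring, Real.exp_zero, mul_one]
  calc Real.exp (-(c / 2) * t) * (1 + 1 / X) =
        (Real.exp (-(c / 2) * t) * (X + 1)) * (1 / X) := by field_simp; try ring
    _ ≤ (2 + (n.factorial : ℝ) * (2 / c) ^ n) * (1 / X) := by gcongr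

open scoped Classical in
theorem lattice_nz_pr {c : ℝ} (hc : 0 < c) : ∃ C : ℝ, 0 ≤ C ∧ ∀ 𝔞 : Ideal (𝓞 K), 𝔞 ≠ ⊥ →
    ∀ (u : ℝ) (x : Fin (rank K) → ℝ),
      ∑' α : 𝔞, (if α = 0 then 0 else
        Real.exp (-c * qn (fun w => Yv K u x w * w ((α : 𝓞 K) : K)))) ≤
        C * (Real.exp (-u) / Ideal.absNorm 𝔞) := by
  obtain ⟨C1, hC10, hC1⟩ := lattice_unif (K := K) (show 0 < c / 2 by positivity)
  set n : ℕ := Module.finrank ℚ K with hn
  have hn0 : 0 < n := Module.finrank_pos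
  refine ⟨C1 * (2 + (n.factorial : ℝ) * (2 / c) ^ n), by positivity, fun 𝔞 h𝔞 u x => ?_⟩
  obtain ⟨hS, hB⟩ := hC1 𝔞 h𝔞 u x
  have hNa : (0 : ℝ) < Ideal.absNorm 𝔞 := by
    have : Ideal.absNorm 𝔞 ≠ 0 := by
      rw [Ne, Ideal.absNorm_eq_zero_iff]
      exact h𝔞
    positivity
  set X : ℝ := Real.exp u * Ideal.absNorm 𝔞 with hX
  have hX0 : 0 < X := by positivity
  have hXinv : Real.exp (-u) / Ideal.absNorm 𝔞 = 1 / X := by
    rw [hX, Real.exp_neg]
    field_simp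
  have hpt : ∀ α : 𝔞, (if α = 0 then 0 else
        Real.exp (-c * qn (fun w => Yv K u x w * w ((α : 𝓞 K) : K)))) ≤
      Real.exp (-(c / 2) * X ^ (2 / (n : ℝ))) *
        Real.exp (-(c / 2) * qn (fun w => Yv K u x w * w ((α : 𝓞 K) : K))) := by
    intro α
    split_ifs with h
    · positivity
    · have hα : (α : 𝓞 K) ≠ 0 := fun h' => h (Subtype.ext h')
      have hmem : (α : 𝓞 K) ∈ 𝔞 * (⊤ : Ideal (𝓞 K)) := by
        rw [Ideal.mul_top]
        exact α.2
      have h1 := am_gm h𝔞 (show (⊤ : Ideal (𝓞 K)) ≠ ⊥ from top_ne_bot) hmem hα u x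
      rw [← Real.exp_add]
      apply Real.exp_le_exp.mpr
      have h2 : c / 2 * X ^ (2 / (n : ℝ)) ≤
          c / 2 * qn (fun w => Yv K u x w * w ((α : 𝓞 K) : K)) := by
        gcongr
      linarith
  have hnn : ∀ α : 𝔞, 0 ≤ (if α = 0 then 0 else
        Real.exp (-c * qn (fun w => Yv K u x w * w ((α : 𝓞 K) : K)))) := by
    intro α
    split_ifs
    · exact le_rfl
    · exact (Real.exp_pos _).le
  have hS2 := hS.mul_left (Real.exp (-(c / 2) * X ^ (2 / (n : ℝ))))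
  calc ∑' α : 𝔞, (if α = 0 then 0 else
        Real.exp (-c * qn (fun w => Yv K u x w * w ((α : 𝓞 K) : K))))
      ≤ ∑' α : 𝔞, Real.exp (-(c / 2) * X ^ (2 / (n : ℝ))) *
        Real.exp (-(c / 2) * qn (fun w => Yv K u x w * w ((α : 𝓞 K) : K))) :=
        (Summable.of_nonneg_of_le hnn hpt hS2).tsum_le_tsum hpt hS2
    _ = Real.exp (-(c / 2) * X ^ (2 / (n : ℝ))) *
        ∑' α : 𝔞, Real.exp (-(c / 2) * qn (fun w => Yv K u x w * w ((α : 𝓞 K) : K))) :=
        tsum_mul_left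
    _ ≤ Real.exp (-(c / 2) * X ^ (2 / (n : ℝ))) *
        (C1 * (1 + Real.exp (-u) / Ideal.absNorm 𝔞)) := by gcongr
    _ = C1 * (Real.exp (-(c / 2) * X ^ (2 / (n : ℝ))) * (1 + 1 / X)) := by rw [hXinv]; ring
    _ ≤ C1 * ((2 + (n.factorial : ℝ) * (2 / c) ^ n) * (1 / X)) :=
        mul_le_mul_of_nonneg_left (lnz_real hc hn0 hX0) hC10
    _ = C1 * (2 + (n.factorial : ℝ) * (2 / c) ^ n) * (Real.exp (-u) / Ideal.absNorm 𝔞) := by
        rw [hXinv]; ring

end Pool.Agent.KS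

namespace Pool.Agent.KS

theorem lattice_nz : type_of% @lattice_nz_pr := @lattice_nz_pr

end Pool.Agent.KS
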