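import Pool.Agent.Lib_helper92.KSA.Base
import Mathlib

set_option autoImplicit false

namespace Pool.Agent.KS

open Complex MeasureTheory Filter Topology

section abs

variable {k : ℝ → ℝ}

theorem zk_exp_abs {a : ℝ} (ha : 0 < a) : Integrable (fun u : ℝ => Real.exp (-(a * |u|))) := by
  have h1 : IntegrableOn (fun u : ℝ => Real.exp (-(a * |u|))) (Set.Iic 0) := by
    refine (integrableOn_exp_mul_Iic ha 0).congr_fun (fun u hu => ?_) measurableSet_Iic
    have hu' : u ≤ 0 := hu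
    simp only
    rw [abs_of_nonpos hu']
    congr 1
    ring
  have h2 : IntegrableOn (fun u : ℝ => Real.exp (-(a * |u|))) (Set.Ioi 0) := by
    have h3 : -a < 0 := by linarith
    refine (integrableOn_exp_mul_Ioi h3 0).congr_fun (fun u hu => ?_) measurableSet_Ioi
    have hu' : 0 < u := hu
    simp only
    rw [abs_of_pos hu']
    congr 1
    ring
  rw [← integrableOn_univ, ← Set.Iic_union_Ioi (a := (0 : ℝ))]
  exact h1.union h2

theorem zk_bound (hk0 : ∀ w, 0 ≤ k w)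
    (hkd : ∀ A : ℝ, 0 < A → ∃ C : ℝ, ∀ w, k w ≤ C * Real.exp (-(A * w))) {σ : ℝ} (hσ : 0 < σ) :
    ∃ C : ℝ, ∀ u, k u * Real.exp (σ * u) ≤ C * Real.exp (-(σ / 2 * |u|)) := by
  obtain ⟨C₁, h1⟩ := hkd (σ / 2) (by positivity)
  obtain ⟨C₂, h2⟩ := hkd (2 * σ) (by positivity)
  have hC₁ : 0 ≤ C₁ := by
    have := (hk0 0).trans (h1 0)
    simpa using this
  have hC₂ : 0 ≤ C₂ := by
    have := (hk0 0).trans (h2 0)
    simpa using this
  refine ⟨C₁ + C₂, fun u => ?_⟩
  rcases le_total u 0 with hu | hu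
  · rw [abs_of_nonpos hu]
    calc k u * Real.exp (σ * u) ≤ C₁ * Real.exp (-(σ / 2 * u)) * Real.exp (σ * u) :=
          mul_le_mul_of_nonneg_right (h1 u) (Real.exp_pos _).le
      _ = C₁ * Real.exp (-(σ / 2 * -u)) := by
          rw [mul_assoc, ← Real.exp_add]
          congr 2
          ring
      _ ≤ _ := by
          refine mul_le_mul_of_nonneg_right ?_ (Real.exp_pos _).le
          linarith
  · rw [abs_of_nonneg hu]
    calc k u * Real.exp (σ * u) ≤ C₂ * Real.exp (-(2 * σ * u)) * Real.exp (σ * u) :=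
          mul_le_mul_of_nonneg_right (h2 u) (Real.exp_pos _).le
      _ = C₂ * Real.exp (-(σ * u)) := by
          rw [mul_assoc, ← Real.exp_add]
          congr 2
          ring
      _ ≤ C₂ * Real.exp (-(σ / 2 * u)) := by
          refine mul_le_mul_of_nonneg_left (Real.exp_le_exp.mpr ?_) hC₂
          nlinarith
      _ ≤ _ := by
          refine mul_le_mul_of_nonneg_right ?_ (Real.exp_pos _).le
          linarith

theorem zk_int (hk : Continuous k) (hk0 : ∀ w, 0 ≤ k w)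
    (hkd : ∀ A : ℝ, 0 < A → ∃ C : ℝ, ∀ w, k w ≤ C * Real.exp (-(A * w))) {σ : ℝ} (hσ : 0 < σ) :
    Integrable (fun u : ℝ => k u * Real.exp (σ * u)) := by
  obtain ⟨C, hC⟩ := zk_bound hk0 hkd hσ
  refine Integrable.mono' ((zk_exp_abs (a := σ / 2) (by positivity)).const_mul C)
    (by fun_prop) (Eventually.of_forall fun u => ?_)
  rw [Real.norm_of_nonneg (mul_nonneg (hk0 u) (Real.exp_pos _).le)]
  exact hC u

theorem zk_norm (hk0 : ∀ w, 0 ≤ k w) (s : ℂ) (u v : ℝ) :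
    ‖((k v : ℝ) : ℂ) * cexp (s * u)‖ = k v * Real.exp (s.re * u) := by
  rw [norm_mul, Complex.norm_real, Real.norm_of_nonneg (hk0 v), Complex.norm_exp]
  congr 2
  simp

theorem zk_intc (hk : Continuous k) (hk0 : ∀ w, 0 ≤ k w)
    (hkd : ∀ A : ℝ, 0 < A → ∃ C : ℝ, ∀ w, k w ≤ C * Real.exp (-(A * w))) {s : ℂ} (hs : 0 < s.re) :
    Integrable (fun u : ℝ => ((k u : ℝ) : ℂ) * cexp (s * u)) := by
  refine (zk_int hk hk0 hkd hs).mono' (by fun_prop) (Eventually.of_forall fun u => ?_)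
  rw [zk_norm hk0]

theorem zk_shift (hk : Continuous k) (hk0 : ∀ w, 0 ≤ k w)
    (hkd : ∀ A : ℝ, 0 < A → ∃ C : ℝ, ∀ w, k w ≤ C * Real.exp (-(A * w))) {s : ℂ} (hs : 0 < s.re)
    {N : ℝ} (hN : 0 < N) :
    Integrable (fun u : ℝ => ((k (u + Real.log N) : ℝ) : ℂ) * cexp (s * u)) ∧
      ∫ u : ℝ, ((k (u + Real.log N) : ℝ) : ℂ) * cexp (s * u) =
        (N : ℂ) ^ (-s) * ∫ u : ℝ, ((k u : ℝ) : ℂ) * cexp (s * u) := by
  have hf := zk_intc hk hk0 hkd hs
  have hNs : (N : ℂ) ^ (-s) = cexp (-(s * (Real.log N : ℝ))) := by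
    rw [Complex.cpow_def_of_ne_zero (by exact_mod_cast hN.ne'), ← Complex.ofReal_log hN.le]
    congr 1
    ring
  have heq : (fun u : ℝ => ((k (u + Real.log N) : ℝ) : ℂ) * cexp (s * u)) =
      fun u : ℝ => ((N : ℂ) ^ (-s)) *
        (fun v : ℝ => ((k v : ℝ) : ℂ) * cexp (s * v)) (u + Real.log N) := by
    funext u
    rw [hNs]
    have : cexp (s * u) = cexp (-(s * (Real.log N : ℝ))) * cexp (s * ((u + Real.log N : ℝ) : ℂ)) := by
      rw [← Complex.exp_add]
      congr 1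
      push_cast
      ring
    rw [this]
    ring
  rw [heq]
  refine ⟨(hf.comp_add_right (Real.log N)).const_mul _, ?_⟩
  rw [integral_const_mul, integral_add_right_eq_self (fun v : ℝ => ((k v : ℝ) : ℂ) * cexp (s * v))]

theorem zk_shift_norm (hk0 : ∀ w, 0 ≤ k w) (s : ℂ) {N : ℝ} (hN : 0 < N) :
    ∫ u : ℝ, ‖((k (u + Real.log N) : ℝ) : ℂ) * cexp (s * u)‖ =
        N ^ (-s.re) * ∫ u : ℝ, k u * Real.exp (s.re * u) := by
  have heq : (fun u : ℝ => ‖((k (u + Real.log N) : ℝ) : ℂ) * cexp (s * u)‖) =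
      fun u : ℝ => N ^ (-s.re) * (fun v : ℝ => k v * Real.exp (s.re * v)) (u + Real.log N) := by
    funext u
    rw [zk_norm hk0, Real.rpow_def_of_pos hN]
    have : Real.exp (s.re * u) = Real.exp (Real.log N * -s.re) *
        Real.exp (s.re * (u + Real.log N)) := by
      rw [← Real.exp_add]
      congr 1
      ring
    rw [this]
    ring
  rw [heq, integral_const_mul,
    integral_add_right_eq_self (fun v : ℝ => k v * Real.exp (s.re * v))]

end abs

section sum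

variable {ι : Type} {ν : ι → ℝ} {k : ℝ → ℝ}

theorem zk_term_le (hν : ∀ i, 1 ≤ ν i) {A C : ℝ} (hC : ∀ w, k w ≤ C * Real.exp (-(A * w)))
    (u : ℝ) (i : ι) : k (u + Real.log (ν i)) ≤ C * Real.exp (-(A * u)) * ν i ^ (-A) := by
  have hN : 0 < ν i := one_pos.trans_le (hν i)
  refine (hC _).trans (le_of_eq ?_)
  rw [Real.rpow_def_of_pos hN, mul_assoc, ← Real.exp_add]
  congr 2
  ring

theorem zk_summable_k (hν : ∀ i, 1 ≤ ν i) (hs : ∀ σ : ℝ, 1 < σ → Summable fun i => ν i ^ (-σ))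
    (hk0 : ∀ w, 0 ≤ k w)
    (hkd : ∀ A : ℝ, 0 < A → ∃ C : ℝ, ∀ w, k w ≤ C * Real.exp (-(A * w))) (u : ℝ) :
    Summable fun i => k (u + Real.log (ν i)) := by
  obtain ⟨C, hC⟩ := hkd 2 two_pos
  exact Summable.of_nonneg_of_le (fun i => hk0 _) (zk_term_le hν hC u)
    ((hs 2 one_lt_two).mul_left _)

theorem zk_W_le (hν : ∀ i, 1 ≤ ν i) (hs : ∀ σ : ℝ, 1 < σ → Summable fun i => ν i ^ (-σ))
    (hk0 : ∀ w, 0 ≤ k w)
    (hkd : ∀ A : ℝ, 0 < A → ∃ C : ℝ, ∀ w, k w ≤ C * Real.exp (-(A * w))) {A : ℝ} (hA : 1 < A) :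
    ∃ C : ℝ, 0 ≤ C ∧ ∀ u, ∑' i, k (u + Real.log (ν i)) ≤ C * Real.exp (-(A * u)) := by
  obtain ⟨C, hC⟩ := hkd A (zero_lt_one.trans hA)
  have hC0 : 0 ≤ C := by
    have := (hk0 0).trans (hC 0)
    simpa using this
  refine ⟨C * ∑' i, ν i ^ (-A), mul_nonneg hC0 (tsum_nonneg fun i =>
    Real.rpow_nonneg (zero_le_one.trans (hν i)) _), fun u => ?_⟩
  calc ∑' i, k (u + Real.log (ν i)) ≤ ∑' i, C * Real.exp (-(A * u)) * ν i ^ (-A) :=
        (zk_summable_k hν hs hk0 hkd u).tsum_le_tsum (zk_term_le hν hC u) ((hs A hA).mul_left _)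
    _ = _ := by
        rw [tsum_mul_left]
        ring

theorem zk_W_cont (hν : ∀ i, 1 ≤ ν i) (hs : ∀ σ : ℝ, 1 < σ → Summable fun i => ν i ^ (-σ))
    (hk : Continuous k) (hk0 : ∀ w, 0 ≤ k w)
    (hkd : ∀ A : ℝ, 0 < A → ∃ C : ℝ, ∀ w, k w ≤ C * Real.exp (-(A * w))) :
    Continuous fun u => ∑' i, k (u + Real.log (ν i)) := by
  obtain ⟨C, hC⟩ := hkd 2 two_pos
  have hC0 : 0 ≤ C := by
    have := (hk0 0).trans (hC 0)
    simpa using this
  rw [continuous_iff_continuousAt]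
  intro u₀
  have hon : ContinuousOn (fun u : ℝ => ∑' i, k (u + Real.log (ν i))) (Set.Ioi (u₀ - 1)) := by
    refine continuousOn_tsum (u := fun i => C * Real.exp (-(2 * (u₀ - 1))) * ν i ^ (-2 : ℝ)) ?_
      ((hs 2 one_lt_two).mul_left _) ?_
    · intro i
      exact (hk.comp (continuous_id.add continuous_const)).continuousOn
    · intro i u hu
      rw [Real.norm_of_nonneg (hk0 _)]
      refine (zk_term_le hν hC u i).trans ?_
      refine mul_le_mul_of_nonneg_right ?_ (Real.rpow_nonneg (zero_le_one.trans (hν i)) _)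
      refine mul_le_mul_of_nonneg_left ?_ hC0
      apply Real.exp_le_exp.mpr
      have hu' : u₀ - 1 < u := hu
      linarith
  exact hon.continuousAt (Ioi_mem_nhds (by linarith))

theorem zk_fubini [Countable ι] (hν : ∀ i, 1 ≤ ν i)
    (hs : ∀ σ : ℝ, 1 < σ → Summable fun i => ν i ^ (-σ))
    (hk : Continuous k) (hk0 : ∀ w, 0 ≤ k w)
    (hkd : ∀ A : ℝ, 0 < A → ∃ C : ℝ, ∀ w, k w ≤ C * Real.exp (-(A * w))) {s : ℂ}
    (h1 : 1 < s.re) :
    ∫ u : ℝ, ((∑' i, k (u + Real.log (ν i)) : ℝ) : ℂ) * cexp (s * u) =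
      (∑' i, (ν i : ℂ) ^ (-s)) * ∫ u : ℝ, ((k u : ℝ) : ℂ) * cexp (s * u) := by
  have hs0 : 0 < s.re := zero_lt_one.trans h1
  have hN : ∀ i, 0 < ν i := fun i => one_pos.trans_le (hν i)
  have hint := fun i => (zk_shift hk hk0 hkd hs0 (hN i)).1
  have hsum : Summable fun i => ∫ u : ℝ, ‖((k (u + Real.log (ν i)) : ℝ) : ℂ) * cexp (s * u)‖ := by
    simp_rw [fun i => zk_shift_norm hk0 s (hN i)]
    exact (hs _ h1).mul_right _
  have key := integral_tsum_of_summable_integral_norm hint hsum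
  have h2 : (fun u : ℝ => ((∑' i, k (u + Real.log (ν i)) : ℝ) : ℂ) * cexp (s * u)) =
      fun u => ∑' i, ((k (u + Real.log (ν i)) : ℝ) : ℂ) * cexp (s * u) := by
    funext u
    rw [tsum_mul_right, Complex.ofReal_tsum]
  rw [h2, ← key, ← tsum_mul_right]
  exact tsum_congr fun i => (zk_shift hk hk0 hkd hs0 (hN i)).2

/-- the main estimate -/
theorem zk_main [Countable ι] (hν : ∀ i, 1 ≤ ν i)
    (hs : ∀ σ : ℝ, 1 < σ → Summable fun i => ν i ^ (-σ))
    (hk : Continuous k) (hk0 : ∀ w, 0 ≤ k w)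
    (hkd : ∀ A : ℝ, 0 < A → ∃ C : ℝ, ∀ w, k w ≤ C * Real.exp (-(A * w))) {ρ Cp : ℝ}
    (hP : ∀ u, |∑' i, k (u + Real.log (ν i)) - ρ * Real.exp (-u)| ≤ Cp) :
    ∃ C₁ : ℝ, 0 < C₁ ∧ ∀ s : ℂ, 1 < s.re → s.re ≤ 4 →
      ‖(∑' i, (ν i : ℂ) ^ (-s)) * (∫ u : ℝ, ((k u : ℝ) : ℂ) * cexp (s * u)) - ρ / (s - 1)‖ ≤
        C₁ := by
  obtain ⟨C₅, hC₅, h5⟩ := zk_W_le hν hs hk0 hkd (A := 5) (by norm_num)
  have hCp : 0 ≤ Cp := (abs_nonneg _).trans (hP 0)
  refine ⟨Cp + C₅ + 1, by positivity, fun s h1 h4 => ?_⟩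
  rw [← zk_fubini hν hs hk hk0 hkd h1]
  set W : ℝ → ℝ := fun u => ∑' i, k (u + Real.log (ν i)) with hW
  have hWc : Continuous W := zk_W_cont hν hs hk hk0 hkd
  have hW0 : ∀ u, 0 ≤ W u := fun u => tsum_nonneg fun i => hk0 _
  have hs1 : s - 1 ≠ 0 := by
    intro h
    have h2 := congrArg Complex.re h
    simp at h2
    linarith
  -- the negative half line
  have hA : IntegrableOn (fun u : ℝ => (((W u - ρ * Real.exp (-u)) : ℝ) : ℂ) * cexp (s * u))
      (Set.Iic 0) := by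
    refine Integrable.mono' ((integrableOn_exp_mul_Iic (a := s.re) (by linarith) 0).const_mul Cp)
      (by fun_prop) (Eventually.of_forall fun u => ?_)
    rw [norm_mul, Complex.norm_real, Real.norm_eq_abs, Complex.norm_exp]
    have h2 : (s * (u : ℂ)).re = s.re * u := by simp
    rw [h2]
    exact mul_le_mul_of_nonneg_right (hP u) (Real.exp_pos _).le
  have hA' : ‖∫ u in Set.Iic (0 : ℝ), (((W u - ρ * Real.exp (-u)) : ℝ) : ℂ) * cexp (s * u)‖ ≤
      Cp := by
    have h2 : ‖∫ u in Set.Iic (0 : ℝ), (((W u - ρ * Real.exp (-u)) : ℝ) : ℂ) * cexp (s * u)‖ ≤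
        ∫ u in Set.Iic (0 : ℝ), Cp * Real.exp (s.re * u) := by
      refine norm_integral_le_of_norm_le
        ((integrableOn_exp_mul_Iic (a := s.re) (by linarith) 0).const_mul Cp)
        (Eventually.of_forall fun u => ?_)
      rw [norm_mul, Complex.norm_real, Real.norm_eq_abs, Complex.norm_exp]
      have h2 : (s * (u : ℂ)).re = s.re * u := by simp
      rw [h2]
      exact mul_le_mul_of_nonneg_right (hP u) (Real.exp_pos _).le
    rw [integral_const_mul, integral_exp_mul_Iic (by linarith), mul_zero, Real.exp_zero] at h2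
    refine h2.trans ?_
    calc Cp * (1 / s.re) ≤ Cp * 1 := by
          refine mul_le_mul_of_nonneg_left ?_ hCp
          rw [div_le_one (by linarith)]
          linarith
      _ = Cp := mul_one _
  have hB : IntegrableOn (fun u : ℝ => (ρ : ℂ) * cexp ((s - 1) * u)) (Set.Iic 0) :=
    (integrableOn_exp_mul_complex_Iic (a := s - 1) (by simpa using h1) 0).const_mul _
  have hB' : ∫ u in Set.Iic (0 : ℝ), (ρ : ℂ) * cexp ((s - 1) * u) = ρ / (s - 1) := by
    rw [integral_const_mul, integral_exp_mul_complex_Iic (by simpa using h1)]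
    simp
    rfl
  have hAB : (fun u : ℝ => ((W u : ℝ) : ℂ) * cexp (s * u)) = fun u =>
      (((W u - ρ * Real.exp (-u)) : ℝ) : ℂ) * cexp (s * u) + (ρ : ℂ) * cexp ((s - 1) * u) := by
    funext u
    have h2 : cexp ((s - 1) * u) = ((Real.exp (-u) : ℝ) : ℂ) * cexp (s * u) := by
      rw [Complex.ofReal_exp, ← Complex.exp_add]
      congr 1
      push_cast
      ring
    rw [h2]
    push_cast
    ring
  -- the positive half line
  have hD : ∀ u ∈ Set.Ioi (0 : ℝ), ‖((W u : ℝ) : ℂ) * cexp (s * u)‖ ≤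
      C₅ * Real.exp (-1 * u) := by
    intro u hu
    have hu' : 0 < u := hu
    rw [norm_mul, Complex.norm_real, Real.norm_of_nonneg (hW0 u), Complex.norm_exp]
    have h2 : (s * (u : ℂ)).re = s.re * u := by simp
    rw [h2]
    calc W u * Real.exp (s.re * u) ≤ (C₅ * Real.exp (-(5 * u))) * Real.exp (4 * u) := by
          refine mul_le_mul (h5 u) (Real.exp_le_exp.mpr ?_) (Real.exp_pos _).le (by positivity)
          exact mul_le_mul_of_nonneg_right h4 hu'.le
      _ = _ := by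
          rw [mul_assoc, ← Real.exp_add]
          congr 2
          ring
  have hEi : IntegrableOn (fun u : ℝ => C₅ * Real.exp (-1 * u)) (Set.Ioi 0) :=
    (integrableOn_exp_mul_Ioi (a := -1) (by norm_num) 0).const_mul _
  have hE : IntegrableOn (fun u : ℝ => ((W u : ℝ) : ℂ) * cexp (s * u)) (Set.Ioi 0) := by
    refine Integrable.mono' hEi (by fun_prop) ?_
    exact (ae_restrict_iff' measurableSet_Ioi).mpr (Eventually.of_forall hD)
  have hE' : ‖∫ u in Set.Ioi (0 : ℝ), ((W u : ℝ) : ℂ) * cexp (s * u)‖ ≤ C₅ := by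
    have h2 := norm_integral_le_of_norm_le hEi
      ((ae_restrict_iff' measurableSet_Ioi).mpr (Eventually.of_forall hD))
    rw [integral_const_mul, integral_exp_mul_Ioi (by norm_num), mul_zero, Real.exp_zero] at h2
    linarith
  have hIic : IntegrableOn (fun u : ℝ => ((W u : ℝ) : ℂ) * cexp (s * u)) (Set.Iic 0) := by
    rw [hAB]
    exact hA.add hB
  rw [← intervalIntegral.integral_Iic_add_Ioi hIic hE]
  have h6 : ∫ u in Set.Iic (0 : ℝ), ((W u : ℝ) : ℂ) * cexp (s * u) =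
      (∫ u in Set.Iic (0 : ℝ), (((W u - ρ * Real.exp (-u)) : ℝ) : ℂ) * cexp (s * u)) +
        ρ / (s - 1) := by
    rw [hAB, integral_add hA hB, hB']
  rw [h6]
  have h7 : ∀ a b c : ℂ, a + b + c - b = a + c := fun a b c => by ring
  rw [h7]
  refine (norm_add_le _ _).trans ?_
  linarith

end sum

end Pool.Agent.KS
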