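import Pool.Agent.Lib_helper92.KSA.Base
import Pool.Agent.Lib_helper92.KSA.BRG

/-! Block CHK. -/

namespace Pool.Agent.KS

open NumberField NumberField.InfinitePlace NumberField.Units Complex MeasureTheory Filter Topology
open Pool.Agent.HZ Pool.Agent.AS

variable {K : Type} [Field K] [NumberField K]

/-- a prime ideal containing a positive integer `m` contains a prime factor of `m` -/
theorem chk_exists_prime (P : Ideal (𝓞 K)) (hP : P.IsPrime) :
    ∀ m : ℕ, 0 < m → ((m : ℕ) : 𝓞 K) ∈ P → ∃ r : ℕ, r.Prime ∧ r ∣ m ∧ ((r : ℕ) : 𝓞 K) ∈ P := by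
  intro m
  induction m using Nat.strong_induction_on with
  | _ m ih =>
    intro hm hmem
    have h1 : m ≠ 1 := by
      rintro rfl
      rw [Nat.cast_one] at hmem
      exact hP.ne_top ((Ideal.eq_top_iff_one P).mpr hmem)
    obtain ⟨r, hr, k, hk⟩ := Nat.exists_prime_and_dvd h1
    have h2 : ((r : ℕ) : 𝓞 K) * ((k : ℕ) : 𝓞 K) ∈ P := by
      rw [← Nat.cast_mul, ← hk]
      exact hmem
    rcases hP.mem_or_mem h2 with h3 | h3
    · exact ⟨r, hr, ⟨k, hk⟩, h3⟩
    · have hk0 : 0 < k := by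
        rcases Nat.eq_zero_or_pos k with h | h
        · subst h; omega
        · exact h
      have hkm : k < m := by
        rw [hk]
        have := hr.two_le
        nlinarith
      obtain ⟨r', hr', hd, hmem'⟩ := ih k hkm hk0 h3
      exact ⟨r', hr', hd.trans ⟨r, by rw [hk]; ring⟩, hmem'⟩

/-- block CHK -/
theorem cheb_K_pr : ∃ C : ℝ, ∀ (x : ℝ) (F : Finset (PK K)), 1 ≤ x → (∀ p ∈ F, (NK K p : ℝ) ≤ x) →
    ∑ p ∈ F, Real.log (NK K p) ≤ C * x := by
  refine ⟨Module.finrank ℤ (𝓞 K) * Real.log 4, fun x F hx hF => ?_⟩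
  set m : ℕ := ⌊x⌋₊ with hm
  have hmx : (m : ℝ) ≤ x := Nat.floor_le (by linarith)
  -- each prime divides the primorial
  have hdvd : ∀ p ∈ F, p.asIdeal ∣ Ideal.span {((primorial m : ℕ) : 𝓞 K)} := by
    intro p hp
    rw [Ideal.dvd_span_singleton]
    have hN0 : 0 < Ideal.absNorm p.asIdeal := by
      rw [Nat.pos_iff_ne_zero]
      rw [Ne, Ideal.absNorm_eq_zero_iff]
      exact p.ne_bot
    obtain ⟨r, hr, hrd, hrm⟩ := chk_exists_prime p.asIdeal p.isPrime _ hN0
      (Ideal.absNorm_mem p.asIdeal)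
    have h1 : r ≤ m := by
      have h2 : r ≤ NK K p := Nat.le_of_dvd hN0 hrd
      have h3 : NK K p ≤ m := Nat.le_floor (hF p hp)
      exact h2.trans h3
    obtain ⟨k, hk⟩ := (hr.dvd_primorial_iff (n := m)).mpr h1
    rw [hk, Nat.cast_mul]
    exact Ideal.mul_mem_right _ _ hrm
  have hcop : (F : Set (PK K)).Pairwise (Function.onFun IsCoprime fun p : PK K => p.asIdeal) := by
    intro p _ p' _ hne
    have h1 : p.asIdeal ≠ p'.asIdeal := fun h =>
      hne (IsDedekindDomain.HeightOneSpectrum.ext h)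
    have : p.asIdeal.IsMaximal := p.isMaximal
    have : p'.asIdeal.IsMaximal := p'.isMaximal
    exact Ideal.isCoprime_of_isMaximal h1
  have h2 : ∏ p ∈ F, p.asIdeal ∣ Ideal.span {((primorial m : ℕ) : 𝓞 K)} :=
    Finset.prod_dvd_of_coprime hcop hdvd
  have h3 : ∏ p ∈ F, NK K p ∣ primorial m ^ Module.finrank ℤ (𝓞 K) := by
    have h4 := map_dvd Ideal.absNorm h2
    rw [map_prod, Ideal.absNorm_span_natCast] at h4
    exact h4
  have h5 : ∏ p ∈ F, NK K p ≤ primorial m ^ Module.finrank ℤ (𝓞 K) :=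
    Nat.le_of_dvd (pow_pos (primorial_pos m) _) h3
  have h6 : primorial m ^ Module.finrank ℤ (𝓞 K) ≤ (4 ^ m) ^ Module.finrank ℤ (𝓞 K) :=
    Nat.pow_le_pow_left (primorial_le_four_pow m) _
  have hpos : ∀ p ∈ F, (0 : ℝ) < NK K p := by
    intro p _
    have := two_le_NK p
    exact_mod_cast (by omega : 0 < NK K p)
  rw [← Real.log_prod (fun p hp => (hpos p hp).ne')]
  have h7 : (∏ p ∈ F, (NK K p : ℝ)) ≤ ((4 : ℝ) ^ m) ^ Module.finrank ℤ (𝓞 K) := by
    exact_mod_cast h5.trans h6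
  calc Real.log (∏ p ∈ F, (NK K p : ℝ)) ≤ Real.log (((4 : ℝ) ^ m) ^ Module.finrank ℤ (𝓞 K)) :=
        Real.log_le_log (Finset.prod_pos hpos) h7
    _ = Module.finrank ℤ (𝓞 K) * Real.log 4 * m := by
        rw [Real.log_pow, Real.log_pow]
        ring
    _ ≤ Module.finrank ℤ (𝓞 K) * Real.log 4 * x := by
        refine mul_le_mul_of_nonneg_left hmx ?_
        have : 0 < Real.log 4 := Real.log_pos (by norm_num)
        positivity

end Pool.Agent.KS

namespace Pool.Agent.KS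

theorem cheb_K : type_of% @cheb_K_pr := @cheb_K_pr

end Pool.Agent.KS
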