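import Pool.Agent.Lib_helper92.KSA.Base
import Pool.Agent.Lib_helper92.KSA.BRG
import Pool.Agent.Lib_helper92.KSA.KPO
import Pool.Agent.Lib_helper92.KSA.ZKA

set_option autoImplicit false

namespace Pool.Agent.KS

open NumberField NumberField.InfinitePlace NumberField.Units Complex MeasureTheory Filter Topology
open Pool.Agent.HZ Pool.Agent.AS

section abs2

variable {ι : Type} {ν : ι → ℝ} {k : ℝ → ℝ}

/-- bounds for the Mellin transform of `k` -/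
theorem zk_phi (hk : Continuous k) (hkp : ∀ w, 0 < k w)
    (hkd : ∀ A : ℝ, 0 < A → ∃ C : ℝ, ∀ w, k w ≤ C * Real.exp (-(A * w))) :
    ∃ c C : ℝ, 0 < c ∧ 0 < C ∧ ∀ σ : ℝ, 1 ≤ σ → σ ≤ 4 →
      c ≤ ∫ u : ℝ, k u * Real.exp (σ * u) ∧ ∫ u : ℝ, k u * Real.exp (σ * u) ≤ C := by
  have hk0 : ∀ w, 0 ≤ k w := fun w => (hkp w).le
  have hi := fun (σ : ℝ) (h : 0 < σ) => zk_int hk hk0 hkd (σ := σ) h
  have hc : 0 < ∫ u in Set.Icc (0 : ℝ) 1, k u := by
    rw [integral_Icc_eq_integral_Ioc, ← intervalIntegral.integral_of_le zero_le_one]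
    exact intervalIntegral.intervalIntegral_pos_of_pos (hk.intervalIntegrable _ _) hkp one_pos
  have hlow : ∀ σ : ℝ, 1 ≤ σ → ∫ u in Set.Icc (0 : ℝ) 1, k u ≤ ∫ u : ℝ, k u * Real.exp (σ * u) := by
    intro σ hσ
    calc ∫ u in Set.Icc (0 : ℝ) 1, k u ≤ ∫ u in Set.Icc (0 : ℝ) 1, k u * Real.exp (σ * u) := by
          refine setIntegral_mono_on (hk.integrableOn_Icc) (hi σ (by linarith)).integrableOn
            measurableSet_Icc fun u hu => ?_
          have h1 : 1 ≤ Real.exp (σ * u) := Real.one_le_exp (mul_nonneg (by linarith) hu.1)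
          calc k u = k u * 1 := (mul_one _).symm
            _ ≤ _ := mul_le_mul_of_nonneg_left h1 (hk0 u)
      _ ≤ ∫ u : ℝ, k u * Real.exp (σ * u) :=
          setIntegral_le_integral (hi σ (by linarith)) (Eventually.of_forall fun u =>
            mul_nonneg (hk0 u) (Real.exp_pos _).le)
  refine ⟨_, (∫ u : ℝ, k u * Real.exp (1 * u)) + ∫ u : ℝ, k u * Real.exp (4 * u), hc, ?_,
    fun σ h1 h4 => ⟨hlow σ h1, ?_⟩⟩
  · have h1 := hlow 1 le_rfl
    have h4 := hlow 4 (by norm_num)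
    linarith
  · rw [← integral_add (hi 1 one_pos) (hi 4 (by norm_num))]
    refine integral_mono (hi σ (by linarith)) ((hi 1 one_pos).add (hi 4 (by norm_num))) fun u => ?_
    simp only
    rw [← mul_add]
    refine mul_le_mul_of_nonneg_left ?_ (hk0 u)
    rcases le_total u 0 with hu | hu
    · have h2 : Real.exp (σ * u) ≤ Real.exp (1 * u) :=
        Real.exp_le_exp.mpr (mul_le_mul_of_nonpos_right h1 hu)
      have h3 := Real.exp_pos (4 * u)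
      linarith
    · have h2 : Real.exp (σ * u) ≤ Real.exp (4 * u) :=
        Real.exp_le_exp.mpr (mul_le_mul_of_nonneg_right h4 hu)
      have h3 := Real.exp_pos (1 * u)
      linarith

theorem zk_phi_real (k : ℝ → ℝ) (σ : ℝ) : ∫ u : ℝ, ((k u : ℝ) : ℂ) * cexp ((σ : ℂ) * u) =
    ((∫ u : ℝ, k u * Real.exp (σ * u) : ℝ) : ℂ) := by
  rw [← integral_complex_ofReal]
  congr 1
  funext u
  push_cast
  rfl

theorem zk_phi_norm (hk0 : ∀ w, 0 ≤ k w) (s : ℂ) : ‖∫ u : ℝ, ((k u : ℝ) : ℂ) * cexp (s * u)‖ ≤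
    ∫ u : ℝ, k u * Real.exp (s.re * u) := by
  refine (norm_integral_le_integral_norm _).trans (le_of_eq ?_)
  congr 1
  funext u
  exact zk_norm hk0 s u u

theorem zk_upper [Countable ι] (hν : ∀ i, 1 ≤ ν i)
    (hs : ∀ σ : ℝ, 1 < σ → Summable fun i => ν i ^ (-σ))
    (hk : Continuous k) (hkp : ∀ w, 0 < k w)
    (hkd : ∀ A : ℝ, 0 < A → ∃ C : ℝ, ∀ w, k w ≤ C * Real.exp (-(A * w))) {ρ Cp : ℝ} (hρ : 0 < ρ)
    (hP : ∀ u, |∑' i, k (u + Real.log (ν i)) - ρ * Real.exp (-u)| ≤ Cp) :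
    ∃ C : ℝ, ∀ η : ℝ, 0 < η → η ≤ 3 → ∑' i, ν i ^ (-(1 + η)) ≤ C / η := by
  obtain ⟨C₁, hC₁, h1⟩ := zk_main hν hs hk (fun w => (hkp w).le) hkd hP
  obtain ⟨c, C₂, hc, -, h2⟩ := zk_phi hk hkp hkd
  refine ⟨(ρ + 3 * C₁) / c, fun η hη hη3 => ?_⟩
  have h3 := h1 ((1 + η : ℝ) : ℂ) (by rw [Complex.ofReal_re]; linarith)
    (by rw [Complex.ofReal_re]; linarith)
  have h4 := (h2 (1 + η) (by linarith) (by linarith)).1
  rw [zk_phi_real] at h3
  have h5 : (∑' i, (ν i : ℂ) ^ (-((1 + η : ℝ) : ℂ))) = ((∑' i, ν i ^ (-(1 + η)) : ℝ) : ℂ) := by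
    rw [Complex.ofReal_tsum]
    refine tsum_congr fun i => ?_
    rw [Complex.ofReal_cpow (zero_le_one.trans (hν i))]
    push_cast
    rfl
  have h6 : (ρ : ℂ) / (((1 + η : ℝ) : ℂ) - 1) = ((ρ / η : ℝ) : ℂ) := by
    push_cast
    congr 1
    ring
  rw [h5, h6, ← Complex.ofReal_mul, ← Complex.ofReal_sub, Complex.norm_real, Real.norm_eq_abs] at h3
  have h7 := (abs_le.mp h3).2
  have h8 : 0 ≤ ∑' i, ν i ^ (-(1 + η)) := tsum_nonneg fun i =>
    Real.rpow_nonneg (zero_le_one.trans (hν i)) _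
  have h9 : (∑' i, ν i ^ (-(1 + η))) * c ≤ ρ / η + C₁ := by
    have := mul_le_mul_of_nonneg_left h4 h8
    linarith
  rw [div_div, le_div_iff₀ (by positivity)]
  calc (∑' i, ν i ^ (-(1 + η))) * (c * η) = ((∑' i, ν i ^ (-(1 + η))) * c) * η := by ring
    _ ≤ (ρ / η + C₁) * η := mul_le_mul_of_nonneg_right h9 hη.le
    _ = ρ + C₁ * η := by
        field_simp
    _ ≤ ρ + 3 * C₁ := by nlinarith

theorem zk_lower [Countable ι] (hν : ∀ i, 1 ≤ ν i)
    (hs : ∀ σ : ℝ, 1 < σ → Summable fun i => ν i ^ (-σ))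
    (hk : Continuous k) (hkp : ∀ w, 0 < k w)
    (hkd : ∀ A : ℝ, 0 < A → ∃ C : ℝ, ∀ w, k w ≤ C * Real.exp (-(A * w))) {ρ Cp : ℝ} (hρ : 0 < ρ)
    (hP : ∀ u, |∑' i, k (u + Real.log (ν i)) - ρ * Real.exp (-u)| ≤ Cp) :
    ∃ C r : ℝ, 0 < C ∧ 0 < r ∧ ∀ s : ℂ, 1 < s.re → s.re ≤ 4 → ‖s - 1‖ ≤ r →
      1 ≤ C * ‖s - 1‖ * ‖∑' i, (ν i : ℂ) ^ (-s)‖ := by
  obtain ⟨C₁, hC₁, h1⟩ := zk_main hν hs hk (fun w => (hkp w).le) hkd hP
  obtain ⟨c, C₂, hc, hC₂, h2⟩ := zk_phi hk hkp hkd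
  refine ⟨2 * C₂ / ρ, ρ / (2 * C₁), by positivity, by positivity, fun s hs1 hs4 hr => ?_⟩
  have h3 := h1 s hs1 hs4
  have hs0 : 0 < ‖s - 1‖ := by
    rw [norm_pos_iff]
    intro h
    have h2 := congrArg Complex.re h
    simp at h2
    linarith
  set Z := ∑' i, (ν i : ℂ) ^ (-s) with hZ
  set F := ∫ u : ℝ, ((k u : ℝ) : ℂ) * cexp (s * u) with hF
  have h4 : ‖F‖ ≤ C₂ := (zk_phi_norm (fun w => (hkp w).le) s).trans (h2 s.re hs1.le hs4).2
  have h5 : ρ / ‖s - 1‖ - C₁ ≤ ‖Z‖ * C₂ := by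
    have h6 : ‖(ρ : ℂ) / (s - 1)‖ = ρ / ‖s - 1‖ := by
      rw [norm_div, Complex.norm_real, Real.norm_of_nonneg hρ.le]
    have h7 : ‖(ρ : ℂ) / (s - 1)‖ ≤ ‖Z * F‖ + C₁ := by
      have h8 : (ρ : ℂ) / (s - 1) = Z * F - (Z * F - ρ / (s - 1)) := by ring
      rw [h8]
      exact (norm_sub_le _ _).trans (by linarith)
    rw [h6, norm_mul] at h7
    have h9 : ‖Z‖ * ‖F‖ ≤ ‖Z‖ * C₂ := mul_le_mul_of_nonneg_left h4 (norm_nonneg _)
    linarith
  have h6 : C₁ ≤ ρ / (2 * ‖s - 1‖) := by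
    rw [le_div_iff₀ (by positivity)]
    rw [le_div_iff₀ (by positivity)] at hr
    linarith
  have h7 : ρ / (2 * ‖s - 1‖) ≤ ‖Z‖ * C₂ := by
    have h8 : ρ / ‖s - 1‖ = ρ / (2 * ‖s - 1‖) + ρ / (2 * ‖s - 1‖) := by
      field_simp
      ring
    linarith
  rw [div_le_iff₀ (by positivity)] at h7
  rw [div_mul_eq_mul_div, div_mul_eq_mul_div, le_div_iff₀ hρ]
  linarith

end abs2

section low

variable {P : Type}

/-- `|ζ(s)| ≥ 1 / ζ(Re s)` -/
theorem zk_low {N : P → ℕ} (hN : ∀ p, 2 ≤ N p)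
    (hs : ∀ σ : ℝ, 1 < σ → Summable fun g : P →₀ ℕ => (nm N g : ℝ) ^ (-σ)) {s : ℂ}
    (h1 : 1 < s.re) :
    1 ≤ (∑' g : P →₀ ℕ, (nm N g : ℝ) ^ (-s.re)) * ‖∑' g : P →₀ ℕ, (nm N g : ℂ) ^ (-s)‖ := by
  classical
  have hpos : ∀ g : P →₀ ℕ, 0 < nm N g := nm_pos hN
  have hnorm : ∀ g : P →₀ ℕ, ‖(nm N g : ℂ) ^ (-s)‖ = (nm N g : ℝ) ^ (-s.re) := by
    intro g
    rw [Complex.norm_natCast_cpow_of_pos (hpos g), Complex.neg_re]
  set f : (P →₀ ℕ) → ℂ := fun g => (nm N g : ℂ) ^ (-s) with hf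
  set h : (P →₀ ℕ) → ℂ := fun g => (((mu : MvPowerSeries P ℝ) g : ℝ) : ℂ) * (nm N g : ℂ) ^ (-s)
    with hh
  have hfs : Summable fun g => ‖f g‖ := by
    simp only [hf, hnorm]
    exact hs _ h1
  have hhle : ∀ g, ‖h g‖ ≤ (nm N g : ℝ) ^ (-s.re) := by
    intro g
    simp only [hh]
    rw [norm_mul, Complex.norm_real, Real.norm_eq_abs, hnorm]
    calc |(mu : MvPowerSeries P ℝ) g| * (nm N g : ℝ) ^ (-s.re) ≤ 1 * (nm N g : ℝ) ^ (-s.re) :=
          mul_le_mul_of_nonneg_right (mu_abs g) (Real.rpow_nonneg (Nat.cast_nonneg _) _)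
      _ = _ := one_mul _
  have hhs : Summable fun g => ‖h g‖ := Summable.of_nonneg_of_le (fun _ => norm_nonneg _) hhle
    (hs _ h1)
  have hprod : (∑' g, f g) * ∑' g, h g = 1 := by
    rw [Summable.tsum_mul_tsum_eq_tsum_sum_antidiagonal hfs.of_norm hhs.of_norm
      (summable_mul_of_summable_norm hfs hhs)]
    have h2 : ∀ n : P →₀ ℕ, (∑ p ∈ Finset.HasAntidiagonal.antidiagonal n, f p.1 * h p.2) =
        (((one * mu : MvPowerSeries P ℝ) n : ℝ) : ℂ) * (nm N n : ℂ) ^ (-s) := by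
      intro n
      rw [mul_app, Complex.ofReal_sum, Finset.sum_mul]
      refine Finset.sum_congr rfl fun p hp => ?_
      rw [Finset.HasAntidiagonal.mem_antidiagonal] at hp
      have h3 : (nm N n : ℂ) ^ (-s) = (nm N p.1 : ℂ) ^ (-s) * (nm N p.2 : ℂ) ^ (-s) := by
        rw [← hp, nm_add, Nat.cast_mul, Complex.natCast_mul_natCast_cpow]
      rw [h3]
      simp only [hf, hh, one]
      push_cast
      ring
    simp_rw [h2, one_mul_mu]
    rw [tsum_eq_single 0]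
    · rw [nm_zero]
      have h4 : ((1 : MvPowerSeries P ℝ) 0 : ℝ) = 1 := by
        have := MvPowerSeries.coeff_zero_one (σ := P) (R := ℝ)
        exact this
      rw [h4]
      simp
    · intro n hn
      have h4 : ((1 : MvPowerSeries P ℝ) n : ℝ) = 0 := by
        have := MvPowerSeries.coeff_one (σ := P) (R := ℝ) (n := n)
        rw [if_neg hn] at this
        exact this
      rw [h4]
      simp
  have h5 : ‖∑' g, h g‖ ≤ ∑' g : P →₀ ℕ, (nm N g : ℝ) ^ (-s.re) :=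
    tsum_of_norm_bounded (hs _ h1).hasSum hhle
  have h6 : ‖∑' g, f g‖ * ‖∑' g, h g‖ = 1 := by
    rw [← norm_mul, hprod, norm_one]
  calc (1 : ℝ) = ‖∑' g, f g‖ * ‖∑' g, h g‖ := h6.symm
    _ ≤ ‖∑' g, f g‖ * ∑' g : P →₀ ℕ, (nm N g : ℝ) ^ (-s.re) :=
        mul_le_mul_of_nonneg_left h5 (norm_nonneg _)
    _ = _ := mul_comm _ _

end low

section final

variable (K : Type) [Field K] [NumberField K]

theorem zk_kg_pos (u : ℝ) : 0 < kg K Real.pi u := by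
  unfold kg
  rw [integral_pos_iff_support_of_nonneg (fun x => (Real.exp_pos _).le)
    (kg_integrable Real.pi_pos u)]
  have h : Function.support (fun x : Fin (rank K) → ℝ => Real.exp (-Real.pi * qn (Yv K u x))) =
      Set.univ := by
    ext x
    simp only [Function.mem_support, Set.mem_univ, iff_true]
    exact (Real.exp_pos _).ne'
  rw [h]
  exact Measure.measure_univ_pos.mpr (NeZero.ne _)

theorem zk_summable (σ : ℝ) (hσ : 1 < σ) :
    Summable fun g : PK K →₀ ℕ => (nm (NK K) g : ℝ) ^ (-σ) := by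
  have h1 := ideal_summable (K := K) hσ
  have h2 := (summable_IK (fun 𝔠 : Ideal (𝓞 K) => (Ideal.absNorm 𝔠 : ℝ) ^ (-σ)) (by
    rw [Ideal.absNorm_bot, Nat.cast_zero, Real.zero_rpow (by linarith)])).1.mp h1
  simpa only [absNorm_IK] using h2

theorem zk_one_le (g : PK K →₀ ℕ) : (1 : ℝ) ≤ (nm (NK K) g : ℝ) := by
  exact_mod_cast nm_pos two_le_NK g

theorem zk_countable : Countable (PK K →₀ ℕ) := by
  rw [← Set.countable_univ_iff]
  have h := (zk_summable K 2 one_lt_two).countable_support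
  refine h.mono fun g _ => ?_
  rw [Function.mem_support]
  exact (Real.rpow_pos_of_pos (zero_lt_one.trans_le (zk_one_le K g)) _).ne'

theorem zk_poisson : ∃ ρ C : ℝ, 0 < ρ ∧ ∀ u : ℝ,
    |∑' g : PK K →₀ ℕ, kg K Real.pi (u + Real.log (nm (NK K) g : ℝ)) - ρ * Real.exp (-u)| ≤ C := by
  classical
  obtain ⟨ρ, C, hρ, h⟩ := kg_poisson (K := K)
  refine ⟨ρ, C, hρ, fun u => ?_⟩
  have h1 := h u
  have h2 := (summable_IK (fun 𝔠 : Ideal (𝓞 K) => if 𝔠 = ⊥ then 0 else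
    kg K Real.pi (u + Real.log (Ideal.absNorm 𝔠))) (by simp)).2
  rw [h2] at h1
  simp only [IK_ne_bot, if_false, absNorm_IK] at h1
  exact h1

variable {K}

theorem zeta_upper_K_pr : ∃ C : ℝ, ∀ η : ℝ, 0 < η → η ≤ 3 →
    ∑' g : PK K →₀ ℕ, (nm (NK K) g : ℝ) ^ (-(1 + η)) ≤ C / η := by
  obtain ⟨ρ, Cp, hρ, hP⟩ := zk_poisson K
  have := zk_countable K
  exact zk_upper (zk_one_le K) (zk_summable K) (kg_continuous Real.pi_pos) (zk_kg_pos K)
    (fun A hA => by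
      obtain ⟨C, -, h⟩ := kg_le (K := K) Real.pi_pos hA
      exact ⟨C, h⟩) hρ hP

theorem zeta_lower_K_pr : ∃ C t₁ : ℝ, 0 < C ∧ 0 < t₁ ∧ ∀ η t : ℝ, 0 < η → η ≤ 3 → |t| ≤ t₁ →
    1 ≤ C * ‖(η : ℂ) + t * I‖ *
      ‖∑' g : PK K →₀ ℕ, (nm (NK K) g : ℂ) ^ (-(1 + η + t * I) : ℂ)‖ := by
  obtain ⟨ρ, Cp, hρ, hP⟩ := zk_poisson K
  have := zk_countable K
  have hkd : ∀ A : ℝ, 0 < A → ∃ C : ℝ, ∀ w, kg K Real.pi w ≤ C * Real.exp (-(A * w)) := by
    intro A hA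
    obtain ⟨C, -, h⟩ := kg_le (K := K) Real.pi_pos hA
    exact ⟨C, h⟩
  obtain ⟨C₀, h0⟩ := zk_upper (zk_one_le K) (zk_summable K) (kg_continuous Real.pi_pos)
    (zk_kg_pos K) hkd hρ hP
  obtain ⟨C, r, hC, hr, h⟩ := zk_lower (zk_one_le K) (zk_summable K) (kg_continuous Real.pi_pos)
    (zk_kg_pos K) hkd hρ hP
  have hC₀ : 0 ≤ C₀ := by
    have h1 := h0 1 one_pos (by norm_num)
    rw [div_one] at h1
    exact le_trans (tsum_nonneg fun g => Real.rpow_nonneg (Nat.cast_nonneg _) _) h1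
  set η₀ : ℝ := r / 2 with hη₀
  have hη₀p : 0 < η₀ := by positivity
  refine ⟨C + C₀ / η₀ ^ 2, r / 2, by positivity, by positivity, fun η t hη hη3 ht => ?_⟩
  have hs : ((1 + η + t * I : ℂ)).re = 1 + η := by simp
  have hs1 : ((1 + η + t * I : ℂ)) - 1 = (η : ℂ) + t * I := by ring
  have hnn : 0 ≤ ‖(η : ℂ) + t * I‖ * ‖∑' g : PK K →₀ ℕ,
      (nm (NK K) g : ℂ) ^ (-(1 + η + t * I) : ℂ)‖ := by positivity
  rcases le_total η η₀ with h1 | h1
  · have h2 := h (1 + η + t * I) (by rw [hs]; linarith) (by rw [hs]; linarith) (by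
      rw [hs1]
      refine (norm_add_le _ _).trans ?_
      rw [norm_mul, Complex.norm_I, mul_one, Complex.norm_real, Complex.norm_real,
        Real.norm_eq_abs, Real.norm_eq_abs, abs_of_pos hη]
      linarith)
    rw [hs1] at h2
    simp only [Complex.ofReal_natCast] at h2
    have h3 : 0 ≤ C₀ / η₀ ^ 2 := by positivity
    nlinarith
  · have h2 := zk_low (N := NK K) two_le_NK (zk_summable K) (s := 1 + η + t * I)
      (by rw [hs]; linarith)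
    rw [hs] at h2
    have h3 := h0 η hη hη3
    have h4 : ∑' g : PK K →₀ ℕ, (nm (NK K) g : ℝ) ^ (-(1 + η)) ≤
        C₀ / η₀ ^ 2 * ‖(η : ℂ) + t * I‖ := by
      refine h3.trans ?_
      have h5 : η₀ ≤ ‖(η : ℂ) + t * I‖ := by
        have h6 := Complex.abs_re_le_norm ((η : ℂ) + t * I)
        have h7 : ((η : ℂ) + t * I).re = η := by simp
        rw [h7, abs_of_pos hη] at h6
        linarith
      calc C₀ / η ≤ C₀ / η₀ := div_le_div_of_nonneg_left hC₀ hη₀p h1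
        _ = C₀ / η₀ ^ 2 * η₀ := by
            field_simp
        _ ≤ _ := mul_le_mul_of_nonneg_left h5 (by positivity)
    have h5 := mul_le_mul_of_nonneg_right h4 (norm_nonneg
      (∑' g : PK K →₀ ℕ, (nm (NK K) g : ℂ) ^ (-(1 + η + t * I) : ℂ)))
    nlinarith

end final

end Pool.Agent.KS

namespace Pool.Agent.KS

theorem zeta_upper_K : type_of% @zeta_upper_K_pr := @zeta_upper_K_pr

theorem zeta_lower_K : type_of% @zeta_lower_K_pr := @zeta_lower_K_pr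

end Pool.Agent.KS
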