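import Pool.Agent.Lib_helper92.KSA.Base
import Pool.Agent.Lib_helper92.KSA.BRG
import Pool.Agent.Lib_helper92.KSA.CHK
import Pool.Agent.Lib_helper92.KSA.KPO
import Pool.Agent.Lib_helper92.KSA.ZK

/-! Block GDK. -/

namespace Pool.Agent.KS

open NumberField NumberField.InfinitePlace NumberField.Units Complex MeasureTheory Filter Topology
open Pool.Agent.HZ Pool.Agent.AS

variable {K : Type} [Field K] [NumberField K]

variable (K) in
theorem good_NK_pr : Good (NK K) := by
  refine ⟨two_le_NK, fun η hη => ?_, zeta_upper_K, zeta_lower_K, cheb_K⟩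
  have h1 := ideal_summable (K := K) (A := 1 + η) (by linarith)
  have h2 := (summable_IK (K := K) (fun 𝔠 => (Ideal.absNorm 𝔠 : ℝ) ^ (-(1 + η))) (by
    simp only [Ideal.absNorm_bot, Nat.cast_zero]
    exact Real.zero_rpow (by linarith))).1.mp h1
  refine h2.congr fun g => ?_
  rw [absNorm_IK]

variable (K) in
theorem kern_NK_pr : ∃ ρ : ℝ, Kern (NK K) (kg K Real.pi) ρ := by
  classical
  obtain ⟨ρ, C, hρ, hC⟩ := kg_poisson (K := K)
  refine ⟨ρ, ⟨kg_continuous Real.pi_pos, fun w => ?_, fun A hA => ?_, hρ.le, ⟨C, fun w => ?_⟩⟩⟩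
  · exact integral_nonneg fun x => (Real.exp_pos _).le
  · obtain ⟨C', _, hC'⟩ := kg_le (K := K) Real.pi_pos hA
    exact ⟨C', hC'⟩
  · have h1 := hC w
    have h2 := (summable_IK (K := K) (fun 𝔠 : Ideal (𝓞 K) => if 𝔠 = ⊥ then 0 else
      kg K Real.pi (w + Real.log (Ideal.absNorm 𝔠))) (by simp)).2
    have h3 : ∀ g : PK K →₀ ℕ, (if IK g = ⊥ then (0 : ℝ) else
        kg K Real.pi (w + Real.log (Ideal.absNorm (IK g)))) =
        kg K Real.pi (w + Real.log (nm (NK K) g)) := by
      intro g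
      rw [if_neg (IK_ne_bot g), absNorm_IK]
    rw [tsum_congr h3] at h2
    rw [← h2]
    convert h1

end Pool.Agent.KS

namespace Pool.Agent.KS

theorem good_NK : type_of% @good_NK_pr := @good_NK_pr

theorem kern_NK : type_of% @kern_NK_pr := @kern_NK_pr

end Pool.Agent.KS
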