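import Pool.Agent.Lib_helper92.KSA.Base
import Pool.Agent.Lib_helper92.KSA.BRG
import Pool.Agent.Lib_helper92.KSA.GDK

/-!
# Block NZK: the number of all zeros of the completed Hecke L-functions
-/

namespace Pool.Agent.KS

open NumberField NumberField.InfinitePlace NumberField.Units Complex MeasureTheory Filter Topology
open Pool.Agent.HZ Pool.Agent.AS
open scoped ENNReal

/-! ### Jensen count -/

theorem nzk_finsum_ge (D : ℂ → ℤ) (hD : ∀ u, 0 ≤ D u) (hfin : D.support.Finite)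
    (s : Finset ℂ) : ∑ u ∈ s, D u ≤ ∑ᶠ u, D u := by
  classical
  have h1 : D.support ⊆ ((hfin.toFinset ∪ s : Finset ℂ) : Set ℂ) := by
    intro x hx
    simp only [Finset.coe_union, Set.mem_union, Finset.mem_coe, Set.Finite.mem_toFinset]
    exact Or.inl hx
  rw [finsum_eq_sum_of_support_subset D h1]
  exact Finset.sum_le_sum_of_subset_of_nonneg Finset.subset_union_right fun u _ _ => hD u

theorem nzk_order_le {f : ℂ → ℂ} {U : Set ℂ} (hf : AnalyticOnNhd ℂ f U) {z : ℂ} (hz : z ∈ U) :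
    (analyticOrderNatAt f z : ℤ) ≤ MeromorphicOn.divisor f U z := by
  rw [MeromorphicOn.AnalyticOnNhd.divisor_apply hf hz]
  unfold analyticOrderNatAt
  cases h : analyticOrderAt f z with
  | top => simp
  | coe n => simp

theorem nzk_count (f : ℂ → ℂ) (hf : Differentiable ℂ f) (K : ℕ) (M c : ℝ) (hM : 1 ≤ M)
    (hc : 0 < c) (hlow : ∀ k ∈ Finset.Icc (-(K : ℤ)) K, c ≤ ‖f (2 + ((k : ℝ) : ℂ) * I)‖)
    (hup : ∀ z : ℂ, |z.re| ≤ 6 → ‖f z‖ ≤ M)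
    (hstrip : ∀ ρ : ℂ, f ρ = 0 → 0 ≤ ρ.re ∧ ρ.re ≤ 1) (T : ℝ) (hT : T ≤ K) :
    ∑' ρ : {ρ : ℂ // |ρ.im| ≤ T}, (analyticOrderNatAt f ρ.1 : ENNReal) ≤
      ENNReal.ofReal ((2 * K + 1) * (Real.log (M / c) / Real.log (4 / 3))) := by
  classical
  have han : ∀ U : Set ℂ, AnalyticOnNhd ℂ f U := fun U z _ => hf.analyticAt z
  have hlog : 0 < Real.log (4 / 3) := Real.log_pos (by norm_num)
  set cen : ℤ → ℂ := fun k => 2 + ((k : ℝ) : ℂ) * I with hcen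
  set D : ℤ → ℂ → ℤ := fun k u =>
    MeromorphicOn.divisor f (Metric.closedBall (cen k) |(3 : ℝ)|) u with hD
  have hD0 : ∀ k u, 0 ≤ D k u := fun k u =>
    (MeromorphicOn.AnalyticOnNhd.divisor_nonneg (han _)) u
  have hDfin : ∀ k, (D k).support.Finite := fun k =>
    (MeromorphicOn.divisor f (Metric.closedBall (cen k) |(3 : ℝ)|)).finiteSupport
      (isCompact_closedBall _ _)
  have hjen : ∀ k ∈ Finset.Icc (-(K : ℤ)) K,
      ((∑ᶠ u, D k u : ℤ) : ℝ) ≤ Real.log (M / c) / Real.log (4 / 3) := by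
    intro k hk
    have hne : f (cen k) ≠ 0 := by
      intro h0
      have := hlow k hk
      rw [show (2 + ((k : ℝ) : ℂ) * I) = cen k from rfl, h0, norm_zero] at this
      linarith
    have hb : ∀ z ∈ Metric.sphere (cen k) |(4 : ℝ)|, ‖f z‖ ≤ M := by
      intro z hz
      apply hup
      rw [mem_sphere_iff_norm, abs_of_pos (by norm_num : (0 : ℝ) < 4)] at hz
      have h1 : |(z - cen k).re| ≤ 4 := hz ▸ Complex.abs_re_le_norm _
      have h2 : (z - cen k).re = z.re - 2 := by simp [hcen]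
      rw [h2, abs_le] at h1
      rw [abs_le]
      constructor <;> linarith [h1.1, h1.2]
    have h1 := AnalyticOnNhd.sum_divisor_le (c := cen k) (r := 3) (R := 4) (M := M) (f := f)
      (by norm_num) (by norm_num) hM (han _) hne hb
    refine h1.trans ?_
    apply div_le_div_of_nonneg_right _ hlog.le
    apply Real.log_le_log
    · exact div_pos (by linarith) (norm_pos_iff.mpr hne)
    · exact div_le_div_of_nonneg_left (by linarith) hc (hlow k hk)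
  rw [ENNReal.tsum_eq_iSup_sum]
  refine iSup_le fun s => ?_
  have hkey : ∀ ρ : {ρ : ℂ // |ρ.im| ≤ T}, (analyticOrderNatAt f ρ.1 : ℤ) ≤
      ∑ k ∈ Finset.Icc (-(K : ℤ)) K, D k ρ.1 := by
    intro ρ
    by_cases h0 : f ρ.1 = 0
    · have hst := hstrip ρ.1 h0
      have him := abs_le.mp ρ.2
      set k : ℤ := ⌊ρ.1.im⌋ with hk
      have hk1 : (k : ℝ) ≤ ρ.1.im := Int.floor_le _
      have hk2 : ρ.1.im < k + 1 := Int.lt_floor_add_one _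
      have hkI : k ∈ Finset.Icc (-(K : ℤ)) K := by
        rw [Finset.mem_Icc]
        constructor
        · rw [hk, Int.le_floor]
          push_cast
          linarith
        · have : (k : ℝ) ≤ K := by linarith
          exact_mod_cast this
      have hball : ρ.1 ∈ Metric.closedBall (cen k) |(3 : ℝ)| := by
        rw [mem_closedBall_iff_norm, abs_of_pos (by norm_num : (0 : ℝ) < 3)]
        have hre : (ρ.1 - cen k).re = ρ.1.re - 2 := by simp [hcen]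
        have him' : (ρ.1 - cen k).im = ρ.1.im - k := by simp [hcen]
        have h3 : ‖ρ.1 - cen k‖ ^ 2 ≤ 3 ^ 2 := by
          rw [← Complex.normSq_eq_norm_sq, Complex.normSq_apply, hre, him']
          nlinarith [hst.1, hst.2]
        exact le_of_sq_le_sq h3 (by norm_num)
      refine (nzk_order_le (han _) hball).trans ?_
      exact Finset.single_le_sum (f := fun k => D k ρ.1) (fun k _ => hD0 k _) hkI
    · have h1 : analyticOrderNatAt f ρ.1 = 0 := by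
        unfold analyticOrderNatAt
        rw [(hf.analyticAt ρ.1).analyticOrderAt_eq_zero.mpr h0]
        rfl
      rw [h1]
      exact Finset.sum_nonneg fun k _ => hD0 k _
  have hint : (∑ ρ ∈ s, (analyticOrderNatAt f ρ.1 : ℤ)) ≤
      ∑ k ∈ Finset.Icc (-(K : ℤ)) K, ∑ᶠ u, D k u := by
    calc (∑ ρ ∈ s, (analyticOrderNatAt f ρ.1 : ℤ))
        ≤ ∑ ρ ∈ s, ∑ k ∈ Finset.Icc (-(K : ℤ)) K, D k ρ.1 := Finset.sum_le_sum fun ρ _ => hkey ρ
      _ = ∑ k ∈ Finset.Icc (-(K : ℤ)) K, ∑ ρ ∈ s, D k ρ.1 := Finset.sum_comm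
      _ ≤ _ := by
          refine Finset.sum_le_sum fun k _ => ?_
          have h1 : ∑ ρ ∈ s, D k ρ.1 = ∑ u ∈ s.map (Function.Embedding.subtype _), D k u := by
            rw [Finset.sum_map]
            rfl
          rw [h1]
          exact nzk_finsum_ge (D k) (hD0 k) (hDfin k) _
  have hreal : ((∑ ρ ∈ s, analyticOrderNatAt f ρ.1 : ℕ) : ℝ) ≤
      (2 * K + 1) * (Real.log (M / c) / Real.log (4 / 3)) := by
    have h1 : ((∑ ρ ∈ s, analyticOrderNatAt f ρ.1 : ℕ) : ℝ) =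
        ((∑ ρ ∈ s, (analyticOrderNatAt f ρ.1 : ℤ) : ℤ) : ℝ) := by push_cast; rfl
    rw [h1]
    refine (Int.cast_le.mpr hint).trans ?_
    push_cast
    refine (Finset.sum_le_sum hjen).trans ?_
    rw [Finset.sum_const, Int.card_Icc, nsmul_eq_mul]
    have h2 : (((K : ℤ) + 1 - -(K : ℤ)).toNat : ℝ) = 2 * K + 1 := by
      have : ((K : ℤ) + 1 - -(K : ℤ)).toNat = 2 * K + 1 := by omega
      rw [this]; push_cast; ring
    rw [h2]
  calc ∑ ρ ∈ s, (analyticOrderNatAt f ρ.1 : ENNReal)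
      = ((∑ ρ ∈ s, analyticOrderNatAt f ρ.1 : ℕ) : ENNReal) := by push_cast; rfl
    _ = ENNReal.ofReal ((∑ ρ ∈ s, analyticOrderNatAt f ρ.1 : ℕ) : ℝ) :=
        (ENNReal.ofReal_natCast _).symm
    _ ≤ _ := ENNReal.ofReal_le_ofReal hreal

variable {K : Type} [Field K] [NumberField K]

/-! ### The Gamma factor -/

theorem nzk_gam_ne (κ : InfinitePlace K → ℤ) (lam : InfinitePlace K → ℝ) {s : ℂ}
    (hs : 0 < s.re) : gam κ lam s ≠ 0 := by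
  classical
  unfold gam
  refine Finset.prod_ne_zero_iff.2 fun w _ => ?_
  have hre1 : 0 < (s + |κ w| + lam w * I).re := by
    have h1 : (s + |κ w| + lam w * I).re = s.re + ((|κ w| : ℤ) : ℝ) := by
      simp [Complex.add_re, Complex.mul_re]
    rw [h1]
    have h2 : (0 : ℝ) ≤ ((|κ w| : ℤ) : ℝ) := by exact_mod_cast abs_nonneg (κ w)
    linarith
  have hre2 : 0 < (s + |κ w| / 2 + lam w / 2 * I).re := by
    have h1 : (s + |κ w| / 2 + lam w / 2 * I).re = s.re + ((|κ w| : ℤ) : ℝ) / 2 := by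
      have h3 : ((|κ w| : ℤ) : ℂ) / 2 = ((((|κ w| : ℤ) : ℝ) / 2 : ℝ) : ℂ) := by
        rw [Complex.ofReal_div, Complex.ofReal_intCast]
        norm_num
      have h4 : (lam w : ℂ) / 2 * I = ((lam w / 2 : ℝ) : ℂ) * I := by push_cast; ring
      rw [h3, h4, Complex.add_re, Complex.add_re, Complex.ofReal_re, Complex.re_ofReal_mul]
      simp
    rw [h1]
    have h2 : (0 : ℝ) ≤ ((|κ w| : ℤ) : ℝ) := by exact_mod_cast abs_nonneg (κ w)
    linarith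
  by_cases hw : w.IsReal
  · simp only [hw, if_true]
    exact Complex.Gammaℝ_ne_zero_of_re_pos hre1
  · simp only [hw, if_false]
    rw [← Complex.Gammaℝ_mul_Gammaℝ_add_one]
    refine mul_ne_zero (Complex.Gammaℝ_ne_zero_of_re_pos hre2)
      (Complex.Gammaℝ_ne_zero_of_re_pos ?_)
    rw [Complex.add_re, Complex.one_re]
    linarith

theorem nzk_gam_inv_cont (κ : InfinitePlace K → ℤ) :
    Continuous (fun p : (InfinitePlace K → ℝ) × ℝ => (gam κ p.1 (2 + p.2 * I))⁻¹) := by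
  classical
  have h : (fun p : (InfinitePlace K → ℝ) × ℝ => (gam κ p.1 (2 + p.2 * I))⁻¹) = fun p =>
      ∏ w : InfinitePlace K, if w.IsReal then
        (Gammaℝ ((2 + p.2 * I) + |κ w| + p.1 w * I))⁻¹
        else (Gammaℂ ((2 + p.2 * I) + |κ w| / 2 + p.1 w / 2 * I))⁻¹ := by
    funext p
    unfold gam
    rw [← Finset.prod_inv_distrib]
    refine Finset.prod_congr rfl fun w _ => ?_
    by_cases hw : w.IsReal
    · simp only [hw, if_true]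
    · simp only [hw, if_false]
  rw [h]
  refine continuous_finsetProd _ fun w _ => ?_
  by_cases hw : w.IsReal
  · simp only [hw, if_true]
    exact Complex.differentiable_Gammaℝ_inv.continuous.comp (by fun_prop)
  · simp only [hw, if_false]
    exact Complex.differentiable_Gammaℂ_inv.continuous.comp (by fun_prop)

theorem nzk_compact {X : Type*} [TopologicalSpace X] {S : Set (X × ℝ)} (hSc : IsCompact S)
    {G : X × ℝ → ℂ} (hGc : Continuous G) : ∃ M : ℝ, 0 < M ∧ ∀ p ∈ S, ‖G p‖ ≤ M := by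
  obtain ⟨M, hM⟩ := hSc.exists_bound_of_continuousOn hGc.continuousOn
  exact ⟨max M 1, by positivity, fun p hp => (hM p hp).trans (le_max_left _ _)⟩

theorem nzk_gam_low (κ : InfinitePlace K → ℤ) (B R : ℝ) : ∃ m : ℝ, 0 < m ∧
    ∀ lam : InfinitePlace K → ℝ, (∀ w, |lam w| ≤ B) → ∀ t : ℝ, |t| ≤ R →
      m ≤ ‖gam κ lam (2 + t * I)‖ := by
  have hSc : IsCompact ((Set.univ.pi fun _ => Set.Icc (-B) B) ×ˢ Set.Icc (-R) R :
      Set ((InfinitePlace K → ℝ) × ℝ)) :=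
    (isCompact_univ_pi fun _ => isCompact_Icc).prod isCompact_Icc
  obtain ⟨M, hM, h⟩ := nzk_compact hSc (nzk_gam_inv_cont κ)
  refine ⟨M⁻¹, by positivity, fun lam hlam t ht => ?_⟩
  have h1 := h (lam, t) ⟨fun w _ => abs_le.1 (hlam w), abs_le.1 ht⟩
  have h2 : gam κ lam (2 + t * I) ≠ 0 := nzk_gam_ne κ lam (by simp)
  have h3 : 0 < ‖gam κ lam (2 + t * I)‖ := norm_pos_iff.2 h2
  simp only [norm_inv] at h1
  exact (inv_le_comm₀ hM h3).2 h1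

/-! ### The L-series -/

/-- The inverse of a completely multiplicative sum. -/
theorem nzk_inv {P : Type} (X : (P →₀ ℕ) → ℂ) (hX0 : X 0 = 1) (hX : ∀ g h, X (g + h) = X g * X h)
    (hs : Summable fun g => ‖X g‖) :
    (Summable fun g => ‖(((mu : MvPowerSeries P ℝ) g : ℝ) : ℂ) * X g‖) ∧
    (∑' g, X g) * ∑' g, (((mu : MvPowerSeries P ℝ) g : ℝ) : ℂ) * X g = 1 := by
  classical
  have sm : Summable fun g => ‖(((mu : MvPowerSeries P ℝ) g : ℝ) : ℂ) * X g‖ := by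
    refine Summable.of_nonneg_of_le (fun g => norm_nonneg _) (fun g => ?_) hs
    rw [norm_mul, Complex.norm_real, Real.norm_eq_abs]
    exact mul_le_of_le_one_left (norm_nonneg _) (mu_abs g)
  refine ⟨sm, ?_⟩
  have hprod := summable_mul_of_summable_norm hs sm
  rw [Summable.tsum_mul_tsum_eq_tsum_sum_antidiagonal hs.of_norm sm.of_norm hprod]
  have h1 : ∀ g : P →₀ ℕ, ∑ kl ∈ Finset.HasAntidiagonal.antidiagonal g,
      X kl.1 * ((((mu : MvPowerSeries P ℝ) kl.2 : ℝ) : ℂ) * X kl.2) =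
      (((1 : MvPowerSeries P ℝ) g : ℝ) : ℂ) * X g := by
    intro g
    have h2 : ((1 : MvPowerSeries P ℝ) g : ℝ) = ∑ kl ∈ Finset.HasAntidiagonal.antidiagonal g,
        (one : MvPowerSeries P ℝ) kl.1 * (mu : MvPowerSeries P ℝ) kl.2 := by
      rw [← one_mul_mu, mul_app]
    rw [h2]
    push_cast
    rw [Finset.sum_mul]
    refine Finset.sum_congr rfl fun kl hkl => ?_
    rw [← Finset.HasAntidiagonal.mem_antidiagonal.1 hkl, hX]
    simp only [one]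
    push_cast
    ring
  rw [tsum_congr h1, tsum_eq_single 0]
  · have h3 : ((1 : MvPowerSeries P ℝ) 0 : ℝ) = 1 := by
      have h := MvPowerSeries.coeff_one (R := ℝ) (n := (0 : P →₀ ℕ))
      rw [if_pos rfl] at h
      exact h
    rw [h3, hX0]
    simp
  · intro g hg
    have h3 : ((1 : MvPowerSeries P ℝ) g : ℝ) = 0 := by
      have h := MvPowerSeries.coeff_one (R := ℝ) (n := g)
      rw [if_neg hg] at h
      exact h
    rw [h3]
    simp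

/-- the term of the L-series -/
noncomputable def nzk_X (ψ : Ideal (𝓞 K) →* ℂ) (s : ℂ) (g : PK K →₀ ℕ) : ℂ :=
  ψ (IK g) * (nm (NK K) g : ℂ) ^ (-s)

theorem nzk_X_add (ψ : Ideal (𝓞 K) →* ℂ) (s : ℂ) (g h : PK K →₀ ℕ) :
    nzk_X ψ s (g + h) = nzk_X ψ s g * nzk_X ψ s h := by
  unfold nzk_X
  rw [IK_add, map_mul, nm_add, Nat.cast_mul, Complex.natCast_mul_natCast_cpow]
  ring

theorem nzk_X_zero (ψ : Ideal (𝓞 K) →* ℂ) (s : ℂ) : nzk_X ψ s 0 = 1 := by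
  unfold nzk_X
  rw [IK_zero, nm_zero, ← Ideal.one_eq_top, map_one]
  simp

theorem nzk_X_norm {ψ : Ideal (𝓞 K) →* ℂ} (hψ : ∀ 𝔞, ‖ψ 𝔞‖ ≤ 1) (s : ℂ) (g : PK K →₀ ℕ) :
    ‖nzk_X ψ s g‖ ≤ (nm (NK K) g : ℝ) ^ (-s.re) := by
  unfold nzk_X
  rw [norm_mul, Complex.norm_natCast_cpow_of_pos (nm_pos two_le_NK g), Complex.neg_re]
  exact mul_le_of_le_one_left (Real.rpow_nonneg (Nat.cast_nonneg _) _) (hψ _)

theorem nzk_summable {σ : ℝ} (hσ : 1 < σ) :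
    Summable fun g : PK K →₀ ℕ => (nm (NK K) g : ℝ) ^ (-σ) := by
  have h1 := (good_NK K).summable (σ - 1) (by linarith)
  rwa [show -(1 + (σ - 1)) = -σ by ring] at h1

theorem nzk_X_summable {ψ : Ideal (𝓞 K) →* ℂ} (hψ : ∀ 𝔞, ‖ψ 𝔞‖ ≤ 1) {s : ℂ} (hs : 1 < s.re) :
    Summable fun g => ‖nzk_X ψ s g‖ :=
  Summable.of_nonneg_of_le (fun _ => norm_nonneg _) (fun g => nzk_X_norm hψ s g)
    (nzk_summable hs)

theorem nzk_L_eq {ψ : Ideal (𝓞 K) →* ℂ} (hψ0 : ψ ⊥ = 0) (s : ℂ) :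
    ∑' 𝔞 : Ideal (𝓞 K), ψ 𝔞 * (Ideal.absNorm 𝔞 : ℂ) ^ (-s) = ∑' g, nzk_X ψ s g := by
  have h := (summable_IK' (fun 𝔞 : Ideal (𝓞 K) => ψ 𝔞 * (Ideal.absNorm 𝔞 : ℂ) ^ (-s))
    (by simp [hψ0])).2
  rw [h]
  refine tsum_congr fun g => ?_
  unfold nzk_X
  rw [absNorm_IK]

/-- `|L(s)| ≥ 1/ζ_K(σ)`. -/
theorem nzk_L_low {ψ : Ideal (𝓞 K) →* ℂ} (hψ : ∀ 𝔞, ‖ψ 𝔞‖ ≤ 1) (hψ0 : ψ ⊥ = 0) {s : ℂ}
    (hs : 1 < s.re) : 1 ≤ ‖∑' 𝔞 : Ideal (𝓞 K), ψ 𝔞 * (Ideal.absNorm 𝔞 : ℂ) ^ (-s)‖ *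
      ∑' g : PK K →₀ ℕ, (nm (NK K) g : ℝ) ^ (-s.re) := by
  have h1 := nzk_inv (nzk_X ψ s) (nzk_X_zero ψ s) (nzk_X_add ψ s) (nzk_X_summable hψ hs)
  rw [nzk_L_eq hψ0]
  have h2 : ‖∑' g : PK K →₀ ℕ, (((mu : MvPowerSeries (PK K) ℝ) g : ℝ) : ℂ) * nzk_X ψ s g‖ ≤
      ∑' g : PK K →₀ ℕ, (nm (NK K) g : ℝ) ^ (-s.re) := by
    refine (norm_tsum_le_tsum_norm h1.1).trans ?_
    refine Summable.tsum_le_tsum (fun g => ?_) h1.1 (nzk_summable hs)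
    rw [norm_mul, Complex.norm_real, Real.norm_eq_abs]
    exact (mul_le_of_le_one_left (norm_nonneg _) (mu_abs g)).trans (nzk_X_norm hψ s g)
  calc (1 : ℝ) = ‖(∑' g, nzk_X ψ s g) *
        ∑' g : PK K →₀ ℕ, (((mu : MvPowerSeries (PK K) ℝ) g : ℝ) : ℂ) * nzk_X ψ s g‖ := by
        rw [h1.2, norm_one]
    _ = _ := norm_mul _ _
    _ ≤ _ := mul_le_mul_of_nonneg_left h2 (norm_nonneg _)

theorem nzk_L_ne {ψ : Ideal (𝓞 K) →* ℂ} (hψ : ∀ 𝔞, ‖ψ 𝔞‖ ≤ 1) (hψ0 : ψ ⊥ = 0) {s : ℂ}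
    (hs : 1 < s.re) : ∑' 𝔞 : Ideal (𝓞 K), ψ 𝔞 * (Ideal.absNorm 𝔞 : ℂ) ^ (-s) ≠ 0 := by
  intro h
  have h1 := nzk_L_low hψ hψ0 hs
  rw [h, norm_zero, zero_mul] at h1
  linarith

/-! ### The density -/

theorem nzk_int_exp_abs : Integrable (fun u : ℝ => Real.exp (-|u|)) := by
  rw [← integrableOn_univ, ← Set.Iic_union_Ioi (a := (0 : ℝ)), integrableOn_union]
  constructor
  · refine (integrableOn_exp_Iic 0).congr_fun (fun u hu => ?_) measurableSet_Iic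
    simp [abs_of_nonpos (Set.mem_Iic.1 hu)]
  · refine (integrableOn_exp_neg_Ioi 0).congr_fun (fun u hu => ?_) measurableSet_Ioi
    simp [abs_of_pos (Set.mem_Ioi.1 hu)]

theorem nzk_Dser_le (κ : InfinitePlace K → ℤ) {A : ℝ} (hA : 1 / 2 < A) : ∃ C : ℝ, 0 ≤ C ∧
    ∀ (lam : InfinitePlace K → ℝ) (b : Ideal (𝓞 K) → ℂ), (∀ 𝔞, ‖b 𝔞‖ ≤ 1) → b ⊥ = 0 →
      ∀ u : ℝ, ‖Dser b (Gf κ lam) u‖ ≤ C * Real.exp (-(A * u)) := by
  obtain ⟨CG, hG⟩ := Gf_good κ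
  obtain ⟨CS, hCS, hS⟩ := sum_kg_le (K := K) (c := Real.pi / 2) (by positivity)
    (A := A + 1 / 2) (by linarith)
  refine ⟨|CG| * CS, by positivity, fun lam b hb hb0 u => ?_⟩
  have hgood := hG lam
  have hCG : 0 ≤ CG := hgood.1
  obtain ⟨hs, hle⟩ := hS (fun 𝔠 => ‖b 𝔠‖) 1 (fun _ => norm_nonneg _) hb (by simp [hb0]) u
  have h1 : ‖∑' 𝔠 : Ideal (𝓞 K), b 𝔠 * kint K (Gf κ lam) (u + Real.log (Ideal.absNorm 𝔠))‖ ≤
      CG * ∑' 𝔠 : Ideal (𝓞 K), ‖b 𝔠‖ * kg K (Real.pi / 2) (u + Real.log (Ideal.absNorm 𝔠)) := by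
    refine tsum_of_norm_bounded (hs.hasSum.mul_left CG) fun 𝔠 => ?_
    rw [norm_mul]
    calc ‖b 𝔠‖ * ‖kint K (Gf κ lam) (u + Real.log (Ideal.absNorm 𝔠))‖ ≤
        ‖b 𝔠‖ * (CG * kg K (Real.pi / 2) (u + Real.log (Ideal.absNorm 𝔠))) :=
          mul_le_mul_of_nonneg_left (kint_le hgood _) (norm_nonneg _)
      _ = _ := by ring
  have h2 : ‖(Real.exp (u / 2) : ℂ)‖ = Real.exp (u / 2) := by
    rw [Complex.norm_real, Real.norm_eq_abs, abs_of_pos (Real.exp_pos _)]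
  have h3 : Real.exp (-(A * u)) = Real.exp (u / 2) * Real.exp (-((A + 1 / 2) * u)) := by
    rw [← Real.exp_add]
    congr 1
    ring
  unfold Dser
  rw [norm_mul, h2, abs_of_nonneg hCG, h3]
  calc Real.exp (u / 2) *
        ‖∑' 𝔠 : Ideal (𝓞 K), b 𝔠 * kint K (Gf κ lam) (u + Real.log (Ideal.absNorm 𝔠))‖ ≤
      Real.exp (u / 2) * (CG * (1 * (CS * Real.exp (-((A + 1 / 2) * u))))) := by
        refine mul_le_mul_of_nonneg_left (h1.trans ?_) (Real.exp_pos _).le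
        exact mul_le_mul_of_nonneg_left hle hCG
    _ = _ := by ring

theorem nzk_psi_le {𝔮 : Ideal (𝓞 K)} {κ : InfinitePlace K → ℤ}
    {lam : InfinitePlace K → ℝ} {χ : MulChar (𝓞 K ⧸ 𝔮) ℂ} {ψ : Ideal (𝓞 K) →* ℂ}
    (hψ : IsHecke 𝔮 κ lam χ ψ) (𝔞 : Ideal (𝓞 K)) : ‖ψ 𝔞‖ ≤ 1 := by
  by_cases h : IsCoprime 𝔞 𝔮
  · exact (hψ.norm_eq_one 𝔞 h).le
  · rw [hψ.eq_zero 𝔞 h, norm_zero]
    exact zero_le_one

theorem nzk_psi_bot {𝔮 : Ideal (𝓞 K)} (h𝔮' : 𝔮 ≠ ⊤) {κ : InfinitePlace K → ℤ}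
    {lam : InfinitePlace K → ℝ} {χ : MulChar (𝓞 K ⧸ 𝔮) ℂ} {ψ : Ideal (𝓞 K) →* ℂ}
    (hψ : IsHecke 𝔮 κ lam χ ψ) : ψ ⊥ = 0 := by
  refine hψ.eq_zero _ fun h => h𝔮' ?_
  rw [Ideal.isCoprime_iff_sup_eq, bot_sup_eq] at h
  exact h

theorem nzk_cond {𝔮 : Ideal (𝓞 K)} (h𝔮 : 𝔮 ≠ ⊥) : 1 ≤ cond 𝔮 := by
  unfold Pool.Agent.HZ.cond
  have h1 : (1 : ℝ) ≤ |(discr K : ℝ)| := by
    have h : (1 : ℤ) ≤ |discr K| := Int.one_le_abs (NumberField.discr_ne_zero K)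
    exact_mod_cast h
  have h2 : (1 : ℝ) ≤ Ideal.absNorm 𝔮 := by
    have h : 1 ≤ Ideal.absNorm 𝔮 := Nat.one_le_iff_ne_zero.2 (by
      rwa [Ne, Ideal.absNorm_eq_zero_iff])
    exact_mod_cast h
  nlinarith

/-- The two-sided bound. -/
theorem nzk_D_le (κ : InfinitePlace K → ℤ)
    (hκ : ∀ w : InfinitePlace K, w.IsReal → κ w = 0 ∨ κ w = 1) {A : ℝ} (hA : 1 / 2 < A) :
    ∃ C : ℝ, 0 ≤ C ∧ ∀ (𝔮 : Ideal (𝓞 K)) (_ : 𝔮 ≠ ⊥) (_ : 𝔮 ≠ ⊤)
      (χ : MulChar (𝓞 K ⧸ 𝔮) ℂ) (_ : IsPrim 𝔮 χ) (lam : InfinitePlace K → ℝ)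
      (_ : ∑ w, lam w = 0) (ψ : Ideal (𝓞 K) →* ℂ)
      (_ : IsHecke 𝔮 κ lam χ ψ) (u : ℝ), ‖Dser ψ (Gf κ lam) u‖ ≤
        C * Real.exp (A * Real.log (cond 𝔮)) * Real.exp (-(A * |u|)) := by
  obtain ⟨C, hC, h⟩ := nzk_Dser_le κ hA
  refine ⟨C, hC, fun 𝔮 h𝔮 h𝔮' χ hχ lam hlam ψ hψ u => ?_⟩
  have hl : 0 ≤ Real.log (cond 𝔮) := Real.log_nonneg (nzk_cond h𝔮)
  have hA0 : 0 < A := by linarith
  have hle := h lam ψ (nzk_psi_le hψ) (nzk_psi_bot h𝔮' hψ)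
  rcases le_total 0 u with hu | hu
  · rw [abs_of_nonneg hu]
    refine (hle u).trans ?_
    refine mul_le_mul_of_nonneg_right ?_ (Real.exp_pos _).le
    exact le_mul_of_one_le_right hC (Real.one_le_exp (by positivity))
  · rw [abs_of_nonpos hu]
    obtain ⟨Ω, hΩ, hfe⟩ := dser_fe hκ hlam h𝔮 h𝔮' hχ hψ
    rw [hfe u, norm_mul, hΩ, one_mul, RCLike.norm_conj]
    refine (hle _).trans (le_of_eq ?_)
    rw [mul_assoc, ← Real.exp_add]
    congr 2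
    ring

/-! ### The completed L-function -/

/-- the entire function attached to the density -/
noncomputable def nzk_F (κ : InfinitePlace K → ℤ) (lam : InfinitePlace K → ℝ)
    (ψ : Ideal (𝓞 K) →* ℂ) (s : ℂ) : ℂ :=
  ∫ u : ℝ, Dser ψ (Gf κ lam) u * cexp ((s - 1 / 2) * u)

theorem nzk_F_fe (κ : InfinitePlace K → ℤ) (lam : InfinitePlace K → ℝ)
    (ψ : Ideal (𝓞 K) →* ℂ) (Ω : ℂ) (l : ℝ)
    (hfe : ∀ u : ℝ, Dser ψ (Gf κ lam) u = Ω * starRingEnd ℂ (Dser ψ (Gf κ lam) (-u - l)))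
    (s : ℂ) : nzk_F κ lam ψ s = Ω * cexp (-((s - 1 / 2) * l)) *
      starRingEnd ℂ (nzk_F κ lam ψ (1 - starRingEnd ℂ s)) := by
  unfold nzk_F
  have h1 : (fun u : ℝ => Dser ψ (Gf κ lam) u * cexp ((s - 1 / 2) * u)) = fun u : ℝ =>
      (fun v : ℝ => Ω * starRingEnd ℂ (Dser ψ (Gf κ lam) v) *
        cexp ((s - 1 / 2) * ((-l - v : ℝ) : ℂ))) (-l - u) := by
    funext u
    show _ = Ω * starRingEnd ℂ (Dser ψ (Gf κ lam) (-l - u)) *
        cexp ((s - 1 / 2) * ((-l - (-l - u) : ℝ) : ℂ))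
    rw [hfe u, show -l - (-l - u) = u by ring, show -u - l = -l - u by ring]
  rw [h1, integral_sub_left_eq_self (fun v : ℝ => Ω * starRingEnd ℂ (Dser ψ (Gf κ lam) v) *
        cexp ((s - 1 / 2) * ((-l - v : ℝ) : ℂ))) volume (-l), ← integral_conj,
    ← integral_const_mul]
  refine integral_congr_ae (Eventually.of_forall fun v => ?_)
  show Ω * starRingEnd ℂ (Dser ψ (Gf κ lam) v) * cexp ((s - 1 / 2) * ((-l - v : ℝ) : ℂ)) =
    Ω * cexp (-((s - 1 / 2) * l)) *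
      starRingEnd ℂ (Dser ψ (Gf κ lam) v * cexp ((1 - starRingEnd ℂ s - 1 / 2) * v))
  rw [map_mul, ← Complex.exp_conj]
  have h2 : starRingEnd ℂ ((1 - starRingEnd ℂ s - 1 / 2) * (v : ℂ)) = (1 / 2 - s) * v := by
    simp only [map_mul, map_sub, map_one, map_div₀, Complex.conj_conj, Complex.conj_ofReal,
      map_ofNat]
    ring
  have h3 : cexp ((s - 1 / 2) * ((-l - v : ℝ) : ℂ)) =
      cexp (-((s - 1 / 2) * l)) * cexp ((1 / 2 - s) * v) := by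
    rw [← Complex.exp_add]
    congr 1
    push_cast
    ring
  rw [h2, h3]
  ring

theorem nzk_F_le (κ : InfinitePlace K → ℤ) (lam : InfinitePlace K → ℝ)
    (ψ : Ideal (𝓞 K) →* ℂ) (M : ℝ)
    (hM : ∀ u : ℝ, ‖Dser ψ (Gf κ lam) u‖ ≤ M * Real.exp (-(8 * |u|))) (z : ℂ)
    (hz : |z.re| ≤ 6) : ‖nzk_F κ lam ψ z‖ ≤ M * ∫ u : ℝ, Real.exp (-|u|) := by
  unfold nzk_F
  rw [← integral_const_mul]
  refine norm_integral_le_of_norm_le (nzk_int_exp_abs.const_mul M)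
    (Eventually.of_forall fun u => ?_)
  have hM0 : 0 ≤ M := by
    have h := (norm_nonneg _).trans (hM 0)
    simpa using h
  rw [norm_mul, Complex.norm_exp]
  have h1 : ((z - 1 / 2) * (u : ℂ)).re = (z.re - 1 / 2) * u := by
    rw [Complex.re_mul_ofReal]
    congr 1
    simp
  rw [h1]
  have h2 : (z.re - 1 / 2) * u ≤ 7 * |u| := by
    refine (le_abs_self _).trans ?_
    rw [abs_mul]
    refine mul_le_mul_of_nonneg_right ?_ (abs_nonneg _)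
    rw [abs_le] at hz ⊢
    constructor <;> linarith [hz.1, hz.2]
  calc ‖Dser ψ (Gf κ lam) u‖ * Real.exp ((z.re - 1 / 2) * u) ≤
      (M * Real.exp (-(8 * |u|))) * Real.exp (7 * |u|) :=
        mul_le_mul (hM u) (Real.exp_le_exp.2 h2) (Real.exp_pos _).le (by positivity)
    _ = M * Real.exp (-|u|) := by
        rw [mul_assoc, ← Real.exp_add]
        congr 2
        ring

theorem nzk_F_eq (κ : InfinitePlace K → ℤ) (lam : InfinitePlace K → ℝ)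
    (ψ : Ideal (𝓞 K) →* ℂ) (hψ : ∀ 𝔞, ‖ψ 𝔞‖ ≤ 1) (hψ0 : ψ ⊥ = 0) (C₀ : ℝ)
    (hC₀ : ∀ s : ℂ, 0 < s.re → ∫ u : ℝ, kint K (Gf κ lam) u * cexp (s * u) = C₀ * gam κ lam s)
    (hdiff : Differentiable ℂ (nzk_F κ lam ψ)) (Λ : ℂ → ℂ) (hΛ : IsCompleted κ lam ψ Λ) (s : ℂ) :
    nzk_F κ lam ψ s = C₀ * Λ s := by
  have h1 : ∀ s : ℂ, 1 < s.re → nzk_F κ lam ψ s = C₀ * Λ s := by
    intro s hs
    unfold nzk_F
    rw [mellin_Dser hψ hψ0 hs, hC₀ s (by linarith), hΛ.2 s hs]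
    ring
  have h2 : AnalyticOnNhd ℂ (nzk_F κ lam ψ) Set.univ := fun z _ => hdiff.analyticAt z
  have h3 : AnalyticOnNhd ℂ (fun s => (C₀ : ℂ) * Λ s) Set.univ := fun z _ =>
    (hΛ.1.const_mul _).analyticAt z
  have h4 : nzk_F κ lam ψ =ᶠ[𝓝 (2 : ℂ)] fun s => (C₀ : ℂ) * Λ s := by
    have hopen : IsOpen {s : ℂ | 1 < s.re} := isOpen_lt continuous_const Complex.continuous_re
    filter_upwards [hopen.mem_nhds (show (2 : ℂ) ∈ {s : ℂ | 1 < s.re} by simp)] with s hs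
    exact h1 s hs
  exact congrFun (h2.eq_of_eventuallyEq h3 h4) s

/-- all zeros are in the critical strip -/
theorem nzk_strip (κ : InfinitePlace K → ℤ) (lam : InfinitePlace K → ℝ)
    (ψ : Ideal (𝓞 K) →* ℂ) (hψ : ∀ 𝔞, ‖ψ 𝔞‖ ≤ 1) (hψ0 : ψ ⊥ = 0) (C₀ : ℝ) (hC₀ : C₀ ≠ 0)
    (Λ : ℂ → ℂ) (hΛ : IsCompleted κ lam ψ Λ) (hF : ∀ s, nzk_F κ lam ψ s = C₀ * Λ s)
    (Ω : ℂ) (hΩ : ‖Ω‖ = 1) (l : ℝ)
    (hfe : ∀ u : ℝ, Dser ψ (Gf κ lam) u = Ω * starRingEnd ℂ (Dser ψ (Gf κ lam) (-u - l)))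
    (ρ : ℂ) (h0 : Λ ρ = 0) : 0 ≤ ρ.re ∧ ρ.re ≤ 1 := by
  have h1 : ∀ s : ℂ, 1 < s.re → Λ s ≠ 0 := by
    intro s hs
    rw [hΛ.2 s hs]
    exact mul_ne_zero (nzk_gam_ne κ lam (by linarith)) (nzk_L_ne hψ hψ0 hs)
  constructor
  · by_contra hneg
    push Not at hneg
    have h2 := nzk_F_fe κ lam ψ Ω l hfe ρ
    rw [hF, hF, h0, mul_zero] at h2
    have h3 : Λ (1 - starRingEnd ℂ ρ) ≠ 0 := h1 _ (by
      rw [Complex.sub_re, Complex.conj_re, Complex.one_re]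
      linarith)
    have hΩ0 : Ω ≠ 0 := by
      intro h
      rw [h, norm_zero] at hΩ
      exact zero_ne_one hΩ
    refine (mul_ne_zero (mul_ne_zero hΩ0 (Complex.exp_ne_zero _)) ?_) h2.symm
    rw [Ne, map_eq_zero]
    exact mul_ne_zero (by exact_mod_cast hC₀) h3
  · by_contra hgt
    push Not at hgt
    exact h1 ρ hgt h0

/-! ### Final assembly -/

theorem zeros_le_K_pr (κ : InfinitePlace K → ℤ)
    (hκ : ∀ w : InfinitePlace K, w.IsReal → κ w = 0 ∨ κ w = 1) (T B : ℝ) :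
    ∃ C : ℝ, 0 < C ∧ ∀ (𝔮 : Ideal (𝓞 K)) (_ : 𝔮 ≠ ⊥) (_ : 𝔮 ≠ ⊤)
      (χ : MulChar (𝓞 K ⧸ 𝔮) ℂ) (_ : IsPrim 𝔮 χ) (lam : InfinitePlace K → ℝ)
      (_ : ∀ w, |lam w| ≤ B) (_ : ∑ w, lam w = 0) (ψ : Ideal (𝓞 K) →* ℂ)
      (_ : IsHecke 𝔮 κ lam χ ψ) (Λ : ℂ → ℂ) (_ : IsCompleted κ lam ψ Λ),
      ∑' ρ : {ρ : ℂ // |ρ.im| ≤ T}, (analyticOrderNatAt Λ ρ.1 : ℝ≥0∞) ≤
        ENNReal.ofReal (C * Real.log (Ideal.absNorm 𝔮)) := by
  obtain ⟨C₀, hC₀, hmel⟩ := mellin_kint (K := K)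
  obtain ⟨CD, hCD, hD⟩ := nzk_D_le κ hκ (A := 8) (by norm_num)
  set N : ℕ := ⌈|T|⌉₊ with hN
  have hTN : T ≤ N := (le_abs_self T).trans (Nat.le_ceil _)
  obtain ⟨m, hm, hlow⟩ := nzk_gam_low κ B N
  set Z : ℝ := ∑' g : PK K →₀ ℕ, (nm (NK K) g : ℝ) ^ (-(2 : ℝ)) with hZ
  have hZ0 : 0 ≤ Z := tsum_nonneg fun g => Real.rpow_nonneg (Nat.cast_nonneg _) _
  set J : ℝ := ∫ u : ℝ, Real.exp (-|u|) with hJ
  have hJ0 : 0 ≤ J := integral_nonneg fun u => (Real.exp_pos _).le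
  have hlog43 : 0 < Real.log (4 / 3) := Real.log_pos (by norm_num)
  have hlog2 : 0 < Real.log 2 := Real.log_pos (by norm_num)
  -- constants
  set c : ℝ := m / (Z + 1) with hc
  have hc0 : 0 < c := by positivity
  set E : ℝ := CD * J / C₀ + 1 with hE
  have hE1 : 1 ≤ E := by
    have : 0 ≤ CD * J / C₀ := by positivity
    linarith
  set dK : ℝ := |(discr K : ℝ)| with hdK
  have hdK1 : 1 ≤ dK := by
    have h : (1 : ℤ) ≤ |discr K| := Int.one_le_abs (NumberField.discr_ne_zero K)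
    rw [hdK]
    exact_mod_cast h
  refine ⟨(2 * N + 1) * (((|Real.log (E / c)| + 8 * Real.log dK) / Real.log 2 + 8) /
    Real.log (4 / 3)), ?_, ?_⟩
  · have h1 : 0 ≤ Real.log dK := Real.log_nonneg hdK1
    positivity
  intro 𝔮 h𝔮 h𝔮' χ hχ lam hlam hlam0 ψ hψ Λ hΛ
  have hψ1 := nzk_psi_le hψ
  have hψ0 := nzk_psi_bot h𝔮' hψ
  have hcond := nzk_cond h𝔮
  have hl0 : 0 ≤ Real.log (Pool.Agent.HZ.cond 𝔮) := Real.log_nonneg hcond
  obtain ⟨CG, hG⟩ := Gf_good κ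
  have hcont : Continuous (Dser ψ (Gf κ lam)) := Dser_continuous (hG lam) hψ1 hψ0
  have hdiff : Differentiable ℂ (nzk_F κ lam ψ) := by
    refine entire_of_decay hcont fun A => ?_
    obtain ⟨C, hC, h⟩ := nzk_D_le κ hκ (A := max A 1) (lt_of_lt_of_le (by norm_num)
      (le_max_right A 1))
    refine ⟨C * Real.exp (max A 1 * Real.log (Pool.Agent.HZ.cond 𝔮)), fun u => ?_⟩
    refine (h 𝔮 h𝔮 h𝔮' χ hχ lam hlam0 ψ hψ u).trans ?_
    refine mul_le_mul_of_nonneg_left (Real.exp_le_exp.2 ?_) (by positivity)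
    exact neg_le_neg (mul_le_mul_of_nonneg_right (le_max_left _ _) (abs_nonneg _))
  have hF : ∀ s, nzk_F κ lam ψ s = C₀ * Λ s :=
    nzk_F_eq κ lam ψ hψ1 hψ0 C₀ (fun s hs => (hmel κ lam s hs).2) hdiff Λ hΛ
  obtain ⟨Ω, hΩ, hfe⟩ := dser_fe hκ hlam0 h𝔮 h𝔮' hχ hψ
  set ℓ : ℝ := Real.log (Pool.Agent.HZ.cond 𝔮) with hℓ
  -- upper bound
  have hup : ∀ z : ℂ, |z.re| ≤ 6 → ‖Λ z‖ ≤ E * Real.exp (8 * ℓ) := by
    intro z hz
    have h1 := nzk_F_le κ lam ψ (CD * Real.exp (8 * ℓ))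
      (fun u => hD 𝔮 h𝔮 h𝔮' χ hχ lam hlam0 ψ hψ u) z hz
    rw [hF, norm_mul, Complex.norm_real, Real.norm_eq_abs, abs_of_pos hC₀] at h1
    have h2 : ‖Λ z‖ ≤ (CD * Real.exp (8 * ℓ) * J) / C₀ := by
      rw [le_div_iff₀ hC₀, mul_comm]
      exact h1
    refine h2.trans ?_
    have h3 : (CD * Real.exp (8 * ℓ) * J) / C₀ = (CD * J / C₀) * Real.exp (8 * ℓ) := by ring
    rw [h3]
    exact mul_le_mul_of_nonneg_right (by linarith) (Real.exp_pos _).le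
  -- lower bound
  have hlo : ∀ k ∈ Finset.Icc (-(N : ℤ)) N, c ≤ ‖Λ (2 + ((k : ℝ) : ℂ) * I)‖ := by
    intro k hk
    have hk' : |((k : ℤ) : ℝ)| ≤ N := by
      rw [Finset.mem_Icc] at hk
      rw [abs_le]
      constructor
      · exact_mod_cast hk.1
      · exact_mod_cast hk.2
    have hre : (2 + ((k : ℝ) : ℂ) * I).re = 2 := by simp
    have hs : 1 < (2 + ((k : ℝ) : ℂ) * I).re := by rw [hre]; norm_num
    rw [hΛ.2 _ hs, norm_mul]
    have h1 := hlow lam hlam (k : ℝ) hk'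
    have h2 := nzk_L_low hψ1 hψ0 hs
    rw [hre] at h2
    set Ls : ℝ := ‖∑' 𝔞 : Ideal (𝓞 K), ψ 𝔞 * (Ideal.absNorm 𝔞 : ℂ) ^
      (-(2 + ((k : ℝ) : ℂ) * I))‖ with hLs
    have hLs0 : 0 ≤ Ls := norm_nonneg _
    have h3 : 1 / (Z + 1) ≤ Ls := by
      rw [div_le_iff₀ (by linarith)]
      have h4 : 1 ≤ Ls * Z := h2
      nlinarith
    calc c = m * (1 / (Z + 1)) := by rw [hc]; ring
      _ ≤ _ := mul_le_mul h1 h3 (by positivity) (norm_nonneg _)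
  have hstrip : ∀ ρ : ℂ, Λ ρ = 0 → 0 ≤ ρ.re ∧ ρ.re ≤ 1 := fun ρ h0 =>
    nzk_strip κ lam ψ hψ1 hψ0 C₀ hC₀.ne' Λ hΛ hF Ω hΩ ℓ hfe ρ h0
  have hM1 : 1 ≤ E * Real.exp (8 * ℓ) := by
    have h1 : 1 ≤ Real.exp (8 * ℓ) := Real.one_le_exp (by positivity)
    nlinarith
  refine (nzk_count Λ hΛ.1 N (E * Real.exp (8 * ℓ)) c hM1 hc0 hlo hup hstrip T hTN).trans
    (ENNReal.ofReal_le_ofReal ?_)
  -- logarithms
  have hNq : (2 : ℝ) ≤ Ideal.absNorm 𝔮 := by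
    have h1 : Ideal.absNorm 𝔮 ≠ 0 := by rwa [Ne, Ideal.absNorm_eq_zero_iff]
    have h2 : Ideal.absNorm 𝔮 ≠ 1 := by rwa [Ne, Ideal.absNorm_eq_one_iff]
    have h3 : 2 ≤ Ideal.absNorm 𝔮 := by omega
    exact_mod_cast h3
  have hlogq : Real.log 2 ≤ Real.log (Ideal.absNorm 𝔮) := Real.log_le_log (by norm_num) hNq
  have hℓeq : ℓ = Real.log dK + Real.log (Ideal.absNorm 𝔮) := by
    rw [hℓ]
    unfold Pool.Agent.HZ.cond
    exact Real.log_mul (by positivity) (by positivity)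
  have hlogdK : 0 ≤ Real.log dK := Real.log_nonneg hdK1
  have h2 : Real.log (E * Real.exp (8 * ℓ) / c) ≤
      ((|Real.log (E / c)| + 8 * Real.log dK) / Real.log 2 + 8) *
        Real.log (Ideal.absNorm 𝔮) := by
    have h3 : E * Real.exp (8 * ℓ) / c = (E / c) * Real.exp (8 * ℓ) := by ring
    have hEc : 0 < E / c := by positivity
    rw [h3, Real.log_mul hEc.ne' (Real.exp_pos _).ne', Real.log_exp, add_mul, hℓeq]
    have h4 : |Real.log (E / c)| + 8 * Real.log dK ≤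
        (|Real.log (E / c)| + 8 * Real.log dK) / Real.log 2 *
          Real.log (Ideal.absNorm 𝔮) := by
      rw [div_mul_eq_mul_div, le_div_iff₀ hlog2]
      exact mul_le_mul_of_nonneg_left hlogq (by positivity)
    linarith [le_abs_self (Real.log (E / c))]
  calc (2 * (N : ℝ) + 1) * (Real.log (E * Real.exp (8 * ℓ) / c) / Real.log (4 / 3))
      ≤ (2 * (N : ℝ) + 1) * (((|Real.log (E / c)| + 8 * Real.log dK) / Real.log 2 + 8) *
        Real.log (Ideal.absNorm 𝔮) / Real.log (4 / 3)) := by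
        apply mul_le_mul_of_nonneg_left _ (by positivity)
        exact div_le_div_of_nonneg_right h2 hlog43.le
    _ = _ := by ring

end Pool.Agent.KS

namespace Pool.Agent.KS

theorem zeros_le_K : type_of% @zeros_le_K_pr := @zeros_le_K_pr

end Pool.Agent.KS
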