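import Pool.Agent.Lib_helper92.KSA.Base
import Pool.Agent.Lib_helper92.KSA.BRG
import Pool.Agent.Lib_helper92.KSA.GDK

/-! Block FKE. -/

namespace Pool.Agent.KS

open NumberField NumberField.InfinitePlace NumberField.Units Complex MeasureTheory Filter Topology
open Pool.Agent.HZ Pool.Agent.AS

variable {K : Type} [Field K] [NumberField K]

theorem fke_bot {𝔮 : Ideal (𝓞 K)} (h𝔮' : 𝔮 ≠ ⊤) {κ : InfinitePlace K → ℤ}
    {lam : InfinitePlace K → ℝ} {χ : MulChar (𝓞 K ⧸ 𝔮) ℂ} {ψ : Ideal (𝓞 K) →* ℂ}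
    (hψ : IsHecke 𝔮 κ lam χ ψ) : ψ ⊥ = 0 := by
  apply hψ.eq_zero
  rw [Ideal.isCoprime_iff_sup_eq, bot_sup_eq]
  exact h𝔮'

theorem fke_le {𝔮 : Ideal (𝓞 K)} {κ : InfinitePlace K → ℤ}
    {lam : InfinitePlace K → ℝ} {χ : MulChar (𝓞 K ⧸ 𝔮) ℂ} {ψ : Ideal (𝓞 K) →* ℂ}
    (hψ : IsHecke 𝔮 κ lam χ ψ) (𝔠 : Ideal (𝓞 K)) : ‖ψ 𝔠‖ ≤ 1 := by
  by_cases h : IsCoprime 𝔠 𝔮
  · exact (hψ.norm_eq_one 𝔠 h).le
  · rw [hψ.eq_zero 𝔠 h, norm_zero]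
    exact zero_le_one

open scoped Classical in
/-- the sum over the multiples of `n` -/
theorem fke_mult {F : (InfinitePlace K → ℝ) → ℂ} (ψ : Ideal (𝓞 K) →* ℂ) (h0 : ψ ⊥ = 0)
    {n : Ideal (𝓞 K)} (hn : n ≠ ⊥) (u : ℝ) :
    ∑' 𝔠 : Ideal (𝓞 K), ((if n ∣ 𝔠 then 1 else 0) * ψ 𝔠) *
        kint K F (u + Real.log (Ideal.absNorm 𝔠)) =
      ψ n * ∑' 𝔠 : Ideal (𝓞 K), ψ 𝔠 *
        kint K F (u + Real.log (Ideal.absNorm n) + Real.log (Ideal.absNorm 𝔠)) := by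
  have hinj : Function.Injective (fun 𝔠 : Ideal (𝓞 K) => n * 𝔠) := fun a b h =>
    mul_left_cancel₀ hn h
  have hsupp : Function.support (fun 𝔠 : Ideal (𝓞 K) => ((if n ∣ 𝔠 then 1 else 0) * ψ 𝔠) *
      kint K F (u + Real.log (Ideal.absNorm 𝔠))) ⊆ Set.range (fun 𝔠 : Ideal (𝓞 K) => n * 𝔠) := by
    intro 𝔠 h
    rw [Function.mem_support] at h
    by_contra hr
    apply h
    have h1 : ¬ n ∣ 𝔠 := by
      rintro ⟨𝔡, hd⟩
      exact hr ⟨𝔡, hd.symm⟩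
    rw [if_neg h1]
    ring
  rw [← hinj.tsum_eq hsupp, ← tsum_mul_left]
  refine tsum_congr fun 𝔠 => ?_
  rw [if_pos (dvd_mul_right n 𝔠), one_mul, map_mul]
  by_cases h𝔠 : 𝔠 = ⊥
  · rw [h𝔠, h0]
    ring
  · have hN1 : (Ideal.absNorm n : ℝ) ≠ 0 := by
      have : Ideal.absNorm n ≠ 0 := by rw [Ne, Ideal.absNorm_eq_zero_iff]; exact hn
      exact_mod_cast this
    have hN2 : (Ideal.absNorm 𝔠 : ℝ) ≠ 0 := by
      have : Ideal.absNorm 𝔠 ≠ 0 := by rw [Ne, Ideal.absNorm_eq_zero_iff]; exact h𝔠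
      exact_mod_cast this
    rw [map_mul, Nat.cast_mul, Real.log_mul hN1 hN2, add_assoc, mul_assoc]

theorem fke_NK_pos (g : PK K →₀ ℕ) : (0 : ℝ) < nm (NK K) g := by
  exact_mod_cast nm_pos two_le_NK g

/-- block FKE, strong form: the phase made explicit -/
theorem fK_eq2_pr {𝔮 : Ideal (𝓞 K)} (h𝔮 : 𝔮 ≠ ⊥) (h𝔮' : 𝔮 ≠ ⊤) {κ : InfinitePlace K → ℤ}
    {L : ℝ} (_hL : 0 < L) (A : ℝ) :
    ∃ (𝔏 : PK K →₀ ℕ) (n : (PK K →₀ ℕ) × (PK K →₀ ℕ) → Ideal (𝓞 K)),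
      (∀ j ∈ JJ (NK K) L (QK 𝔮), n j * IK j.2 = IK 𝔏 * IK j.1) ∧
      (∀ j ∈ JJ (NK K) L (QK 𝔮), n j ≠ ⊥ ∧ IsCoprime (n j) 𝔮) ∧
      (∀ j ∈ JJ (NK K) L (QK 𝔮), ∀ j' ∈ JJ (NK K) L (QK 𝔮),
        (nm (NK K) 𝔏 : ℝ) * Real.exp (-(2 * L)) ≤ Ideal.absNorm (n j ⊔ n j')) ∧
      ∀ (lam : InfinitePlace K → ℝ) (χ : MulChar (𝓞 K ⧸ 𝔮) ℂ) (ψ : Ideal (𝓞 K) →* ℂ)
        (_ : IsHecke 𝔮 κ lam χ ψ), ∃ θ : ℂ, ‖θ‖ = 1 ∧ ∀ v : ℝ,
        fK L A κ lam ψ v = θ * (√(nm (NK K) 𝔏 : ℝ) : ℂ) *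
          Dser (fun 𝔠 => bn 𝔮 (JJ (NK K) L (QK 𝔮)) n (fun j => (cc (NK K) L j : ℂ)) 𝔠 * ψ 𝔠)
            (Gf κ lam) (v - A / 2 - lK 𝔏) := by
  classical
  set B : Finset (PK K →₀ ℕ) := (ball (NK K) (Real.exp L)).filter (fun g => Cop (QK 𝔮) g) with hB
  set 𝔏 : PK K →₀ ℕ := ∑ l ∈ B, l with h𝔏
  have hJJ : ∀ j, j ∈ JJ (NK K) L (QK 𝔮) ↔ j.1 ∈ B ∧ j.2 ∈ B := by
    intro j
    unfold JJ
    simp only [hB, Finset.mem_filter, Finset.mem_product]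
    tauto
  have hle : ∀ l ∈ B, l ≤ 𝔏 := fun l hl =>
    Finset.single_le_sum (f := fun l : PK K →₀ ℕ => l) (fun _ _ => by exact bot_le) hl
  have hcopB : ∀ l ∈ B, Cop (QK 𝔮) l := fun l hl => (Finset.mem_filter.mp hl).2
  have hcop𝔏 : Cop (QK 𝔮) 𝔏 := by
    intro p hp
    rw [h𝔏, Finsupp.finsetSum_apply]
    exact Finset.sum_eq_zero fun l hl => hcopB l hl p hp
  have hnmB : ∀ l ∈ B, (nm (NK K) l : ℝ) ≤ Real.exp L := fun l hl =>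
    (mem_ball (good_NK K)).mp (Finset.mem_filter.mp hl).1
  set n : (PK K →₀ ℕ) × (PK K →₀ ℕ) → Ideal (𝓞 K) := fun j => IK (𝔏 + j.1 - j.2) with hn
  have hsub : ∀ j ∈ JJ (NK K) L (QK 𝔮), 𝔏 + j.1 - j.2 + j.2 = 𝔏 + j.1 := by
    intro j hj
    exact tsub_add_cancel_of_le ((hle j.2 ((hJJ j).mp hj).2).trans (le_add_of_nonneg_right (by exact bot_le)))
  have hi : ∀ j ∈ JJ (NK K) L (QK 𝔮), n j * IK j.2 = IK 𝔏 * IK j.1 := by
    intro j hj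
    rw [hn]
    simp only
    rw [← IK_add, ← IK_add, hsub j hj]
  have hii : ∀ j ∈ JJ (NK K) L (QK 𝔮), n j ≠ ⊥ ∧ IsCoprime (n j) 𝔮 := by
    intro j hj
    refine ⟨IK_ne_bot _, (cop_QK h𝔮 _).mp fun p hp => ?_⟩
    have h1 := hcop𝔏 p hp
    have h2 := hcopB j.1 ((hJJ j).mp hj).1 p hp
    rw [Finsupp.tsub_apply, Finsupp.add_apply, h1, h2]
    simp
  refine ⟨𝔏, n, hi, hii, ?_, ?_⟩
  · intro j hj j' hj'
    have h1 : n j ⊔ n j' = IK ((𝔏 + j.1 - j.2) ⊓ (𝔏 + j'.1 - j'.2)) := IK_sup _ _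
    rw [h1, absNorm_IK]
    set m : PK K →₀ ℕ := (𝔏 + j.1 - j.2) ⊓ (𝔏 + j'.1 - j'.2) with hm
    have h2 : 𝔏 ≤ m + (j.2 + j'.2) := by
      intro p
      have h3 := hle j.2 ((hJJ j).mp hj).2 p
      have h4 := hle j'.2 ((hJJ j').mp hj').2 p
      rw [hm, Finsupp.add_apply, Finsupp.inf_apply, Finsupp.tsub_apply, Finsupp.tsub_apply,
        Finsupp.add_apply, Finsupp.add_apply, Finsupp.add_apply]
      rcases le_total (𝔏 p + j.1 p - j.2 p) (𝔏 p + j'.1 p - j'.2 p) with h | h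
      · rw [inf_eq_left.mpr h]
        omega
      · rw [inf_eq_right.mpr h]
        omega
    have h3 : (nm (NK K) 𝔏 : ℝ) ≤ nm (NK K) m * (nm (NK K) j.2 * nm (NK K) j'.2) := by
      have h4 := nm_le two_le_NK h2
      rw [nm_add, nm_add] at h4
      exact_mod_cast h4
    have h5 := hnmB j.2 ((hJJ j).mp hj).2
    have h6 := hnmB j'.2 ((hJJ j').mp hj').2
    have h7 : (nm (NK K) j.2 : ℝ) * nm (NK K) j'.2 ≤ Real.exp (2 * L) := by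
      calc (nm (NK K) j.2 : ℝ) * nm (NK K) j'.2 ≤ Real.exp L * Real.exp L :=
            mul_le_mul h5 h6 (by positivity) (by positivity)
        _ = Real.exp (2 * L) := by rw [← Real.exp_add]; congr 1; ring
    calc (nm (NK K) 𝔏 : ℝ) * Real.exp (-(2 * L))
        ≤ (nm (NK K) m * (nm (NK K) j.2 * nm (NK K) j'.2)) * Real.exp (-(2 * L)) :=
          mul_le_mul_of_nonneg_right h3 (by positivity)
      _ ≤ (nm (NK K) m * Real.exp (2 * L)) * Real.exp (-(2 * L)) := by gcongr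
      _ = nm (NK K) m := by
          rw [mul_assoc, ← Real.exp_add]
          simp
  · intro lam χ ψ hψ
    have hψ𝔏 : ‖ψ (IK 𝔏)‖ = 1 := hψ.norm_eq_one _ ((cop_QK h𝔮 _).mp hcop𝔏)
    refine ⟨starRingEnd ℂ (ψ (IK 𝔏)), by rw [RCLike.norm_conj]; exact hψ𝔏, fun v => ?_⟩
    have hψ0 := fke_bot h𝔮' hψ
    have hψ1 := fke_le hψ
    obtain ⟨C, hC⟩ := Gf_good (K := K) κ
    have hG := hC lam
    set u : ℝ := v - A / 2 - lK 𝔏 with hu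
    -- expansion of the density
    have hb : ∀ 𝔠 : Ideal (𝓞 K),
        bn 𝔮 (JJ (NK K) L (QK 𝔮)) n (fun j => (cc (NK K) L j : ℂ)) 𝔠 * ψ 𝔠 =
        ∑ j ∈ JJ (NK K) L (QK 𝔮), (cc (NK K) L j : ℂ) * ((if n j ∣ 𝔠 then 1 else 0) * ψ 𝔠) := by
      intro 𝔠
      unfold bn
      by_cases hc : 𝔠 ≠ ⊥ ∧ IsCoprime 𝔠 𝔮
      · rw [if_pos hc, Finset.sum_mul]
        refine Finset.sum_congr rfl fun j _ => ?_
        by_cases hd : n j ∣ 𝔠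
        · rw [if_pos hd, if_pos hd]; ring
        · rw [if_neg hd, if_neg hd]; ring
      · rw [if_neg hc, zero_mul]
        have : ψ 𝔠 = 0 := by
          by_cases h1 : 𝔠 = ⊥
          · rw [h1, hψ0]
          · exact hψ.eq_zero 𝔠 fun h2 => hc ⟨h1, h2⟩
        rw [this]
        simp
    have hD : Dser (fun 𝔠 => bn 𝔮 (JJ (NK K) L (QK 𝔮)) n (fun j => (cc (NK K) L j : ℂ)) 𝔠 * ψ 𝔠)
        (Gf κ lam) u = ∑ j ∈ JJ (NK K) L (QK 𝔮), (cc (NK K) L j : ℂ) * (ψ (n j) *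
          (((√(Ideal.absNorm (n j) : ℝ))⁻¹ : ℝ) : ℂ) *
            Dser ψ (Gf κ lam) (u + Real.log (Ideal.absNorm (n j)))) := by
      unfold Dser
      have h1 : ∀ 𝔠 : Ideal (𝓞 K), bn 𝔮 (JJ (NK K) L (QK 𝔮)) n
          (fun j => (cc (NK K) L j : ℂ)) 𝔠 * ψ 𝔠 *
            kint K (Gf κ lam) (u + Real.log (Ideal.absNorm 𝔠)) =
          ∑ j ∈ JJ (NK K) L (QK 𝔮), (cc (NK K) L j : ℂ) * (((if n j ∣ 𝔠 then 1 else 0) * ψ 𝔠) *
            kint K (Gf κ lam) (u + Real.log (Ideal.absNorm 𝔠))) := by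
        intro 𝔠
        rw [hb, Finset.sum_mul]
        refine Finset.sum_congr rfl fun j _ => ?_
        ring
      rw [tsum_congr h1, Summable.tsum_finsetSum]
      · rw [Finset.mul_sum]
        refine Finset.sum_congr rfl fun j hj => ?_
        have hnj := (hii j hj).1
        rw [tsum_mul_left, fke_mult ψ hψ0 hnj u]
        have hN : (0 : ℝ) < Ideal.absNorm (n j) := by
          have : Ideal.absNorm (n j) ≠ 0 := by rw [Ne, Ideal.absNorm_eq_zero_iff]; exact hnj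
          exact_mod_cast Nat.pos_of_ne_zero this
        have h2 : (Real.exp (u / 2) : ℂ) = (((√(Ideal.absNorm (n j) : ℝ))⁻¹ : ℝ) : ℂ) *
            (Real.exp ((u + Real.log (Ideal.absNorm (n j))) / 2) : ℂ) := by
          rw [← Complex.ofReal_mul]
          congr 1
          rw [add_div, Real.exp_add, Real.sqrt_eq_rpow, Real.rpow_def_of_pos hN]
          have h3 : Real.log (Ideal.absNorm (n j)) * (1 / 2) = Real.log (Ideal.absNorm (n j)) / 2 := by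
            ring
          rw [h3]
          have h4 : Real.exp (Real.log (Ideal.absNorm (n j)) / 2) ≠ 0 := (Real.exp_pos _).ne'
          field_simp
        rw [h2]
        ring
      · intro j hj
        refine Summable.mul_left _ ?_
        refine Dser_summable hG (b := fun 𝔠 => (if n j ∣ 𝔠 then 1 else 0) * ψ 𝔠) (β := 1)
          (fun 𝔠 => ?_) (by simp [hψ0]) u
        rw [norm_mul]
        split_ifs
        · rw [norm_one, one_mul]; exact hψ1 𝔠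
        · rw [norm_zero, zero_mul]; exact zero_le_one
    -- comparison of the terms
    have hterm : ∀ j ∈ JJ (NK K) L (QK 𝔮), (cc (NK K) L j : ℂ) * (ψ (n j) *
          (((√(Ideal.absNorm (n j) : ℝ))⁻¹ : ℝ) : ℂ) *
            Dser ψ (Gf κ lam) (u + Real.log (Ideal.absNorm (n j)))) =
        (ψ (IK 𝔏) * (((√(nm (NK K) 𝔏 : ℝ))⁻¹ : ℝ) : ℂ)) *
          (bK L ψ j.1 * starRingEnd ℂ (bK L ψ j.2) *
            Dser ψ (Gf κ lam) (v + (lK j.1 - lK j.2 - A / 2))) := by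
      intro j hj
      have hk := fke_NK_pos j.1
      have hl := fke_NK_pos j.2
      have h𝔏p := fke_NK_pos 𝔏
      have hN : (Ideal.absNorm (n j) : ℝ) * nm (NK K) j.2 = nm (NK K) 𝔏 * nm (NK K) j.1 := by
        have h1 := congrArg Ideal.absNorm (hi j hj)
        rw [map_mul, map_mul, absNorm_IK j.2, absNorm_IK 𝔏, absNorm_IK j.1] at h1
        exact_mod_cast h1
      have hNn : (Ideal.absNorm (n j) : ℝ) = nm (NK K) 𝔏 * nm (NK K) j.1 / nm (NK K) j.2 := by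
        rw [eq_div_iff hl.ne']
        exact hN
      have hlog : u + Real.log (Ideal.absNorm (n j)) = v + (lK j.1 - lK j.2 - A / 2) := by
        rw [hNn, Real.log_div (by positivity) hl.ne', Real.log_mul h𝔏p.ne' hk.ne', hu]
        unfold lK
        ring
      have hψl : ‖ψ (IK j.2)‖ = 1 :=
        hψ.norm_eq_one _ ((cop_QK h𝔮 _).mp (hcopB j.2 ((hJJ j).mp hj).2))
      have hψn : ψ (n j) = ψ (IK 𝔏) * ψ (IK j.1) * starRingEnd ℂ (ψ (IK j.2)) := by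
        have h1 := congrArg ψ (hi j hj)
        rw [map_mul, map_mul] at h1
        have h2 : ψ (IK j.2) * starRingEnd ℂ (ψ (IK j.2)) = 1 := by
          rw [Complex.mul_conj, Complex.normSq_eq_norm_sq, hψl]
          simp
        calc ψ (n j) = ψ (n j) * (ψ (IK j.2) * starRingEnd ℂ (ψ (IK j.2))) := by rw [h2, mul_one]
          _ = (ψ (n j) * ψ (IK j.2)) * starRingEnd ℂ (ψ (IK j.2)) := by ring
          _ = _ := by rw [h1]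
      have hsq : (√(Ideal.absNorm (n j) : ℝ))⁻¹ * ((nm (NK K) j.2 : ℝ))⁻¹ =
          (√(nm (NK K) 𝔏 : ℝ))⁻¹ * (√(nm (NK K) j.1 : ℝ))⁻¹ * (√(nm (NK K) j.2 : ℝ))⁻¹ := by
        have h1 : √(Ideal.absNorm (n j) : ℝ) = √(nm (NK K) 𝔏 : ℝ) * √(nm (NK K) j.1 : ℝ) /
            √(nm (NK K) j.2 : ℝ) := by
          rw [hNn, Real.sqrt_div (by positivity), Real.sqrt_mul h𝔏p.le]
        have h2 : (nm (NK K) j.2 : ℝ) = √(nm (NK K) j.2 : ℝ) * √(nm (NK K) j.2 : ℝ) :=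
          (Real.mul_self_sqrt hl.le).symm
        have h3 : √(nm (NK K) j.2 : ℝ) ≠ 0 := (Real.sqrt_pos.mpr hl).ne'
        have h4 : √(nm (NK K) j.1 : ℝ) ≠ 0 := (Real.sqrt_pos.mpr hk).ne'
        have h5 : √(nm (NK K) 𝔏 : ℝ) ≠ 0 := (Real.sqrt_pos.mpr h𝔏p).ne'
        rw [h1]
        nth_rewrite 2 [h2]
        field_simp
      have hsqC : (((√(Ideal.absNorm (n j) : ℝ))⁻¹ : ℝ) : ℂ) * (((nm (NK K) j.2 : ℝ)⁻¹ : ℝ) : ℂ) =
          (((√(nm (NK K) 𝔏 : ℝ))⁻¹ : ℝ) : ℂ) * (((√(nm (NK K) j.1 : ℝ))⁻¹ : ℝ) : ℂ) *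
            (((√(nm (NK K) j.2 : ℝ))⁻¹ : ℝ) : ℂ) := by
        rw [← Complex.ofReal_mul, ← Complex.ofReal_mul, ← Complex.ofReal_mul, hsq]
      rw [hlog, hψn]
      unfold bK cc
      rw [map_mul, map_mul, Complex.conj_ofReal, Complex.conj_ofReal]
      have h6 : ((be (NK K) L j.1 * be (NK K) L j.2 / nm (NK K) j.2 : ℝ) : ℂ) =
          (be (NK K) L j.1 : ℂ) * (be (NK K) L j.2 : ℂ) * (((nm (NK K) j.2 : ℝ)⁻¹ : ℝ) : ℂ) := by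
        push_cast
        ring
      rw [h6]
      linear_combination ((be (NK K) L j.1 : ℂ) * (be (NK K) L j.2 : ℂ) *
        (ψ (IK 𝔏) * ψ (IK j.1) * starRingEnd ℂ (ψ (IK j.2))) *
        Dser ψ (Gf κ lam) (v + (lK j.1 - lK j.2 - A / 2))) * hsqC
    have hfK : fK L A κ lam ψ v = ∑ j ∈ JJ (NK K) L (QK 𝔮), bK L ψ j.1 * starRingEnd ℂ (bK L ψ j.2) *
        Dser ψ (Gf κ lam) (v + (lK j.1 - lK j.2 - A / 2)) := by
      unfold fK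
      rw [← Finset.sum_product' (f := fun k l => bK L ψ k * starRingEnd ℂ (bK L ψ l) *
        Dser ψ (Gf κ lam) (v + (lK k - lK l - A / 2)))]
      symm
      refine Finset.sum_subset ?_ ?_
      · intro j hj
        have h1 := (hJJ j).mp hj
        rw [Finset.mem_product]
        exact ⟨(Finset.mem_filter.mp h1.1).1, (Finset.mem_filter.mp h1.2).1⟩
      · intro j hj hj'
        rw [Finset.mem_product] at hj
        have hz : ∀ g : PK K →₀ ℕ, ¬ Cop (QK 𝔮) g → bK L ψ g = 0 := by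
          intro g hg
          unfold bK
          rw [hψ.eq_zero _ (fun h => hg ((cop_QK h𝔮 g).mpr h))]
          ring
        by_cases h1 : Cop (QK 𝔮) j.1
        · by_cases h2 : Cop (QK 𝔮) j.2
          · exact absurd ((hJJ j).mpr ⟨Finset.mem_filter.mpr ⟨hj.1, h1⟩,
              Finset.mem_filter.mpr ⟨hj.2, h2⟩⟩) hj'
          · rw [hz j.2 h2, map_zero]
            ring
        · rw [hz j.1 h1]
          ring
    have hfin : Dser (fun 𝔠 => bn 𝔮 (JJ (NK K) L (QK 𝔮)) n (fun j => (cc (NK K) L j : ℂ)) 𝔠 * ψ 𝔠)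
        (Gf κ lam) u = (ψ (IK 𝔏) * (((√(nm (NK K) 𝔏 : ℝ))⁻¹ : ℝ) : ℂ)) * fK L A κ lam ψ v := by
      rw [hD, hfK, Finset.mul_sum]
      exact Finset.sum_congr rfl hterm
    have h𝔏p := fke_NK_pos 𝔏
    have hsp : (0 : ℝ) < √(nm (NK K) 𝔏 : ℝ) := Real.sqrt_pos.mpr h𝔏p
    have h8 : starRingEnd ℂ (ψ (IK 𝔏)) * ψ (IK 𝔏) = 1 := by
      rw [mul_comm, Complex.mul_conj, Complex.normSq_eq_norm_sq, hψ𝔏]
      simp
    have h9 : (√(nm (NK K) 𝔏 : ℝ) : ℂ) * (((√(nm (NK K) 𝔏 : ℝ))⁻¹ : ℝ) : ℂ) = 1 := by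
      rw [← Complex.ofReal_mul, mul_inv_cancel₀ hsp.ne', Complex.ofReal_one]
    rw [hfin]
    linear_combination (-(fK L A κ lam ψ v) * ((√(nm (NK K) 𝔏 : ℝ) : ℂ) *
      (((√(nm (NK K) 𝔏 : ℝ))⁻¹ : ℝ) : ℂ))) * h8 + (-(fK L A κ lam ψ v)) * h9

/-- block FKE -/
theorem fK_eq_pr {𝔮 : Ideal (𝓞 K)} (h𝔮 : 𝔮 ≠ ⊥) (h𝔮' : 𝔮 ≠ ⊤) {κ : InfinitePlace K → ℤ}
    {L : ℝ} (hL : 0 < L) (A : ℝ) :
    ∃ (𝔏 : PK K →₀ ℕ) (n : (PK K →₀ ℕ) × (PK K →₀ ℕ) → Ideal (𝓞 K)),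
      (∀ j ∈ JJ (NK K) L (QK 𝔮), n j * IK j.2 = IK 𝔏 * IK j.1) ∧
      (∀ j ∈ JJ (NK K) L (QK 𝔮), n j ≠ ⊥ ∧ IsCoprime (n j) 𝔮) ∧
      (∀ j ∈ JJ (NK K) L (QK 𝔮), ∀ j' ∈ JJ (NK K) L (QK 𝔮),
        (nm (NK K) 𝔏 : ℝ) * Real.exp (-(2 * L)) ≤ Ideal.absNorm (n j ⊔ n j')) ∧
      ∀ (lam : InfinitePlace K → ℝ) (χ : MulChar (𝓞 K ⧸ 𝔮) ℂ) (ψ : Ideal (𝓞 K) →* ℂ)
        (_ : IsHecke 𝔮 κ lam χ ψ) (v : ℝ),
        ‖fK L A κ lam ψ v‖ = √(nm (NK K) 𝔏 : ℝ) *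
          ‖Dser (fun 𝔠 => bn 𝔮 (JJ (NK K) L (QK 𝔮)) n (fun j => (cc (NK K) L j : ℂ)) 𝔠 * ψ 𝔠)
            (Gf κ lam) (v - A / 2 - lK 𝔏)‖ := by
  obtain ⟨𝔏, n, h1, h2, h3, h4⟩ := fK_eq2_pr (K := K) h𝔮 h𝔮' (κ := κ) hL A
  refine ⟨𝔏, n, h1, h2, h3, fun lam χ ψ hψ v => ?_⟩
  obtain ⟨θ, hθ, h5⟩ := h4 lam χ ψ hψ
  rw [h5 v, norm_mul, norm_mul, hθ, one_mul, Complex.norm_real, Real.norm_eq_abs,
    abs_of_nonneg (Real.sqrt_nonneg _)]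

end Pool.Agent.KS

namespace Pool.Agent.KS

theorem fK_eq : type_of% @fK_eq_pr := @fK_eq_pr

theorem fK_eq2 : type_of% @fK_eq2_pr := @fK_eq2_pr

end Pool.Agent.KS
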