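import Pool.Agent.Lib_helper92.KSA.Base
import Pool.Agent.Lib_helper92.KSA.BRG

namespace Pool.Agent.KS

open NumberField NumberField.InfinitePlace NumberField.Units Complex MeasureTheory Filter Topology
open Pool.Agent.HZ Pool.Agent.AS

variable {K : Type} [Field K] [NumberField K]

theorem dge_summable (w : ℝ) :
    Summable (fun g : PK K →₀ ℕ => kg K Real.pi (w + Real.log (nm (NK K) g))) := by
  classical
  obtain ⟨C, -, hC⟩ := sum_kg_le (K := K) Real.pi_pos (A := 2) (by norm_num)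
  have h1 := (hC (fun 𝔠 => if 𝔠 = ⊥ then 0 else 1) 1 (fun 𝔠 => by split_ifs <;> norm_num)
    (fun 𝔠 => by split_ifs <;> norm_num) (by simp) w).1
  have h2 := (summable_IK (K := K) (fun 𝔠 => (if 𝔠 = ⊥ then 0 else 1) *
    kg K Real.pi (w + Real.log (Ideal.absNorm 𝔠))) (by simp)).1.mp h1
  refine h2.congr (fun g => ?_)
  simp only [IK_ne_bot, if_false, one_mul, absNorm_IK]

open scoped Classical in
theorem dge_inner (Q : Finset (PK K)) (h : PK K →₀ ℕ) (hh : Cop Q h) (w : ℝ) :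
    ∑' g : PK K →₀ ℕ, (if Cop Q g ∧ h ≤ g then kg K Real.pi (w + Real.log (nm (NK K) g)) else 0) =
      WW (NK K) (kg K Real.pi) Q (w + Real.log (nm (NK K) h)) := by
  have hinj : Function.Injective (fun g' : PK K →₀ ℕ => h + g') := add_right_injective h
  have hsupp : Function.support (fun g : PK K →₀ ℕ =>
      (if Cop Q g ∧ h ≤ g then kg K Real.pi (w + Real.log (nm (NK K) g)) else 0)) ⊆
      Set.range (fun g' : PK K →₀ ℕ => h + g') := by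
    intro g hg
    rw [Function.mem_support] at hg
    have : h ≤ g := by
      by_contra hcon
      apply hg
      rw [if_neg (fun h' => hcon h'.2)]
    exact ⟨g - h, add_tsub_cancel_of_le this⟩
  rw [← hinj.tsum_eq hsupp, WW]
  refine tsum_congr (fun g' => ?_)
  have hpos : ∀ g : PK K →₀ ℕ, (0 : ℝ) < (nm (NK K) g : ℝ) := fun g => by
    exact_mod_cast nm_pos two_le_NK g
  have hlog : Real.log (nm (NK K) (h + g')) =
      Real.log (nm (NK K) h) + Real.log (nm (NK K) g') := by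
    rw [nm_add]
    push_cast
    rw [Real.log_mul (hpos h).ne' (hpos g').ne']
  have hle : h ≤ h + g' := le_self_add
  by_cases hc : Cop Q g'
  · rw [if_pos ⟨cop_add.mpr ⟨hh, hc⟩, hle⟩, if_pos hc, hlog]
    congr 1
    ring
  · rw [if_neg (fun h' => hc (cop_add.mp h'.1).2), if_neg hc]

open scoped Classical in
theorem dge_bn {𝔮 : Ideal (𝓞 K)} (h𝔮 : 𝔮 ≠ ⊥) {ι : Type} (J : Finset ι) (n : ι → Ideal (𝓞 K))
    (ν : ι → (PK K →₀ ℕ)) (hν : ∀ j ∈ J, IK (ν j) = n j) (a : ι → ℝ) (g : PK K →₀ ℕ) :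
    ‖bn 𝔮 J n (fun j => (a j : ℂ)) (IK g)‖ ^ 2 =
      ∑ j ∈ J, ∑ j' ∈ J, a j * a j' * (if Cop (QK 𝔮) g ∧ ν j ⊔ ν j' ≤ g then 1 else 0) := by
  have h1 : bn 𝔮 J n (fun j => (a j : ℂ)) (IK g) =
      ((if Cop (QK 𝔮) g then ∑ j ∈ J, (if ν j ≤ g then a j else 0) else 0 : ℝ) : ℂ) := by
    rw [bn]
    by_cases hc : Cop (QK 𝔮) g
    · rw [if_pos ⟨IK_ne_bot g, (cop_QK h𝔮 g).mp hc⟩, if_pos hc]
      push_cast
      refine Finset.sum_congr rfl (fun j hj => ?_)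
      have : n j ∣ IK g ↔ ν j ≤ g := by
        rw [← hν j hj]
        exact IK_dvd
      by_cases hd : ν j ≤ g
      · rw [if_pos (this.mpr hd), if_pos hd]
      · rw [if_neg (fun h => hd (this.mp h)), if_neg hd, Complex.ofReal_zero]
    · rw [if_neg (fun h => hc ((cop_QK h𝔮 g).mpr h.2)), if_neg hc]
      simp
  rw [h1, Complex.norm_real, Real.norm_eq_abs, sq_abs]
  by_cases hc : Cop (QK 𝔮) g
  · rw [if_pos hc, sq, Finset.sum_mul_sum]
    refine Finset.sum_congr rfl (fun j _ => Finset.sum_congr rfl (fun j' _ => ?_))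
    by_cases h2 : ν j ≤ g
    · by_cases h3 : ν j' ≤ g
      · rw [if_pos h2, if_pos h3, if_pos ⟨hc, sup_le h2 h3⟩, mul_one]
      · have h4 : ¬ (Cop (QK 𝔮) g ∧ ν j ⊔ ν j' ≤ g) := fun h => h3 (le_sup_right.trans h.2)
        rw [if_neg h3, if_neg h4]
        ring
    · have h4 : ¬ (Cop (QK 𝔮) g ∧ ν j ⊔ ν j' ≤ g) := fun h => h2 (le_sup_left.trans h.2)
      rw [if_neg h2, if_neg h4]
      ring
  · rw [if_neg hc]
    have : ∀ j j' : ι, a j * a j' * (if Cop (QK 𝔮) g ∧ ν j ⊔ ν j' ≤ g then (1 : ℝ) else 0) = 0 := by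
      intro j j'
      rw [if_neg (fun h => hc h.1), mul_zero]
    simp only [this, Finset.sum_const_zero]
    norm_num

theorem diag_eq_pr {𝔮 : Ideal (𝓞 K)} (h𝔮 : 𝔮 ≠ ⊥) {L : ℝ} (hL : 0 < L) {𝔏 : PK K →₀ ℕ}
    {n : (PK K →₀ ℕ) × (PK K →₀ ℕ) → Ideal (𝓞 K)}
    (hn : ∀ j ∈ JJ (NK K) L (QK 𝔮), n j * IK j.2 = IK 𝔏 * IK j.1)
    (hc : ∀ j ∈ JJ (NK K) L (QK 𝔮), n j ≠ ⊥ ∧ IsCoprime (n j) 𝔮) (u : ℝ) :
    (nm (NK K) 𝔏 : ℝ) * (Real.exp (u - lK 𝔏) * ∑' 𝔠 : Ideal (𝓞 K),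
      ‖bn 𝔮 (JJ (NK K) L (QK 𝔮)) n (fun j => (cc (NK K) L j : ℂ)) 𝔠‖ ^ 2 *
        kg K Real.pi (u - lK 𝔏 + Real.log (Ideal.absNorm 𝔠))) =
      Diag (NK K) (kg K Real.pi) L (QK 𝔮) u := by
  classical
  set J := JJ (NK K) L (QK 𝔮) with hJ
  have hex : ∀ j : (PK K →₀ ℕ) × (PK K →₀ ℕ), ∃ ν : PK K →₀ ℕ, j ∈ J → IK ν = n j := by
    intro j
    by_cases hj : j ∈ J
    · obtain ⟨g, hg⟩ := IK_surj (hc j hj).1
      exact ⟨g, fun _ => hg⟩
    · exact ⟨0, fun h => absurd h hj⟩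
  choose ν hν using hex
  have hνeq : ∀ j ∈ J, ν j + j.2 = 𝔏 + j.1 := by
    intro j hj
    apply IK_inj
    rw [IK_add, IK_add, hν j hj]
    exact hn j hj
  have hνcop : ∀ j ∈ J, Cop (QK 𝔮) (ν j) := by
    intro j hj
    rw [cop_QK h𝔮, hν j hj]
    exact (hc j hj).2
  have hsupcop : ∀ j ∈ J, ∀ j' ∈ J, Cop (QK 𝔮) (ν j ⊔ ν j') := by
    intro j hj j' hj' p hp
    rw [Finsupp.sup_apply, hνcop j hj p hp, hνcop j' hj' p hp]
    simp
  have hsupeq : ∀ j ∈ J, ∀ j' ∈ J, (ν j ⊔ ν j') + gg j j' = 𝔏 + (j.1 + j'.1) := by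
    intro j hj j' hj'
    ext p
    have e1 := DFunLike.congr_fun (hνeq j hj) p
    have e2 := DFunLike.congr_fun (hνeq j' hj') p
    simp only [Finsupp.add_apply] at e1 e2
    simp only [gg, Finsupp.add_apply, Finsupp.sup_apply, Finsupp.inf_apply]
    omega
  have hpos : ∀ g : PK K →₀ ℕ, (0 : ℝ) < (nm (NK K) g : ℝ) := fun g => by
    exact_mod_cast nm_pos two_le_NK g
  -- pass to the sum over `g`
  have h0 : (fun 𝔠 : Ideal (𝓞 K) => ‖bn 𝔮 J n (fun j => (cc (NK K) L j : ℂ)) 𝔠‖ ^ 2 *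
      kg K Real.pi (u - lK 𝔏 + Real.log (Ideal.absNorm 𝔠))) ⊥ = 0 := by
    simp [bn]
  rw [(summable_IK (K := K) (fun 𝔠 => ‖bn 𝔮 J n (fun j => (cc (NK K) L j : ℂ)) 𝔠‖ ^ 2 *
    kg K Real.pi (u - lK 𝔏 + Real.log (Ideal.absNorm 𝔠))) h0).2]
  have hterm : ∀ g : PK K →₀ ℕ, ‖bn 𝔮 J n (fun j => (cc (NK K) L j : ℂ)) (IK g)‖ ^ 2 *
      kg K Real.pi (u - lK 𝔏 + Real.log (Ideal.absNorm (IK g))) =
      ∑ j ∈ J, ∑ j' ∈ J, cc (NK K) L j * cc (NK K) L j' *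
        (if Cop (QK 𝔮) g ∧ ν j ⊔ ν j' ≤ g then
          kg K Real.pi (u - lK 𝔏 + Real.log (nm (NK K) g)) else 0) := by
    intro g
    rw [dge_bn h𝔮 J n ν hν (fun j => cc (NK K) L j) g, Finset.sum_mul, absNorm_IK]
    refine Finset.sum_congr rfl (fun j _ => ?_)
    rw [Finset.sum_mul]
    refine Finset.sum_congr rfl (fun j' _ => ?_)
    split_ifs <;> ring
  have hsum : ∀ j j' : (PK K →₀ ℕ) × (PK K →₀ ℕ), Summable (fun g : PK K →₀ ℕ =>
      (if Cop (QK 𝔮) g ∧ ν j ⊔ ν j' ≤ g then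
          kg K Real.pi (u - lK 𝔏 + Real.log (nm (NK K) g)) else 0)) := by
    intro j j'
    have h1 := (dge_summable (K := K) (u - lK 𝔏)).indicator
      {g : PK K →₀ ℕ | Cop (QK 𝔮) g ∧ ν j ⊔ ν j' ≤ g}
    refine h1.congr (fun g => ?_)
    rw [Set.indicator_apply]
    rfl
  rw [tsum_congr hterm, Summable.tsum_finsetSum (fun j _ =>
    summable_sum (fun j' _ => (hsum j j').mul_left _))]
  rw [Diag, ← mul_assoc]
  have hexp : (nm (NK K) 𝔏 : ℝ) * Real.exp (u - lK 𝔏) = Real.exp u := by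
    rw [Real.exp_sub, lK, Real.exp_log (hpos 𝔏)]
    field_simp [(hpos 𝔏).ne']
  rw [hexp]
  congr 1
  refine Finset.sum_congr rfl (fun j hj => ?_)
  rw [Summable.tsum_finsetSum (fun j' _ => (hsum j j').mul_left _)]
  refine Finset.sum_congr rfl (fun j' hj' => ?_)
  rw [tsum_mul_left, dge_inner (QK 𝔮) (ν j ⊔ ν j') (hsupcop j hj j' hj') (u - lK 𝔏)]
  congr 2
  have hnm : (nm (NK K) (ν j ⊔ ν j') : ℝ) * nm (NK K) (gg j j') =
      nm (NK K) 𝔏 * (nm (NK K) j.1 * nm (NK K) j'.1) := by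
    have := congrArg (nm (NK K)) (hsupeq j hj j' hj')
    rw [nm_add, nm_add, nm_add] at this
    exact_mod_cast this
  have hnm2 : (nm (NK K) (ν j ⊔ ν j') : ℝ) =
      nm (NK K) 𝔏 * ((nm (NK K) j.1 : ℝ) * nm (NK K) j'.1 / nm (NK K) (gg j j')) := by
    rw [mul_div_assoc', eq_div_iff (hpos _).ne']
    exact hnm
  rw [hnm2, Real.log_mul (hpos 𝔏).ne'
    (div_pos (mul_pos (hpos _) (hpos _)) (hpos _)).ne', lK]
  ring

end Pool.Agent.KS

namespace Pool.Agent.KS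

theorem diag_eq : type_of% @diag_eq_pr := @diag_eq_pr

end Pool.Agent.KS
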