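import Pool.Agent.Lib_helper92.KSA.FinA

/-!
# K-Selberg: the final step, part B
-/

noncomputable section

namespace Pool.Agent.KS

open NumberField NumberField.InfinitePlace NumberField.Units Complex MeasureTheory Filter Topology
open Pool.Agent.HZ Pool.Agent.AS
open Pool.Agent.SQS (hat)
open Pool.Agent.ABS (Nice LData Piece oddZ)

variable {K : Type} [Field K] [NumberField K]

theorem piece_f {C₀ : ℝ} {κ : InfinitePlace K → ℤ} {lam : InfinitePlace K → ℝ}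
    {ψ : Ideal (𝓞 K) →* ℂ} {A L : ℝ} (X : LData) (hA : X.A = A)
    (hd : X.dens = fun u => (C₀ : ℂ)⁻¹ * Dser ψ (Gf κ lam) u) (v : ℝ) :
    X.fd (ball (NK K) (Real.exp L)) (bK L ψ) lK v = (C₀ : ℂ)⁻¹ * fK L A κ lam ψ v := by
  unfold LData.fd fK
  rw [Finset.mul_sum]
  refine Finset.sum_congr rfl fun j _ => ?_
  rw [Finset.mul_sum]
  refine Finset.sum_congr rfl fun k _ => ?_
  rw [hd, hA]
  ring

theorem piece_D {C₀ : ℝ} {κ : InfinitePlace K → ℤ} {lam : InfinitePlace K → ℝ}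
    {ψ : Ideal (𝓞 K) →* ℂ} {L : ℝ} (X : LData)
    (hd : X.dens = fun u => (C₀ : ℂ)⁻¹ * Dser ψ (Gf κ lam) u) (u : ℝ) :
    X.Dd (ball (NK K) (Real.exp L)) (bK L ψ) lK u = (C₀ : ℂ)⁻¹ * DK L κ lam ψ u := by
  unfold LData.Dd DK
  rw [Finset.mul_sum]
  refine Finset.sum_congr rfl fun j _ => ?_
  rw [Finset.mul_sum]
  refine Finset.sum_congr rfl fun k _ => ?_
  rw [hd]
  ring

theorem one_le_discr : 1 ≤ |(discr K : ℝ)| := by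
  have h := NumberField.discr_ne_zero K
  have : 1 ≤ |discr K| := Int.one_le_abs h
  exact_mod_cast this

theorem log_cond_ge {𝔮 : Ideal (𝓞 K)} (h𝔮 : 𝔮 ≠ ⊥) :
    Real.log (Ideal.absNorm 𝔮) ≤ Real.log (cond 𝔮) := by
  have h1 : 0 < Ideal.absNorm 𝔮 := Nat.pos_of_ne_zero (by
    rw [Ne, Ideal.absNorm_eq_zero_iff]; exact h𝔮)
  have h2 : (0 : ℝ) < Ideal.absNorm 𝔮 := by exact_mod_cast h1
  apply Real.log_le_log h2
  unfold HZ.cond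
  have := one_le_discr (K := K)
  nlinarith

theorem two_le_norm {𝔮 : Ideal (𝓞 K)} (h𝔮 : 𝔮 ≠ ⊥) (h𝔮' : 𝔮 ≠ ⊤) : 2 ≤ Ideal.absNorm 𝔮 := by
  have h1 : Ideal.absNorm 𝔮 ≠ 0 := by rw [Ne, Ideal.absNorm_eq_zero_iff]; exact h𝔮
  have h2 : Ideal.absNorm 𝔮 ≠ 1 := by rw [Ne, Ideal.absNorm_eq_one_iff]; exact h𝔮'
  omega

theorem finite_quo {𝔮 : Ideal (𝓞 K)} (h𝔮 : 𝔮 ≠ ⊥) : Finite (𝓞 K ⧸ 𝔮) :=
  Ideal.finiteQuotientOfFreeOfNeBot 𝔮 h𝔮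

theorem card_le_units {𝔮 : Ideal (𝓞 K)} (h𝔮 : 𝔮 ≠ ⊥) (S : Finset (MulChar (𝓞 K ⧸ 𝔮) ℂ)) :
    (S.card : ℝ) ≤ Nat.card (𝓞 K ⧸ 𝔮)ˣ := by
  have := finite_quo h𝔮
  have h := MulChar.card_eq_card_units_of_hasEnoughRootsOfUnity (𝓞 K ⧸ 𝔮) ℂ
  have : Fintype (MulChar (𝓞 K ⧸ 𝔮) ℂ) := Fintype.ofFinite _
  have h2 : S.card ≤ Nat.card (MulChar (𝓞 K ⧸ 𝔮) ℂ) := by
    rw [Nat.card_eq_fintype_card]
    exact Finset.card_le_univ S
  rw [h] at h2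
  exact_mod_cast h2

/-- the bad characters -/
def IsBad (κ : InfinitePlace K → ℤ) (T B h : ℝ) (m : ℕ) (𝔮 : Ideal (𝓞 K))
    (χ : MulChar (𝓞 K ⧸ 𝔮) ℂ) : Prop :=
  IsPrim 𝔮 χ ∧ ∃ lam : InfinitePlace K → ℝ, (∀ w, |lam w| ≤ B) ∧ ∑ w, lam w = 0 ∧
    ∃ ψ : Ideal (𝓞 K) →* ℂ, IsHecke 𝔮 κ lam χ ψ ∧
      ¬ ∃ Λ : ℂ → ℂ, IsCompleted κ lam ψ Λ ∧ ∀ x : ℝ, -T ≤ x → x + h ≤ T →
        (m : ℕ∞) < {t : ℝ | x < t ∧ t < x + h ∧
          Odd (analyticOrderNatAt Λ (1 / 2 + t * I))}.encard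

theorem kselberg (κ : InfinitePlace K → ℤ)
    (hκ : ∀ w : InfinitePlace K, w.IsReal → κ w = 0 ∨ κ w = 1) (T B : ℝ) :
    ∃ C : ℝ, 0 < C ∧ ∀ 𝔮 : Ideal (𝓞 K), 𝔮 ≠ ⊥ → 𝔮 ≠ ⊤ → ∀ h H : ℝ, 0 < H → H ≤ h →
      ∀ S : Finset (MulChar (𝓞 K ⧸ 𝔮) ℂ), (∀ χ ∈ S, IsBad κ T B h ⌊h / H⌋₊ 𝔮 χ) →
        (S.card : ℝ) ≤ C * Nat.card (𝓞 K ⧸ 𝔮)ˣ / (h * H * Real.log (Ideal.absNorm 𝔮)) := by
  obtain ⟨C₀, hC₀, hm⟩ := mellin_kint (K := K)
  obtain ⟨c₀, H₀, hc₀, hH₀, hwin⟩ := window_gam κ T B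
  obtain ⟨E, hE0, hE⟩ := gK_energy (K := K) κ
  obtain ⟨C1, hC1, h1⟩ := mean_fK (K := K) κ
  obtain ⟨C2, hC2, h2⟩ := mean_DK (K := K) κ
  obtain ⟨ρ, hkern⟩ := kern_NK K
  have hgood := good_NK K
  obtain ⟨C3, hC3, h3⟩ := diag_small hgood hkern
  obtain ⟨C4, hC4, h4⟩ := diag_int hgood hkern
  have hC₀' : (C₀ : ℂ) ≠ 0 := by exact_mod_cast hC₀.ne'
  have hnC₀ : ‖(C₀ : ℂ)⁻¹‖ = C₀⁻¹ := by
    rw [norm_inv, Complex.norm_real, Real.norm_of_nonneg hC₀.le]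
  -- constants
  set D : ℝ := C₀⁻¹ ^ 2 with hD
  have hD0 : 0 < D := by positivity
  set CE : ℝ := D * (C1 * C3 + C1 + C1 * C4 + C1 + C2) with hCE
  have hCE0 : 0 ≤ CE := by positivity
  obtain ⟨C', hC', hend⟩ := Pool.Agent.ABS.endgame.{0} (C := CE) (c := 1 / 2) (T := T) (c₀ := c₀)
    (H₀ := H₀) (E := D * E) hCE0 (by norm_num) hc₀ hH₀ (by positivity)
  set U : ℝ := 2 * |T| + 1 with hU
  have hU0 : 0 < U := by positivity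
  refine ⟨32 * C' + 32 * U ^ 2, by positivity, fun 𝔮 h𝔮 h𝔮' h H hH hHh S hS => ?_⟩
  have hh : 0 < h := lt_of_lt_of_le hH hHh
  set Φ : ℝ := (Nat.card (𝓞 K ⧸ 𝔮)ˣ : ℝ) with hΦ
  have hΦ0 : 0 ≤ Φ := by positivity
  have hcard : (S.card : ℝ) ≤ Φ := card_le_units h𝔮 S
  have hNq := two_le_norm h𝔮 h𝔮'
  have hlogN : 0 < Real.log (Ideal.absNorm 𝔮) := Real.log_pos (by exact_mod_cast hNq)
  rcases S.eq_empty_or_nonempty with rfl | hne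
  · simp only [Finset.card_empty, Nat.cast_zero]; positivity
  -- the pieces
  have hS' : ∀ χ ∈ S, ∃ lam : InfinitePlace K → ℝ, ∃ ψ : Ideal (𝓞 K) →* ℂ, (∀ w, |lam w| ≤ B) ∧
      ∑ w, lam w = 0 ∧ IsHecke 𝔮 κ lam χ ψ ∧ ∃ X : LData, X.A = Real.log (cond 𝔮) ∧
        (X.dens = fun u => (C₀ : ℂ)⁻¹ * Dser ψ (Gf κ lam) u) ∧
        ∃ x : ℝ, -T ≤ x ∧ x + h ≤ T ∧ (oddZ X.Λ ∩ Set.Ioo x (x + h)).encard ≤ ⌊h / H⌋₊ := by
    intro χ hχ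
    obtain ⟨hp, lam, hlB, hl0, ψ, hψ, hno⟩ := hS χ hχ
    obtain ⟨X, hX1, hX2, hX3⟩ := exists_ldata hC₀ hm hκ hl0 h𝔮 h𝔮' hp hψ
    refine ⟨lam, ψ, hlB, hl0, hψ, X, hX2, hX3, ?_⟩
    by_contra hcon
    push Not at hcon
    refine hno ⟨X.Λ, hX1, fun x hx hx' => ?_⟩
    have := hcon x hx hx'
    have hset : {t : ℝ | x < t ∧ t < x + h ∧
        Odd (analyticOrderNatAt X.Λ (1 / 2 + t * I))} = oddZ X.Λ ∩ Set.Ioo x (x + h) := by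
      ext t
      simp only [oddZ, Set.mem_ofPred_eq, Set.mem_inter_iff, Set.mem_Ioo]
      tauto
    rw [hset]
    exact this
  have hTU : h ≤ U := by
    obtain ⟨χ, hχ⟩ := hne
    obtain ⟨_, _, _, _, _, X, _, _, x, hx, hx', _⟩ := hS' χ hχ
    have := le_abs_self T
    rw [hU]; linarith
  have hhH : h * H ≤ U ^ 2 := by
    rw [sq]; exact mul_le_mul hTU (hHh.trans hTU) hH.le hU0.le
  set A : ℝ := Real.log (cond 𝔮) with hA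
  have hAN : Real.log (Ideal.absNorm 𝔮) ≤ A := log_cond_ge h𝔮
  by_cases hA32 : 32 ≤ A
  swap
  · -- small conductor
    refine hcard.trans ?_
    rw [le_div_iff₀ (by positivity), mul_comm]
    refine mul_le_mul_of_nonneg_right ?_ hΦ0
    calc h * H * Real.log (Ideal.absNorm 𝔮) ≤ U ^ 2 * 32 := by
          apply mul_le_mul hhH (by linarith) hlogN.le (by positivity)
      _ ≤ 32 * C' + 32 * U ^ 2 := by linarith
  set L : ℝ := A / 32 with hL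
  have hL1 : 1 ≤ L := by rw [hL]; linarith
  have hL0 : 0 < L := by linarith
  have hL32 : 32 * L = A := by rw [hL]; ring
  have hQ : ∑ p ∈ QK 𝔮, Real.log (NK K p) ≤ 32 * L := by
    rw [hL32]; exact (sum_log_QK h𝔮).trans hAN
  have : Nonempty LData := by
    obtain ⟨χ, hχ⟩ := hne
    obtain ⟨_, _, _, _, _, X, _⟩ := hS' χ hχ
    exact ⟨X⟩
  choose! lam ψ hlB hl0 hψ X hXA hXd hXx using hS'
  set P : MulChar (𝓞 K ⧸ 𝔮) ℂ → Piece := fun χ =>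
    (X χ).piece (ball (NK K) (Real.exp L)) (bK L (ψ χ)) lK
      (fun u => (C₀ : ℂ)⁻¹ * gK κ (lam χ) u) ((gK_nice κ (lam χ)).const_mul _) with hP
  have hPf : ∀ χ ∈ S, ∀ v, ‖(P χ).f v‖ ^ 2 = D * ‖fK L A κ (lam χ) (ψ χ) v‖ ^ 2 := by
    intro χ hχ v
    have e : (P χ).f v = (C₀ : ℂ)⁻¹ * fK L A κ (lam χ) (ψ χ) v :=
      piece_f (X χ) (hXA χ hχ) (hXd χ hχ) v
    rw [e, norm_mul, hnC₀, mul_pow]
  have hPD : ∀ χ ∈ S, ∀ u, ‖(P χ).D u - (P χ).g u‖ ^ 2 =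
      D * ‖DK L κ (lam χ) (ψ χ) u - gK κ (lam χ) u‖ ^ 2 := by
    intro χ hχ u
    have e : (P χ).D u = (C₀ : ℂ)⁻¹ * DK L κ (lam χ) (ψ χ) u := piece_D (X χ) (hXd χ hχ) u
    have e' : (P χ).g u = (C₀ : ℂ)⁻¹ * gK κ (lam χ) u := rfl
    rw [e, e', ← mul_sub, norm_mul, hnC₀, mul_pow]
  have hmf : ∀ v, 0 ≤ v → ∑ χ ∈ S, ‖(P χ).f v‖ ^ 2 ≤
      D * (Φ * (C1 * Diag (NK K) (kg K Real.pi) L (QK 𝔮) (v - 16 * L) +
        C1 * Real.exp (-v) / L)) := by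
    intro v hv
    rw [Finset.sum_congr rfl fun χ hχ => hPf χ hχ v, ← Finset.mul_sum]
    exact mul_le_mul_of_nonneg_left (h1 𝔮 h𝔮 h𝔮' S lam ψ hψ L hL1 (by rw [hL32]) v hv) hD0.le
  have hmf' : ∀ v, 0 ≤ v → v ≤ 1 / 2 * L → ∑ χ ∈ S, ‖(P χ).f v‖ ^ 2 ≤ CE * Φ / L := by
    intro v hv hv'
    refine (hmf v hv).trans ?_
    have h5 := h3 L (QK 𝔮) (v - 16 * L) hL1 hQ (by linarith)
    have h6 : Real.exp (-v) ≤ 1 := Real.exp_le_one_iff.2 (by linarith)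
    calc D * (Φ * (C1 * Diag (NK K) (kg K Real.pi) L (QK 𝔮) (v - 16 * L) +
        C1 * Real.exp (-v) / L)) ≤ D * (Φ * (C1 * (C3 / L) + C1 * 1 / L)) := by gcongr
      _ = D * (C1 * C3 + C1) * Φ / L := by ring
      _ ≤ CE * Φ / L := by
          gcongr
          rw [hCE]
          refine mul_le_mul_of_nonneg_left ?_ hD0.le
          have : 0 ≤ C1 * C4 + C1 + C2 := by positivity
          linarith
  have hint1 : IntegrableOn (fun v : ℝ => Real.exp (-v)) (Set.Ioi 0) := by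
    simpa using exp_neg_integrableOn_Ioi 0 one_pos
  have hint2 : ∫ v in Set.Ioi (0 : ℝ), Real.exp (-v) = 1 := integral_exp_neg_Ioi_zero
  obtain ⟨h4i, h4b⟩ := h4 L (QK 𝔮) hL1 hQ
  have hfi : ∀ χ ∈ S, Integrable (fun v => ‖(P χ).f v‖ ^ 2) := fun χ _ => (P χ).nf.sq
  have hM2 : ∑ χ ∈ S, ∫ v in Set.Ioi 0, ‖(P χ).f v‖ ^ 2 ≤ CE * Φ := by
    rw [← integral_finsetSum _ fun χ hχ => (hfi χ hχ).integrableOn]
    have hr : IntegrableOn (fun v => D * (Φ * (C1 * Diag (NK K) (kg K Real.pi) L (QK 𝔮)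
        (v - 16 * L) + C1 * Real.exp (-v) / L))) (Set.Ioi 0) :=
      (((h4i.const_mul C1).add ((hint1.const_mul C1).div_const L)).const_mul Φ).const_mul D
    calc ∫ v in Set.Ioi (0 : ℝ), ∑ χ ∈ S, ‖(P χ).f v‖ ^ 2
        ≤ ∫ v in Set.Ioi (0 : ℝ), D * (Φ * (C1 * Diag (NK K) (kg K Real.pi) L (QK 𝔮)
            (v - 16 * L) + C1 * Real.exp (-v) / L)) := by
          refine setIntegral_mono_on ((integrable_finsetSum _ hfi).integrableOn) hr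
            measurableSet_Ioi fun v hv => hmf v (le_of_lt hv)
      _ = D * (Φ * (C1 * (∫ v in Set.Ioi (0 : ℝ), Diag (NK K) (kg K Real.pi) L (QK 𝔮)
            (v - 16 * L)) + C1 * 1 / L)) := by
          rw [integral_const_mul, integral_const_mul, integral_add (h4i.const_mul C1)
            ((hint1.const_mul C1).div_const L), integral_const_mul, integral_div,
            integral_const_mul, hint2]
      _ ≤ D * (Φ * (C1 * C4 + C1 * 1 / 1)) := by gcongr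
      _ = D * (C1 * C4 + C1) * Φ := by ring
      _ ≤ CE * Φ := by
          gcongr
          rw [hCE]
          refine mul_le_mul_of_nonneg_left ?_ hD0.le
          have : 0 ≤ C1 * C3 + C1 + C2 := by positivity
          linarith
  have hM3 : ∀ u, |u| ≤ 1 / 2 * L → ∑ χ ∈ S, ‖(P χ).D u - (P χ).g u‖ ^ 2 ≤ CE * Φ / L := by
    intro u hu
    rw [Finset.sum_congr rfl fun χ hχ => hPD χ hχ u, ← Finset.mul_sum]
    have h5 := h2 𝔮 h𝔮 h𝔮' S lam ψ hψ L hL1 (by rw [hL32]) u (by linarith)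
    calc D * ∑ χ ∈ S, ‖DK L κ (lam χ) (ψ χ) u - gK κ (lam χ) u‖ ^ 2
        ≤ D * (C2 * Φ / L) := by gcongr
      _ = D * C2 * Φ / L := by ring
      _ ≤ CE * Φ / L := by
          gcongr
          rw [hCE]
          refine mul_le_mul_of_nonneg_left ?_ hD0.le
          have : 0 ≤ C1 * C3 + C1 + C1 * C4 + C1 := by positivity
          linarith
  have hlow : ∀ χ ∈ S, ∀ t : ℝ, -T ≤ t → t ≤ T → ∀ H : ℝ, 0 ≤ H → H ≤ H₀ →
      c₀ * H ≤ ‖∫ s in t..(t + H), hat (P χ).g s‖ := by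
    intro χ hχ t ht ht' H' hH' hH'0
    have e : (fun s => hat (P χ).g s) = fun s : ℝ => gam κ (lam χ) (1 / 2 + s * I) := by
      funext s
      exact hat_gK hC₀ hm κ (lam χ) s
    rw [e]
    exact hwin (lam χ) (hlB χ hχ) t ht ht' H' hH' hH'0
  have hEn : ∀ χ ∈ S, ∫ u, ‖(P χ).g u‖ ^ 2 ≤ D * E := by
    intro χ _
    have e : (fun u => ‖(P χ).g u‖ ^ 2) = fun u => D * ‖gK κ (lam χ) u‖ ^ 2 := by
      funext u
      show ‖(C₀ : ℂ)⁻¹ * gK κ (lam χ) u‖ ^ 2 = _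
      rw [norm_mul, hnC₀, mul_pow]
    rw [e, integral_const_mul]
    exact mul_le_mul_of_nonneg_left (hE _) hD0.le
  have hfinal := hend (MulChar (𝓞 K ⧸ 𝔮) ℂ) S P L Φ hL0 hcard hlow hEn hmf' hM2 hM3 h H hH hHh
    hXx
  refine hfinal.trans ?_
  have e1 : C' * Φ / (h * H * L) = 32 * C' * Φ / (h * H * A) := by
    rw [← hL32]; field_simp
  rw [e1]
  calc 32 * C' * Φ / (h * H * A) ≤ 32 * C' * Φ / (h * H * Real.log (Ideal.absNorm 𝔮)) := by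
        gcongr
    _ ≤ (32 * C' + 32 * U ^ 2) * Φ / (h * H * Real.log (Ideal.absNorm 𝔮)) := by
        gcongr
        have : 0 ≤ 32 * U ^ 2 := by positivity
        linarith

end Pool.Agent.KS
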