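import Pool.Agent.Lib_helper92.KSA.All
import Pool.Agent.Lib_helper24.ABS.Endgame

/-!
# K-Selberg: the final step, part A (the pieces)
-/

noncomputable section

namespace Pool.Agent.KS

open NumberField NumberField.InfinitePlace NumberField.Units Complex MeasureTheory Filter Topology
open Pool.Agent.HZ Pool.Agent.AS
open Pool.Agent.SQS (hat)
open Pool.Agent.ABS (Nice LData Piece oddZ)

variable {K : Type} [Field K] [NumberField K]

theorem hecke_bot {𝔮 : Ideal (𝓞 K)} (h𝔮' : 𝔮 ≠ ⊤) {κ : InfinitePlace K → ℤ}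
    {lam : InfinitePlace K → ℝ} {χ : MulChar (𝓞 K ⧸ 𝔮) ℂ} {ψ : Ideal (𝓞 K) →* ℂ}
    (hψ : IsHecke 𝔮 κ lam χ ψ) : ψ ⊥ = 0 := by
  apply hψ.eq_zero
  rw [Ideal.isCoprime_iff_sup_eq]
  simpa using h𝔮'

theorem hecke_le {𝔮 : Ideal (𝓞 K)} {κ : InfinitePlace K → ℤ}
    {lam : InfinitePlace K → ℝ} {χ : MulChar (𝓞 K ⧸ 𝔮) ℂ} {ψ : Ideal (𝓞 K) →* ℂ}
    (hψ : IsHecke 𝔮 κ lam χ ψ) (𝔞 : Ideal (𝓞 K)) : ‖ψ 𝔞‖ ≤ 1 := by
  by_cases h : IsCoprime 𝔞 𝔮
  · exact (hψ.norm_eq_one 𝔞 h).le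
  · rw [hψ.eq_zero 𝔞 h]; simp

theorem dser_decay {κ : InfinitePlace K → ℤ}
    (hκ : ∀ w : InfinitePlace K, w.IsReal → κ w = 0 ∨ κ w = 1) {lam : InfinitePlace K → ℝ}
    (hlam : ∑ w, lam w = 0) {𝔮 : Ideal (𝓞 K)} (h𝔮 : 𝔮 ≠ ⊥) (h𝔮' : 𝔮 ≠ ⊤)
    {χ : MulChar (𝓞 K ⧸ 𝔮) ℂ} (hχ : IsPrim 𝔮 χ) {ψ : Ideal (𝓞 K) →* ℂ}
    (hψ : IsHecke 𝔮 κ lam χ ψ) (A : ℝ) :
    ∃ C : ℝ, ∀ u : ℝ, ‖Dser ψ (Gf κ lam) u‖ ≤ C * Real.exp (-(A * |u|)) := by
  obtain ⟨C₁, hG⟩ := Gf_good κ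
  set A' : ℝ := max A 1 with hA'
  have hA1 : A ≤ A' := le_max_left _ _
  have hA2 : 1 ≤ A' := le_max_right _ _
  obtain ⟨C, hC0, hC⟩ := Dser_le (hG lam) (fun 𝔞 => hecke_le hψ 𝔞) (hecke_bot h𝔮' hψ)
    (A := A') (by linarith)
  obtain ⟨Ω, hΩ, hfe⟩ := dser_fe hκ hlam h𝔮 h𝔮' hχ hψ
  set ℓ := Real.log (cond 𝔮) with hℓ
  refine ⟨C * Real.exp (A' * |ℓ|), fun u => ?_⟩
  have h1 : (1 : ℝ) ≤ Real.exp (A' * |ℓ|) := Real.one_le_exp (by positivity)
  have hmono : Real.exp (-(A' * |u|)) ≤ Real.exp (-(A * |u|)) := by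
    apply Real.exp_le_exp.2
    have := mul_le_mul_of_nonneg_right hA1 (abs_nonneg u)
    linarith
  rcases le_or_gt 0 u with hu | hu
  · calc ‖Dser ψ (Gf κ lam) u‖ ≤ C * Real.exp (-(A' * u)) := hC u
      _ = C * 1 * Real.exp (-(A' * |u|)) := by rw [abs_of_nonneg hu]; ring
      _ ≤ C * Real.exp (A' * |ℓ|) * Real.exp (-(A * |u|)) := by gcongr
  · have h2 : ‖Dser ψ (Gf κ lam) u‖ = ‖Dser ψ (Gf κ lam) (-u - ℓ)‖ := by
      rw [hfe u, norm_mul, hΩ, one_mul, RCLike.norm_conj]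
    calc ‖Dser ψ (Gf κ lam) u‖ ≤ C * Real.exp (-(A' * (-u - ℓ))) := by rw [h2]; exact hC _
      _ ≤ C * Real.exp (A' * |ℓ| + -(A' * |u|)) := by
          gcongr
          rw [abs_of_neg hu]
          have : A' * ℓ ≤ A' * |ℓ| := by gcongr; exact le_abs_self ℓ
          linarith
      _ = C * Real.exp (A' * |ℓ|) * Real.exp (-(A' * |u|)) := by rw [Real.exp_add]; ring
      _ ≤ C * Real.exp (A' * |ℓ|) * Real.exp (-(A * |u|)) := by gcongr

theorem fin_integrable_exp_abs {A : ℝ} (hA : 0 < A) :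
    Integrable (fun u : ℝ => Real.exp (-(A * |u|))) := by
  have h1 : IntegrableOn (fun u : ℝ => Real.exp (-(A * |u|))) (Set.Ioi 0) := by
    have : IntegrableOn (fun u : ℝ => Real.exp (-A * u)) (Set.Ioi 0) :=
      exp_neg_integrableOn_Ioi 0 hA
    refine this.congr_fun (fun u hu => ?_) measurableSet_Ioi
    show Real.exp (-A * u) = Real.exp (-(A * |u|))
    rw [abs_of_pos hu]; ring_nf
  have h2 : IntegrableOn (fun u : ℝ => Real.exp (-(A * |u|))) (Set.Iic 0) := by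
    have := h1.comp_neg
    simp only [abs_neg, Set.neg_Ioi, neg_zero] at this
    rw [integrableOn_Iic_iff_integrableOn_Iio]
    exact this
  rw [← integrableOn_univ, ← Set.Iic_union_Ioi (a := (0 : ℝ))]
  exact h2.union h1

theorem nice_of_decay {D : ℝ → ℂ} (hD : Continuous D)
    (hdec : ∀ A : ℝ, ∃ C : ℝ, ∀ u : ℝ, ‖D u‖ ≤ C * Real.exp (-(A * |u|))) : Nice D := by
  refine ⟨hD.measurable, ?_, ?_⟩
  · obtain ⟨C, hC⟩ := hdec 1
    exact ((fin_integrable_exp_abs one_pos).const_mul C).mono' hD.aestronglyMeasurable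
      (Eventually.of_forall hC)
  · obtain ⟨C, hC⟩ := hdec 0
    exact ⟨C, fun u => by simpa using hC u⟩

/-- the reference density -/
theorem gK_nice (κ : InfinitePlace K → ℤ) (lam : InfinitePlace K → ℝ) :
    Nice (gK (K := K) κ lam) := by
  obtain ⟨C₁, hG⟩ := Gf_good (K := K) κ
  have hG' := hG lam
  have hc : Continuous (gK (K := K) κ lam) := by
    unfold gK
    exact (Complex.continuous_ofReal.comp (by fun_prop)).mul (kint_continuous hG')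
  have hC1 : 0 ≤ C₁ := hG'.1
  obtain ⟨Ca, hCa0, hCa⟩ := kg_le (K := K) (c := Real.pi / 2) (by positivity) (A := 1 / 4)
    (by norm_num)
  obtain ⟨Cb, hCb0, hCb⟩ := kg_le (K := K) (c := Real.pi / 2) (by positivity) (A := 1)
    (by norm_num)
  have hle : ∀ u : ℝ, ‖gK κ lam u‖ ≤ C₁ * (Ca + Cb) * Real.exp (-(1 / 4 * |u|)) := by
    intro u
    have h1 := kint_le hG' u
    have h2 : ‖gK κ lam u‖ ≤ Real.exp (u / 2) * (C₁ * kg K (Real.pi / 2) u) := by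
      unfold gK
      rw [norm_mul, Complex.norm_real, Real.norm_of_nonneg (Real.exp_pos _).le]
      gcongr
    refine h2.trans ?_
    rcases le_or_gt 0 u with hu | hu
    · calc Real.exp (u / 2) * (C₁ * kg K (Real.pi / 2) u)
          ≤ Real.exp (u / 2) * (C₁ * (Cb * Real.exp (-(1 * u)))) := by
            gcongr; exact hCb u
        _ = C₁ * Cb * (Real.exp (u / 2) * Real.exp (-(1 * u))) := by ring
        _ = C₁ * Cb * Real.exp (u / 2 + -(1 * u)) := by rw [Real.exp_add]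
        _ ≤ C₁ * (Ca + Cb) * Real.exp (-(1 / 4 * |u|)) := by
            gcongr
            · linarith
            · rw [abs_of_nonneg hu]; linarith
    · calc Real.exp (u / 2) * (C₁ * kg K (Real.pi / 2) u)
          ≤ Real.exp (u / 2) * (C₁ * (Ca * Real.exp (-(1 / 4 * u)))) := by
            gcongr; exact hCa u
        _ = C₁ * Ca * (Real.exp (u / 2) * Real.exp (-(1 / 4 * u))) := by ring
        _ = C₁ * Ca * Real.exp (u / 2 + -(1 / 4 * u)) := by rw [Real.exp_add]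
        _ ≤ C₁ * (Ca + Cb) * Real.exp (-(1 / 4 * |u|)) := by
            gcongr
            · linarith
            · rw [abs_of_neg hu]; linarith
  refine ⟨hc.measurable, ?_, ?_⟩
  · exact ((fin_integrable_exp_abs (by norm_num : (0 : ℝ) < 1 / 4)).const_mul _).mono'
      hc.aestronglyMeasurable (Eventually.of_forall hle)
  · refine ⟨C₁ * (Ca + Cb), fun u => (hle u).trans ?_⟩
    have : Real.exp (-(1 / 4 * |u|)) ≤ 1 := Real.exp_le_one_iff.2 (by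
      have := abs_nonneg u; linarith)
    have h0 : 0 ≤ C₁ * (Ca + Cb) := by positivity
    nlinarith

/-- uniform energy of the reference densities -/
theorem gK_energy (κ : InfinitePlace K → ℤ) : ∃ E : ℝ, 0 ≤ E ∧
    ∀ lam : InfinitePlace K → ℝ, ∫ u, ‖gK (K := K) κ lam u‖ ^ 2 ≤ E := by
  obtain ⟨C₁, hG⟩ := Gf_good (K := K) κ
  have hC1 : 0 ≤ C₁ := (hG 0).1
  obtain ⟨Ca, hCa0, hCa⟩ := kg_le (K := K) (c := Real.pi / 2) (by positivity) (A := 1 / 4)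
    (by norm_num)
  obtain ⟨Cb, hCb0, hCb⟩ := kg_le (K := K) (c := Real.pi / 2) (by positivity) (A := 1)
    (by norm_num)
  have hle : ∀ (lam : InfinitePlace K → ℝ) (u : ℝ),
      ‖gK κ lam u‖ ≤ C₁ * (Ca + Cb) * Real.exp (-(1 / 4 * |u|)) := by
    intro lam u
    have h1 := kint_le (hG lam) u
    have h2 : ‖gK κ lam u‖ ≤ Real.exp (u / 2) * (C₁ * kg K (Real.pi / 2) u) := by
      unfold gK
      rw [norm_mul, Complex.norm_real, Real.norm_of_nonneg (Real.exp_pos _).le]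
      gcongr
    refine h2.trans ?_
    rcases le_or_gt 0 u with hu | hu
    · calc Real.exp (u / 2) * (C₁ * kg K (Real.pi / 2) u)
          ≤ Real.exp (u / 2) * (C₁ * (Cb * Real.exp (-(1 * u)))) := by
            gcongr; exact hCb u
        _ = C₁ * Cb * (Real.exp (u / 2) * Real.exp (-(1 * u))) := by ring
        _ = C₁ * Cb * Real.exp (u / 2 + -(1 * u)) := by rw [Real.exp_add]
        _ ≤ C₁ * (Ca + Cb) * Real.exp (-(1 / 4 * |u|)) := by
            gcongr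
            · linarith
            · rw [abs_of_nonneg hu]; linarith
    · calc Real.exp (u / 2) * (C₁ * kg K (Real.pi / 2) u)
          ≤ Real.exp (u / 2) * (C₁ * (Ca * Real.exp (-(1 / 4 * u)))) := by
            gcongr; exact hCa u
        _ = C₁ * Ca * (Real.exp (u / 2) * Real.exp (-(1 / 4 * u))) := by ring
        _ = C₁ * Ca * Real.exp (u / 2 + -(1 / 4 * u)) := by rw [Real.exp_add]
        _ ≤ C₁ * (Ca + Cb) * Real.exp (-(1 / 4 * |u|)) := by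
            gcongr
            · linarith
            · rw [abs_of_neg hu]; linarith
  set B : ℝ := C₁ * (Ca + Cb) with hB
  have hB0 : 0 ≤ B := by positivity
  refine ⟨B ^ 2 * ∫ u : ℝ, Real.exp (-(1 / 2 * |u|)), ?_, fun lam => ?_⟩
  · have : 0 ≤ ∫ u : ℝ, Real.exp (-(1 / 2 * |u|)) := integral_nonneg fun u => by positivity
    positivity
  · rw [← integral_const_mul]
    refine integral_mono (gK_nice κ lam).sq
      ((fin_integrable_exp_abs (by norm_num : (0 : ℝ) < 1 / 2)).const_mul _) fun u => ?_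
    show ‖gK κ lam u‖ ^ 2 ≤ B ^ 2 * Real.exp (-(1 / 2 * |u|))
    calc ‖gK κ lam u‖ ^ 2 ≤ (B * Real.exp (-(1 / 4 * |u|))) ^ 2 := by
          gcongr; exact hle lam u
      _ = B ^ 2 * (Real.exp (-(1 / 4 * |u|)) * Real.exp (-(1 / 4 * |u|))) := by ring
      _ = B ^ 2 * Real.exp (-(1 / 2 * |u|)) := by
          rw [← Real.exp_add]; congr 2; ring

/-- the `L`-data of a primitive Hecke character -/
theorem exists_ldata {C₀ : ℝ} (hC₀ : 0 < C₀)
    (hm : ∀ (κ : InfinitePlace K → ℤ) (lam : InfinitePlace K → ℝ)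
      (s : ℂ), 0 < s.re → Integrable (fun u : ℝ => kint K (Gf κ lam) u * cexp (s * u)) ∧
        ∫ u : ℝ, kint K (Gf κ lam) u * cexp (s * u) = C₀ * gam κ lam s)
    {κ : InfinitePlace K → ℤ}
    (hκ : ∀ w : InfinitePlace K, w.IsReal → κ w = 0 ∨ κ w = 1) {lam : InfinitePlace K → ℝ}
    (hlam : ∑ w, lam w = 0) {𝔮 : Ideal (𝓞 K)} (h𝔮 : 𝔮 ≠ ⊥) (h𝔮' : 𝔮 ≠ ⊤)
    {χ : MulChar (𝓞 K ⧸ 𝔮) ℂ} (hχ : IsPrim 𝔮 χ) {ψ : Ideal (𝓞 K) →* ℂ}
    (hψ : IsHecke 𝔮 κ lam χ ψ) :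
    ∃ X : LData, IsCompleted κ lam ψ X.Λ ∧ X.A = Real.log (cond 𝔮) ∧
      X.dens = fun u => (C₀ : ℂ)⁻¹ * Dser ψ (Gf κ lam) u := by
  obtain ⟨C₁, hG⟩ := Gf_good κ
  have hdec := dser_decay hκ hlam h𝔮 h𝔮' hχ hψ
  have hcont : Continuous (Dser ψ (Gf κ lam)) :=
    Dser_continuous (hG lam) (fun 𝔞 => hecke_le hψ 𝔞) (hecke_bot h𝔮' hψ)
  have hnice : Nice (fun u => (C₀ : ℂ)⁻¹ * Dser ψ (Gf κ lam) u) :=
    (nice_of_decay hcont hdec).const_mul _
  have hent := entire_of_decay hcont hdec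
  obtain ⟨Ω, hΩ, hfe⟩ := dser_fe hκ hlam h𝔮 h𝔮' hχ hψ
  have hC₀' : (C₀ : ℂ) ≠ 0 := by exact_mod_cast hC₀.ne'
  have hrep : ∀ t : ℝ, hat (fun u => (C₀ : ℂ)⁻¹ * Dser ψ (Gf κ lam) u) t =
      (C₀ : ℂ)⁻¹ * ∫ u : ℝ, Dser ψ (Gf κ lam) u * cexp (((1 / 2 + t * I : ℂ) - 1 / 2) * u) := by
    intro t
    unfold Pool.Agent.SQS.hat
    rw [← integral_const_mul]
    congr 1
    funext u
    rw [mul_assoc]
    congr 3
    ring
  refine ⟨⟨fun s => (C₀ : ℂ)⁻¹ * ∫ u : ℝ, Dser ψ (Gf κ lam) u * cexp ((s - 1 / 2) * u),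
    Real.log (cond 𝔮), fun u => (C₀ : ℂ)⁻¹ * Dser ψ (Gf κ lam) u, ?_, hnice, hrep, ?_⟩,
    ⟨?_, ?_⟩, rfl, rfl⟩
  · exact hent.const_mul _
  · refine ⟨Ω, hΩ, fun t => ?_⟩
    refine Pool.Agent.ABS.fe_of_dens (dens := fun u => (C₀ : ℂ)⁻¹ * Dser ψ (Gf κ lam) u)
      (Λ := fun s => (C₀ : ℂ)⁻¹ * ∫ u : ℝ, Dser ψ (Gf κ lam) u * cexp ((s - 1 / 2) * u))
      hrep hΩ (fun u => ?_) t
    rw [map_mul, map_inv₀, Complex.conj_ofReal, hfe u,
      show -Real.log (cond 𝔮) - u = -u - Real.log (cond 𝔮) by ring]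
    ring
  · exact hent.const_mul _
  · intro s hs
    simp only
    rw [mellin_Dser (fun 𝔞 => hecke_le hψ 𝔞) (hecke_bot h𝔮' hψ) hs,
      (hm κ lam s (by linarith)).2]
    field_simp

/-- the transform of the reference density -/
theorem hat_gK {C₀ : ℝ} (hC₀ : 0 < C₀)
    (hm : ∀ (κ : InfinitePlace K → ℤ) (lam : InfinitePlace K → ℝ)
      (s : ℂ), 0 < s.re → Integrable (fun u : ℝ => kint K (Gf κ lam) u * cexp (s * u)) ∧
        ∫ u : ℝ, kint K (Gf κ lam) u * cexp (s * u) = C₀ * gam κ lam s)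
    (κ : InfinitePlace K → ℤ) (lam : InfinitePlace K → ℝ) (t : ℝ) :
    hat (fun u => (C₀ : ℂ)⁻¹ * gK κ lam u) t = gam κ lam (1 / 2 + t * I) := by
  have hC₀' : (C₀ : ℂ) ≠ 0 := by exact_mod_cast hC₀.ne'
  have h := (hm κ lam (1 / 2 + t * I) (by simp)).2
  have e : hat (fun u => (C₀ : ℂ)⁻¹ * gK κ lam u) t =
      (C₀ : ℂ)⁻¹ * ∫ u : ℝ, kint K (Gf κ lam) u * cexp ((1 / 2 + t * I) * u) := by
    unfold Pool.Agent.SQS.hat
    rw [← integral_const_mul]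
    congr 1
    funext u
    unfold gK
    have : cexp ((1 / 2 + t * I) * u) = (Real.exp (u / 2) : ℂ) * cexp (t * u * I) := by
      rw [Complex.ofReal_exp, ← Complex.exp_add]
      congr 1
      push_cast
      ring
    rw [this]
    ring
  rw [e, h]
  field_simp

end Pool.Agent.KS
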