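import Pool.Agent.Lib_helper92.KSA.Base
import Pool.Agent.Lib_helper92.KSA.BRG
import Pool.Agent.Lib_helper92.KSA.GDK

/-!
# Block DKE: `DK` as a `Dser`
-/

namespace Pool.Agent.KS

open NumberField NumberField.InfinitePlace NumberField.Units Complex MeasureTheory Filter Topology
open Pool.Agent.HZ Pool.Agent.AS

set_option linter.unusedSectionVars false

section conv

variable {P : Type}

open scoped Classical in
/-- convolution with a function supported in `B` -/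
theorem dke_conv (φ f : MvPowerSeries P ℝ) (B : Finset (P →₀ ℕ)) (hf : ∀ m, m ∉ B → f m = 0)
    (h : P →₀ ℕ) : (φ * f : MvPowerSeries P ℝ) h = ∑ m ∈ B, if m ≤ h then φ (h - m) * f m else 0 := by
  rw [mul_app]
  have h1 : ∑ p ∈ Finset.HasAntidiagonal.antidiagonal h, φ p.1 * f p.2 =
      ∑ p ∈ (Finset.HasAntidiagonal.antidiagonal h).filter (fun p => p.2 ∈ B),
        φ p.1 * f p.2 := by
    rw [Finset.sum_filter]
    refine Finset.sum_congr rfl fun p _ => ?_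
    by_cases hp : p.2 ∈ B
    · rw [if_pos hp]
    · rw [if_neg hp, hf _ hp, mul_zero]
  rw [h1, ← Finset.sum_filter]
  refine Finset.sum_nbij' (fun p => p.2) (fun m => (h - m, m)) ?_ ?_ ?_ ?_ ?_
  · intro p hp
    rw [Finset.mem_filter, Finset.HasAntidiagonal.mem_antidiagonal] at hp
    rw [Finset.mem_filter]
    refine ⟨hp.2, ?_⟩
    rw [← hp.1]
    exact le_add_self
  · intro m hm
    rw [Finset.mem_filter] at hm
    rw [Finset.mem_filter, Finset.HasAntidiagonal.mem_antidiagonal]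
    exact ⟨tsub_add_cancel_of_le hm.2, hm.1⟩
  · intro p hp
    rw [Finset.mem_filter, Finset.HasAntidiagonal.mem_antidiagonal] at hp
    apply Prod.ext
    · simp only
      rw [← hp.1, add_tsub_cancel_right]
    · rfl
  · intro m _
    rfl
  · intro p hp
    rw [Finset.mem_filter, Finset.HasAntidiagonal.mem_antidiagonal] at hp
    rw [← hp.1, add_tsub_cancel_right]

open scoped Classical in
theorem dke_bb (N : P → ℕ) (L : ℝ) (B : Finset (P →₀ ℕ)) (hB : ∀ m, m ∉ B → be N L m = 0)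
    (h : P →₀ ℕ) :
    bb N L h = ∑ k ∈ B, ∑ l ∈ B, if k + l ≤ h then be N L k * be N L l else 0 := by
  unfold bb
  rw [← mul_assoc, dke_conv _ _ B hB, Finset.sum_comm]
  refine Finset.sum_congr rfl fun l _ => ?_
  by_cases hl : l ≤ h
  · rw [if_pos hl, dke_conv _ _ B hB, Finset.sum_mul]
    refine Finset.sum_congr rfl fun k _ => ?_
    have hiff : k ≤ h - l ↔ k + l ≤ h := le_tsub_iff_right hl
    by_cases hk : k ≤ h - l
    · rw [if_pos hk, if_pos (hiff.1 hk)]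
      simp [one]
    · rw [if_neg hk, if_neg (fun h' => hk (hiff.2 h')), zero_mul]
  · rw [if_neg hl]
    symm
    refine Finset.sum_eq_zero fun k _ => ?_
    rw [if_neg]
    intro h'
    exact hl (le_add_self.trans h')

end conv

variable {K : Type} [Field K] [NumberField K]

theorem dke_be_zero {L : ℝ} (hL : 0 < L) (m : PK K →₀ ℕ)
    (hm : m ∉ ball (NK K) (Real.exp L)) : be (NK K) L m = 0 := by
  apply be_zero hL
  rw [mem_ball (good_NK K)] at hm
  have h1 : Real.exp L < nm (NK K) m := not_le.1 hm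
  have h2 := Real.log_le_log (Real.exp_pos L) h1.le
  rwa [Real.log_exp] at h2

theorem dke_nm_pos (g : PK K →₀ ℕ) : (0 : ℝ) < nm (NK K) g := by
  exact_mod_cast nm_pos two_le_NK g

theorem dke_exp_lK (g : PK K →₀ ℕ) : Real.exp (lK g / 2) = √(nm (NK K) g : ℝ) := by
  unfold lK
  rw [Real.exp_half, Real.exp_log (dke_nm_pos g)]

theorem dke_lK_add (g h : PK K →₀ ℕ) : lK (g + h) = lK g + lK h := by
  unfold lK
  rw [nm_add, Nat.cast_mul, Real.log_mul (dke_nm_pos g).ne' (dke_nm_pos h).ne']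

/-- `Dser` as a sum over `PK K →₀ ℕ` -/
theorem dke_Dser (b : Ideal (𝓞 K) → ℂ) (hb0 : b ⊥ = 0) (F : (InfinitePlace K → ℝ) → ℂ) (u : ℝ) :
    Dser b F u = (Real.exp (u / 2) : ℂ) *
      ∑' g : PK K →₀ ℕ, b (IK g) * kint K F (u + lK g) := by
  unfold Dser
  rw [(summable_IK' (fun 𝔠 => b 𝔠 * kint K F (u + Real.log (Ideal.absNorm 𝔠)))
    (by simp [hb0])).2]
  simp only [absNorm_IK]
  rfl

theorem dke_summable {F : (InfinitePlace K → ℝ) → ℂ} {C c : ℝ} (hF : GoodF F C c)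
    {b : Ideal (𝓞 K) → ℂ} {β : ℝ} (hb : ∀ 𝔠, ‖b 𝔠‖ ≤ β) (hb0 : b ⊥ = 0) (u : ℝ) :
    Summable (fun g : PK K →₀ ℕ => b (IK g) * kint K F (u + lK g)) := by
  have h1 := (summable_IK' (fun 𝔠 => b 𝔠 * kint K F (u + Real.log (Ideal.absNorm 𝔠)))
    (by simp [hb0])).1.1 (Dser_summable hF hb hb0 u)
  simp only [absNorm_IK] at h1
  exact h1

theorem dke_psi_le {𝔮 : Ideal (𝓞 K)} {κ : InfinitePlace K → ℤ}
    {lam : InfinitePlace K → ℝ} {χ : MulChar (𝓞 K ⧸ 𝔮) ℂ} {ψ : Ideal (𝓞 K) →* ℂ}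
    (hψ : IsHecke 𝔮 κ lam χ ψ) (𝔞 : Ideal (𝓞 K)) : ‖ψ 𝔞‖ ≤ 1 := by
  by_cases h : IsCoprime 𝔞 𝔮
  · exact (hψ.norm_eq_one 𝔞 h).le
  · rw [hψ.eq_zero 𝔞 h, norm_zero]
    exact zero_le_one

theorem dke_psi_bot {𝔮 : Ideal (𝓞 K)} (h𝔮' : 𝔮 ≠ ⊤) {κ : InfinitePlace K → ℤ}
    {lam : InfinitePlace K → ℝ} {χ : MulChar (𝓞 K ⧸ 𝔮) ℂ} {ψ : Ideal (𝓞 K) →* ℂ}
    (hψ : IsHecke 𝔮 κ lam χ ψ) : ψ ⊥ = 0 := by
  apply hψ.eq_zero
  intro h
  apply h𝔮'
  rw [Ideal.isCoprime_iff_sup_eq, bot_sup_eq] at h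
  exact h

/-- shifting a sum over `PK K →₀ ℕ` -/
theorem dke_shift (G : (PK K →₀ ℕ) → ℂ) (m : PK K →₀ ℕ) :
    open scoped Classical in
    ∑' h : PK K →₀ ℕ, (if m ≤ h then G h else 0) = ∑' g, G (m + g) := by
  classical
  have hinj : Function.Injective (fun g : PK K →₀ ℕ => m + g) := add_right_injective m
  rw [← hinj.tsum_eq]
  · refine tsum_congr fun g => ?_
    rw [if_pos le_self_add]
  · intro h hh
    rw [Function.mem_support] at hh
    by_cases hm : m ≤ h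
    · exact ⟨h - m, add_tsub_cancel_of_le hm⟩
    · rw [if_neg hm] at hh
      exact absurd rfl hh

theorem DK_eq_pr {𝔮 : Ideal (𝓞 K)} (h𝔮 : 𝔮 ≠ ⊥) (h𝔮' : 𝔮 ≠ ⊤) {κ : InfinitePlace K → ℤ}
    {lam : InfinitePlace K → ℝ} {χ : MulChar (𝓞 K ⧸ 𝔮) ℂ} {ψ : Ideal (𝓞 K) →* ℂ}
    (hψ : IsHecke 𝔮 κ lam χ ψ) {L : ℝ} (hL : 0 < L) {b : Ideal (𝓞 K) → ℂ} (hb0 : b ⊥ = 0)
    (hb : ∀ g : PK K →₀ ℕ, b (IK g) = (bb (NK K) L g : ℂ)) (u : ℝ) :
    DK L κ lam ψ u = Dser (fun 𝔠 => b 𝔠 * ψ 𝔠) (Gf κ lam) u := by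
  classical
  obtain ⟨C, hC⟩ := Gf_good (K := K) κ
  have hF := hC lam
  have hψ0 := dke_psi_bot h𝔮' hψ
  set B := ball (NK K) (Real.exp L) with hB
  set G : (PK K →₀ ℕ) → ℂ := fun h => ψ (IK h) * kint K (Gf κ lam) (u + lK h) with hG
  have hGs : Summable G := dke_summable hF (b := fun 𝔠 => ψ 𝔠) (β := 1) (dke_psi_le hψ) hψ0 u
  have hR : Dser (fun 𝔠 => b 𝔠 * ψ 𝔠) (Gf κ lam) u = (Real.exp (u / 2) : ℂ) *
      ∑' h : PK K →₀ ℕ, (bb (NK K) L h : ℂ) * G h := by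
    rw [dke_Dser _ (by simp [hb0])]
    congr 1
    refine tsum_congr fun g => ?_
    rw [hb g, hG]
    ring
  have hind : ∀ m : PK K →₀ ℕ, Summable (fun h => if m ≤ h then G h else 0) := by
    intro m
    have := hGs.indicator {h | m ≤ h}
    refine this.congr fun h => ?_
    by_cases hm : m ≤ h
    · rw [if_pos hm, Set.indicator_of_mem (show h ∈ {h | m ≤ h} from hm)]
    · rw [if_neg hm, Set.indicator_of_notMem (show h ∉ {h | m ≤ h} from hm)]
  have hterm : ∀ h, (bb (NK K) L h : ℂ) * G h = ∑ k ∈ B, ∑ l ∈ B,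
      ((be (NK K) L k * be (NK K) L l : ℝ) : ℂ) * (if k + l ≤ h then G h else 0) := by
    intro h
    rw [dke_bb (NK K) L B (fun m hm => dke_be_zero hL m hm) h]
    push_cast
    rw [Finset.sum_mul]
    refine Finset.sum_congr rfl fun k _ => ?_
    rw [Finset.sum_mul]
    refine Finset.sum_congr rfl fun l _ => ?_
    by_cases hkl : k + l ≤ h
    · rw [if_pos hkl, if_pos hkl]; push_cast; ring
    · rw [if_neg hkl, if_neg hkl]; push_cast; ring
  rw [hR, tsum_congr hterm, Summable.tsum_finsetSum (fun k _ =>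
    summable_sum fun l _ => (hind (k + l)).mul_left _), Finset.mul_sum]
  unfold DK
  refine Finset.sum_congr rfl fun k _ => ?_
  rw [Summable.tsum_finsetSum (fun l _ => (hind (k + l)).mul_left _), Finset.mul_sum]
  refine Finset.sum_congr rfl fun l _ => ?_
  rw [tsum_mul_left, dke_shift, dke_Dser (fun 𝔠 => ψ 𝔠) hψ0]
  have h1 : ∑' g : PK K →₀ ℕ, G (k + l + g) = ψ (IK k) * ψ (IK l) *
      ∑' g : PK K →₀ ℕ, ψ (IK g) * kint K (Gf κ lam) (u + (lK k + lK l) + lK g) := by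
    rw [← tsum_mul_left]
    refine tsum_congr fun g => ?_
    rw [hG]
    simp only
    rw [IK_add, IK_add, map_mul, map_mul, dke_lK_add, dke_lK_add]
    rw [show u + (lK k + lK l + lK g) = u + (lK k + lK l) + lK g by ring]
    ring
  rw [h1]
  have h2 : Real.exp ((u + (lK k + lK l)) / 2) =
      Real.exp (u / 2) * √(nm (NK K) k : ℝ) * √(nm (NK K) l : ℝ) := by
    rw [show (u + (lK k + lK l)) / 2 = u / 2 + lK k / 2 + lK l / 2 by ring, Real.exp_add,
      Real.exp_add, dke_exp_lK, dke_exp_lK]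
  rw [h2]
  unfold bK
  have hk : ((√(nm (NK K) k : ℝ) : ℝ) : ℂ) ≠ 0 := by
    exact_mod_cast (Real.sqrt_pos.2 (dke_nm_pos k)).ne'
  have hl : ((√(nm (NK K) l : ℝ) : ℝ) : ℂ) ≠ 0 := by
    exact_mod_cast (Real.sqrt_pos.2 (dke_nm_pos l)).ne'
  push_cast
  field_simp

end Pool.Agent.KS

namespace Pool.Agent.KS

theorem DK_eq : type_of% @DK_eq_pr := @DK_eq_pr

end Pool.Agent.KS
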