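import Pool.Agent.Lib_helper92.KSA.Base
import Pool.Agent.Lib_helper92.KSA.BRG
import Pool.Agent.Lib_helper92.KSA.DKE
import Pool.Agent.Lib_helper92.KSA.GDK

/-!
# Block MDK: the mean square of `DK`
-/

namespace Pool.Agent.KS

open NumberField NumberField.InfinitePlace NumberField.Units Complex MeasureTheory Filter Topology
open Pool.Agent.HZ Pool.Agent.AS

set_option linter.unusedSectionVars false

variable {K : Type} [Field K] [NumberField K]

/-- `L e^{8.5 L} exp(-c' e^{aL})` is bounded -/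
theorem mdk_exp {a c' : ℝ} (ha : 0 < a) (hc' : 0 < c') : ∃ M : ℝ, 0 ≤ M ∧ ∀ L : ℝ, 1 ≤ L →
    Real.exp (9 * L) * Real.exp (-(c' * Real.exp (a * L))) ≤ M / L := by
  obtain ⟨k, hk⟩ := exists_nat_ge (10 / a)
  have hk' : 10 ≤ a * k := by
    rw [div_le_iff₀ ha] at hk
    linarith
  refine ⟨k.factorial / c' ^ k, by positivity, fun L hL => ?_⟩
  set X : ℝ := c' * Real.exp (a * L) with hX
  have hX0 : 0 < X := by positivity
  have h1 : X ^ k / k.factorial ≤ Real.exp X := Real.pow_div_factorial_le_exp _ hX0.le k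
  have h2 : Real.exp (-X) ≤ k.factorial / X ^ k := by
    rw [Real.exp_neg, inv_eq_one_div, div_le_div_iff₀ (Real.exp_pos _) (by positivity)]
    rw [div_le_iff₀ (by positivity)] at h1
    linarith
  have h3 : X ^ k = c' ^ k * Real.exp (a * k * L) := by
    rw [hX, mul_pow, ← Real.exp_nat_mul]
    congr 2
    ring
  have h4 : Real.exp (9 * L) * L ≤ Real.exp (a * k * L) := by
    have e1 : L ≤ Real.exp L := by
      have := Real.add_one_le_exp L
      linarith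
    calc Real.exp (9 * L) * L ≤ Real.exp (9 * L) * Real.exp L :=
          mul_le_mul_of_nonneg_left e1 (Real.exp_pos _).le
      _ = Real.exp (10 * L) := by rw [← Real.exp_add]; ring_nf
      _ ≤ Real.exp (a * k * L) := by
          apply Real.exp_le_exp.2
          nlinarith
  have hL0 : 0 < L := by linarith
  rw [le_div_iff₀ hL0]
  calc Real.exp (9 * L) * Real.exp (-X) * L = (Real.exp (9 * L) * L) * Real.exp (-X) := by ring
    _ ≤ Real.exp (a * k * L) * (k.factorial / X ^ k) :=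
        mul_le_mul h4 h2 (Real.exp_pos _).le (Real.exp_pos _).le
    _ = k.factorial / c' ^ k := by
        rw [h3]
        have := Real.exp_pos (a * k * L)
        field_simp

open scoped Classical in
/-- the coefficients of `DK - gK` -/
noncomputable def mdk_b (L : ℝ) (𝔠 : Ideal (𝓞 K)) : ℂ :=
  if h : 𝔠 ≠ ⊥ then (bb (NK K) L (IK_surj h).choose : ℂ) else 0

theorem mdk_b_IK (L : ℝ) (g : PK K →₀ ℕ) : mdk_b L (IK g) = (bb (NK K) L g : ℂ) := by
  unfold mdk_b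
  rw [dif_pos (IK_ne_bot g)]
  have h := (IK_surj (IK_ne_bot g)).choose_spec
  rw [IK_inj h]

theorem mdk_b_bot (L : ℝ) : mdk_b L (⊥ : Ideal (𝓞 K)) = 0 := by
  unfold mdk_b
  rw [dif_neg]
  simp

open scoped Classical in
theorem mdk_top_IK (g : PK K →₀ ℕ) : (if IK g = ⊤ then (1 : ℂ) else 0) = if g = 0 then 1 else 0 := by
  by_cases h : g = 0
  · rw [if_pos h, if_pos (by rw [h, IK_zero])]
  · rw [if_neg h, if_neg]
    intro h'
    rw [← IK_zero] at h'
    exact h (IK_inj h')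

theorem mean_DK_pr (κ : InfinitePlace K → ℤ) :
    ∃ C : ℝ, 0 ≤ C ∧ ∀ (𝔮 : Ideal (𝓞 K)) (_ : 𝔮 ≠ ⊥) (_ : 𝔮 ≠ ⊤)
      (E : Finset (MulChar (𝓞 K ⧸ 𝔮) ℂ)) (lam : MulChar (𝓞 K ⧸ 𝔮) ℂ → InfinitePlace K → ℝ)
      (ψ : MulChar (𝓞 K ⧸ 𝔮) ℂ → (Ideal (𝓞 K) →* ℂ))
      (_ : ∀ χ ∈ E, IsHecke 𝔮 κ (lam χ) χ (ψ χ)) (L : ℝ) (_ : 1 ≤ L)
      (_ : 32 * L = Real.log (cond 𝔮)) (u : ℝ) (_ : |u| ≤ L / 2),
      ∑ χ ∈ E, ‖DK L κ (lam χ) (ψ χ) u - gK κ (lam χ) u‖ ^ 2 ≤
        C * (Nat.card (𝓞 K ⧸ 𝔮)ˣ : ℝ) / L := by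
  classical
  obtain ⟨C₁, c, hC₁, hc, hms⟩ := mean_sq (K := K) κ
  obtain ⟨C₂, hC₂, hbb⟩ := bb_abs (good_NK K)
  obtain ⟨ρ, hkern⟩ := kern_NK K
  obtain ⟨C₃, hC₃, hbm⟩ := bb_mean (good_NK K) hkern
  -- the discriminant
  have hd : (0 : ℝ) < |(discr K : ℝ)| := by
    rw [abs_pos]
    exact_mod_cast discr_ne_zero K
  have hn : (0 : ℝ) < Module.finrank ℚ K := by
    exact_mod_cast Module.finrank_pos (R := ℚ) (M := K)
  set n : ℝ := (Module.finrank ℚ K : ℝ) with hn_def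
  set d : ℝ := |(discr K : ℝ)| with hd_def
  obtain ⟨M, hM0, hM⟩ := mdk_exp (a := 63 / n) (c' := c * (d⁻¹) ^ (2 / n)) (by positivity)
    (by positivity)
  refine ⟨C₁ * C₃ + C₁ * C₂ ^ 2 * (4 * M), by positivity, ?_⟩
  intro 𝔮 h𝔮 h𝔮' E lam ψ hψ L hL hLc u hu
  have hL0 : 0 < L := by linarith
  -- the coefficients
  set b : Ideal (𝓞 K) → ℂ := fun 𝔠 => mdk_b L 𝔠 - (if 𝔠 = ⊤ then 1 else 0) with hb_def
  have hbot_top : (⊥ : Ideal (𝓞 K)) ≠ ⊤ := bot_ne_top
  have hb0 : b ⊥ = 0 := by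
    rw [hb_def]
    simp only
    rw [mdk_b_bot, if_neg hbot_top, sub_zero]
  have hbIK : ∀ g : PK K →₀ ℕ, b (IK g) = ((if g = 0 then 0 else bb (NK K) L g : ℝ) : ℂ) := by
    intro g
    rw [hb_def]
    simp only
    rw [mdk_b_IK, mdk_top_IK]
    by_cases h : g = 0
    · rw [if_pos h, if_pos h, h, bb_zero hL0]
      simp
    · rw [if_neg h, if_neg h, sub_zero]
  have hbβ : ∀ 𝔠, ‖b 𝔠‖ ≤ C₂ * Real.exp (4 * L) := by
    intro 𝔠
    by_cases h : 𝔠 = ⊥
    · rw [h, hb0, norm_zero]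
      positivity
    · obtain ⟨g, rfl⟩ := IK_surj h
      rw [hbIK, Complex.norm_real, Real.norm_eq_abs]
      by_cases hg : g = 0
      · rw [if_pos hg, abs_zero]
        positivity
      · rw [if_neg hg]
        exact hbb L hL0 g
  -- the difference as a `Dser`
  have hdiff : ∀ χ ∈ E, DK L κ (lam χ) (ψ χ) u - gK κ (lam χ) u =
      Dser (fun 𝔠 => b 𝔠 * ψ χ 𝔠) (Gf κ (lam χ)) u := by
    intro χ hχ
    have hψχ := hψ χ hχ
    obtain ⟨CG, hCG⟩ := Gf_good (K := K) κ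
    have hF := hCG (lam χ)
    rw [DK_eq_pr h𝔮 h𝔮' hψχ hL0 (mdk_b_bot L) (mdk_b_IK L) u]
    have hg : gK κ (lam χ) u =
        Dser (fun 𝔠 => (if 𝔠 = ⊤ then 1 else 0) * ψ χ 𝔠) (Gf κ (lam χ)) u := by
      unfold gK Dser
      congr 1
      rw [tsum_eq_single ⊤]
      · have h1 : ψ χ ⊤ = 1 := by
          have : (⊤ : Ideal (𝓞 K)) = 1 := Ideal.one_eq_top.symm
          rw [this, map_one]
        beta_reduce
        rw [if_pos rfl, h1, Ideal.absNorm_top]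
        simp
      · intro 𝔠 h
        beta_reduce
        rw [if_neg h, zero_mul, zero_mul]
    rw [hg]
    unfold Dser
    rw [← mul_sub]
    congr 1
    have hs1 : Summable (fun 𝔠 : Ideal (𝓞 K) => mdk_b L 𝔠 * ψ χ 𝔠 *
        kint K (Gf κ (lam χ)) (u + Real.log (Ideal.absNorm 𝔠))) := by
      refine Dser_summable hF (b := fun 𝔠 => mdk_b L 𝔠 * ψ χ 𝔠) (β := C₂ * Real.exp (4 * L))
        (fun 𝔠 => ?_) (by rw [mdk_b_bot, zero_mul]) u
      rw [norm_mul]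
      have h2 : ‖mdk_b L 𝔠‖ ≤ C₂ * Real.exp (4 * L) := by
        by_cases h : 𝔠 = ⊥
        · rw [h, mdk_b_bot, norm_zero]
          positivity
        · obtain ⟨g, rfl⟩ := IK_surj h
          rw [mdk_b_IK, Complex.norm_real, Real.norm_eq_abs]
          exact hbb L hL0 g
      calc ‖mdk_b L 𝔠‖ * ‖ψ χ 𝔠‖ ≤ (C₂ * Real.exp (4 * L)) * 1 :=
            mul_le_mul h2 (dke_psi_le hψχ 𝔠) (norm_nonneg _) (by positivity)
        _ = C₂ * Real.exp (4 * L) := mul_one _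
    have hs2 : Summable (fun 𝔠 : Ideal (𝓞 K) => (if 𝔠 = ⊤ then (1 : ℂ) else 0) * ψ χ 𝔠 *
        kint K (Gf κ (lam χ)) (u + Real.log (Ideal.absNorm 𝔠))) := by
      apply summable_of_ne_finset_zero (s := {⊤})
      intro 𝔠 h
      rw [Finset.mem_singleton] at h
      rw [if_neg h, zero_mul, zero_mul]
    rw [← hs1.tsum_sub hs2]
    refine tsum_congr fun 𝔠 => ?_
    rw [hb_def]
    ring
  rw [Finset.sum_congr rfl fun χ hχ => by rw [hdiff χ hχ]]
  refine (hms 𝔮 h𝔮 b (C₂ * Real.exp (4 * L)) hbβ hb0 E lam ψ hψ u).trans ?_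
  -- the diagonal
  have hdiag : Real.exp u *
      ∑' 𝔠 : Ideal (𝓞 K), ‖b 𝔠‖ ^ 2 * kg K Real.pi (u + Real.log (Ideal.absNorm 𝔠)) ≤ C₃ / L := by
    have h1 := (hbm L u hL hu).2
    rw [(summable_IK (fun 𝔠 => ‖b 𝔠‖ ^ 2 * kg K Real.pi (u + Real.log (Ideal.absNorm 𝔠)))
      (by simp only [hb0, norm_zero]; ring)).2]
    refine le_trans (le_of_eq ?_) h1
    congr 1
    refine tsum_congr fun g => ?_
    rw [hbIK, absNorm_IK, Complex.norm_real, Real.norm_eq_abs, sq_abs]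
    by_cases hg : g = 0
    · rw [if_pos hg, if_pos hg]; ring
    · rw [if_neg hg, if_neg hg]
  -- the error term
  have hqpos : (0 : ℝ) < Ideal.absNorm 𝔮 := by
    have : Ideal.absNorm 𝔮 ≠ 0 := by
      rw [Ne, Ideal.absNorm_eq_zero_iff]
      exact h𝔮
    exact_mod_cast Nat.pos_of_ne_zero this
  have hcond : d * Ideal.absNorm 𝔮 = Real.exp (32 * L) := by
    rw [hLc, Real.exp_log]
    · rfl
    · unfold HZ.cond
      positivity
  have hu1 : -(L / 2) ≤ u := (abs_le.1 hu).1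
  have hu2 : u ≤ L / 2 := (abs_le.1 hu).2
  have herr1 : Real.exp u * (1 + Real.exp (-u)) ^ 2 ≤ 4 * Real.exp L := by
    have e1 : Real.exp u * (1 + Real.exp (-u)) ^ 2 = Real.exp u + 2 + Real.exp (-u) := by
      have : Real.exp u * Real.exp (-u) = 1 := by rw [← Real.exp_add]; simp
      linear_combination (2 + Real.exp (-u)) * this
    have e2 : Real.exp u ≤ Real.exp L := Real.exp_le_exp.2 (by linarith)
    have e3 : Real.exp (-u) ≤ Real.exp L := Real.exp_le_exp.2 (by linarith)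
    have e4 : 1 ≤ Real.exp L := Real.one_le_exp hL0.le
    rw [e1]
    linarith
  have herr2 : c * (d⁻¹) ^ (2 / n) * Real.exp (63 / n * L) ≤
      c * (Real.exp u * Ideal.absNorm 𝔮) ^ (2 / n) := by
    rw [mul_assoc]
    apply mul_le_mul_of_nonneg_left _ hc.le
    have e1 : Real.exp (63 / n * L) = (Real.exp (31.5 * L)) ^ (2 / n) := by
      rw [← Real.exp_mul]
      congr 1
      ring
    rw [e1, ← Real.mul_rpow (by positivity) (by positivity)]
    apply Real.rpow_le_rpow (by positivity) _ (by positivity)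
    have e2 : (Ideal.absNorm 𝔮 : ℝ) = d⁻¹ * Real.exp (32 * L) := by
      rw [← hcond]; field_simp
    rw [e2]
    have e3 : Real.exp (31.5 * L) ≤ Real.exp u * Real.exp (32 * L) := by
      rw [← Real.exp_add]
      apply Real.exp_le_exp.2
      linarith
    calc d⁻¹ * Real.exp (31.5 * L) ≤ d⁻¹ * (Real.exp u * Real.exp (32 * L)) :=
          mul_le_mul_of_nonneg_left e3 (by positivity)
      _ = Real.exp u * (d⁻¹ * Real.exp (32 * L)) := by ring
  have herr3 : (C₂ * Real.exp (4 * L)) ^ 2 * (Real.exp u * (1 + Real.exp (-u)) ^ 2 *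
      Real.exp (-c * (Real.exp u * Ideal.absNorm 𝔮) ^ (2 / n))) ≤ C₂ ^ 2 * (4 * M) / L := by
    have e1 : Real.exp (-c * (Real.exp u * Ideal.absNorm 𝔮) ^ (2 / n)) ≤
        Real.exp (-(c * (d⁻¹) ^ (2 / n) * Real.exp (63 / n * L))) := by
      apply Real.exp_le_exp.2
      linarith
    have e2 := hM L hL
    have e3 : (C₂ * Real.exp (4 * L)) ^ 2 = C₂ ^ 2 * Real.exp (8 * L) := by
      rw [mul_pow, ← Real.exp_nat_mul]
      congr 2
      push_cast
      ring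
    calc (C₂ * Real.exp (4 * L)) ^ 2 * (Real.exp u * (1 + Real.exp (-u)) ^ 2 *
        Real.exp (-c * (Real.exp u * Ideal.absNorm 𝔮) ^ (2 / n)))
        ≤ (C₂ ^ 2 * Real.exp (8 * L)) * (4 * Real.exp L *
          Real.exp (-(c * (d⁻¹) ^ (2 / n) * Real.exp (63 / n * L)))) := by
          rw [e3]
          apply mul_le_mul_of_nonneg_left _ (by positivity)
          exact mul_le_mul herr1 e1 (Real.exp_pos _).le (by positivity)
      _ = C₂ ^ 2 * 4 * (Real.exp (9 * L) *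
          Real.exp (-(c * (d⁻¹) ^ (2 / n) * Real.exp (63 / n * L)))) := by
          have : Real.exp (9 * L) = Real.exp (8 * L) * Real.exp L := by
            rw [← Real.exp_add]; ring_nf
          rw [this]; ring
      _ ≤ C₂ ^ 2 * 4 * (M / L) := mul_le_mul_of_nonneg_left e2 (by positivity)
      _ = C₂ ^ 2 * (4 * M) / L := by ring
  have hcardnn : (0 : ℝ) ≤ Nat.card (𝓞 K ⧸ 𝔮)ˣ := Nat.cast_nonneg _
  have htot : C₁ * (Real.exp u *
      ∑' 𝔠 : Ideal (𝓞 K), ‖b 𝔠‖ ^ 2 * kg K Real.pi (u + Real.log (Ideal.absNorm 𝔠))) +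
      C₁ * (C₂ * Real.exp (4 * L)) ^ 2 * (Real.exp u * (1 + Real.exp (-u)) ^ 2 *
      Real.exp (-c * (Real.exp u * Ideal.absNorm 𝔮) ^ (2 / n))) ≤
      (C₁ * C₃ + C₁ * C₂ ^ 2 * (4 * M)) / L := by
    have e1 := mul_le_mul_of_nonneg_left hdiag hC₁
    have e2 := mul_le_mul_of_nonneg_left herr3 hC₁
    have e3 : (C₁ * C₃ + C₁ * C₂ ^ 2 * (4 * M)) / L = C₁ * (C₃ / L) + C₁ * (C₂ ^ 2 * (4 * M) / L) := by
      ring
    rw [e3]
    have e4 : C₁ * (C₂ * Real.exp (4 * L)) ^ 2 * (Real.exp u * (1 + Real.exp (-u)) ^ 2 *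
      Real.exp (-c * (Real.exp u * Ideal.absNorm 𝔮) ^ (2 / n))) =
      C₁ * ((C₂ * Real.exp (4 * L)) ^ 2 * (Real.exp u * (1 + Real.exp (-u)) ^ 2 *
      Real.exp (-c * (Real.exp u * Ideal.absNorm 𝔮) ^ (2 / n)))) := by ring
    rw [e4]
    linarith
  calc _ ≤ (Nat.card (𝓞 K ⧸ 𝔮)ˣ : ℝ) * ((C₁ * C₃ + C₁ * C₂ ^ 2 * (4 * M)) / L) :=
        mul_le_mul_of_nonneg_left htot hcardnn
    _ = _ := by ring

end Pool.Agent.KS

namespace Pool.Agent.KS

theorem mean_DK : type_of% @mean_DK_pr := @mean_DK_pr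

end Pool.Agent.KS
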