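import Pool.Agent.Lib_helper92.KSA.Base

/-!
# Block WNF : facts about `wn`
-/

namespace Pool.Agent.KS

open NumberField NumberField.InfinitePlace NumberField.Units Complex MeasureTheory Filter Topology
open Pool.Agent.HZ Pool.Agent.AS

theorem wnf_pos (n : ℕ) (u u' : ℝ) :
    0 < (Real.exp (2 * u / n) + Real.exp (2 * u' / n)) / 2 := by positivity

theorem exp_wn_pr {n : ℕ} (hn : 0 < n) (u u' : ℝ) :
    Real.exp (2 * wn n u u' / n) = (Real.exp (2 * u / n) + Real.exp (2 * u' / n)) / 2 := by
  have hn' : (n : ℝ) ≠ 0 := by positivity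
  have h : 2 * wn n u u' / n =
      Real.log ((Real.exp (2 * u / n) + Real.exp (2 * u' / n)) / 2) := by
    unfold wn
    field_simp
  rw [h, Real.exp_log (wnf_pos n u u')]

theorem wn_shift_pr {n : ℕ} (hn : 0 < n) (u u' c : ℝ) :
    wn n (u + c) (u' + c) = wn n u u' + c := by
  have hn' : (n : ℝ) ≠ 0 := by positivity
  unfold wn
  have h1 : (Real.exp (2 * (u + c) / n) + Real.exp (2 * (u' + c) / n)) / 2 =
      ((Real.exp (2 * u / n) + Real.exp (2 * u' / n)) / 2) * Real.exp (2 * c / n) := by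
    rw [show 2 * (u + c) / n = 2 * u / n + 2 * c / n by ring,
      show 2 * (u' + c) / n = 2 * u' / n + 2 * c / n by ring, Real.exp_add, Real.exp_add]
    ring
  rw [h1, Real.log_mul (wnf_pos n u u').ne' (Real.exp_ne_zero _), Real.log_exp]
  field_simp

theorem wn_le_max_pr {n : ℕ} (hn : 0 < n) (u u' : ℝ) : wn n u u' ≤ max u u' := by
  have hn' : (0 : ℝ) < n := by positivity
  have h1 : (Real.exp (2 * u / n) + Real.exp (2 * u' / n)) / 2 ≤
      Real.exp (2 * max u u' / n) := by
    have ha : Real.exp (2 * u / n) ≤ Real.exp (2 * max u u' / n) := by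
      apply Real.exp_le_exp.mpr
      gcongr
      exact le_max_left _ _
    have hb : Real.exp (2 * u' / n) ≤ Real.exp (2 * max u u' / n) := by
      apply Real.exp_le_exp.mpr
      gcongr
      exact le_max_right _ _
    linarith
  have h2 : Real.log ((Real.exp (2 * u / n) + Real.exp (2 * u' / n)) / 2) ≤
      2 * max u u' / n := by
    rw [Real.log_le_iff_le_exp (wnf_pos n u u')]
    exact h1
  unfold wn
  calc (n / 2 : ℝ) * Real.log ((Real.exp (2 * u / n) + Real.exp (2 * u' / n)) / 2)
      ≤ (n / 2 : ℝ) * (2 * max u u' / n) := by gcongr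
    _ = max u u' := by field_simp

theorem mid_le_wn_pr {n : ℕ} (hn : 0 < n) (u u' : ℝ) : (u + u') / 2 ≤ wn n u u' := by
  have hn' : (0 : ℝ) < n := by positivity
  have h1 : Real.exp ((u + u') / n) ≤
      (Real.exp (2 * u / n) + Real.exp (2 * u' / n)) / 2 := by
    have e1 : Real.exp (2 * u / n) = Real.exp (u / n) ^ 2 := by
      rw [← Real.exp_nat_mul]; congr 1; push_cast; ring
    have e2 : Real.exp (2 * u' / n) = Real.exp (u' / n) ^ 2 := by
      rw [← Real.exp_nat_mul]; congr 1; push_cast; ring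
    have e3 : Real.exp ((u + u') / n) = Real.exp (u / n) * Real.exp (u' / n) := by
      rw [← Real.exp_add]; congr 1; ring
    rw [e1, e2, e3]
    nlinarith [sq_nonneg (Real.exp (u / n) - Real.exp (u' / n))]
  have h2 : (u + u') / n ≤ Real.log ((Real.exp (2 * u / n) + Real.exp (2 * u' / n)) / 2) := by
    rw [Real.le_log_iff_exp_le (wnf_pos n u u')]
    exact h1
  unfold wn
  calc (u + u') / 2 = (n / 2 : ℝ) * ((u + u') / n) := by field_simp
    _ ≤ (n / 2 : ℝ) * Real.log ((Real.exp (2 * u / n) + Real.exp (2 * u' / n)) / 2) := by gcongr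

theorem exp_mid_wn_pr {n : ℕ} (hn : 0 < n) (u u' : ℝ) :
    Real.exp ((u + u') / 2 - wn n u u') ≤ (2 : ℝ) ^ n * Real.exp (-(|u - u'| / 2)) := by
  have hn' : (0 : ℝ) < n := by positivity
  have h1 : Real.exp (2 * max u u' / n - Real.log 2) ≤
      (Real.exp (2 * u / n) + Real.exp (2 * u' / n)) / 2 := by
    rw [Real.exp_sub, Real.exp_log (by norm_num : (0 : ℝ) < 2)]
    rcases le_total u u' with h | h
    · rw [max_eq_right h]
      have := Real.exp_pos (2 * u / n)
      linarith
    · rw [max_eq_left h]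
      have := Real.exp_pos (2 * u' / n)
      linarith
  have h2 : 2 * max u u' / n - Real.log 2 ≤
      Real.log ((Real.exp (2 * u / n) + Real.exp (2 * u' / n)) / 2) := by
    rw [Real.le_log_iff_exp_le (wnf_pos n u u')]
    exact h1
  have h3 : max u u' - (n / 2 : ℝ) * Real.log 2 ≤ wn n u u' := by
    unfold wn
    calc max u u' - (n / 2 : ℝ) * Real.log 2 = (n / 2 : ℝ) * (2 * max u u' / n - Real.log 2) := by
          field_simp
      _ ≤ _ := by gcongr
  have h4 : (u + u') / 2 - max u u' = -(|u - u'| / 2) := by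
    rcases le_total u u' with h | h
    · rw [max_eq_right h, abs_of_nonpos (by linarith)]; ring
    · rw [max_eq_left h, abs_of_nonneg (by linarith)]; ring
  have hlog : 0 ≤ Real.log 2 := Real.log_nonneg (by norm_num)
  have h5 : (u + u') / 2 - wn n u u' ≤ (n : ℝ) * Real.log 2 + -(|u - u'| / 2) := by
    have : 0 ≤ (n / 2 : ℝ) * Real.log 2 := by positivity
    linarith
  calc Real.exp ((u + u') / 2 - wn n u u')
      ≤ Real.exp ((n : ℝ) * Real.log 2 + -(|u - u'| / 2)) := Real.exp_le_exp.mpr h5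
    _ = (2 : ℝ) ^ n * Real.exp (-(|u - u'| / 2)) := by
        rw [Real.exp_add, Real.exp_nat_mul, Real.exp_log (by norm_num : (0 : ℝ) < 2)]

theorem wn_continuous_pr {n : ℕ} (hn : 0 < n) :
    Continuous (fun p : ℝ × ℝ => wn n p.1 p.2) := by
  unfold wn
  refine continuous_const.mul (Continuous.log ?_ ?_)
  · fun_prop
  · intro p
    exact (wnf_pos n p.1 p.2).ne'

end Pool.Agent.KS

namespace Pool.Agent.KS

theorem exp_wn : type_of% @exp_wn_pr := @exp_wn_pr

theorem wn_shift : type_of% @wn_shift_pr := @wn_shift_pr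

theorem wn_le_max : type_of% @wn_le_max_pr := @wn_le_max_pr

theorem mid_le_wn : type_of% @mid_le_wn_pr := @mid_le_wn_pr

theorem exp_mid_wn : type_of% @exp_mid_wn_pr := @exp_mid_wn_pr

theorem wn_continuous : type_of% @wn_continuous_pr := @wn_continuous_pr

end Pool.Agent.KS
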