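import Pool.Agent.Lib_helper92.KSA.Base
import Pool.Agent.Lib_helper92.KSA.LNZ
import Pool.Agent.Lib_helper92.KSA.WNF

/-!
# Block MSW1: cross terms at a point of the cube (helper37)
-/

namespace Pool.Agent.KS

open NumberField NumberField.InfinitePlace NumberField.Units Complex MeasureTheory Filter Topology
open Pool.Agent.HZ Pool.Agent.AS
open scoped ENNReal

/-- Orthogonality of all the characters. -/
lemma msw1_orth {R : Type} [CommRing R] [Fintype R] [DecidableEq R] (E : Finset (MulChar R ℂ))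
    (hE : ∀ χ, χ ∈ E) (i j : R) :
    ∑ χ ∈ E, χ i * starRingEnd ℂ (χ j) =
      if i = j ∧ IsUnit i then (Nat.card Rˣ : ℂ) else 0 := by
  by_cases hi : IsUnit i
  swap
  · rw [if_neg (fun h => hi h.2)]
    refine Finset.sum_eq_zero fun χ _ => ?_
    rw [MulChar.map_nonunit χ hi, zero_mul]
  by_cases hj : IsUnit j
  swap
  · rw [if_neg (fun h : i = j ∧ IsUnit i => hj (h.1 ▸ h.2))]
    refine Finset.sum_eq_zero fun χ _ => ?_
    rw [MulChar.map_nonunit χ hj, map_zero, mul_zero]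
  have hstar : ∀ χ : MulChar R ℂ, starRingEnd ℂ (χ j) = χ (Ring.inverse j) := by
    intro χ
    have := MulChar.star_apply' χ j
    rw [RCLike.star_def] at this
    rw [this, MulChar.inv_apply]
  have hterm : ∀ χ : MulChar R ℂ, χ i * starRingEnd ℂ (χ j) = χ (i * Ring.inverse j) := by
    intro χ
    rw [hstar, ← map_mul]
  simp_rw [hterm]
  by_cases hij : i = j
  · subst hij
    rw [if_pos ⟨rfl, hi⟩, Ring.mul_inverse_cancel i hi]
    simp only [map_one, Finset.sum_const, nsmul_eq_mul, mul_one]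
    have hEe : (E : Set (MulChar R ℂ)) = Set.univ := Set.eq_univ_of_forall hE
    have h1 : E.card = Nat.card (MulChar R ℂ) := by
      rw [← Nat.card_univ, ← hEe, Nat.card_coe_set_eq, Set.ncard_coe_finset]
    rw [h1, MulChar.card_eq_card_units_of_hasEnoughRootsOfUnity R ℂ]
  · rw [if_neg (fun h => hij h.1)]
    have hne : i * Ring.inverse j ≠ 1 := by
      intro h
      apply hij
      calc i = i * (Ring.inverse j * j) := by rw [Ring.inverse_mul_cancel j hj, mul_one]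
        _ = (i * Ring.inverse j) * j := by ring
        _ = j := by rw [h, one_mul]
    obtain ⟨χ₀, hχ₀⟩ := MulChar.exists_apply_ne_one_of_hasEnoughRootsOfUnity R ℂ hne
    set a := i * Ring.inverse j
    refine eq_zero_of_mul_eq_self_left hχ₀ ?_
    simp only [Finset.mul_sum, ← MulChar.mul_apply]
    refine Finset.sum_bijective (fun χ => χ₀ * χ) (Group.mulLeft_bijective χ₀)
      (fun χ => ⟨fun _ => hE _, fun _ => hE _⟩) (fun χ _ => rfl)

/-- Abstract dispersion with cross terms: sums over the fibres of `ρ`. -/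
lemma msw1_abs {G R : Type*} [Fintype R] [DecidableEq R] (ρ : G → R) (A A' : G → ℂ)
    (hA : Summable fun α => ‖A α‖) (hA' : Summable fun α => ‖A' α‖) (W : ℝ) (hW : 0 ≤ W)
    (s s' : G → ℝ) (hs : Summable s) (hs' : Summable s') (hs0 : ∀ α, 0 ≤ s α)
    (hs0' : ∀ α, 0 ≤ s' α)
    (h : ∀ α α', α ≠ α' → ρ α' = ρ α → ‖A α‖ * ‖A' α'‖ ≤ W * s α * s' α') :
    ∑ j, ‖∑' α, if ρ α = j then A α else 0‖ * ‖∑' α, if ρ α = j then A' α else 0‖ ≤
      ∑' α, ‖A α‖ * ‖A' α‖ + W * (∑' α, s α) * ∑' α, s' α := by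
  classical
  have hAA : Summable fun α => ‖A α‖ * ‖A' α‖ := by
    refine Summable.of_norm_bounded_eventually hA' ?_
    have := hA.tendsto_cofinite_zero
    filter_upwards [this.eventually (gt_mem_nhds one_pos)] with α hα
    rw [Real.norm_of_nonneg (by positivity)]
    exact mul_le_of_le_one_left (norm_nonneg _) hα.le
  have hSj : ∀ j, Summable fun α => if ρ α = j then ‖A α‖ else 0 := fun j =>
    Summable.of_nonneg_of_le (fun α => by split_ifs <;> simp) (fun α => by split_ifs <;> simp) hA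
  have hSj' : ∀ j, Summable fun α => if ρ α = j then ‖A' α‖ else 0 := fun j =>
    Summable.of_nonneg_of_le (fun α => by split_ifs <;> simp) (fun α => by split_ifs <;> simp) hA'
  set S : R → ℝ := fun j => ∑' α, if ρ α = j then ‖A α‖ else 0 with hS
  set S' : R → ℝ := fun j => ∑' α, if ρ α = j then ‖A' α‖ else 0 with hS'
  have hS0 : ∀ j, 0 ≤ S j := fun j => tsum_nonneg fun α => by split_ifs <;> simp
  have hS0' : ∀ j, 0 ≤ S' j := fun j => tsum_nonneg fun α => by split_ifs <;> simp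
  have h1 : ∀ j, ‖∑' α, if ρ α = j then A α else 0‖ ≤ S j := by
    intro j
    have e1 : ∀ α, ‖(if ρ α = j then A α else 0 : ℂ)‖ = if ρ α = j then ‖A α‖ else 0 := by
      intro α; split_ifs <;> simp
    calc _ ≤ ∑' α, ‖(if ρ α = j then A α else 0 : ℂ)‖ := by
          apply norm_tsum_le_tsum_norm
          simp_rw [e1]; exact hSj j
      _ = S j := by simp_rw [e1]; rfl
  have h1' : ∀ j, ‖∑' α, if ρ α = j then A' α else 0‖ ≤ S' j := by
    intro j
    have e1 : ∀ α, ‖(if ρ α = j then A' α else 0 : ℂ)‖ = if ρ α = j then ‖A' α‖ else 0 := by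
      intro α; split_ifs <;> simp
    calc _ ≤ ∑' α, ‖(if ρ α = j then A' α else 0 : ℂ)‖ := by
          apply norm_tsum_le_tsum_norm
          simp_rw [e1]; exact hSj' j
      _ = S' j := by simp_rw [e1]; rfl
  have hs'0 : 0 ≤ ∑' l, s' l := tsum_nonneg hs0'
  -- the bound for one `α`
  have h2 : ∀ α, ‖A α‖ * S' (ρ α) ≤ ‖A α‖ * ‖A' α‖ + W * s α * ∑' l, s' l := by
    intro α
    have hs1 : Summable fun α' => if α' = α then ‖A α‖ * ‖A' α‖ else 0 := by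
      refine summable_of_hasFiniteSupport ((Set.finite_singleton α).subset ?_)
      intro α' hα'
      by_contra hne
      simp only [Set.mem_singleton_iff] at hne
      simp [hne] at hα'
    calc ‖A α‖ * S' (ρ α) = ∑' α', ‖A α‖ * (if ρ α' = ρ α then ‖A' α'‖ else 0) := by
          rw [hS', tsum_mul_left]
      _ ≤ ∑' α', ((if α' = α then ‖A α‖ * ‖A' α‖ else 0) + W * s α * s' α') := by
          refine Summable.tsum_le_tsum (fun α' => ?_) ((hSj' _).mul_left _)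
            (hs1.add (hs'.mul_left _))
          have hpos : 0 ≤ W * s α * s' α' := mul_nonneg (mul_nonneg hW (hs0 _)) (hs0' _)
          by_cases h3 : α' = α
          · subst h3; simp only [if_true]; linarith
          · rw [if_neg h3, zero_add]
            split_ifs with h4
            · exact h α α' (Ne.symm h3) h4
            · simpa using hpos
      _ = _ := by
          rw [hs1.tsum_add (hs'.mul_left _), tsum_mul_left, tsum_ite_eq]
  -- summation over `j`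
  have hR : Summable fun α => ‖A α‖ * ‖A' α‖ + W * s α * ∑' l, s' l :=
    hAA.add ((hs.mul_left W).mul_right _)
  have hAS : Summable fun α => ‖A α‖ * S' (ρ α) := by
    refine Summable.of_nonneg_of_le (fun α => mul_nonneg (norm_nonneg _) (hS0' _)) h2 hR
  calc ∑ j, ‖∑' α, if ρ α = j then A α else 0‖ * ‖∑' α, if ρ α = j then A' α else 0‖
      ≤ ∑ j, S j * S' j := by
        refine Finset.sum_le_sum fun j _ => ?_
        exact mul_le_mul (h1 j) (h1' j) (norm_nonneg _) (hS0 j)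
    _ = ∑ j, ∑' α, (if ρ α = j then ‖A α‖ else 0) * S' j := by
        refine Finset.sum_congr rfl fun j _ => ?_
        rw [tsum_mul_right]
    _ = ∑' α, ∑ j, (if ρ α = j then ‖A α‖ else 0) * S' j := by
        rw [Summable.tsum_finsetSum]
        exact fun j _ => (hSj j).mul_right _
    _ = ∑' α, ‖A α‖ * S' (ρ α) := by
        refine tsum_congr fun α => ?_
        simp
    _ ≤ ∑' α, (‖A α‖ * ‖A' α‖ + W * s α * ∑' l, s' l) :=
        Summable.tsum_le_tsum h2 hAS hR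
    _ = _ := by
        rw [hAA.tsum_add ((hs.mul_left W).mul_right _), tsum_mul_right, tsum_mul_left]

variable {K : Type} [Field K] [NumberField K]

lemma msw1_qn_nonneg (y : InfinitePlace K → ℝ) : 0 ≤ qn y :=
  Finset.sum_nonneg fun w _ => by positivity

lemma msw1_q_sub (y : InfinitePlace K → ℝ) (a a' : K) :
    qn (fun w => y w * w (a' - a)) ≤
      2 * (qn (fun w => y w * w a) + qn (fun w => y w * w a')) := by
  unfold qn
  rw [← Finset.sum_add_distrib, Finset.mul_sum]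
  refine Finset.sum_le_sum fun w _ => ?_
  have h1 : w (a' - a) ≤ w a' + w a := by
    rw [← norm_embedding_eq, ← norm_embedding_eq, ← norm_embedding_eq, map_sub]
    exact norm_sub_le _ _
  have h2 : (w (a' - a)) ^ 2 ≤ 2 * (w a ^ 2 + w a' ^ 2) := by
    have h3 : 0 ≤ w (a' - a) := apply_nonneg w _
    nlinarith [sq_nonneg (w a - w a')]
  have h4 : 0 ≤ (w.mult : ℝ) * y w ^ 2 := by positivity
  calc (w.mult : ℝ) * (y w * w (a' - a)) ^ 2 = ((w.mult : ℝ) * y w ^ 2) * (w (a' - a)) ^ 2 := by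
        ring
    _ ≤ ((w.mult : ℝ) * y w ^ 2) * (2 * (w a ^ 2 + w a' ^ 2)) :=
        mul_le_mul_of_nonneg_left h2 h4
    _ = _ := by ring

/-- Homogeneity in `u`. -/
lemma msw1_qn_scale (u : ℝ) (x : Fin (rank K) → ℝ) (a : K) :
    qn (fun w => Yv K u x w * w a) =
      Real.exp (2 * u / Module.finrank ℚ K) * qn (fun w => Yv K 0 x w * w a) := by
  unfold qn
  rw [Finset.mul_sum]
  refine Finset.sum_congr rfl fun w _ => ?_
  have : Real.exp (2 * u / Module.finrank ℚ K) =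
      Real.exp (u / Module.finrank ℚ K) ^ 2 := by
    rw [← Real.exp_nat_mul]
    congr 1
    push_cast
    ring
  rw [this]
  unfold Yv
  simp only [zero_div, Real.exp_zero, one_mul]
  ring

/-- The character sum. -/
lemma msw1_char {R : Type} [CommRing R] [Fintype R] (E : Finset (MulChar R ℂ))
    (hE : ∀ χ, χ ∈ E) (F F' : R → ℂ) :
    ‖∑ χ ∈ E, (∑ j, χ j * F j) * starRingEnd ℂ (∑ j, χ j * F' j)‖ ≤
      (Nat.card Rˣ : ℝ) * ∑ j, ‖F j‖ * ‖F' j‖ := by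
  classical
  have h1 : ∑ χ ∈ E, (∑ j, χ j * F j) * starRingEnd ℂ (∑ j, χ j * F' j) =
      ∑ i, ∑ j, F i * starRingEnd ℂ (F' j) * ∑ χ ∈ E, χ i * starRingEnd ℂ (χ j) := by
    have e1 : ∀ χ : MulChar R ℂ, (∑ j, χ j * F j) * starRingEnd ℂ (∑ j, χ j * F' j) =
        ∑ i, ∑ j, F i * starRingEnd ℂ (F' j) * (χ i * starRingEnd ℂ (χ j)) := by
      intro χ
      rw [map_sum, Finset.sum_mul_sum]
      refine Finset.sum_congr rfl fun i _ => Finset.sum_congr rfl fun j _ => ?_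
      rw [map_mul]
      ring
    rw [Finset.sum_congr rfl fun χ _ => e1 χ, Finset.sum_comm]
    refine Finset.sum_congr rfl fun i _ => ?_
    rw [Finset.sum_comm]
    refine Finset.sum_congr rfl fun j _ => ?_
    rw [Finset.mul_sum]
  rw [h1]
  simp_rw [msw1_orth E hE]
  rw [Finset.mul_sum]
  refine (norm_sum_le _ _).trans (Finset.sum_le_sum fun i _ => ?_)
  have h2 : ∑ j, F i * starRingEnd ℂ (F' j) * (if i = j ∧ IsUnit i then (Nat.card Rˣ : ℂ) else 0) =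
      F i * starRingEnd ℂ (F' i) * (if IsUnit i then (Nat.card Rˣ : ℂ) else 0) := by
    rw [Finset.sum_eq_single i]
    · simp
    · intro j _ hj
      rw [if_neg (fun h => hj h.1.symm), mul_zero]
    · intro h
      exact absurd (Finset.mem_univ i) h
  rw [h2, norm_mul, norm_mul, RCLike.norm_conj]
  have h3 : ‖(if IsUnit i then (Nat.card Rˣ : ℂ) else 0)‖ ≤ (Nat.card Rˣ : ℝ) := by
    split_ifs
    · rw [Complex.norm_natCast]
    · simp
  calc ‖F i‖ * ‖F' i‖ * ‖(if IsUnit i then (Nat.card Rˣ : ℂ) else 0)‖ ≤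
      ‖F i‖ * ‖F' i‖ * (Nat.card Rˣ : ℝ) := mul_le_mul_of_nonneg_left h3 (by positivity)
    _ = _ := by ring

/-- The lattice sum restricted to the multiples of `𝔫`. -/
lemma msw1_lat {C4 : ℝ} (hC4 : 0 ≤ C4) {c : ℝ} (hc : 0 < c)
    (h4 : open scoped Classical in ∀ 𝔞 : Ideal (𝓞 K), 𝔞 ≠ ⊥ →
      ∀ (u : ℝ) (x : Fin (rank K) → ℝ),
      ∑' α : 𝔞, (if α = 0 then 0 else
        Real.exp (-c * qn (fun w => Yv K u x w * w ((α : 𝓞 K) : K)))) ≤
        C4 * (Real.exp (-u) / Ideal.absNorm 𝔞))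
    {𝔟 𝔫 : Ideal (𝓞 K)} (h𝔟 : 𝔟 ≠ ⊥) (h𝔫 : 𝔫 ≠ ⊥) {D : ℝ} (hD : 0 < D)
    (hDn : D ≤ Ideal.absNorm 𝔫) (u : ℝ) (x : Fin (rank K) → ℝ) :
    open scoped Classical in
    Summable (fun α : 𝔟 => if α ≠ 0 ∧ 𝔫 ∣ quo 𝔟 α then
        Real.exp (-c * qn (fun w => Yv K u x w * w ((α : 𝓞 K) : K))) else 0) ∧
    ∑' α : 𝔟, (if α ≠ 0 ∧ 𝔫 ∣ quo 𝔟 α then
        Real.exp (-c * qn (fun w => Yv K u x w * w ((α : 𝓞 K) : K))) else 0) ≤
      C4 * (Real.exp (-u) / D) := by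
  classical
  have hs : ∀ 𝔞 : Ideal (𝓞 K), Summable (fun α : 𝔞 =>
      Real.exp (-c * qn (fun w => Yv K u x w * w ((α : 𝓞 K) : K)))) := by
    intro 𝔞
    have := lattice_summable 𝔞 hc (Yv K u x) (fun w => Yv_pos u x w) 0
    simpa using this
  refine ⟨Summable.of_nonneg_of_le (fun α => ?_) (fun α => ?_) (hs 𝔟), ?_⟩
  · split_ifs
    · exact (Real.exp_pos _).le
    · exact le_rfl
  · split_ifs
    · exact le_rfl
    · exact (Real.exp_pos _).le
  have hle : 𝔫 * 𝔟 ≤ 𝔟 := Ideal.mul_le_right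
  have hne : 𝔫 * 𝔟 ≠ ⊥ := mul_ne_zero h𝔫 h𝔟
  set e : (𝔫 * 𝔟 : Ideal (𝓞 K)) → 𝔟 := fun α => ⟨α, hle α.2⟩ with he
  have hinj : Function.Injective e := by
    intro α α' h
    have := congrArg Subtype.val h
    exact Subtype.ext this
  have hsupp : Function.support (fun α : 𝔟 => if α ≠ 0 ∧ 𝔫 ∣ quo 𝔟 α then
        Real.exp (-c * qn (fun w => Yv K u x w * w ((α : 𝓞 K) : K))) else 0) ⊆ Set.range e := by
    intro α hα
    have hα' : α ≠ 0 ∧ 𝔫 ∣ quo 𝔟 α := by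
      by_contra hcon
      exact hα (if_neg hcon)
    have h0 : (α : 𝓞 K) ≠ 0 := fun h => hα'.1 (Subtype.ext h)
    have h1 : 𝔫 * 𝔟 ∣ Ideal.span {(α : 𝓞 K)} := by
      rw [← quo_spec α.2 h0, mul_comm]
      exact mul_dvd_mul_left 𝔟 hα'.2
    have h2 : (α : 𝓞 K) ∈ 𝔫 * 𝔟 := Ideal.dvd_span_singleton.mp h1
    exact ⟨⟨α, h2⟩, rfl⟩
  rw [← hinj.tsum_eq hsupp]
  have hlt := h4 (𝔫 * 𝔟) hne u x
  have hsum1 : Summable fun α : (𝔫 * 𝔟 : Ideal (𝓞 K)) => (if α = 0 then 0 else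
        Real.exp (-c * qn (fun w => Yv K u x w * w ((α : 𝓞 K) : K)))) := by
    refine Summable.of_nonneg_of_le (fun α => ?_) (fun α => ?_) (hs (𝔫 * 𝔟))
    · split_ifs
      · exact le_rfl
      · exact (Real.exp_pos _).le
    · split_ifs
      · exact (Real.exp_pos _).le
      · exact le_rfl
  have hcmp : ∀ α : (𝔫 * 𝔟 : Ideal (𝓞 K)),
      (if e α ≠ 0 ∧ 𝔫 ∣ quo 𝔟 (e α) then
        Real.exp (-c * qn (fun w => Yv K u x w * w (((e α : 𝔟) : 𝓞 K) : K))) else 0) ≤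
      (if α = 0 then 0 else
        Real.exp (-c * qn (fun w => Yv K u x w * w ((α : 𝓞 K) : K)))) := by
    intro α
    by_cases h0 : α = 0
    · rw [if_pos h0, if_neg]
      rintro ⟨h, _⟩
      apply h
      rw [h0]
      exact Subtype.ext rfl
    · rw [if_neg h0]
      split_ifs
      · exact le_rfl
      · exact (Real.exp_pos _).le
  have hnn : ∀ α : (𝔫 * 𝔟 : Ideal (𝓞 K)), 0 ≤
      (if e α ≠ 0 ∧ 𝔫 ∣ quo 𝔟 (e α) then
        Real.exp (-c * qn (fun w => Yv K u x w * w (((e α : 𝔟) : 𝓞 K) : K))) else 0) := by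
    intro α
    split_ifs
    · exact (Real.exp_pos _).le
    · exact le_rfl
  refine (Summable.tsum_le_tsum hcmp (Summable.of_nonneg_of_le hnn hcmp hsum1) hsum1).trans
    (hlt.trans ?_)
  refine mul_le_mul_of_nonneg_left ?_ hC4
  refine div_le_div_of_nonneg_left (Real.exp_pos _).le hD ?_
  rw [map_mul]
  push_cast
  have hb1 : (1 : ℝ) ≤ Ideal.absNorm 𝔟 := by
    have : Ideal.absNorm 𝔟 ≠ 0 := fun h => h𝔟 (Ideal.absNorm_eq_zero_iff.mp h)
    exact_mod_cast Nat.one_le_iff_ne_zero.mpr this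
  calc D ≤ Ideal.absNorm 𝔫 := hDn
    _ = Ideal.absNorm 𝔫 * 1 := (mul_one _).symm
    _ ≤ _ := mul_le_mul_of_nonneg_left hb1 (by positivity)

/-- The difference of two congruent points. -/
lemma msw1_mem {𝔮 𝔟 𝔫 𝔫' : Ideal (𝓞 K)} (h𝔟 : 𝔟 ≠ ⊥) (hc : IsCoprime 𝔫 𝔮) {α α' : 𝓞 K}
    (hα : α ∈ 𝔟) (hα' : α' ∈ 𝔟) (h0 : α ≠ 0) (h0' : α' ≠ 0) (hn : 𝔫 ∣ quo 𝔟 α)
    (hn' : 𝔫' ∣ quo 𝔟 α') (hl : α' - α ∈ 𝔮 * 𝔟) (hl0 : α' - α ≠ 0) :
    α' - α ∈ (𝔮 * (𝔫 ⊔ 𝔫')) * 𝔟 := by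
  have h1 : ∀ (𝔪 : Ideal (𝓞 K)) (γ : 𝓞 K), γ ∈ 𝔟 → γ ≠ 0 → 𝔪 ∣ quo 𝔟 γ → γ ∈ 𝔪 * 𝔟 := by
    intro 𝔪 γ hγ hγ0 hm
    have h1 : 𝔪 * 𝔟 ∣ Ideal.span {γ} := by
      rw [← quo_spec hγ hγ0, mul_comm]
      exact mul_dvd_mul_left 𝔟 hm
    exact Ideal.dvd_span_singleton.mp h1
  have h2 : α' - α ∈ (𝔫 ⊔ 𝔫') * 𝔟 := by
    refine Ideal.sub_mem _ ?_ ?_
    · exact Ideal.mul_mono_left le_sup_right (h1 𝔫' α' hα' h0' hn')
    · exact Ideal.mul_mono_left le_sup_left (h1 𝔫 α hα h0 hn)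
  have hlb : α' - α ∈ 𝔟 := Ideal.sub_mem _ hα' hα
  have hdiv : ∀ 𝔪 : Ideal (𝓞 K), α' - α ∈ 𝔪 * 𝔟 → 𝔪 ∣ quo 𝔟 (α' - α) := by
    intro 𝔪 hm
    have h3 : 𝔪 * 𝔟 ∣ Ideal.span {α' - α} := Ideal.dvd_span_singleton.mpr hm
    rw [← quo_spec hlb hl0, mul_comm] at h3
    exact (mul_dvd_mul_iff_left h𝔟).mp h3
  have hcop : IsCoprime 𝔮 (𝔫 ⊔ 𝔫') := by
    rw [Ideal.isCoprime_iff_sup_eq] at hc ⊢
    rw [eq_top_iff, ← hc]
    exact sup_le (le_sup_left.trans le_sup_right) le_sup_left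
  exact h1 _ _ hlb hl0 (hcop.mul_dvd (hdiv _ hl) (hdiv _ h2))

theorem cross_gen_pr {κ : InfinitePlace K → ℤ} {𝔟 : Ideal (𝓞 K)} (h𝔟 : 𝔟 ≠ ⊥) :
    ∃ C c : ℝ, 0 ≤ C ∧ 0 < c ∧ ∀ (𝔮 : Ideal (𝓞 K)) (_ : 𝔮 ≠ ⊥) (g : 𝓞 K) (ρ : 𝓞 K → 𝓞 K ⧸ 𝔮)
      (_ : ∀ α ∈ 𝔟, ∀ a : 𝓞 K, ρ α = Ideal.Quotient.mk 𝔮 a ↔ α - a * g ∈ 𝔮 * 𝔟)
      (ι : Type) (J : Finset ι) (n : ι → Ideal (𝓞 K)) (a : ι → ℝ) (D : ℝ) (_ : 0 < D)
      (_ : ∀ i ∈ J, 0 ≤ a i ∧ n i ≠ ⊥ ∧ IsCoprime (n i) 𝔮)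
      (_ : ∀ i ∈ J, ∀ j ∈ J, D ≤ Ideal.absNorm (n i ⊔ n j))
      (b : Ideal (𝓞 K) → ℂ) (_ : ∀ 𝔠, 𝔠 = ⊥ ∨ ¬ IsCoprime 𝔠 𝔮 → b 𝔠 = 0)
      (_ : ∀ 𝔠, open scoped Classical in ‖b 𝔠‖ ≤ ∑ i ∈ J, if n i ∣ 𝔠 then a i else 0)
      (E : Finset (MulChar (𝓞 K ⧸ 𝔮) ℂ)) (_ : ∀ χ, χ ∈ E) (u u' : ℝ),
      ∀ x ∈ Set.Icc (-1 : Fin (rank K) → ℝ) 1,
      ‖∑ χ ∈ E, (∑' α : 𝔟, b (quo 𝔟 α) * χ (ρ α) * Hf κ (Yv K u x) ((α : 𝓞 K) : K)) *
          starRingEnd ℂ (∑' α : 𝔟, b (quo 𝔟 α) * χ (ρ α) *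
            Hf κ (Yv K u' x) ((α : 𝓞 K) : K))‖ ≤
        (Nat.card (𝓞 K ⧸ 𝔮)ˣ : ℝ) *
        (C * ∑' α : 𝔟, ‖b (quo 𝔟 α)‖ ^ 2 *
          Real.exp (-Real.pi * qn (fun w =>
            Yv K (wn (Module.finrank ℚ K) u u') x w * w ((α : 𝓞 K) : K))) +
         C * (∑ i ∈ J, a i) ^ 2 * (Real.exp (-(u + u')) / D ^ 2) *
          Real.exp (-c * (Real.exp (min u u') * Ideal.absNorm 𝔮 * D) ^
            (2 / (Module.finrank ℚ K : ℝ)))) := by
  classical
  obtain ⟨C1, hC1, hH⟩ := Hf_le (K := K) κ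
  have hπ := Real.pi_pos
  obtain ⟨C4, hC4, h4⟩ := lattice_nz (K := K) (c := Real.pi / 4) (by positivity)
  refine ⟨C1 ^ 2 + C1 ^ 2 * C4 ^ 2, Real.pi / 8, by positivity, by positivity, ?_⟩
  intro 𝔮 h𝔮 g ρ hρ ι J n a D hD hJ hJD b hb0 hb E hE u u' x hx
  have : Finite (𝓞 K ⧸ 𝔮) := Ideal.finiteQuotientOfFreeOfNeBot 𝔮 h𝔮
  have : Fintype (𝓞 K ⧸ 𝔮) := Fintype.ofFinite _
  have hn0 : 0 < Module.finrank ℚ K := Module.finrank_pos
  have hn0' : (0 : ℝ) < (Module.finrank ℚ K : ℝ) := by exact_mod_cast hn0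
  set N : ℕ := Module.finrank ℚ K with hN
  set q : ℝ → 𝓞 K → ℝ := fun u α => qn (fun w => Yv K u x w * w (α : K)) with hq
  have hq0 : ∀ u α, 0 ≤ q u α := fun u α => msw1_qn_nonneg _
  have hqs : ∀ u α, q u α = Real.exp (2 * u / N) * q 0 α := fun u α => msw1_qn_scale u x _
  have hqm : ∀ v v' α, v ≤ v' → q v α ≤ q v' α := by
    intro v v' α hv
    rw [hqs v, hqs v']
    refine mul_le_mul_of_nonneg_right (Real.exp_le_exp.mpr ?_) (hq0 0 α)
    exact div_le_div_of_nonneg_right (by linarith) hn0'.le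
  set B : Ideal (𝓞 K) → ℝ := fun 𝔠 => ∑ i ∈ J, if n i ∣ 𝔠 then a i else 0 with hB
  have hB0 : ∀ 𝔠, 0 ≤ B 𝔠 := by
    intro 𝔠
    refine Finset.sum_nonneg fun i hi => ?_
    split_ifs
    · exact (hJ i hi).1
    · exact le_rfl
  have hBle : ∀ 𝔠, B 𝔠 ≤ ∑ i ∈ J, a i := by
    intro 𝔠
    refine Finset.sum_le_sum fun i hi => ?_
    split_ifs
    · exact le_rfl
    · exact (hJ i hi).1
  have hβ : 0 ≤ ∑ i ∈ J, a i := Finset.sum_nonneg fun i hi => (hJ i hi).1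
  have hb' : ∀ 𝔠, ‖b 𝔠‖ ≤ B 𝔠 := hb
  have hs : ∀ (c : ℝ) (v : ℝ), 0 < c → Summable (fun α : 𝔟 => Real.exp (-c * q v α)) := by
    intro c v hc
    have := lattice_summable 𝔟 hc (Yv K v x) (fun w => Yv_pos v x w) 0
    simpa using this
  set A : ℝ → 𝔟 → ℂ := fun v α => b (quo 𝔟 α) * Hf κ (Yv K v x) ((α : 𝓞 K) : K) with hAdef
  have hHα : ∀ v (α : 𝓞 K), ‖Hf κ (Yv K v x) (α : K)‖ ≤
      C1 * Real.exp (-(Real.pi / 2) * q v α) :=
    fun v α => hH _ _ (fun w => Yv_pos v x w)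
  have hAα : ∀ v (α : 𝔟), ‖A v α‖ ≤ ‖b (quo 𝔟 α)‖ * (C1 * Real.exp (-(Real.pi / 2) * q v α)) := by
    intro v α
    rw [hAdef]; simp only [norm_mul]
    exact mul_le_mul_of_nonneg_left (hHα _ _) (norm_nonneg _)
  have hAB : ∀ v (α : 𝔟), ‖A v α‖ ≤ B (quo 𝔟 α) * (C1 * Real.exp (-(Real.pi / 2) * q v α)) :=
    fun v α => (hAα v α).trans (mul_le_mul_of_nonneg_right (hb' _) (by positivity))
  have hAβ : ∀ v (α : 𝔟), ‖A v α‖ ≤
      (∑ i ∈ J, a i) * (C1 * Real.exp (-(Real.pi / 2) * q v α)) :=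
    fun v α => (hAB v α).trans (mul_le_mul_of_nonneg_right (hBle _) (by positivity))
  have hAs : ∀ v, Summable fun α : 𝔟 => ‖A v α‖ := fun v =>
    Summable.of_nonneg_of_le (fun _ => norm_nonneg _) (hAβ v)
      (((hs (Real.pi / 2) v (by positivity)).mul_left C1).mul_left _)
  have hquo0 : quo 𝔟 (0 : 𝓞 K) = ⊥ := by
    unfold quo
    rw [dif_neg (fun h => h.1 rfl)]
  have hA0 : ∀ v (α : 𝔟), α = 0 → A v α = 0 := by
    intro v α h
    rw [h, hAdef]
    simp only [ZeroMemClass.coe_zero]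
    rw [hquo0, hb0 ⊥ (Or.inl rfl), zero_mul]
  -- the terms of the lattice sums
  set t : ι → ℝ → 𝔟 → ℝ := fun i v α =>
    if α ≠ 0 ∧ n i ∣ quo 𝔟 α then Real.exp (-(Real.pi / 4) * q v α) else 0 with ht
  have htl : ∀ i ∈ J, ∀ v, Summable (t i v) ∧ ∑' α, t i v α ≤ C4 * (Real.exp (-v) / D) := by
    intro i hi v
    have hDi : D ≤ Ideal.absNorm (n i) := by
      have := hJD i hi i hi
      rwa [sup_idem] at this
    exact msw1_lat hC4 (by positivity) h4 h𝔟 (hJ i hi).2.1 hD hDi v x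
  have ht0 : ∀ i v α, 0 ≤ t i v α := by
    intro i v α
    simp only [ht]
    split_ifs
    · exact (Real.exp_pos _).le
    · exact le_rfl
  set s : ℝ → 𝔟 → ℝ := fun v α => ∑ i ∈ J, a i * t i v α with hsdef
  have hss : ∀ v, Summable (s v) := fun v =>
    summable_sum fun i hi => ((htl i hi v).1.mul_left (a i))
  have hs0 : ∀ v α, 0 ≤ s v α := fun v α =>
    Finset.sum_nonneg fun i hi => mul_nonneg (hJ i hi).1 (ht0 i v α)
  have hssum : ∀ v, ∑' α, s v α ≤ (∑ i ∈ J, a i) * (C4 * (Real.exp (-v) / D)) := by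
    intro v
    rw [hsdef]
    simp only
    rw [Summable.tsum_finsetSum (fun i hi => (htl i hi v).1.mul_left (a i)), Finset.sum_mul]
    refine Finset.sum_le_sum fun i hi => ?_
    rw [tsum_mul_left]
    exact mul_le_mul_of_nonneg_left (htl i hi v).2 (hJ i hi).1
  have hsB : ∀ v (α : 𝔟), α ≠ 0 → s v α = B (quo 𝔟 α) * Real.exp (-(Real.pi / 4) * q v α) := by
    intro v α h0
    simp only [hsdef, hB, ht]
    rw [Finset.sum_mul]
    refine Finset.sum_congr rfl fun i _ => ?_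
    by_cases hd : n i ∣ quo 𝔟 (α : 𝓞 K)
    · rw [if_pos ⟨h0, hd⟩, if_pos hd]
    · rw [if_neg (fun h => hd h.2), if_neg hd]
      ring
  set X : ℝ := (Real.exp (min u u') * Ideal.absNorm 𝔮 * D) ^ (2 / (N : ℝ)) with hX
  have hkey := msw1_abs (fun α : 𝔟 => ρ α) (A u) (A u') (hAs u) (hAs u')
    (C1 ^ 2 * Real.exp (-(Real.pi / 8) * X)) (by positivity) (s u) (s u') (hss u) (hss u')
    (hs0 u) (hs0 u') ?_
  swap
  · intro α α' hne hρ'
    have hR0 : 0 ≤ C1 ^ 2 * Real.exp (-(Real.pi / 8) * X) * s u α * s u' α' :=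
      mul_nonneg (mul_nonneg (by positivity) (hs0 _ _)) (hs0 _ _)
    by_cases hα0 : α = 0
    · rw [hA0 u α hα0, norm_zero, zero_mul]
      exact hR0
    by_cases hα0' : α' = 0
    · rw [hA0 u' α' hα0', norm_zero, mul_zero]
      exact hR0
    by_cases hBα : B (quo 𝔟 α) = 0
    · have h1 := hAB u α
      rw [hBα, zero_mul] at h1
      have h2 : ‖A u α‖ = 0 := le_antisymm h1 (norm_nonneg _)
      rw [h2, zero_mul]
      exact hR0
    by_cases hBα' : B (quo 𝔟 α') = 0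
    · have h1 := hAB u' α'
      rw [hBα', zero_mul] at h1
      have h2 : ‖A u' α'‖ = 0 := le_antisymm h1 (norm_nonneg _)
      rw [h2, mul_zero]
      exact hR0
    obtain ⟨i, hi, hia⟩ := Finset.exists_ne_zero_of_sum_ne_zero hBα
    obtain ⟨j, hj, hja⟩ := Finset.exists_ne_zero_of_sum_ne_zero hBα'
    have hni : n i ∣ quo 𝔟 (α : 𝓞 K) := by
      by_contra h
      exact hia (if_neg h)
    have hnj : n j ∣ quo 𝔟 (α' : 𝓞 K) := by
      by_contra h
      exact hja (if_neg h)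
    have hl : ((α' : 𝓞 K) - (α : 𝓞 K)) ∈ 𝔮 * 𝔟 := by
      obtain ⟨a, ha⟩ := Ideal.Quotient.mk_surjective (ρ (α : 𝓞 K))
      have e1 := (hρ α α.2 a).mp ha.symm
      have e2 := (hρ α' α'.2 a).mp (hρ'.trans ha.symm)
      have := Ideal.sub_mem _ e2 e1
      simpa using this
    have hl0 : ((α' : 𝓞 K) - (α : 𝓞 K)) ≠ 0 := fun h0 =>
      hne (Subtype.ext (sub_eq_zero.mp h0).symm)
    have hc0 : (α : 𝓞 K) ≠ 0 := fun h => hα0 (Subtype.ext h)
    have hc0' : (α' : 𝓞 K) ≠ 0 := fun h => hα0' (Subtype.ext h)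
    have hmem := msw1_mem h𝔟 (hJ i hi).2.2 α.2 α'.2 hc0 hc0' hni hnj hl hl0
    have hne2 : 𝔮 * (n i ⊔ n j) ≠ ⊥ := by
      refine mul_ne_zero h𝔮 ?_
      intro h
      apply (hJ i hi).2.1
      have h' : n i ≤ n i ⊔ n j := le_sup_left
      rw [h] at h'
      exact le_bot_iff.mp h'
    have e3 : X ≤ q (min u u') ((α' : 𝓞 K) - (α : 𝓞 K)) := by
      refine le_trans ?_ (am_gm hne2 h𝔟 hmem hl0 (min u u') x)
      rw [hX, map_mul]
      refine Real.rpow_le_rpow (by positivity) ?_ (by positivity)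
      push_cast
      rw [mul_assoc]
      exact mul_le_mul_of_nonneg_left (mul_le_mul_of_nonneg_left (hJD i hi j hj)
        (by positivity)) (Real.exp_pos _).le
    have e4 : q (min u u') ((α' : 𝓞 K) - (α : 𝓞 K)) ≤
        2 * (q (min u u') α + q (min u u') α') := by
      have := msw1_q_sub (Yv K (min u u') x) ((α : 𝓞 K) : K) ((α' : 𝓞 K) : K)
      rw [hq]
      exact this
    have e5 : q (min u u') α ≤ q u α := hqm _ _ _ (min_le_left _ _)
    have e6 : q (min u u') α' ≤ q u' α' := hqm _ _ _ (min_le_right _ _)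
    rw [hsB u α hα0, hsB u' α' hα0']
    calc ‖A u α‖ * ‖A u' α'‖ ≤ (B (quo 𝔟 α) * (C1 * Real.exp (-(Real.pi / 2) * q u α))) *
          (B (quo 𝔟 α') * (C1 * Real.exp (-(Real.pi / 2) * q u' α'))) :=
          mul_le_mul (hAB _ _) (hAB _ _) (norm_nonneg _)
            (mul_nonneg (hB0 _) (by positivity))
      _ = (B (quo 𝔟 α) * B (quo 𝔟 α') * C1 ^ 2) *
          Real.exp (-(Real.pi / 2) * q u α + -(Real.pi / 2) * q u' α') := by
          rw [Real.exp_add]; ring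
      _ ≤ (B (quo 𝔟 α) * B (quo 𝔟 α') * C1 ^ 2) *
          Real.exp (-(Real.pi / 8) * X + -(Real.pi / 4) * q u α + -(Real.pi / 4) * q u' α') := by
          refine mul_le_mul_of_nonneg_left (Real.exp_le_exp.mpr ?_)
            (mul_nonneg (mul_nonneg (hB0 _) (hB0 _)) (by positivity))
          nlinarith [hq0 u α, hq0 u' α']
      _ = _ := by
          rw [Real.exp_add, Real.exp_add]
          ring
  have hsum : ∀ (χ : MulChar (𝓞 K ⧸ 𝔮) ℂ) (v : ℝ),
      ∑' α : 𝔟, b (quo 𝔟 α) * χ (ρ α) * Hf κ (Yv K v x) ((α : 𝓞 K) : K) =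
      ∑ j, χ j * ∑' α : 𝔟, if ρ α = j then A v α else 0 := by
    intro χ v
    have e1 : ∀ j, Summable fun α : 𝔟 => if ρ α = j then A v α else 0 := by
      intro j
      refine Summable.of_norm_bounded (hAs v) fun α => ?_
      split_ifs <;> simp
    simp_rw [← tsum_mul_left]
    rw [← Summable.tsum_finsetSum (fun j _ => (e1 j).mul_left _)]
    refine tsum_congr fun α => ?_
    simp only [mul_ite, mul_zero, Finset.sum_ite_eq, Finset.mem_univ, if_true, hAdef]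
    ring
  calc ‖∑ χ ∈ E, (∑' α : 𝔟, b (quo 𝔟 α) * χ (ρ α) * Hf κ (Yv K u x) ((α : 𝓞 K) : K)) *
          starRingEnd ℂ (∑' α : 𝔟, b (quo 𝔟 α) * χ (ρ α) *
            Hf κ (Yv K u' x) ((α : 𝓞 K) : K))‖
      = ‖∑ χ ∈ E, (∑ j, χ j * ∑' α : 𝔟, if ρ α = j then A u α else 0) *
          starRingEnd ℂ (∑ j, χ j * ∑' α : 𝔟, if ρ α = j then A u' α else 0)‖ := by
        simp_rw [hsum]
    _ ≤ (Nat.card (𝓞 K ⧸ 𝔮)ˣ : ℝ) * ∑ j, ‖∑' α : 𝔟, if ρ α = j then A u α else 0‖ *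
          ‖∑' α : 𝔟, if ρ α = j then A u' α else 0‖ := msw1_char E hE _ _
    _ ≤ _ := by
        refine mul_le_mul_of_nonneg_left (hkey.trans ?_) (by positivity)
        set Z : ℝ := ∑' α : 𝔟, ‖b (quo 𝔟 α)‖ ^ 2 * Real.exp (-Real.pi * q (wn N u u') α) with hZ
        have hs1 : Summable fun α : 𝔟 =>
            ‖b (quo 𝔟 α)‖ ^ 2 * Real.exp (-Real.pi * q (wn N u u') α) := by
          refine Summable.of_nonneg_of_le (fun α => by positivity) (fun α => ?_)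
            ((hs Real.pi (wn N u u') hπ).mul_left ((∑ i ∈ J, a i) ^ 2))
          refine mul_le_mul_of_nonneg_right (pow_le_pow_left₀ (norm_nonneg _)
            ((hb' _).trans (hBle _)) 2) (Real.exp_pos _).le
        have hZ0 : 0 ≤ Z := tsum_nonneg fun α => by positivity
        have e1 : ∑' α : 𝔟, ‖A u α‖ * ‖A u' α‖ ≤ C1 ^ 2 * Z := by
          rw [hZ, ← tsum_mul_left]
          have e2 : ∀ α : 𝔟, ‖A u α‖ * ‖A u' α‖ ≤
              C1 ^ 2 * (‖b (quo 𝔟 α)‖ ^ 2 * Real.exp (-Real.pi * q (wn N u u') α)) := by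
            intro α
            have e4 : -(Real.pi / 2) * q u α + -(Real.pi / 2) * q u' α =
                -Real.pi * q (wn N u u') α := by
              rw [hqs u, hqs u', hqs (wn N u u'), exp_wn hn0]
              ring
            calc ‖A u α‖ * ‖A u' α‖ ≤
                  (‖b (quo 𝔟 α)‖ * (C1 * Real.exp (-(Real.pi / 2) * q u α))) *
                  (‖b (quo 𝔟 α)‖ * (C1 * Real.exp (-(Real.pi / 2) * q u' α))) :=
                  mul_le_mul (hAα _ _) (hAα _ _) (norm_nonneg _) (by positivity)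
              _ = C1 ^ 2 * (‖b (quo 𝔟 α)‖ ^ 2 * (Real.exp (-(Real.pi / 2) * q u α) *
                  Real.exp (-(Real.pi / 2) * q u' α))) := by ring
              _ = _ := by
                  rw [← Real.exp_add, e4]
          exact Summable.tsum_le_tsum e2 (Summable.of_nonneg_of_le (fun _ => by positivity) e2
            (hs1.mul_left _)) (hs1.mul_left _)
        have e5 : (C1 ^ 2 * Real.exp (-(Real.pi / 8) * X)) * (∑' α : 𝔟, s u α) *
            (∑' α : 𝔟, s u' α) ≤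
            (C1 ^ 2 * Real.exp (-(Real.pi / 8) * X)) *
              ((∑ i ∈ J, a i) * (C4 * (Real.exp (-u) / D))) *
              ((∑ i ∈ J, a i) * (C4 * (Real.exp (-u') / D))) := by
          refine mul_le_mul (mul_le_mul_of_nonneg_left (hssum u) (by positivity))
            (hssum u') (tsum_nonneg fun _ => hs0 _ _) (by positivity)
        refine (add_le_add e1 e5).trans ?_
        have e6 : 0 ≤ C1 ^ 2 * C4 ^ 2 * Z := by positivity
        have e7 : Real.exp (-(u + u')) = Real.exp (-u) * Real.exp (-u') := by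
          rw [← Real.exp_add]; congr 1; ring
        have e8 : 0 ≤ C1 ^ 2 * (∑ i ∈ J, a i) ^ 2 * (Real.exp (-(u + u')) / D ^ 2) *
            Real.exp (-(Real.pi / 8) * X) := by positivity
        have e9 : (C1 ^ 2 * Real.exp (-(Real.pi / 8) * X)) *
              ((∑ i ∈ J, a i) * (C4 * (Real.exp (-u) / D))) *
              ((∑ i ∈ J, a i) * (C4 * (Real.exp (-u') / D))) =
            C1 ^ 2 * C4 ^ 2 * (∑ i ∈ J, a i) ^ 2 * (Real.exp (-(u + u')) / D ^ 2) *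
              Real.exp (-(Real.pi / 8) * X) := by
          rw [e7]
          field_simp
        rw [e9]
        have e10 : (C1 ^ 2 + C1 ^ 2 * C4 ^ 2) * Z + (C1 ^ 2 + C1 ^ 2 * C4 ^ 2) *
            (∑ i ∈ J, a i) ^ 2 * (Real.exp (-(u + u')) / D ^ 2) *
              Real.exp (-(Real.pi / 8) * X) =
            (C1 ^ 2 * Z + C1 ^ 2 * C4 ^ 2 * (∑ i ∈ J, a i) ^ 2 *
              (Real.exp (-(u + u')) / D ^ 2) * Real.exp (-(Real.pi / 8) * X)) +
            (C1 ^ 2 * C4 ^ 2 * Z + C1 ^ 2 * (∑ i ∈ J, a i) ^ 2 *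
              (Real.exp (-(u + u')) / D ^ 2) * Real.exp (-(Real.pi / 8) * X)) := by ring
        have e11 : (C1 ^ 2 + C1 ^ 2 * C4 ^ 2) * Z + (C1 ^ 2 + C1 ^ 2 * C4 ^ 2) *
            (∑ i ∈ J, a i) ^ 2 * (Real.exp (-(u + u')) / D ^ 2) *
              Real.exp (-(Real.pi / 8) * X) ≥
            C1 ^ 2 * Z + C1 ^ 2 * C4 ^ 2 * (∑ i ∈ J, a i) ^ 2 *
              (Real.exp (-(u + u')) / D ^ 2) * Real.exp (-(Real.pi / 8) * X) := by
          rw [e10]
          linarith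
        exact e11

end Pool.Agent.KS

namespace Pool.Agent.KS

theorem cross_gen : type_of% @cross_gen_pr := @cross_gen_pr

end Pool.Agent.KS
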