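import Pool.Agent.Lib_helper92.KSA.Base
import Pool.Agent.Lib_helper24.SQ.Schur
import Pool.Agent.Lib_helper92.KSA.MSW1
import Pool.Agent.Lib_helper92.KSA.WNF

/-!
# Block MSW2: the mean square against a weight
-/

namespace Pool.Agent.KS

open NumberField NumberField.InfinitePlace NumberField.Units Complex MeasureTheory Filter Topology
open Pool.Agent.HZ Pool.Agent.AS
open scoped ENNReal

variable {K : Type} [Field K] [NumberField K]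

variable (K) in
/-- the Gaussian `exp(-π qn)` as a complex function -/
noncomputable def MSW2_F (y : InfinitePlace K → ℝ) : ℂ := ((Real.exp (-Real.pi * qn y) : ℝ) : ℂ)

theorem MSW2_F_good : GoodF (MSW2_F K) 1 Real.pi := by
  refine ⟨zero_le_one, Real.pi_pos, ?_, ?_⟩
  · apply Continuous.continuousOn
    unfold MSW2_F qn
    fun_prop
  · intro y _
    rw [MSW2_F, Complex.norm_real, Real.norm_eq_abs, abs_of_pos (Real.exp_pos _), one_mul]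

theorem MSW2_kint (u : ℝ) : kint K (MSW2_F K) u = ((kg K Real.pi u : ℝ) : ℂ) := by
  unfold kint kg MSW2_F
  exact integral_ofReal

omit [NumberField K] in
theorem MSW2_quo_zero (𝔟 : Ideal (𝓞 K)) : quo 𝔟 0 = ⊥ := by
  unfold quo
  simp

/-- the pointwise identity -/
theorem MSW2_term {𝔮 : Ideal (𝓞 K)} (h𝔮 : 𝔮 ≠ ⊥) {κ : InfinitePlace K → ℤ}
    {lam : InfinitePlace K → ℝ}
    {χ : MulChar (𝓞 K ⧸ 𝔮) ℂ} {ψ : Ideal (𝓞 K) →* ℂ} (hψ : IsHecke 𝔮 κ lam χ ψ)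
    {𝔟 : Ideal (𝓞 K)} (h𝔟 : 𝔟 ≠ ⊥) {g : 𝓞 K} {ρ : 𝓞 K → 𝓞 K ⧸ 𝔮} (hg : g ∈ 𝔟) (hg0 : g ≠ 0)
    (hgc : IsCoprime (quo 𝔟 g) 𝔮)
    (hρ : ∀ α ∈ 𝔟, ∀ a : 𝓞 K, ρ α = Ideal.Quotient.mk 𝔮 a ↔ α - a * g ∈ 𝔮 * 𝔟)
    {b : Ideal (𝓞 K) → ℂ} (hb0 : b ⊥ = 0) (y : InfinitePlace K → ℝ) (hy : ∀ w, 0 < y w)
    (α : 𝔟) :
    b (quo 𝔟 α) * ψ (quo 𝔟 α) * Gf κ lam (fun w => y w * w ((α : 𝓞 K) : K)) =
      (tw κ lam ψ 𝔟 g * cexp (((∑ w, lam w * Real.log (y w) : ℝ) : ℂ) * I)) *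
        (b (quo 𝔟 α) * χ (ρ α) * Hf κ y ((α : 𝓞 K) : K)) := by
  by_cases h0 : (α : 𝓞 K) = 0
  · rw [h0, MSW2_quo_zero, hb0]
    simp
  · obtain ⟨a, ha⟩ := Ideal.Quotient.mk_surjective (ρ α)
    have h1 := (hρ α α.2 a).mp ha.symm
    have h2 := tw_eq h𝔮 hψ h𝔟 hg hg0 hgc α.2 h0 h1
    have h0' : ((α : 𝓞 K) : K) ≠ 0 := by simpa using h0
    rw [Gf_eq κ lam y hy h0', ← ha]
    have h3 : tw κ lam ψ 𝔟 (α : 𝓞 K) = ψ (quo 𝔟 α) * (psiInf κ lam ((α : 𝓞 K) : K))⁻¹ := rfl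
    rw [h3] at h2
    linear_combination (b (quo 𝔟 ↑α) * Hf κ y ((α : 𝓞 K) : K) *
      cexp (((∑ w, lam w * Real.log (y w) : ℝ) : ℂ) * I)) * h2

/-- Cauchy-Schwarz on a probability space -/
theorem MSW2_cs {α : Type*} [MeasurableSpace α] (μ : Measure α) [IsProbabilityMeasure μ]
    (f : α → ℂ) (hf : AEStronglyMeasurable f μ) :
    ‖∫ x, f x ∂μ‖ₑ ^ 2 ≤ ∫⁻ x, ‖f x‖ₑ ^ 2 ∂μ := by
  have h1 : ‖∫ x, f x ∂μ‖ₑ ≤ eLpNorm f 1 μ := by
    rw [eLpNorm_one_eq_lintegral_enorm]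
    exact enorm_integral_le_lintegral_enorm _
  have h2 : eLpNorm f 1 μ ≤ eLpNorm f 2 μ :=
    eLpNorm_le_eLpNorm_of_exponent_le (by norm_num) hf
  have h3 : eLpNorm f 2 μ ^ 2 = ∫⁻ x, ‖f x‖ₑ ^ 2 ∂μ := by
    rw [eLpNorm_eq_lintegral_rpow_enorm_toReal (by norm_num) (by norm_num)]
    simp only [ENNReal.toReal_ofNat, ENNReal.rpow_ofNat, one_div]
    rw [← ENNReal.rpow_natCast, ← ENNReal.rpow_mul]
    norm_num
  calc ‖∫ x, f x ∂μ‖ₑ ^ 2 ≤ eLpNorm f 2 μ ^ 2 := by gcongr; exact h1.trans h2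
    _ = _ := h3

/-- superadditivity of the lower integral -/
theorem MSW2_sum_le {α ι : Type*} [MeasurableSpace α] (μ : Measure α) (s : Finset ι)
    (f : ι → α → ℝ≥0∞) : ∑ i ∈ s, ∫⁻ x, f i x ∂μ ≤ ∫⁻ x, ∑ i ∈ s, f i x ∂μ := by
  classical
  induction s using Finset.induction_on with
  | empty => simp
  | insert i s hi ih =>
    simp only [Finset.sum_insert hi]
    exact (add_le_add le_rfl ih).trans (le_lintegral_add _ _)

/-! ### continuity and measurability -/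

theorem MSW2_Yv_cont (w : InfinitePlace K) :
    Continuous (fun p : ℝ × (Fin (rank K) → ℝ) => Yv K p.1 p.2 w) := by
  obtain ⟨T, hT⟩ := Yv_log (K := K)
  have h : (fun p : ℝ × (Fin (rank K) → ℝ) => Yv K p.1 p.2 w) = fun p => Real.exp (T p w) := by
    funext p
    rw [hT, Real.exp_log (Yv_pos _ _ _)]
  rw [h]
  exact Real.continuous_exp.comp ((continuous_apply w).comp T.continuous)

theorem MSW2_log (u : ℝ) (x : Fin (rank K) → ℝ) (w : InfinitePlace K) :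
    Real.log (Yv K u x w) = u / Module.finrank ℚ K + Real.log (Yv K 0 x w) := by
  have h := Yv_add (K := K) u 0 0 x w
  rw [add_zero, zero_add] at h
  have h2 : Yv K u 0 w = Real.exp (u / Module.finrank ℚ K) := by
    unfold Yv
    simp
  rw [h, Real.log_mul (Yv_pos _ _ _).ne' (Yv_pos _ _ _).ne', h2, Real.log_exp]

theorem MSW2_phase {lam : InfinitePlace K → ℝ} (h : ∑ w, lam w = 0) (u : ℝ)
    (x : Fin (rank K) → ℝ) :
    ∑ w, lam w * Real.log (Yv K u x w) = ∑ w, lam w * Real.log (Yv K 0 x w) := by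
  have : ∀ w, lam w * Real.log (Yv K u x w) =
      lam w * (u / Module.finrank ℚ K) + lam w * Real.log (Yv K 0 x w) := by
    intro w
    rw [MSW2_log]
    ring
  simp_rw [this]
  rw [Finset.sum_add_distrib, ← Finset.sum_mul, h, zero_mul, zero_add]

theorem MSW2_Hf_cont (κ : InfinitePlace K → ℤ) {a : K} (ha : a ≠ 0) :
    Continuous (fun p : ℝ × (Fin (rank K) → ℝ) => Hf κ (Yv K p.1 p.2) a) := by
  obtain ⟨C, hC⟩ := Gf_good (K := K) κ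
  have h1 := (hC 0).2.2.1
  have h2 : ∀ p : ℝ × (Fin (rank K) → ℝ), Hf κ (Yv K p.1 p.2) a = psiInf κ 0 a *
      Gf κ 0 (fun w => Yv K p.1 p.2 w * w a) := by
    intro p
    rw [Gf_eq κ 0 _ (Yv_pos _ _) ha]
    have h3 : psiInf κ 0 a ≠ 0 := by
      intro h
      have := psiInf_norm κ 0 ha
      rw [h, norm_zero] at this
      exact zero_ne_one this
    simp only [Pi.zero_apply, zero_mul, Finset.sum_const_zero, Complex.ofReal_zero, Complex.exp_zero,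
      mul_one]
    rw [← mul_assoc, mul_inv_cancel₀ h3, one_mul]
  simp_rw [h2]
  refine continuous_const.mul (h1.comp_continuous ?_ ?_)
  · exact continuous_pi fun w => (MSW2_Yv_cont w).mul continuous_const
  · intro p w
    exact mul_pos (Yv_pos _ _ _) (InfinitePlace.pos_iff.mpr ha)

/-- the sum over the lattice -/
noncomputable def MSW2_S (κ : InfinitePlace K → ℤ) (𝔟 : Ideal (𝓞 K)) (f : 𝔟 → ℂ)
    (p : ℝ × (Fin (rank K) → ℝ)) : ℂ :=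
  ∑' α : 𝔟, f α * Hf κ (Yv K p.1 p.2) ((α : 𝓞 K) : K)

theorem MSW2_countable (𝔟 : Ideal (𝓞 K)) : Countable 𝔟 := by
  have h : Countable (𝓞 K) := by
    have e := (NumberField.RingOfIntegers.basis K).equivFun.toEquiv
    exact e.countable_iff.mpr inferInstance
  exact Subtype.countable

theorem MSW2_S_meas (κ : InfinitePlace K → ℤ) (𝔟 : Ideal (𝓞 K)) (f : 𝔟 → ℂ)
    (hf : ∀ α : 𝔟, (α : 𝓞 K) = 0 → f α = 0) : Measurable (MSW2_S κ 𝔟 f) := by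
  unfold MSW2_S
  have : Countable 𝔟 := MSW2_countable 𝔟
  refine Measurable.tsum fun α => ?_
  by_cases h0 : (α : 𝓞 K) = 0
  · simp only [hf α h0, zero_mul]
    exact measurable_const
  · have h0' : ((α : 𝓞 K) : K) ≠ 0 := by simpa using h0
    exact (continuous_const.mul (MSW2_Hf_cont κ h0')).measurable

theorem MSW2_S_le (κ : InfinitePlace K → ℤ) {𝔟 : Ideal (𝓞 K)} (h𝔟 : 𝔟 ≠ ⊥) :
    ∃ C : ℝ, 0 ≤ C ∧ ∀ (f : 𝔟 → ℂ) (β : ℝ), (∀ α, ‖f α‖ ≤ β) →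
      ∀ (u : ℝ), ∀ x ∈ Set.Icc (-1 : Fin (rank K) → ℝ) 1,
        ‖MSW2_S κ 𝔟 f (u, x)‖ ≤ C * β * (1 + Real.exp (-u)) := by
  obtain ⟨C1, hC1, h1⟩ := Hf_le (K := K) κ
  obtain ⟨C2, hC2, h2⟩ := lattice_sum (K := K) h𝔟 (c := Real.pi / 2) (by positivity)
  refine ⟨C1 * C2, by positivity, ?_⟩
  intro f β hβ u x hx
  have hβ0 : 0 ≤ β := (norm_nonneg _).trans (hβ 0)
  obtain ⟨h3, h4⟩ := h2 u x hx
  have h5 : ∀ α : 𝔟, ‖f α * Hf κ (Yv K u x) ((α : 𝓞 K) : K)‖ ≤ (β * C1) *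
      Real.exp (-(Real.pi / 2) * qn (fun w => Yv K u x w * w ((α : 𝓞 K) : K))) := by
    intro α
    rw [norm_mul, mul_assoc]
    exact mul_le_mul (hβ α) (h1 _ _ (Yv_pos u x)) (norm_nonneg _) hβ0
  unfold MSW2_S
  calc ‖∑' α : 𝔟, f α * Hf κ (Yv K u x) ((α : 𝓞 K) : K)‖
      ≤ ∑' α : 𝔟, (β * C1) *
        Real.exp (-(Real.pi / 2) * qn (fun w => Yv K u x w * w ((α : 𝓞 K) : K))) :=
        tsum_of_norm_bounded ((h3.mul_left _).hasSum) h5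
    _ = (β * C1) * ∑' α : 𝔟,
        Real.exp (-(Real.pi / 2) * qn (fun w => Yv K u x w * w ((α : 𝓞 K) : K))) := tsum_mul_left
    _ ≤ (β * C1) * (C2 * (1 + Real.exp (-u))) := by gcongr
    _ = _ := by ring

/-- integrability on the product of the line and the cube -/
theorem MSW2_int {X : Type*} [MeasurableSpace X] (μ : Measure X) [IsProbabilityMeasure μ]
    (A : Set X) (hA : ∀ᵐ x ∂μ, x ∈ A) (g : ℝ × X → ℂ) (hg : Measurable g) (R M : ℝ)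
    (h1 : ∀ u x, |u| ≤ R → x ∈ A → ‖g (u, x)‖ ≤ M) (h2 : ∀ u x, R < |u| → g (u, x) = 0) :
    Integrable g ((volume : Measure ℝ).prod μ) := by
  have h3 : IntegrableOn g (Set.Icc (-R) R ×ˢ Set.univ) ((volume : Measure ℝ).prod μ) := by
    refine Measure.integrableOn_of_bounded (M := M) ?_ hg.aestronglyMeasurable ?_
    · rw [Measure.prod_prod]
      simp
    · have h4 : ∀ᵐ p ∂((volume : Measure ℝ).prod μ), p.2 ∈ A :=
        Measure.quasiMeasurePreserving_snd.ae hA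
      filter_upwards [ae_restrict_of_ae h4,
        ae_restrict_mem (measurableSet_Icc.prod MeasurableSet.univ)] with p hp hp2
      exact h1 p.1 p.2 (abs_le.mpr hp2.1) hp
  refine h3.integrable_of_forall_notMem_eq_zero fun p hp => ?_
  refine h2 p.1 p.2 ?_
  by_contra hcon
  push Not at hcon
  exact hp ⟨abs_le.mp hcon, trivial⟩

theorem MSW2_char_le {R : Type*} [CommRing R] [Finite R] (χ : MulChar R ℂ) (x : R) :
    ‖χ x‖ ≤ 1 := by
  classical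
  have := Fintype.ofFinite R
  by_cases hx : IsUnit x
  · obtain ⟨u, rfl⟩ := hx
    have h1 : χ ^ Fintype.card Rˣ = 1 := MulChar.pow_card_eq_one χ
    have h2 : (χ (u : R)) ^ Fintype.card Rˣ = 1 := by
      rw [← MulChar.pow_apply_coe, h1, MulChar.one_apply_coe]
    exact (norm_eq_one_of_pow_eq_one h2 Fintype.card_ne_zero).le
  · rw [MulChar.map_nonunit χ hx, norm_zero]
    exact zero_le_one

/-- the mean square of the class sums against a weight -/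
theorem MSW2_class (κ : InfinitePlace K → ℤ) {𝔟 : Ideal (𝓞 K)} (h𝔟 : 𝔟 ≠ ⊥) :
    ∃ C c : ℝ, 0 ≤ C ∧ 0 < c ∧ ∀ (𝔮 : Ideal (𝓞 K)) (_ : 𝔮 ≠ ⊥)
      (ι : Type) (J : Finset ι) (n : ι → Ideal (𝓞 K)) (a : ι → ℝ) (D : ℝ) (_ : 0 < D)
      (_ : ∀ i ∈ J, 0 ≤ a i ∧ n i ≠ ⊥ ∧ IsCoprime (n i) 𝔮)
      (_ : ∀ i ∈ J, ∀ j ∈ J, D ≤ Ideal.absNorm (n i ⊔ n j))
      (b : Ideal (𝓞 K) → ℂ) (_ : ∀ 𝔠, 𝔠 = ⊥ ∨ ¬ IsCoprime 𝔠 𝔮 → b 𝔠 = 0)
      (_ : ∀ 𝔠, open scoped Classical in ‖b 𝔠‖ ≤ ∑ i ∈ J, if n i ∣ 𝔠 then a i else 0)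
      (E : Finset (MulChar (𝓞 K ⧸ 𝔮) ℂ)) (lam : MulChar (𝓞 K ⧸ 𝔮) ℂ → InfinitePlace K → ℝ)
      (ψ : MulChar (𝓞 K ⧸ 𝔮) ℂ → (Ideal (𝓞 K) →* ℂ))
      (_ : ∀ χ ∈ E, IsHecke 𝔮 κ (lam χ) χ (ψ χ) ∧ ∑ w, lam χ w = 0)
      (W : ℝ → ℂ) (_ : Measurable W) (R : ℝ) (_ : ∀ u, ‖W u‖ ≤ R) (_ : ∀ u, R < |u| → W u = 0),
      (∀ χ ∈ E, Integrable (fun u : ℝ => (Real.exp (u / 2) : ℂ) *
          Scl 𝔟 (fun 𝔠 => b 𝔠 * ψ χ 𝔠) (Gf κ (lam χ)) u * W u)) ∧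
      (∀ u, 0 ≤ (Scl 𝔟 (fun 𝔠 => ((‖b 𝔠‖ ^ 2 : ℝ) : ℂ)) (MSW2_F K) u).re) ∧
      ENNReal.ofReal (∑ χ ∈ E, ‖∫ u : ℝ, (Real.exp (u / 2) : ℂ) *
          Scl 𝔟 (fun 𝔠 => b 𝔠 * ψ χ 𝔠) (Gf κ (lam χ)) u * W u‖ ^ 2) ≤
        ∫⁻ u, ∫⁻ u', ‖W u‖ₑ * ‖W u'‖ₑ * ENNReal.ofReal
          ((Nat.card (𝓞 K ⧸ 𝔮)ˣ : ℝ) *
            (C * (Real.exp ((u + u') / 2) *
              (Scl 𝔟 (fun 𝔠 => ((‖b 𝔠‖ ^ 2 : ℝ) : ℂ)) (MSW2_F K)
                (wn (Module.finrank ℚ K) u u')).re) +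
             C * (∑ i ∈ J, a i) ^ 2 * (Real.exp (-((u + u') / 2)) / D ^ 2 *
              Real.exp (-c * (Real.exp (min u u') * Ideal.absNorm 𝔮 * D) ^
                (2 / (Module.finrank ℚ K : ℝ)))))) := by
  classical
  obtain ⟨C, c, hC, hc, hcr⟩ := cross_gen (K := K) (κ := κ) h𝔟
  obtain ⟨CG, hG⟩ := Gf_good (K := K) κ
  obtain ⟨CS, hCS, hSle⟩ := MSW2_S_le κ h𝔟
  set N : ℝ := ((Ideal.absNorm 𝔟 : ℕ) : ℝ) with hN
  have hN1 : 1 ≤ N := by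
    rw [hN]
    have : Ideal.absNorm 𝔟 ≠ 0 := by
      rw [Ne, Ideal.absNorm_eq_zero_iff]
      exact h𝔟
    exact_mod_cast Nat.one_le_iff_ne_zero.mpr this
  have hN0 : 0 < N := by linarith
  set ν : ℝ := 2 / (Module.finrank ℚ K : ℝ) with hν
  have hν0 : 0 ≤ ν := by positivity
  have hnK : 0 < Module.finrank ℚ K := Module.finrank_pos
  have hT : 1 ≤ (torsionOrder K : ℝ) := by
    exact_mod_cast Nat.one_le_iff_ne_zero.mpr (torsionOrder_pos K).ne'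
  set T : ℝ := (torsionOrder K : ℝ) with hTdef
  refine ⟨C * T * N ^ 2, c * N ^ (-ν), by positivity, by positivity, ?_⟩
  intro 𝔮 h𝔮 ι J n a D hD hJ hJJ b hb0' hb' E lam ψ hψ W hWm R hWR hW0
  have hb0 : b ⊥ = 0 := hb0' ⊥ (Or.inl rfl)
  set β : ℝ := ∑ i ∈ J, a i with hβ
  have hb : ∀ 𝔠, ‖b 𝔠‖ ≤ β := fun 𝔠 => (hb' 𝔠).trans (Finset.sum_le_sum fun i hi => by
    split_ifs
    · exact le_rfl
    · exact (hJ i hi).1)
  have hβ0 : 0 ≤ β := (norm_nonneg _).trans (hb ⊥)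
  have hR0 : 0 ≤ R := (norm_nonneg _).trans (hWR 0)
  have hfin : Finite (𝓞 K ⧸ 𝔮) := Ideal.finiteQuotientOfFreeOfNeBot 𝔮 h𝔮
  have hfinc : Finite (MulChar (𝓞 K ⧸ 𝔮) ℂ) := inferInstance
  have := Fintype.ofFinite (MulChar (𝓞 K ⧸ 𝔮) ℂ)
  set μ : Measure (Fin (rank K) → ℝ) := volume.restrict (Set.Icc 0 1) with hμ
  have hμp : IsProbabilityMeasure μ := ⟨by
    rw [hμ, Measure.restrict_apply_univ, Real.volume_Icc_pi]
    simp⟩
  have hcube : ∀ x ∈ Set.Icc (0 : Fin (rank K) → ℝ) 1, x ∈ Set.Icc (-1 : Fin (rank K) → ℝ) 1 := by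
    intro x hx
    refine ⟨?_, hx.2⟩
    intro i
    have := hx.1 i
    simp only [Pi.neg_apply, Pi.one_apply, Pi.zero_apply] at this ⊢
    linarith
  have hA : ∀ᵐ x ∂μ, x ∈ Set.Icc (0 : Fin (rank K) → ℝ) 1 := ae_restrict_mem measurableSet_Icc
  -- the Gaussian side
  set b₂ : Ideal (𝓞 K) → ℂ := fun 𝔠 => ((‖b 𝔠‖ ^ 2 : ℝ) : ℂ) with hb₂
  have hb₂le : ∀ 𝔠, ‖b₂ 𝔠‖ ≤ β ^ 2 := by
    intro 𝔠
    rw [hb₂]
    simp only [Complex.norm_real, Real.norm_eq_abs, abs_of_nonneg (sq_nonneg ‖b 𝔠‖)]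
    exact pow_le_pow_left₀ (norm_nonneg _) (hb 𝔠) 2
  have hb₂0 : b₂ ⊥ = 0 := by
    rw [hb₂]
    simp [hb0]
  set S : ℝ × (Fin (rank K) → ℝ) → ℝ := fun p => ∑' α : 𝔟, ‖b (quo 𝔟 α)‖ ^ 2 *
    Real.exp (-Real.pi * qn (fun w => Yv K p.1 p.2 w * w ((α : 𝓞 K) : K))) with hS
  have hS0 : ∀ p, 0 ≤ S p := fun p => tsum_nonneg (fun α => by positivity)
  have hSint : ∀ v, IntegrableOn (fun x => S (v, x)) (Set.Icc 0 1) ∧
      ∫ x in Set.Icc (0 : Fin (rank K) → ℝ) 1, S (v, x) =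
        T * (Scl 𝔟 b₂ (MSW2_F K) (v + Real.log N)).re := by
    intro v
    obtain ⟨hSi, hSe⟩ := unfold_units h𝔟 (MSW2_F_good (K := K)) hb₂le hb₂0 1 (Or.inl rfl) v
    have hSc : (fun x : Fin (rank K) → ℝ => ∑' α : 𝔟, b₂ (quo 𝔟 α) *
        MSW2_F K (fun w => Yv K v ((1 : ℝ) • x) w * w ((α : 𝓞 K) : K))) =
        fun x => ((S (v, x) : ℝ) : ℂ) := by
      funext x
      rw [hS]
      simp only [one_smul]
      rw [Complex.ofReal_tsum]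
      apply tsum_congr
      intro α
      rw [hb₂, MSW2_F]
      push_cast
      ring
    rw [hSc] at hSi
    have hSi' : IntegrableOn (fun x => S (v, x)) (Set.Icc 0 1) := by
      have h : Integrable (fun x => S (v, x)) (volume.restrict (Set.Icc 0 1)) := by
        simpa using hSi.re
      exact h
    refine ⟨hSi', ?_⟩
    have hSe' : ((∫ x in Set.Icc (0 : Fin (rank K) → ℝ) 1, S (v, x) : ℝ) : ℂ) =
        (torsionOrder K : ℂ) * Scl 𝔟 b₂ (MSW2_F K) (v + Real.log N) := by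
      have e : ∫ x in Set.Icc (0 : Fin (rank K) → ℝ) 1, ((S (v, x) : ℝ) : ℂ) =
          ((∫ x in Set.Icc (0 : Fin (rank K) → ℝ) 1, S (v, x) : ℝ) : ℂ) := integral_ofReal
      rw [← e, ← hSe]
      congr 1
      exact hSc.symm
    have := congrArg Complex.re hSe'
    rw [Complex.ofReal_re] at this
    rw [this]
    simp [hTdef]
  have hre0 : ∀ u, 0 ≤ (Scl 𝔟 b₂ (MSW2_F K) u).re := by
    intro u
    have h1 : 0 ≤ ∫ x in Set.Icc (0 : Fin (rank K) → ℝ) 1, S (u - Real.log N, x) :=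
      integral_nonneg fun x => hS0 _
    rw [(hSint _).2, sub_add_cancel] at h1
    exact nonneg_of_mul_nonneg_right h1 (by linarith)
  have hSm : Measurable S := by
    rw [hS]
    have : Countable 𝔟 := MSW2_countable 𝔟
    refine Measurable.tsum fun α => ?_
    refine Measurable.const_mul ?_ _
    refine Continuous.measurable ?_
    refine Real.continuous_exp.comp (continuous_const.mul ?_)
    unfold qn
    exact continuous_finset_sum _ fun w _ => continuous_const.mul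
      (((MSW2_Yv_cont w).mul continuous_const).pow 2)
  -- the theta functions
  obtain ⟨g, ρ, hg, hg0, hgc, hρ⟩ := exists_res h𝔮 h𝔟
  set f : MulChar (𝓞 K ⧸ 𝔮) ℂ → 𝔟 → ℂ := fun χ α => b (quo 𝔟 α) * χ (ρ α) with hf
  have hf0 : ∀ χ (α : 𝔟), (α : 𝓞 K) = 0 → f χ α = 0 := by
    intro χ α h0
    rw [hf]
    simp only
    rw [h0, MSW2_quo_zero, hb0, zero_mul]
  have hfle : ∀ χ α, ‖f χ α‖ ≤ β := by
    intro χ α
    rw [hf]
    simp only
    rw [norm_mul]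
    calc ‖b (quo 𝔟 α)‖ * ‖χ (ρ α)‖ ≤ β * 1 :=
          mul_le_mul (hb _) (MSW2_char_le χ _) (norm_nonneg _) hβ0
      _ = β := mul_one β
  set H : MulChar (𝓞 K ⧸ 𝔮) ℂ → ℝ × (Fin (rank K) → ℝ) → ℂ := fun χ p =>
    (Real.exp (p.1 / 2) : ℂ) * W p.1 * MSW2_S κ 𝔟 (f χ) (p.1 - Real.log N, p.2) with hH
  have hHm : ∀ χ, Measurable (H χ) := by
    intro χ
    have h1 := MSW2_S_meas κ 𝔟 (f χ) (hf0 χ)
    rw [hH]
    refine Measurable.mul (Measurable.mul ?_ (hWm.comp measurable_fst)) ?_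
    · exact Complex.measurable_ofReal.comp (Real.measurable_exp.comp
        (measurable_fst.div_const 2))
    · exact h1.comp ((measurable_fst.sub_const _).prodMk measurable_snd)
  set M : ℝ := Real.exp (R / 2) * R * (CS * β * (1 + Real.exp (R + Real.log N))) with hM
  have hHle : ∀ χ (u : ℝ) (x : Fin (rank K) → ℝ), |u| ≤ R → x ∈ Set.Icc (0 : Fin (rank K) → ℝ) 1 →
      ‖H χ (u, x)‖ ≤ M := by
    intro χ u x hu hx
    rw [hH, hM]
    simp only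
    have hu' := abs_le.mp hu
    rw [norm_mul, norm_mul, Complex.norm_real, Real.norm_eq_abs, abs_of_pos (Real.exp_pos _)]
    have h1 := hSle (f χ) β (hfle χ) (u - Real.log N) x (hcube x hx)
    have h2 : Real.exp (u / 2) ≤ Real.exp (R / 2) := Real.exp_le_exp.mpr (by linarith)
    have h3 : Real.exp (-(u - Real.log N)) ≤ Real.exp (R + Real.log N) :=
      Real.exp_le_exp.mpr (by linarith)
    have h4 : CS * β * (1 + Real.exp (-(u - Real.log N))) ≤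
        CS * β * (1 + Real.exp (R + Real.log N)) := by gcongr
    have h5 := hWR u
    exact mul_le_mul (mul_le_mul h2 h5 (norm_nonneg _) (Real.exp_pos _).le) (h1.trans h4)
      (norm_nonneg _) (by positivity)
  have hH0 : ∀ χ (u : ℝ) (x : Fin (rank K) → ℝ), R < |u| → H χ (u, x) = 0 := by
    intro χ u x hu
    rw [hH]
    simp only
    rw [hW0 u hu]
    ring
  -- integrability on the line
  have hHline : ∀ χ, ∀ x ∈ Set.Icc (0 : Fin (rank K) → ℝ) 1, Integrable (fun u => H χ (u, x)) := by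
    intro χ x hx
    have h1 : IntegrableOn (fun u => H χ (u, x)) (Set.Icc (-R) R) := by
      refine Measure.integrableOn_of_bounded (M := M) (by simp)
        ((hHm χ).comp (measurable_id.prodMk measurable_const)).aestronglyMeasurable ?_
      filter_upwards [ae_restrict_mem measurableSet_Icc] with u hu
      exact hHle χ u x (abs_le.mpr hu) hx
    refine h1.integrable_of_forall_notMem_eq_zero fun u hu => ?_
    refine hH0 χ u x ?_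
    by_contra hcon
    push Not at hcon
    exact hu (abs_le.mp hcon)
  -- the phases
  set P : MulChar (𝓞 K ⧸ 𝔮) ℂ → (Fin (rank K) → ℝ) → ℂ := fun χ x =>
    tw κ (lam χ) (ψ χ) 𝔟 g * cexp (((∑ w, lam χ w * Real.log (Yv K 0 x w) : ℝ) : ℂ) * I) with hP
  have hPm : ∀ χ, Measurable (P χ) := by
    intro χ
    rw [hP]
    refine measurable_const.mul ?_
    refine Complex.measurable_exp.comp (Measurable.mul_const ?_ _)
    refine Complex.measurable_ofReal.comp ?_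
    refine Finset.measurable_sum _ fun w _ => ?_
    refine Measurable.const_mul ?_ _
    refine Real.measurable_log.comp ?_
    exact (MSW2_Yv_cont w).measurable.comp (measurable_const.prodMk measurable_id)
  have hP1 : ∀ χ ∈ E, ∀ x, ‖P χ x‖ = 1 := by
    intro χ hχ x
    rw [hP]
    simp only
    rw [norm_mul, tw_norm (hψ χ hχ).1 hg0 hgc, Complex.norm_exp_ofReal_mul_I, one_mul]
  have hψ1 : ∀ χ ∈ E, ∀ 𝔠, ‖ψ χ 𝔠‖ ≤ 1 := by
    intro χ hχ 𝔠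
    by_cases h : IsCoprime 𝔠 𝔮
    · rw [(hψ χ hχ).1.norm_eq_one 𝔠 h]
    · rw [(hψ χ hχ).1.eq_zero 𝔠 h]
      simp
  have hunf : ∀ χ ∈ E, ∀ u : ℝ, (T : ℂ) * ((Real.exp (u / 2) : ℂ) *
      Scl 𝔟 (fun 𝔠 => b 𝔠 * ψ χ 𝔠) (Gf κ (lam χ)) u * W u) =
      ∫ x, P χ x * H χ (u, x) ∂μ := by
    intro χ hχ u
    have hle : ∀ 𝔠, ‖b 𝔠 * ψ χ 𝔠‖ ≤ β := by
      intro 𝔠
      rw [norm_mul]
      calc ‖b 𝔠‖ * ‖ψ χ 𝔠‖ ≤ β * 1 :=
            mul_le_mul (hb 𝔠) (hψ1 χ hχ 𝔠) (norm_nonneg _) hβ0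
        _ = β := mul_one β
    have h := (unfold_units h𝔟 (hG (lam χ)) hle (by simp [hb0]) 1 (Or.inl rfl) (u - Real.log N)).2
    rw [← hN, sub_add_cancel] at h
    have h2 : ∫ x, P χ x * H χ (u, x) ∂μ = ∫ x in Set.Icc (0 : Fin (rank K) → ℝ) 1,
        ((Real.exp (u / 2) : ℂ) * W u) * ∑' α : 𝔟, b (quo 𝔟 α) * ψ χ (quo 𝔟 α) *
        Gf κ (lam χ) (fun w => Yv K (u - Real.log N) ((1 : ℝ) • x) w * w ((α : 𝓞 K) : K)) := by
      refine integral_congr_ae (Filter.Eventually.of_forall fun x => ?_)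
      simp only [one_smul]
      have h3 : ∑' α : 𝔟, b (quo 𝔟 α) * ψ χ (quo 𝔟 α) *
        Gf κ (lam χ) (fun w => Yv K (u - Real.log N) x w * w ((α : 𝓞 K) : K)) =
          P χ x * MSW2_S κ 𝔟 (f χ) (u - Real.log N, x) := by
        unfold MSW2_S
        rw [← tsum_mul_left]
        apply tsum_congr
        intro α
        rw [MSW2_term h𝔮 (hψ χ hχ).1 h𝔟 hg hg0 hgc hρ hb0 (Yv K (u - Real.log N) x)
          (fun w => Yv_pos _ x w) α, MSW2_phase (hψ χ hχ).2]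
      rw [h3, hH]
      simp only
      ring
    rw [h2, integral_const_mul, h]
    simp only [hTdef]
    push_cast
    ring
  -- the functions G
  set G : MulChar (𝓞 K ⧸ 𝔮) ℂ → (Fin (rank K) → ℝ) → ℂ := fun χ x => ∫ u, H χ (u, x) with hGdef
  have hPH : ∀ χ ∈ E, Integrable (fun p : ℝ × (Fin (rank K) → ℝ) => P χ p.2 * H χ p)
      ((volume : Measure ℝ).prod μ) := by
    intro χ hχ
    refine MSW2_int μ _ hA _ (((hPm χ).comp measurable_snd).mul (hHm χ)) R M ?_ ?_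
    · intro u x hu hx
      simp only
      rw [norm_mul, hP1 χ hχ, one_mul]
      exact hHle χ u x hu hx
    · intro u x hu
      simp only
      rw [hH0 χ u x hu, mul_zero]
  have hT0 : 0 < T := by linarith
  have hTC : (T : ℂ) ≠ 0 := by exact_mod_cast hT0.ne'
  have hint : ∀ χ ∈ E, Integrable (fun u : ℝ => (Real.exp (u / 2) : ℂ) *
          Scl 𝔟 (fun 𝔠 => b 𝔠 * ψ χ 𝔠) (Gf κ (lam χ)) u * W u) := by
    intro χ hχ
    have h1 := (hPH χ hχ).integral_prod_left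
    have h2 : (fun u : ℝ => (Real.exp (u / 2) : ℂ) *
          Scl 𝔟 (fun 𝔠 => b 𝔠 * ψ χ 𝔠) (Gf κ (lam χ)) u * W u) =
        fun u => (T : ℂ)⁻¹ * ∫ x, P χ x * H χ (u, x) ∂μ := by
      funext u
      rw [← hunf χ hχ u, ← mul_assoc, inv_mul_cancel₀ hTC, one_mul]
    rw [h2]
    exact h1.const_mul _
  refine ⟨hint, hre0, ?_⟩
  have hswap : ∀ χ ∈ E, (T : ℂ) * ∫ u : ℝ, (Real.exp (u / 2) : ℂ) *
          Scl 𝔟 (fun 𝔠 => b 𝔠 * ψ χ 𝔠) (Gf κ (lam χ)) u * W u = ∫ x, P χ x * G χ x ∂μ := by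
    intro χ hχ
    rw [← integral_const_mul]
    simp_rw [hunf χ hχ]
    rw [integral_integral_swap (f := fun u x => P χ x * H χ (u, x)) (hPH χ hχ)]
    refine integral_congr_ae (Filter.Eventually.of_forall fun x => ?_)
    simp only
    rw [integral_const_mul]
  have hGm : ∀ χ, Measurable (G χ) := by
    intro χ
    rw [hGdef]
    have h1 : StronglyMeasurable (fun p : (Fin (rank K) → ℝ) × ℝ => H χ (p.2, p.1)) :=
      ((hHm χ).comp (measurable_snd.prodMk measurable_fst)).stronglyMeasurable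
    exact (h1.integral_prod_right (ν := (volume : Measure ℝ))).measurable
  -- step A: from the mean square to the cube
  have hA1 : ENNReal.ofReal (∑ χ ∈ E, ‖∫ u : ℝ, (Real.exp (u / 2) : ℂ) *
          Scl 𝔟 (fun 𝔠 => b 𝔠 * ψ χ 𝔠) (Gf κ (lam χ)) u * W u‖ ^ 2) ≤
      ∫⁻ x, ∑ χ : MulChar (𝓞 K ⧸ 𝔮) ℂ, ‖G χ x‖ₑ ^ 2 ∂μ := by
    have h1 : ∑ χ ∈ E, ‖∫ u : ℝ, (Real.exp (u / 2) : ℂ) *
          Scl 𝔟 (fun 𝔠 => b 𝔠 * ψ χ 𝔠) (Gf κ (lam χ)) u * W u‖ ^ 2 ≤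
        ∑ χ ∈ E, ‖∫ x, P χ x * G χ x ∂μ‖ ^ 2 := by
      refine Finset.sum_le_sum fun χ hχ => ?_
      rw [← hswap χ hχ, norm_mul, Complex.norm_real, Real.norm_eq_abs, abs_of_pos hT0]
      refine pow_le_pow_left₀ (norm_nonneg _) ?_ 2
      exact le_mul_of_one_le_left (norm_nonneg _) hT
    have h2 : ENNReal.ofReal (∑ χ ∈ E, ‖∫ x, P χ x * G χ x ∂μ‖ ^ 2) =
        ∑ χ ∈ E, ‖∫ x, P χ x * G χ x ∂μ‖ₑ ^ 2 := by
      rw [ENNReal.ofReal_sum_of_nonneg fun i _ => sq_nonneg _]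
      refine Finset.sum_congr rfl fun χ _ => ?_
      rw [ENNReal.ofReal_pow (norm_nonneg _), ofReal_norm]
    refine (ENNReal.ofReal_le_ofReal h1).trans ?_
    rw [h2]
    calc ∑ χ ∈ E, ‖∫ x, P χ x * G χ x ∂μ‖ₑ ^ 2 ≤ ∑ χ ∈ E, ∫⁻ x, ‖G χ x‖ₑ ^ 2 ∂μ := by
          refine Finset.sum_le_sum fun χ hχ => ?_
          refine (MSW2_cs μ _ ((hPm χ).mul (hGm χ)).aestronglyMeasurable).trans ?_
          refine lintegral_mono fun x => ?_
          rw [Pi.mul_apply, enorm_mul]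
          have : ‖P χ x‖ₑ = 1 := by rw [← ofReal_norm, hP1 χ hχ, ENNReal.ofReal_one]
          rw [this, one_mul]
      _ ≤ ∫⁻ x, ∑ χ ∈ E, ‖G χ x‖ₑ ^ 2 ∂μ := MSW2_sum_le _ _ _
      _ ≤ _ := by
          refine lintegral_mono fun x => ?_
          exact Finset.sum_le_sum_of_subset (Finset.subset_univ E)
  refine hA1.trans ?_
  -- step B: the cross terms
  set ℓ : ℝ := Real.log N with hℓ
  set Q : ℝ := (Nat.card (𝓞 K ⧸ 𝔮)ˣ : ℝ) with hQ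
  have hQ0 : 0 ≤ Q := Nat.cast_nonneg _
  set K0 : ℝ → ℝ → ℝ := fun u u' => C * β ^ 2 * (Real.exp (-((u - ℓ) + (u' - ℓ))) / D ^ 2) *
    Real.exp (-c * (Real.exp (min (u - ℓ) (u' - ℓ)) * Ideal.absNorm 𝔮 * D) ^ ν) with hK0
  set B : ℝ → ℝ → (Fin (rank K) → ℝ) → ℝ≥0∞ := fun u u' x => ‖W u‖ₑ * ‖W u'‖ₑ *
    ENNReal.ofReal (Real.exp ((u + u') / 2) * (Q * (C * S (wn (Module.finrank ℚ K) (u - ℓ)
      (u' - ℓ), x) + K0 u u'))) with hB
  have hB1 : ∀ x ∈ Set.Icc (0 : Fin (rank K) → ℝ) 1,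
      ∑ χ : MulChar (𝓞 K ⧸ 𝔮) ℂ, ‖G χ x‖ₑ ^ 2 ≤ ∫⁻ u, ∫⁻ u', B u u' x := by
    intro x hx
    have h1 : ∑ χ : MulChar (𝓞 K ⧸ 𝔮) ℂ, ‖G χ x‖ₑ ^ 2 =
        ENNReal.ofReal (∑ χ : MulChar (𝓞 K ⧸ 𝔮) ℂ, ‖∫ u, H χ (u, x)‖ ^ 2) := by
      rw [ENNReal.ofReal_sum_of_nonneg fun i _ => sq_nonneg _]
      refine Finset.sum_congr rfl fun χ _ => ?_
      rw [ENNReal.ofReal_pow (norm_nonneg _), ofReal_norm]
    rw [h1]
    refine (Pool.Agent.SQS.sum_sq_le Finset.univ (fun χ u => H χ (u, x))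
      (fun χ _ => hHline χ x hx)).trans ?_
    refine lintegral_mono fun u => lintegral_mono fun u' => ?_
    have h2 : ∑ χ : MulChar (𝓞 K ⧸ 𝔮) ℂ, H χ (u, x) * starRingEnd ℂ (H χ (u', x)) =
        ((Real.exp (u / 2) : ℂ) * W u) * starRingEnd ℂ ((Real.exp (u' / 2) : ℂ) * W u') *
        ∑ χ : MulChar (𝓞 K ⧸ 𝔮) ℂ, MSW2_S κ 𝔟 (f χ) (u - ℓ, x) *
          starRingEnd ℂ (MSW2_S κ 𝔟 (f χ) (u' - ℓ, x)) := by
      rw [Finset.mul_sum]
      refine Finset.sum_congr rfl fun χ _ => ?_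
      rw [hH]
      simp only [map_mul]
      ring
    have h3 := hcr 𝔮 h𝔮 g ρ hρ ι J n a D hD hJ hJJ b hb0' hb' Finset.univ
      (fun χ => Finset.mem_univ χ) (u - ℓ) (u' - ℓ) x (hcube x hx)
    have h4 : ‖∑ χ : MulChar (𝓞 K ⧸ 𝔮) ℂ, MSW2_S κ 𝔟 (f χ) (u - ℓ, x) *
          starRingEnd ℂ (MSW2_S κ 𝔟 (f χ) (u' - ℓ, x))‖ ≤
        Q * (C * S (wn (Module.finrank ℚ K) (u - ℓ) (u' - ℓ), x) + K0 u u') := h3
    rw [h2, enorm_mul, enorm_mul, hB]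
    simp only
    have h5 : ‖(Real.exp (u / 2) : ℂ) * W u‖ₑ = ENNReal.ofReal (Real.exp (u / 2)) * ‖W u‖ₑ := by
      rw [enorm_mul, ← ofReal_norm (((Real.exp (u / 2) : ℝ) : ℂ)), Complex.norm_real,
        Real.norm_eq_abs, abs_of_pos (Real.exp_pos _)]
    have h6 : ‖starRingEnd ℂ ((Real.exp (u' / 2) : ℂ) * W u')‖ₑ =
        ENNReal.ofReal (Real.exp (u' / 2)) * ‖W u'‖ₑ := by
      rw [← ofReal_norm, RCLike.norm_conj, ofReal_norm, enorm_mul,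
        ← ofReal_norm (((Real.exp (u' / 2) : ℝ) : ℂ)), Complex.norm_real,
        Real.norm_eq_abs, abs_of_pos (Real.exp_pos _)]
    rw [h5, h6, ← ofReal_norm (∑ χ : MulChar (𝓞 K ⧸ 𝔮) ℂ, MSW2_S κ 𝔟 (f χ) (u - ℓ, x) *
          starRingEnd ℂ (MSW2_S κ 𝔟 (f χ) (u' - ℓ, x)))]
    have h7 : ENNReal.ofReal (Real.exp ((u + u') / 2) *
        (Q * (C * S (wn (Module.finrank ℚ K) (u - ℓ) (u' - ℓ), x) + K0 u u'))) =
        ENNReal.ofReal (Real.exp (u / 2)) * ENNReal.ofReal (Real.exp (u' / 2)) *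
        ENNReal.ofReal (Q * (C * S (wn (Module.finrank ℚ K) (u - ℓ) (u' - ℓ), x) + K0 u u')) := by
      rw [← ENNReal.ofReal_mul (Real.exp_pos _).le, ← Real.exp_add,
        ← ENNReal.ofReal_mul (Real.exp_pos _).le]
      congr 3
      ring
    rw [h7]
    calc ENNReal.ofReal (Real.exp (u / 2)) * ‖W u‖ₑ *
          (ENNReal.ofReal (Real.exp (u' / 2)) * ‖W u'‖ₑ) *
          ENNReal.ofReal ‖∑ χ : MulChar (𝓞 K ⧸ 𝔮) ℂ, MSW2_S κ 𝔟 (f χ) (u - ℓ, x) *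
          starRingEnd ℂ (MSW2_S κ 𝔟 (f χ) (u' - ℓ, x))‖
        ≤ ENNReal.ofReal (Real.exp (u / 2)) * ‖W u‖ₑ *
          (ENNReal.ofReal (Real.exp (u' / 2)) * ‖W u'‖ₑ) *
          ENNReal.ofReal (Q * (C * S (wn (Module.finrank ℚ K) (u - ℓ) (u' - ℓ), x) +
            K0 u u')) := by
          gcongr
      _ = _ := by ring
  have hB2 : ∫⁻ x, ∑ χ : MulChar (𝓞 K ⧸ 𝔮) ℂ, ‖G χ x‖ₑ ^ 2 ∂μ ≤
      ∫⁻ x, (∫⁻ u, ∫⁻ u', B u u' x) ∂μ := by
    refine lintegral_mono_ae ?_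
    filter_upwards [hA] with x hx
    exact hB1 x hx
  refine hB2.trans ?_
  -- step C: Tonelli
  have hBm : Measurable (fun p : ((Fin (rank K) → ℝ) × ℝ) × ℝ => B p.1.2 p.2 p.1.1) := by
    rw [hB]
    have m1 : Measurable (fun p : ((Fin (rank K) → ℝ) × ℝ) × ℝ => ‖W p.1.2‖ₑ) :=
      (hWm.comp (measurable_snd.comp measurable_fst)).enorm
    have m2 : Measurable (fun p : ((Fin (rank K) → ℝ) × ℝ) × ℝ => ‖W p.2‖ₑ) :=
      (hWm.comp measurable_snd).enorm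
    have m3 : Measurable (fun p : ((Fin (rank K) → ℝ) × ℝ) × ℝ =>
        S (wn (Module.finrank ℚ K) (p.1.2 - ℓ) (p.2 - ℓ), p.1.1)) := by
      refine hSm.comp (Measurable.prodMk ?_ (measurable_fst.comp measurable_fst))
      exact (wn_continuous hnK).measurable.comp
        (((measurable_snd.comp measurable_fst).sub_const _).prodMk (measurable_snd.sub_const _))
    have m4 : Measurable (fun p : ((Fin (rank K) → ℝ) × ℝ) × ℝ => K0 p.1.2 p.2) := by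
      rw [hK0]
      fun_prop
    exact (m1.mul m2).mul (ENNReal.measurable_ofReal.comp
      ((Real.measurable_exp.comp (((measurable_snd.comp measurable_fst).add
        measurable_snd).div_const 2)).mul ((((m3.const_mul C)).add m4).const_mul Q)))
  have hC1 : ∫⁻ x, (∫⁻ u, ∫⁻ u', B u u' x) ∂μ = ∫⁻ u, ∫⁻ u', (∫⁻ x, B u u' x ∂μ) := by
    rw [lintegral_lintegral_swap]
    · refine lintegral_congr fun u => ?_
      rw [lintegral_lintegral_swap]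
      refine Measurable.aemeasurable ?_
      exact hBm.comp ((measurable_fst.prodMk measurable_const).prodMk measurable_snd)
    · refine Measurable.aemeasurable ?_
      exact Measurable.lintegral_prod_right' (ν := (volume : Measure ℝ)) hBm
  rw [hC1]
  refine lintegral_mono fun u => lintegral_mono fun u' => ?_
  -- step D: the integral over the cube
  have hD1 : ∫⁻ x, B u u' x ∂μ = ‖W u‖ₑ * ‖W u'‖ₑ * ENNReal.ofReal (Real.exp ((u + u') / 2) *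
      (Q * (C * (T * (Scl 𝔟 b₂ (MSW2_F K) (wn (Module.finrank ℚ K) u u')).re) + K0 u u'))) := by
    rw [hB]
    simp only
    have hw : wn (Module.finrank ℚ K) (u - ℓ) (u' - ℓ) = wn (Module.finrank ℚ K) u u' - ℓ := by
      have := wn_shift hnK u u' (-ℓ)
      rw [← sub_eq_add_neg, ← sub_eq_add_neg, ← sub_eq_add_neg] at this
      exact this
    rw [hw]
    obtain ⟨hSi, hSe⟩ := hSint (wn (Module.finrank ℚ K) u u' - ℓ)
    rw [sub_add_cancel] at hSe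
    have hne : ‖W u‖ₑ * ‖W u'‖ₑ ≠ ∞ := ENNReal.mul_ne_top enorm_ne_top enorm_ne_top
    rw [lintegral_const_mul' _ _ hne]
    congr 1
    have hSi' : Integrable (fun x => S (wn (Module.finrank ℚ K) u u' - ℓ, x)) μ := hSi
    have hSe' : ∫ x, S (wn (Module.finrank ℚ K) u u' - ℓ, x) ∂μ =
        T * (Scl 𝔟 b₂ (MSW2_F K) (wn (Module.finrank ℚ K) u u')).re := hSe
    have hi : Integrable (fun x => Real.exp ((u + u') / 2) *
        (Q * (C * S (wn (Module.finrank ℚ K) u u' - ℓ, x) + K0 u u'))) μ :=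
      (((hSi'.const_mul C).add (integrable_const _)).const_mul Q).const_mul _
    have hK00 : 0 ≤ K0 u u' := by rw [hK0]; positivity
    rw [← ofReal_integral_eq_lintegral_ofReal hi (Filter.Eventually.of_forall fun x => by
      have := hS0 (wn (Module.finrank ℚ K) u u' - ℓ, x)
      positivity)]
    congr 1
    rw [integral_const_mul, integral_const_mul, integral_add (hSi'.const_mul C)
      (integrable_const _), integral_const_mul, hSe', integral_const]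
    simp
  rw [hD1]
  refine mul_le_mul_right (ENNReal.ofReal_le_ofReal ?_) _
  -- step E: constants
  set Sr : ℝ := (Scl 𝔟 b₂ (MSW2_F K) (wn (Module.finrank ℚ K) u u')).re with hSr
  have hSr0 : 0 ≤ Sr := hre0 _
  have e1 : Real.exp ((u + u') / 2) * K0 u u' = C * N ^ 2 * β ^ 2 *
      (Real.exp (-((u + u') / 2)) / D ^ 2 * Real.exp (-(c * N ^ (-ν)) *
        (Real.exp (min u u') * Ideal.absNorm 𝔮 * D) ^ ν)) := by
    rw [hK0]
    simp only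
    have e2 : Real.exp (-((u - ℓ) + (u' - ℓ))) = N ^ 2 * Real.exp (-(u + u')) := by
      have : -((u - ℓ) + (u' - ℓ)) = ℓ + ℓ + (-(u + u')) := by ring
      rw [this, Real.exp_add, Real.exp_add, hℓ, Real.exp_log hN0]
      ring
    have e3 : Real.exp ((u + u') / 2) * Real.exp (-(u + u')) = Real.exp (-((u + u') / 2)) := by
      rw [← Real.exp_add]
      congr 1
      ring
    have e4 : -c * (Real.exp (min (u - ℓ) (u' - ℓ)) * Ideal.absNorm 𝔮 * D) ^ ν =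
        -(c * N ^ (-ν)) * (Real.exp (min u u') * Ideal.absNorm 𝔮 * D) ^ ν := by
      rw [min_sub_sub_right, Real.exp_sub, hℓ, Real.exp_log hN0]
      have : Real.exp (min u u') / N * (Ideal.absNorm 𝔮 : ℝ) * D =
          N⁻¹ * (Real.exp (min u u') * Ideal.absNorm 𝔮 * D) := by
        field_simp
      rw [this, Real.mul_rpow (by positivity) (by positivity), Real.inv_rpow hN0.le,
        ← Real.rpow_neg hN0.le]
      ring
    rw [e2, e4, ← e3]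
    ring
  have hN2 : 1 ≤ N ^ 2 := by nlinarith
  set Z : ℝ := Real.exp (-((u + u') / 2)) / D ^ 2 * Real.exp (-(c * N ^ (-ν)) *
        (Real.exp (min u u') * Ideal.absNorm 𝔮 * D) ^ ν) with hZ
  have hZ0 : 0 ≤ Z := by positivity
  have e5 : Real.exp ((u + u') / 2) * (Q * (C * (T * Sr) + K0 u u')) =
      Q * (C * T * (Real.exp ((u + u') / 2) * Sr) + C * N ^ 2 * β ^ 2 * Z) := by
    rw [← e1]
    ring
  rw [e5]
  refine mul_le_mul_of_nonneg_left (add_le_add ?_ ?_) hQ0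
  · refine mul_le_mul_of_nonneg_right ?_ (by positivity)
    exact le_mul_of_one_le_right (by positivity) hN2
  · refine mul_le_mul_of_nonneg_right (mul_le_mul_of_nonneg_right ?_ (sq_nonneg _)) hZ0
    calc C * N ^ 2 = C * 1 * N ^ 2 := by ring
      _ ≤ C * T * N ^ 2 := by gcongr

theorem mean_sq_W_pr (κ : InfinitePlace K → ℤ) :
    ∃ C c : ℝ, 0 ≤ C ∧ 0 < c ∧ ∀ (𝔮 : Ideal (𝓞 K)) (_ : 𝔮 ≠ ⊥)
      (ι : Type) (J : Finset ι) (n : ι → Ideal (𝓞 K)) (a : ι → ℝ) (D : ℝ) (_ : 0 < D)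
      (_ : ∀ i ∈ J, 0 ≤ a i ∧ n i ≠ ⊥ ∧ IsCoprime (n i) 𝔮)
      (_ : ∀ i ∈ J, ∀ j ∈ J, D ≤ Ideal.absNorm (n i ⊔ n j))
      (b : Ideal (𝓞 K) → ℂ) (_ : ∀ 𝔠, 𝔠 = ⊥ ∨ ¬ IsCoprime 𝔠 𝔮 → b 𝔠 = 0)
      (_ : ∀ 𝔠, open scoped Classical in ‖b 𝔠‖ ≤ ∑ i ∈ J, if n i ∣ 𝔠 then a i else 0)
      (E : Finset (MulChar (𝓞 K ⧸ 𝔮) ℂ)) (lam : MulChar (𝓞 K ⧸ 𝔮) ℂ → InfinitePlace K → ℝ)
      (ψ : MulChar (𝓞 K ⧸ 𝔮) ℂ → (Ideal (𝓞 K) →* ℂ))
      (_ : ∀ χ ∈ E, IsHecke 𝔮 κ (lam χ) χ (ψ χ) ∧ ∑ w, lam χ w = 0)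
      (W : ℝ → ℂ) (_ : Measurable W) (R : ℝ) (_ : ∀ u, ‖W u‖ ≤ R) (_ : ∀ u, R < |u| → W u = 0),
      ENNReal.ofReal (∑ χ ∈ E,
          ‖∫ u, Dser (fun 𝔠 => b 𝔠 * ψ χ 𝔠) (Gf κ (lam χ)) u * W u‖ ^ 2) ≤
        ∫⁻ u, ∫⁻ u', ‖W u‖ₑ * ‖W u'‖ₑ * ENNReal.ofReal
          ((Nat.card (𝓞 K ⧸ 𝔮)ˣ : ℝ) *
            (C * (Real.exp ((u + u') / 2) * ∑' 𝔠 : Ideal (𝓞 K), ‖b 𝔠‖ ^ 2 *
                kg K Real.pi (wn (Module.finrank ℚ K) u u' + Real.log (Ideal.absNorm 𝔠))) +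
             C * (∑ i ∈ J, a i) ^ 2 * (Real.exp (-((u + u') / 2)) / D ^ 2 *
              Real.exp (-c * (Real.exp (min u u') * Ideal.absNorm 𝔮 * D) ^
                (2 / (Module.finrank ℚ K : ℝ)))))) := by
  classical
  -- representatives of the classes
  have hrep : ∀ cl : ClassGroup (𝓞 K), ∃ I : Ideal (𝓞 K), ∃ h : I ≠ ⊥,
      ClassGroup.mk0 ⟨I, mem_nonZeroDivisors_of_ne_zero h⟩ = cl := by
    intro cl
    obtain ⟨I, hI⟩ := ClassGroup.mk0_surjective cl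
    exact ⟨I, nonZeroDivisors.ne_zero I.2, hI⟩
  choose rep h0 hrep using hrep
  choose Cc cc hCc hcc hcl using fun cl => MSW2_class κ (h0 cl)
  obtain ⟨CG, hG⟩ := Gf_good (K := K) κ
  -- the constants
  obtain ⟨cl₀, -, hmin⟩ := Finset.exists_min_image (Finset.univ : Finset (ClassGroup (𝓞 K))) cc
    ⟨1, Finset.mem_univ _⟩
  set h : ℝ := ((Fintype.card (ClassGroup (𝓞 K)) : ℕ) : ℝ) with hh
  have hh0 : 0 ≤ h := Nat.cast_nonneg _
  set CS : ℝ := ∑ cl, Cc cl with hCS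
  have hCS0 : 0 ≤ CS := Finset.sum_nonneg (fun cl _ => hCc cl)
  refine ⟨h * CS, cc cl₀, by positivity, hcc cl₀, ?_⟩
  intro 𝔮 h𝔮 ι J n a D hD hJ hJJ b hb0' hb' E lam ψ hψ W hWm R hWR hW0
  have hcl := fun cl => hcl cl 𝔮 h𝔮 ι J n a D hD hJ hJJ b hb0' hb' E lam ψ hψ W hWm R hWR hW0
  have hb0 : b ⊥ = 0 := hb0' ⊥ (Or.inl rfl)
  set β : ℝ := ∑ i ∈ J, a i with hβ
  have hb : ∀ 𝔠, ‖b 𝔠‖ ≤ β := fun 𝔠 => (hb' 𝔠).trans (Finset.sum_le_sum fun i hi => by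
    split_ifs
    · exact le_rfl
    · exact (hJ i hi).1)
  have hβ0 : 0 ≤ β := (norm_nonneg _).trans (hb ⊥)
  have hψ1 : ∀ χ ∈ E, ∀ 𝔠, ‖ψ χ 𝔠‖ ≤ 1 := by
    intro χ hχ 𝔠
    by_cases h : IsCoprime 𝔠 𝔮
    · rw [(hψ χ hχ).1.norm_eq_one 𝔠 h]
    · rw [(hψ χ hχ).1.eq_zero 𝔠 h]
      simp
  set b₂ : Ideal (𝓞 K) → ℂ := fun 𝔠 => ((‖b 𝔠‖ ^ 2 : ℝ) : ℂ) with hb₂
  have hb₂le : ∀ 𝔠, ‖b₂ 𝔠‖ ≤ β ^ 2 := by
    intro 𝔠
    rw [hb₂]
    simp only [Complex.norm_real, Real.norm_eq_abs, abs_of_nonneg (sq_nonneg ‖b 𝔠‖)]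
    exact pow_le_pow_left₀ (norm_nonneg _) (hb 𝔠) 2
  have hb₂0 : b₂ ⊥ = 0 := by
    rw [hb₂]
    simp [hb0]
  -- the diagonal
  have hdiag : ∀ v : ℝ, ∑ cl, (Scl (rep cl) b₂ (MSW2_F K) v).re =
      ∑' 𝔠 : Ideal (𝓞 K), ‖b 𝔠‖ ^ 2 * kg K Real.pi (v + Real.log (Ideal.absNorm 𝔠)) := by
    intro v
    have h1 := Dser_classes rep h0 hrep (MSW2_F_good (K := K)) hb₂le hb₂0 v
    unfold Dser at h1
    have h2 := mul_left_cancel₀ (Complex.ofReal_ne_zero.mpr (Real.exp_pos (v / 2)).ne') h1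
    rw [← Complex.re_sum, ← h2]
    have h3 : ∑' 𝔠 : Ideal (𝓞 K), b₂ 𝔠 * kint K (MSW2_F K) (v + Real.log (Ideal.absNorm 𝔠)) =
        ((∑' 𝔠 : Ideal (𝓞 K), ‖b 𝔠‖ ^ 2 * kg K Real.pi (v + Real.log (Ideal.absNorm 𝔠)) : ℝ) :
          ℂ) := by
      rw [Complex.ofReal_tsum]
      apply tsum_congr
      intro 𝔠
      rw [MSW2_kint, hb₂]
      push_cast
      ring
    rw [h3, Complex.ofReal_re]
  -- the decomposition
  have hdec : ∀ χ ∈ E, ∫ u, Dser (fun 𝔠 => b 𝔠 * ψ χ 𝔠) (Gf κ (lam χ)) u * W u =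
      ∑ cl, ∫ u : ℝ, (Real.exp (u / 2) : ℂ) *
        Scl (rep cl) (fun 𝔠 => b 𝔠 * ψ χ 𝔠) (Gf κ (lam χ)) u * W u := by
    intro χ hχ
    have hle : ∀ 𝔠, ‖b 𝔠 * ψ χ 𝔠‖ ≤ β := by
      intro 𝔠
      rw [norm_mul]
      calc ‖b 𝔠‖ * ‖ψ χ 𝔠‖ ≤ β * 1 :=
            mul_le_mul (hb 𝔠) (hψ1 χ hχ 𝔠) (norm_nonneg _) hβ0
        _ = β := mul_one β
    rw [← integral_finsetSum _ fun cl _ => (hcl cl).1 χ hχ]
    refine integral_congr_ae (Filter.Eventually.of_forall fun u => ?_)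
    simp only
    rw [Dser_classes rep h0 hrep (hG (lam χ)) hle (by simp [hb0]) u, Finset.mul_sum,
      Finset.sum_mul]
  set z : ClassGroup (𝓞 K) → MulChar (𝓞 K ⧸ 𝔮) ℂ → ℂ := fun cl χ =>
    ∫ u : ℝ, (Real.exp (u / 2) : ℂ) *
        Scl (rep cl) (fun 𝔠 => b 𝔠 * ψ χ 𝔠) (Gf κ (lam χ)) u * W u with hz
  have h1 : ∑ χ ∈ E, ‖∫ u, Dser (fun 𝔠 => b 𝔠 * ψ χ 𝔠) (Gf κ (lam χ)) u * W u‖ ^ 2 ≤
      h * ∑ cl, ∑ χ ∈ E, ‖z cl χ‖ ^ 2 := by
    rw [Finset.sum_comm, Finset.mul_sum]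
    refine Finset.sum_le_sum fun χ hχ => ?_
    rw [hdec χ hχ]
    calc ‖∑ cl, z cl χ‖ ^ 2 ≤ (∑ cl, ‖z cl χ‖) ^ 2 :=
          pow_le_pow_left₀ (norm_nonneg _) (norm_sum_le _ _) 2
      _ ≤ _ := by
          have := sq_sum_le_card_mul_sum_sq (s := (Finset.univ : Finset (ClassGroup (𝓞 K))))
            (f := fun cl => ‖z cl χ‖)
          rw [Finset.card_univ] at this
          exact this
  set Q : ℝ := (Nat.card (𝓞 K ⧸ 𝔮)ˣ : ℝ) with hQ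
  have hQ0 : 0 ≤ Q := Nat.cast_nonneg _
  set Y : ℝ → ℝ → ℝ := fun u u' => (Real.exp (min u u') * Ideal.absNorm 𝔮 * D) ^
    (2 / (Module.finrank ℚ K : ℝ)) with hY
  have hY0 : ∀ u u', 0 ≤ Y u u' := fun u u' => by rw [hY]; positivity
  set X : ClassGroup (𝓞 K) → ℝ → ℝ → ℝ := fun cl u u' => Q *
    (Cc cl * (Real.exp ((u + u') / 2) * (Scl (rep cl) b₂ (MSW2_F K)
      (wn (Module.finrank ℚ K) u u')).re) +
    Cc cl * β ^ 2 * (Real.exp (-((u + u') / 2)) / D ^ 2 * Real.exp (-(cc cl) * Y u u'))) with hX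
  have hX0 : ∀ cl u u', 0 ≤ X cl u u' := by
    intro cl u u'
    rw [hX]
    have := (hcl cl).2.1 (wn (Module.finrank ℚ K) u u')
    have := hCc cl
    positivity
  have h2 : ∀ cl, ENNReal.ofReal (∑ χ ∈ E, ‖z cl χ‖ ^ 2) ≤
      ∫⁻ u, ∫⁻ u', ‖W u‖ₑ * ‖W u'‖ₑ * ENNReal.ofReal (X cl u u') := fun cl => (hcl cl).2.2
  calc ENNReal.ofReal (∑ χ ∈ E,
        ‖∫ u, Dser (fun 𝔠 => b 𝔠 * ψ χ 𝔠) (Gf κ (lam χ)) u * W u‖ ^ 2)
      ≤ ENNReal.ofReal (h * ∑ cl, ∑ χ ∈ E, ‖z cl χ‖ ^ 2) := ENNReal.ofReal_le_ofReal h1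
    _ = ENNReal.ofReal h * ∑ cl, ENNReal.ofReal (∑ χ ∈ E, ‖z cl χ‖ ^ 2) := by
        rw [ENNReal.ofReal_mul hh0, ENNReal.ofReal_sum_of_nonneg fun cl _ =>
          Finset.sum_nonneg fun χ _ => sq_nonneg _]
    _ ≤ ENNReal.ofReal h * ∑ cl, ∫⁻ u, ∫⁻ u', ‖W u‖ₑ * ‖W u'‖ₑ * ENNReal.ofReal (X cl u u') := by
        gcongr with cl _
        exact h2 cl
    _ ≤ ENNReal.ofReal h * ∫⁻ u, ∫⁻ u', ∑ cl, ‖W u‖ₑ * ‖W u'‖ₑ * ENNReal.ofReal (X cl u u') := by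
        gcongr
        refine (MSW2_sum_le _ _ _).trans (lintegral_mono fun u => ?_)
        exact MSW2_sum_le _ _ _
    _ = ∫⁻ u, ∫⁻ u', ENNReal.ofReal h *
          ∑ cl, ‖W u‖ₑ * ‖W u'‖ₑ * ENNReal.ofReal (X cl u u') := by
        rw [← lintegral_const_mul' _ _ ENNReal.ofReal_ne_top]
        refine lintegral_congr fun u => ?_
        rw [← lintegral_const_mul' _ _ ENNReal.ofReal_ne_top]
    _ ≤ _ := by
        refine lintegral_mono fun u => lintegral_mono fun u' => ?_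
        have e1 : ENNReal.ofReal h * ∑ cl, ‖W u‖ₑ * ‖W u'‖ₑ * ENNReal.ofReal (X cl u u') =
            ‖W u‖ₑ * ‖W u'‖ₑ * ENNReal.ofReal (h * ∑ cl, X cl u u') := by
          rw [ENNReal.ofReal_mul hh0, ENNReal.ofReal_sum_of_nonneg fun cl _ => hX0 cl u u',
            ← Finset.mul_sum]
          ring
        rw [e1]
        refine mul_le_mul_right (ENNReal.ofReal_le_ofReal ?_) _
        have e2 : ∑ cl, X cl u u' ≤ Q * (CS * (Real.exp ((u + u') / 2) *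
            ∑' 𝔠 : Ideal (𝓞 K), ‖b 𝔠‖ ^ 2 *
                kg K Real.pi (wn (Module.finrank ℚ K) u u' + Real.log (Ideal.absNorm 𝔠))) +
            CS * β ^ 2 * (Real.exp (-((u + u') / 2)) / D ^ 2 *
              Real.exp (-(cc cl₀) * Y u u'))) := by
          rw [hX]
          simp only
          rw [← Finset.mul_sum, Finset.sum_add_distrib]
          refine mul_le_mul_of_nonneg_left (add_le_add ?_ ?_) hQ0
          · rw [← hdiag, Finset.mul_sum, Finset.mul_sum]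
            refine Finset.sum_le_sum fun cl _ => ?_
            have h3 := (hcl cl).2.1 (wn (Module.finrank ℚ K) u u')
            refine mul_le_mul_of_nonneg_right ?_ (by positivity)
            exact Finset.single_le_sum (f := Cc) (fun i _ => hCc i) (Finset.mem_univ cl)
          · rw [hCS, Finset.sum_mul, Finset.sum_mul]
            refine Finset.sum_le_sum fun cl _ => ?_
            have h3 := hCc cl
            refine mul_le_mul_of_nonneg_left ?_ (by positivity)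
            refine mul_le_mul_of_nonneg_left ?_ (by positivity)
            apply Real.exp_le_exp.mpr
            have := mul_le_mul_of_nonneg_right (hmin cl (Finset.mem_univ cl)) (hY0 u u')
            linarith
        calc h * ∑ cl, X cl u u' ≤ h * (Q * (CS * (Real.exp ((u + u') / 2) *
            ∑' 𝔠 : Ideal (𝓞 K), ‖b 𝔠‖ ^ 2 *
                kg K Real.pi (wn (Module.finrank ℚ K) u u' + Real.log (Ideal.absNorm 𝔠))) +
            CS * β ^ 2 * (Real.exp (-((u + u') / 2)) / D ^ 2 *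
              Real.exp (-(cc cl₀) * Y u u')))) := mul_le_mul_of_nonneg_left e2 hh0
          _ = _ := by ring

end Pool.Agent.KS

namespace Pool.Agent.KS

theorem mean_sq_W : type_of% @mean_sq_W_pr := @mean_sq_W_pr

end Pool.Agent.KS
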