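import Pool.Agent.Lib_helper92.KSA.Base
import Mathlib

/-!
# Schur bound for a double integral against a weight
-/

namespace Pool.Agent.KS

open MeasureTheory Filter Topology
open scoped ENNReal

/-- `∫∫ |W(v)| |W(v')| A k(v - v') ≤ A (∫ k) ∫ |W|²` -/
theorem schur_W (W : ℝ → ℂ) (hWm : Measurable W) (hWb : ∃ B, ∀ v, ‖W v‖ ≤ B) (R : ℝ)
    (hWR : ∀ v, R < |v| → W v = 0)
    (k : ℝ → ℝ) (hk : Integrable k) (hkm : Measurable k) (hk0 : ∀ s, 0 ≤ k s) {A : ℝ} (hA : 0 ≤ A) :
    ∫⁻ v, ∫⁻ v', ‖W v‖ₑ * ‖W v'‖ₑ * ENNReal.ofReal (A * k (v - v')) ≤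
      ENNReal.ofReal (A * (∫ u, k u) * ∫ v, ‖W v‖ ^ 2) := by
  obtain ⟨Bw, hBw⟩ := hWb
  have hBw0 : 0 ≤ Bw := (norm_nonneg _).trans (hBw 0)
  have hWi : Integrable W := by
    have h1 : W = (Set.Icc (-R) R).indicator W := by
      funext v
      by_cases hv : v ∈ Set.Icc (-R) R
      · rw [Set.indicator_of_mem hv]
      · rw [Set.indicator_of_notMem hv, hWR v]
        by_contra h
        push Not at h
        exact hv (abs_le.1 h)
    rw [h1, integrable_indicator_iff measurableSet_Icc]
    refine Measure.integrableOn_of_bounded (M := Bw) ?_ hWm.aestronglyMeasurable ?_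
    · rw [Real.volume_Icc]
      exact ENNReal.ofReal_ne_top
    · filter_upwards with v using hBw v
  have hW2 : Integrable (fun v => ‖W v‖ ^ 2) := by
    have : (fun v => ‖W v‖ ^ 2) = fun v => ‖W v‖ * ‖W v‖ := by funext v; ring
    rw [this]
    exact hWi.norm.bdd_mul (c := Bw) hWm.norm.aestronglyMeasurable
      (Eventually.of_forall fun v => by rw [norm_norm]; exact hBw v)
  set w : ℝ → ℝ≥0∞ := fun v => ENNReal.ofReal (‖W v‖ ^ 2) with hw
  set κ : ℝ → ℝ≥0∞ := fun u => ENNReal.ofReal (k u) with hκ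
  have hwm : Measurable w := (hWm.norm.pow_const 2).ennreal_ofReal
  have hκm : Measurable κ := hkm.ennreal_ofReal
  have hκl : ∀ v, Measurable fun v' => κ (v - v') := fun v =>
    hκm.comp (measurable_const.sub measurable_id)
  have hκr : ∀ v', Measurable fun v => κ (v - v') := fun v' =>
    hκm.comp (measurable_id.sub measurable_const)
  have hwint : ∫⁻ v, w v = ENNReal.ofReal (∫ v, ‖W v‖ ^ 2) :=
    (ofReal_integral_eq_lintegral_ofReal hW2 (Eventually.of_forall fun v => by positivity)).symm
  have hκint : ∫⁻ v, κ v = ENNReal.ofReal (∫ v, k v) :=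
    (ofReal_integral_eq_lintegral_ofReal hk (Eventually.of_forall fun v => hk0 v)).symm
  have hpt : ∀ v v', ‖W v‖ₑ * ‖W v'‖ₑ * ENNReal.ofReal (A * k (v - v')) ≤
      ENNReal.ofReal (A / 2) * (κ (v - v') * w v + κ (v - v') * w v') := by
    intro v v'
    have hk' := hk0 (v - v')
    have h1 : ‖W v‖ * ‖W v'‖ * (A * k (v - v')) ≤
        A / 2 * (k (v - v') * ‖W v‖ ^ 2 + k (v - v') * ‖W v'‖ ^ 2) := by
      calc ‖W v‖ * ‖W v'‖ * (A * k (v - v'))
          = (A * k (v - v')) * (‖W v‖ * ‖W v'‖) := by ring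
        _ ≤ (A * k (v - v')) * ((‖W v‖ ^ 2 + ‖W v'‖ ^ 2) / 2) := by
            gcongr
            nlinarith [sq_nonneg (‖W v‖ - ‖W v'‖)]
        _ = _ := by ring
    rw [← ofReal_norm, ← ofReal_norm, ← ENNReal.ofReal_mul (norm_nonneg _),
      ← ENNReal.ofReal_mul (by positivity)]
    refine (ENNReal.ofReal_le_ofReal h1).trans (le_of_eq ?_)
    rw [ENNReal.ofReal_mul (by positivity), ENNReal.ofReal_add (by positivity) (by positivity),
      ENNReal.ofReal_mul hk', ENNReal.ofReal_mul hk']
  calc ∫⁻ v, ∫⁻ v', ‖W v‖ₑ * ‖W v'‖ₑ * ENNReal.ofReal (A * k (v - v'))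
      ≤ ∫⁻ v, ∫⁻ v', ENNReal.ofReal (A / 2) * (κ (v - v') * w v + κ (v - v') * w v') :=
        lintegral_mono fun v => lintegral_mono fun v' => hpt v v'
    _ = ENNReal.ofReal (A / 2) * ((∫⁻ v, ∫⁻ v', κ (v - v') * w v) +
          ∫⁻ v, ∫⁻ v', κ (v - v') * w v') := by
        have hm1 : ∀ v, Measurable fun v' => κ (v - v') * w v := fun v =>
          (hκl v).mul_const _
        have hm2 : ∀ v, Measurable fun v' => κ (v - v') * w v' := fun v =>
          (hκl v).mul hwm
        have hm3 : ∀ v, Measurable fun v' => κ (v - v') * w v + κ (v - v') * w v' := fun v =>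
          (hm1 v).add (hm2 v)
        have : ∀ v, ∫⁻ v', ENNReal.ofReal (A / 2) * (κ (v - v') * w v + κ (v - v') * w v') =
            ENNReal.ofReal (A / 2) * ((∫⁻ v', κ (v - v') * w v) + ∫⁻ v', κ (v - v') * w v') := by
          intro v
          rw [lintegral_const_mul _ (hm3 v), lintegral_add_left (hm1 v)]
        simp_rw [this]
        have hM1 : Measurable fun v => ∫⁻ v', κ (v - v') * w v := by
          refine Measurable.lintegral_prod_right' (f := fun p : ℝ × ℝ => κ (p.1 - p.2) * w p.1) ?_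
          exact (hκm.comp (measurable_fst.sub measurable_snd)).mul (hwm.comp measurable_fst)
        have hM2 : Measurable fun v => ∫⁻ v', κ (v - v') * w v' := by
          refine Measurable.lintegral_prod_right' (f := fun p : ℝ × ℝ => κ (p.1 - p.2) * w p.2) ?_
          exact (hκm.comp (measurable_fst.sub measurable_snd)).mul (hwm.comp measurable_snd)
        have hM3 : Measurable fun v => (∫⁻ v', κ (v - v') * w v) + ∫⁻ v', κ (v - v') * w v' :=
          hM1.add hM2
        rw [lintegral_const_mul _ hM3, lintegral_add_left hM1]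
    _ = ENNReal.ofReal (A / 2) * ((∫⁻ u, κ u) * (∫⁻ v, w v) + (∫⁻ u, κ u) * ∫⁻ v, w v) := by
        congr 2
        · have : ∀ v, ∫⁻ v', κ (v - v') * w v = (∫⁻ u, κ u) * w v := by
            intro v
            rw [lintegral_mul_const _ (hκl v),
              lintegral_sub_left_eq_self κ v]
          simp_rw [this]
          rw [lintegral_const_mul _ hwm]
        · rw [lintegral_lintegral_swap]
          · have : ∀ v', ∫⁻ v, κ (v - v') * w v' = (∫⁻ u, κ u) * w v' := by
              intro v'
              rw [lintegral_mul_const _ (hκr v'),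
                lintegral_sub_right_eq_self κ v']
            simp_rw [this]
            rw [lintegral_const_mul _ hwm]
          · exact ((hκm.comp (measurable_fst.sub measurable_snd)).mul
              (hwm.comp measurable_snd)).aemeasurable
    _ = ENNReal.ofReal (A * (∫ u, k u) * ∫ v, ‖W v‖ ^ 2) := by
        have hK0 : 0 ≤ ∫ u, k u := integral_nonneg hk0
        have hW0 : 0 ≤ ∫ v, ‖W v‖ ^ 2 := integral_nonneg fun v => by positivity
        rw [hwint, hκint, ← ENNReal.ofReal_mul hK0, ← ENNReal.ofReal_add (by positivity)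
          (by positivity), ← ENNReal.ofReal_mul (by positivity)]
        congr 1; ring

/-- `e^{-|s|/2}` is integrable -/
theorem integrable_exp_abs : Integrable (fun s : ℝ => Real.exp (-(|s| / 2))) := by
  have h1 : IntegrableOn (fun s : ℝ => Real.exp (-(|s| / 2))) (Set.Ioi 0) := by
    have := integrableOn_exp_mul_Ioi (a := -(1 / 2 : ℝ)) (by norm_num) 0
    refine this.congr_fun (fun s hs => ?_) measurableSet_Ioi
    have : (0 : ℝ) < s := hs
    simp only
    rw [abs_of_pos this]
    congr 1
    ring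
  have h2 : IntegrableOn (fun s : ℝ => Real.exp (-(|s| / 2))) (Set.Iic 0) := by
    have := integrableOn_exp_mul_Iic (a := (1 / 2 : ℝ)) (by norm_num) 0
    refine this.congr_fun (fun s hs => ?_) measurableSet_Iic
    have : s ≤ 0 := hs
    simp only
    rw [abs_of_nonpos this]
    congr 1
    ring
  have h3 := h2.union h1
  rwa [Set.Iic_union_Ioi, integrableOn_univ] at h3

end Pool.Agent.KS
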