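import Pool.Agent.Lib_helper92.KSA.Base
import Pool.Agent.Lib_helper92.KSA.BRG
import Pool.Agent.Lib_helper92.KSA.DKE
import Pool.Agent.Lib_helper92.KSA.GDK
import Pool.Agent.Lib_helper92.KSA.MDK
import Pool.Agent.Lib_helper92.KSA.MSW2
import Pool.Agent.Lib_helper92.KSA.SchurW
import Pool.Agent.Lib_helper92.KSA.WNF

/-!
# Block MDW: the mean square of `DK` against a weight
-/

namespace Pool.Agent.KS

open NumberField NumberField.InfinitePlace NumberField.Units Complex MeasureTheory Filter Topology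
open Pool.Agent.HZ Pool.Agent.AS
open scoped ENNReal

set_option linter.unusedSectionVars false

variable {K : Type} [Field K] [NumberField K]

open scoped Classical in
/-- the coefficients of `DK - gK`, restricted to the ideals coprime to `𝔮` -/
noncomputable def mdw_b (𝔮 : Ideal (𝓞 K)) (L : ℝ) (𝔠 : Ideal (𝓞 K)) : ℂ :=
  if IsCoprime 𝔠 𝔮 then mdk_b L 𝔠 - (if 𝔠 = ⊤ then 1 else 0) else 0

open scoped Classical in
theorem mdw_b_IK {𝔮 : Ideal (𝓞 K)} {L : ℝ} (hL0 : 0 < L) (g : PK K →₀ ℕ) :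
    ‖mdw_b 𝔮 L (IK g)‖ ≤ |if g = 0 then 0 else bb (NK K) L g| := by
  unfold mdw_b
  rw [mdk_b_IK, mdk_top_IK]
  by_cases hc : IsCoprime (IK g) 𝔮
  · rw [if_pos hc]
    by_cases h : g = 0
    · rw [if_pos h, if_pos h, h, bb_zero hL0]
      simp
    · rw [if_neg h, if_neg h, sub_zero, Complex.norm_real, Real.norm_eq_abs]
  · rw [if_neg hc, norm_zero]
    exact abs_nonneg _

theorem mdw_b_zero {𝔮 : Ideal (𝓞 K)} (L : ℝ) (𝔠 : Ideal (𝓞 K))
    (h : 𝔠 = ⊥ ∨ ¬ IsCoprime 𝔠 𝔮) : mdw_b 𝔮 L 𝔠 = 0 := by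
  unfold mdw_b
  rcases h with h | h
  · have : (⊥ : Ideal (𝓞 K)) ≠ ⊤ := bot_ne_top
    rw [h, mdk_b_bot, if_neg this, sub_zero, ite_self]
  · rw [if_neg h]

/-- `DK - gK` as a `Dser` -/
theorem mdw_diff {C₂ : ℝ} (hC₂ : 0 ≤ C₂)
    (hbb : ∀ L : ℝ, 0 < L → ∀ g : PK K →₀ ℕ, |bb (NK K) L g| ≤ C₂ * Real.exp (4 * L))
    {𝔮 : Ideal (𝓞 K)} (h𝔮 : 𝔮 ≠ ⊥) (h𝔮' : 𝔮 ≠ ⊤) {κ : InfinitePlace K → ℤ}
    {lam : InfinitePlace K → ℝ} {χ : MulChar (𝓞 K ⧸ 𝔮) ℂ} {ψ : Ideal (𝓞 K) →* ℂ}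
    (hψ : IsHecke 𝔮 κ lam χ ψ) {L : ℝ} (hL0 : 0 < L) (u : ℝ) :
    DK L κ lam ψ u - gK κ lam u = Dser (fun 𝔠 => mdw_b 𝔮 L 𝔠 * ψ 𝔠) (Gf κ lam) u := by
  classical
  obtain ⟨CG, hCG⟩ := Gf_good (K := K) κ
  have hF := hCG lam
  rw [DK_eq_pr h𝔮 h𝔮' hψ hL0 (mdk_b_bot L) (mdk_b_IK L) u]
  have hg : gK κ lam u =
      Dser (fun 𝔠 => (if 𝔠 = ⊤ then 1 else 0) * ψ 𝔠) (Gf κ lam) u := by
    unfold gK Dser
    congr 1
    rw [tsum_eq_single ⊤]
    · have h1 : ψ ⊤ = 1 := by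
        have : (⊤ : Ideal (𝓞 K)) = 1 := Ideal.one_eq_top.symm
        rw [this, map_one]
      beta_reduce
      rw [if_pos rfl, h1, Ideal.absNorm_top]
      simp
    · intro 𝔠 h
      beta_reduce
      rw [if_neg h, zero_mul, zero_mul]
  rw [hg]
  unfold Dser
  rw [← mul_sub]
  congr 1
  have hs1 : Summable (fun 𝔠 : Ideal (𝓞 K) => mdk_b L 𝔠 * ψ 𝔠 *
      kint K (Gf κ lam) (u + Real.log (Ideal.absNorm 𝔠))) := by
    refine Dser_summable hF (b := fun 𝔠 => mdk_b L 𝔠 * ψ 𝔠) (β := C₂ * Real.exp (4 * L))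
      (fun 𝔠 => ?_) (by rw [mdk_b_bot, zero_mul]) u
    rw [norm_mul]
    have h2 : ‖mdk_b L 𝔠‖ ≤ C₂ * Real.exp (4 * L) := by
      by_cases h : 𝔠 = ⊥
      · rw [h, mdk_b_bot, norm_zero]
        positivity
      · obtain ⟨g, rfl⟩ := IK_surj h
        rw [mdk_b_IK, Complex.norm_real, Real.norm_eq_abs]
        exact hbb L hL0 g
    calc ‖mdk_b L 𝔠‖ * ‖ψ 𝔠‖ ≤ (C₂ * Real.exp (4 * L)) * 1 :=
          mul_le_mul h2 (dke_psi_le hψ 𝔠) (norm_nonneg _) (by positivity)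
      _ = C₂ * Real.exp (4 * L) := mul_one _
  have hs2 : Summable (fun 𝔠 : Ideal (𝓞 K) => (if 𝔠 = ⊤ then (1 : ℂ) else 0) * ψ 𝔠 *
      kint K (Gf κ lam) (u + Real.log (Ideal.absNorm 𝔠))) := by
    apply summable_of_ne_finset_zero (s := {⊤})
    intro 𝔠 h
    rw [Finset.mem_singleton] at h
    rw [if_neg h, zero_mul, zero_mul]
  rw [← hs1.tsum_sub hs2]
  refine tsum_congr fun 𝔠 => ?_
  unfold mdw_b
  beta_reduce
  by_cases hc : IsCoprime 𝔠 𝔮
  · rw [if_pos hc]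
    ring
  · rw [hψ.eq_zero 𝔠 hc, if_neg hc]
    ring

theorem mean_DK_W_pr (κ : InfinitePlace K → ℤ) :
    ∃ C : ℝ, 0 ≤ C ∧ ∀ (𝔮 : Ideal (𝓞 K)) (_ : 𝔮 ≠ ⊥) (_ : 𝔮 ≠ ⊤)
      (E : Finset (MulChar (𝓞 K ⧸ 𝔮) ℂ)) (lam : MulChar (𝓞 K ⧸ 𝔮) ℂ → InfinitePlace K → ℝ)
      (ψ : MulChar (𝓞 K ⧸ 𝔮) ℂ → (Ideal (𝓞 K) →* ℂ))
      (_ : ∀ χ ∈ E, IsHecke 𝔮 κ (lam χ) χ (ψ χ) ∧ ∑ w, lam χ w = 0) (L : ℝ) (_ : 1 ≤ L)
      (_ : 32 * L = Real.log (cond 𝔮))
      (W : ℝ → ℂ) (_ : Measurable W) (_ : ∃ R, ∀ u, ‖W u‖ ≤ R) (_ : ∀ u, L / 2 < |u| → W u = 0),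
      ∑ χ ∈ E, ‖∫ u, (DK L κ (lam χ) (ψ χ) u - gK κ (lam χ) u) * W u‖ ^ 2 ≤
        C * (Nat.card (𝓞 K ⧸ 𝔮)ˣ : ℝ) / L * ∫ u, ‖W u‖ ^ 2 := by
  classical
  obtain ⟨C₁, c, hC₁, hc, hms⟩ := mean_sq_W (K := K) κ
  obtain ⟨C₂, hC₂, hbb⟩ := bb_abs (good_NK K)
  obtain ⟨ρ, hkern⟩ := kern_NK K
  obtain ⟨C₃, hC₃, hbm⟩ := bb_mean (good_NK K) hkern
  -- the discriminant
  have hd : (0 : ℝ) < |(discr K : ℝ)| := by
    rw [abs_pos]
    exact_mod_cast discr_ne_zero K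
  have hn' : 0 < Module.finrank ℚ K := Module.finrank_pos (R := ℚ) (M := K)
  have hn : (0 : ℝ) < Module.finrank ℚ K := by
    exact_mod_cast hn'
  set N : ℕ := Module.finrank ℚ K with hN_def
  set d : ℝ := |(discr K : ℝ)| with hd_def
  obtain ⟨M, hM0, hM⟩ := mdk_exp (a := 63 / (N : ℝ)) (c' := c * (d⁻¹) ^ (2 / (N : ℝ)))
    (by positivity) (by positivity)
  set I₀ : ℝ := ∫ s : ℝ, Real.exp (-(|s| / 2)) with hI₀
  have hI₀nn : 0 ≤ I₀ := integral_nonneg fun s => (Real.exp_pos _).le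
  refine ⟨(C₁ * ((2 : ℝ) ^ N * C₃) + C₁ * C₂ ^ 2 * M) * I₀, by positivity, ?_⟩
  intro 𝔮 h𝔮 h𝔮' E lam ψ hψ L hL hLc W hWm hWb hWL
  have hL0 : 0 < L := by linarith
  obtain ⟨Bw, hBw⟩ := hWb
  have hkey := hms 𝔮 h𝔮 Unit Finset.univ (fun _ => ⊤) (fun _ => C₂ * Real.exp (4 * L)) 1
    one_pos (fun i _ => ⟨by positivity, by
      exact (bot_ne_top (α := Ideal (𝓞 K))).symm, by
      rw [← Ideal.one_eq_top]
      exact isCoprime_one_left⟩) (fun i _ j _ => by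
      rw [sup_idem, Ideal.absNorm_top]
      simp) (mdw_b 𝔮 L) (fun 𝔠 h => mdw_b_zero L 𝔠 h) (fun 𝔠 => by
      rw [Finset.univ_unique, Finset.sum_singleton, if_pos (by
        rw [← Ideal.one_eq_top]
        exact one_dvd _)]
      by_cases h : 𝔠 = ⊥
      · rw [mdw_b_zero L 𝔠 (Or.inl h), norm_zero]
        positivity
      · obtain ⟨g, rfl⟩ := IK_surj h
        refine (mdw_b_IK hL0 g).trans ?_
        by_cases hg : g = 0
        · rw [if_pos hg, abs_zero]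
          positivity
        · rw [if_neg hg]
          exact hbb L hL0 g) E lam ψ hψ W hWm (max Bw (L / 2))
    (fun u => (hBw u).trans (le_max_left _ _))
    (fun u hu => hWL u (lt_of_le_of_lt (le_max_right _ _) hu))
  -- rewrite the left hand side
  have hlhs : ∑ χ ∈ E, ‖∫ u, (DK L κ (lam χ) (ψ χ) u - gK κ (lam χ) u) * W u‖ ^ 2 =
      ∑ χ ∈ E, ‖∫ u, Dser (fun 𝔠 => mdw_b 𝔮 L 𝔠 * ψ χ 𝔠) (Gf κ (lam χ)) u * W u‖ ^ 2 := by
    refine Finset.sum_congr rfl fun χ hχ => ?_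
    congr 3
    funext u
    rw [mdw_diff hC₂ hbb h𝔮 h𝔮' (hψ χ hχ).1 hL0 u]
  rw [hlhs]
  -- pointwise bound
  have hqpos : (0 : ℝ) < Ideal.absNorm 𝔮 := by
    have : Ideal.absNorm 𝔮 ≠ 0 := by
      rw [Ne, Ideal.absNorm_eq_zero_iff]
      exact h𝔮
    exact_mod_cast Nat.pos_of_ne_zero this
  have hcond : d * Ideal.absNorm 𝔮 = Real.exp (32 * L) := by
    rw [hLc, Real.exp_log]
    · rfl
    · unfold HZ.cond
      positivity
  have hcardnn : (0 : ℝ) ≤ Nat.card (𝓞 K ⧸ 𝔮)ˣ := Nat.cast_nonneg _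
  have hpt : ∀ u u' : ℝ, |u| ≤ L / 2 → |u'| ≤ L / 2 →
      (Nat.card (𝓞 K ⧸ 𝔮)ˣ : ℝ) *
            (C₁ * (Real.exp ((u + u') / 2) * ∑' 𝔠 : Ideal (𝓞 K), ‖mdw_b 𝔮 L 𝔠‖ ^ 2 *
                kg K Real.pi (wn N u u' + Real.log (Ideal.absNorm 𝔠))) +
             C₁ * (∑ i ∈ (Finset.univ : Finset Unit), C₂ * Real.exp (4 * L)) ^ 2 *
              (Real.exp (-((u + u') / 2)) / 1 ^ 2 *
              Real.exp (-c * (Real.exp (min u u') * Ideal.absNorm 𝔮 * 1) ^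
                (2 / (N : ℝ))))) ≤
      ((C₁ * ((2 : ℝ) ^ N * C₃) + C₁ * C₂ ^ 2 * M) * (Nat.card (𝓞 K ⧸ 𝔮)ˣ : ℝ) / L) *
        Real.exp (-(|u - u'| / 2)) := by
    intro u u' hu hu'
    obtain ⟨a1, a2⟩ := abs_le.1 hu
    obtain ⟨b1, b2⟩ := abs_le.1 hu'
    have hw : |wn N u u'| ≤ L / 2 := by
      rw [abs_le]
      constructor
      · have := mid_le_wn hn' u u'
        linarith
      · exact (wn_le_max hn' u u').trans (max_le a2 b2)
    have hdiag : Real.exp (wn N u u') *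
        ∑' 𝔠 : Ideal (𝓞 K), ‖mdw_b 𝔮 L 𝔠‖ ^ 2 *
          kg K Real.pi (wn N u u' + Real.log (Ideal.absNorm 𝔠)) ≤ C₃ / L := by
      have h0 := hbm L (wn N u u') hL hw
      have h1 := h0.2
      rw [(summable_IK (fun 𝔠 => ‖mdw_b 𝔮 L 𝔠‖ ^ 2 *
        kg K Real.pi (wn N u u' + Real.log (Ideal.absNorm 𝔠)))
        (by simp only [mdw_b_zero L ⊥ (Or.inl rfl), norm_zero]; ring)).2]
      refine le_trans ?_ h1
      apply mul_le_mul_of_nonneg_left _ (Real.exp_pos _).le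
      have hterm : ∀ g : PK K →₀ ℕ, ‖mdw_b 𝔮 L (IK g)‖ ^ 2 *
          kg K Real.pi (wn N u u' + Real.log (Ideal.absNorm (IK g))) ≤
          (if g = 0 then 0 else bb (NK K) L g ^ 2 *
            kg K Real.pi (wn N u u' + Real.log (nm (NK K) g))) := by
        intro g
        rw [absNorm_IK]
        have hk0 : 0 ≤ kg K Real.pi (wn N u u' + Real.log (nm (NK K) g)) := by
          unfold kg
          exact integral_nonneg fun x => (Real.exp_pos _).le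
        have h2 := mdw_b_IK (𝔮 := 𝔮) hL0 g
        by_cases hg : g = 0
        · rw [if_pos hg, abs_zero] at h2
          rw [if_pos hg]
          have h3 : ‖mdw_b 𝔮 L (IK g)‖ = 0 := le_antisymm h2 (norm_nonneg _)
          rw [h3]
          simp
        · rw [if_neg hg] at h2
          rw [if_neg hg]
          apply mul_le_mul_of_nonneg_right _ hk0
          rw [← sq_abs (bb (NK K) L g)]
          exact pow_le_pow_left₀ (norm_nonneg _) h2 2
      refine Summable.tsum_le_tsum hterm ?_ h0.1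
      refine Summable.of_nonneg_of_le (fun g => ?_) hterm h0.1
      have hk0 : 0 ≤ kg K Real.pi (wn N u u' + Real.log (Ideal.absNorm (IK g))) := by
        unfold kg
        exact integral_nonneg fun x => (Real.exp_pos _).le
      positivity
    have hdiag2 : Real.exp ((u + u') / 2) * ∑' 𝔠 : Ideal (𝓞 K), ‖mdw_b 𝔮 L 𝔠‖ ^ 2 *
          kg K Real.pi (wn N u u' + Real.log (Ideal.absNorm 𝔠)) ≤
        (2 : ℝ) ^ N * C₃ / L * Real.exp (-(|u - u'| / 2)) := by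
      have h1 := exp_mid_wn hn' u u'
      have h2 : Real.exp ((u + u') / 2) = Real.exp ((u + u') / 2 - wn N u u') *
          Real.exp (wn N u u') := by
        rw [← Real.exp_add]
        congr 1
        ring
      rw [h2, mul_assoc]
      calc Real.exp ((u + u') / 2 - wn N u u') * (Real.exp (wn N u u') *
          ∑' 𝔠 : Ideal (𝓞 K), ‖mdw_b 𝔮 L 𝔠‖ ^ 2 *
            kg K Real.pi (wn N u u' + Real.log (Ideal.absNorm 𝔠)))
          ≤ Real.exp ((u + u') / 2 - wn N u u') * (C₃ / L) :=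
            mul_le_mul_of_nonneg_left hdiag (Real.exp_pos _).le
        _ ≤ ((2 : ℝ) ^ N * Real.exp (-(|u - u'| / 2))) * (C₃ / L) :=
            mul_le_mul_of_nonneg_right h1 (by positivity)
        _ = _ := by ring
    have hmin : -(L / 2) ≤ min u u' := le_min a1 b1
    have herr2 : c * (d⁻¹) ^ (2 / (N : ℝ)) * Real.exp (63 / (N : ℝ) * L) ≤
        c * (Real.exp (min u u') * Ideal.absNorm 𝔮 * 1) ^ (2 / (N : ℝ)) := by
      rw [mul_assoc]
      apply mul_le_mul_of_nonneg_left _ hc.le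
      have e1 : Real.exp (63 / (N : ℝ) * L) = (Real.exp (31.5 * L)) ^ (2 / (N : ℝ)) := by
        rw [← Real.exp_mul]
        congr 1
        ring
      rw [e1, ← Real.mul_rpow (by positivity) (by positivity)]
      apply Real.rpow_le_rpow (by positivity) _ (by positivity)
      have e2 : (Ideal.absNorm 𝔮 : ℝ) = d⁻¹ * Real.exp (32 * L) := by
        rw [← hcond]; field_simp
      rw [e2, mul_one]
      have e3 : Real.exp (31.5 * L) ≤ Real.exp (min u u') * Real.exp (32 * L) := by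
        rw [← Real.exp_add]
        apply Real.exp_le_exp.2
        linarith
      calc d⁻¹ * Real.exp (31.5 * L) ≤ d⁻¹ * (Real.exp (min u u') * Real.exp (32 * L)) :=
            mul_le_mul_of_nonneg_left e3 (by positivity)
        _ = Real.exp (min u u') * (d⁻¹ * Real.exp (32 * L)) := by ring
    have habs : |u - u'| ≤ L := by
      rw [abs_le]
      constructor <;> linarith
    have herr3 : (∑ i ∈ (Finset.univ : Finset Unit), C₂ * Real.exp (4 * L)) ^ 2 *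
        (Real.exp (-((u + u') / 2)) / 1 ^ 2 *
        Real.exp (-c * (Real.exp (min u u') * Ideal.absNorm 𝔮 * 1) ^ (2 / (N : ℝ)))) ≤
        C₂ ^ 2 * M / L * Real.exp (-(|u - u'| / 2)) := by
      rw [Finset.univ_unique, Finset.sum_singleton]
      have e1 : Real.exp (-c * (Real.exp (min u u') * Ideal.absNorm 𝔮 * 1) ^ (2 / (N : ℝ))) ≤
          Real.exp (-(c * (d⁻¹) ^ (2 / (N : ℝ)) * Real.exp (63 / (N : ℝ) * L))) := by
        apply Real.exp_le_exp.2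
        linarith
      have e2 := hM L hL
      have e3 : (C₂ * Real.exp (4 * L)) ^ 2 = C₂ ^ 2 * Real.exp (8 * L) := by
        rw [mul_pow, ← Real.exp_nat_mul]
        congr 2
        push_cast
        ring
      have e4 : Real.exp (-((u + u') / 2)) ≤ Real.exp (L / 2) := Real.exp_le_exp.2 (by linarith)
      have e5 : Real.exp (-(L / 2)) ≤ Real.exp (-(|u - u'| / 2)) :=
        Real.exp_le_exp.2 (by linarith)
      rw [one_pow, div_one, e3]
      calc C₂ ^ 2 * Real.exp (8 * L) * (Real.exp (-((u + u') / 2)) *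
          Real.exp (-c * (Real.exp (min u u') * Ideal.absNorm 𝔮 * 1) ^ (2 / (N : ℝ))))
          ≤ (C₂ ^ 2 * Real.exp (8 * L)) * (Real.exp (L / 2) *
            Real.exp (-(c * (d⁻¹) ^ (2 / (N : ℝ)) * Real.exp (63 / (N : ℝ) * L)))) := by
            apply mul_le_mul_of_nonneg_left _ (by positivity)
            exact mul_le_mul e4 e1 (Real.exp_pos _).le (by positivity)
        _ = C₂ ^ 2 * (Real.exp (9 * L) *
            Real.exp (-(c * (d⁻¹) ^ (2 / (N : ℝ)) * Real.exp (63 / (N : ℝ) * L)))) *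
              Real.exp (-(L / 2)) := by
            have : Real.exp (8 * L) * Real.exp (L / 2) = Real.exp (9 * L) * Real.exp (-(L / 2)) := by
              rw [← Real.exp_add, ← Real.exp_add]
              congr 1
              ring
            linear_combination (C₂ ^ 2 *
              Real.exp (-(c * (d⁻¹) ^ (2 / (N : ℝ)) * Real.exp (63 / (N : ℝ) * L)))) * this
        _ ≤ C₂ ^ 2 * (M / L) * Real.exp (-(|u - u'| / 2)) := by
            apply mul_le_mul (mul_le_mul_of_nonneg_left e2 (by positivity)) e5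
              (Real.exp_pos _).le (by positivity)
        _ = C₂ ^ 2 * M / L * Real.exp (-(|u - u'| / 2)) := by ring
    have e1 := mul_le_mul_of_nonneg_left hdiag2 hC₁
    have e2 := mul_le_mul_of_nonneg_left herr3 hC₁
    rw [mul_assoc C₁ ((∑ i ∈ (Finset.univ : Finset Unit), C₂ * Real.exp (4 * L)) ^ 2)]
    calc _ ≤ (Nat.card (𝓞 K ⧸ 𝔮)ˣ : ℝ) *
          (C₁ * ((2 : ℝ) ^ N * C₃ / L * Real.exp (-(|u - u'| / 2))) +
            C₁ * (C₂ ^ 2 * M / L * Real.exp (-(|u - u'| / 2)))) :=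
          mul_le_mul_of_nonneg_left (add_le_add e1 e2) hcardnn
      _ = _ := by ring
  set A : ℝ := (C₁ * ((2 : ℝ) ^ N * C₃) + C₁ * C₂ ^ 2 * M) * (Nat.card (𝓞 K ⧸ 𝔮)ˣ : ℝ) / L
    with hA
  have hAnn : 0 ≤ A := by positivity
  have hfin : ENNReal.ofReal (∑ χ ∈ E,
      ‖∫ u, Dser (fun 𝔠 => mdw_b 𝔮 L 𝔠 * ψ χ 𝔠) (Gf κ (lam χ)) u * W u‖ ^ 2) ≤
      ENNReal.ofReal (A * I₀ * ∫ u, ‖W u‖ ^ 2) := by
    refine hkey.trans ((lintegral_mono fun u => lintegral_mono fun u' => ?_).trans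
      (schur_W W hWm ⟨Bw, hBw⟩ (L / 2) hWL (fun s => Real.exp (-(|s| / 2))) integrable_exp_abs
        (by fun_prop) (fun s => (Real.exp_pos _).le) hAnn))
    by_cases hu : |u| ≤ L / 2
    · by_cases hu' : |u'| ≤ L / 2
      · exact mul_le_mul_right (ENNReal.ofReal_le_ofReal (hpt u u' hu hu')) _
      · rw [hWL u' (not_le.1 hu')]
        simp
    · rw [hWL u (not_le.1 hu)]
      simp
  have hrhs : 0 ≤ A * I₀ * ∫ u, ‖W u‖ ^ 2 :=
    mul_nonneg (mul_nonneg hAnn hI₀nn) (integral_nonneg fun u => by positivity)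
  refine ((ENNReal.ofReal_le_ofReal_iff hrhs).1 hfin).trans (le_of_eq ?_)
  rw [hA]
  ring

end Pool.Agent.KS

namespace Pool.Agent.KS

theorem mean_DK_W : type_of% @mean_DK_W_pr := @mean_DK_W_pr

end Pool.Agent.KS
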