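import Pool.Agent.Lib_helper92.KSA.Base
import Pool.Agent.Lib_helper92.KSA.LATU

/-!
# Block MSG1: the mean square with divisor-type coefficients, one class
-/

namespace Pool.Agent.KS

open NumberField NumberField.InfinitePlace NumberField.Units Complex MeasureTheory Filter Topology
open Pool.Agent.HZ Pool.Agent.AS

variable {K : Type} [Field K] [NumberField K]

/-- abstract inequality: diagonal + off-diagonal -/
lemma msg_abs {X : Type} (f : X → ℂ) (g : X → ℝ) (T : ℝ) (hT : 0 ≤ T) (hg : ∀ x, 0 ≤ g x)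
    (hgs : Summable g) (hfs : Summable fun x => ‖f x‖ ^ 2)
    (hpair : ∀ x y, x ≠ y → ‖f x‖ * ‖f y‖ ≤ T * (g x * g y)) :
    Summable f ∧ ‖∑' x, f x‖ ^ 2 ≤ ∑' x, ‖f x‖ ^ 2 + T * (∑' x, g x) ^ 2 := by
  classical
  set R : ℝ := ∑' x, ‖f x‖ ^ 2 + T * (∑' x, g x) ^ 2 with hR
  have hR0 : 0 ≤ R := by
    have h1 : 0 ≤ ∑' x, ‖f x‖ ^ 2 := tsum_nonneg fun x => by positivity
    have h2 : 0 ≤ T * (∑' x, g x) ^ 2 := by positivity
    linarith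
  have hfin : ∀ s : Finset X, ∑ x ∈ s, ‖f x‖ ≤ √R := by
    intro s
    apply Real.le_sqrt_of_sq_le
    have h1 : (∑ x ∈ s, ‖f x‖) ^ 2 = ∑ x ∈ s, ∑ y ∈ s, ‖f x‖ * ‖f y‖ := by
      rw [pow_two, Finset.sum_mul_sum]
    have h2 : ∀ x ∈ s, ∑ y ∈ s, ‖f x‖ * ‖f y‖ ≤ ‖f x‖ ^ 2 + ∑ y ∈ s, T * (g x * g y) := by
      intro x hx
      have h3 : ∀ y ∈ s, ‖f x‖ * ‖f y‖ ≤ (if y = x then ‖f x‖ ^ 2 else 0) + T * (g x * g y) := by
        intro y _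
        split_ifs with h
        · subst h
          have : 0 ≤ T * (g y * g y) := mul_nonneg hT (mul_nonneg (hg y) (hg y))
          nlinarith
        · rw [zero_add]
          exact hpair x y (fun e => h e.symm)
      refine (Finset.sum_le_sum h3).trans ?_
      rw [Finset.sum_add_distrib, Finset.sum_ite_eq' s x, if_pos hx]
    rw [h1]
    refine (Finset.sum_le_sum h2).trans ?_
    rw [Finset.sum_add_distrib, hR]
    have h4 : ∑ x ∈ s, ∑ y ∈ s, T * (g x * g y) = T * (∑ x ∈ s, g x) ^ 2 := by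
      rw [pow_two, Finset.sum_mul_sum, Finset.mul_sum]
      exact Finset.sum_congr rfl fun x _ => by rw [Finset.mul_sum]
    rw [h4]
    have h5 : ∑ x ∈ s, ‖f x‖ ^ 2 ≤ ∑' x, ‖f x‖ ^ 2 := hfs.sum_le_tsum s (fun x _ => by positivity)
    have h6 : ∑ x ∈ s, g x ≤ ∑' x, g x := hgs.sum_le_tsum s (fun x _ => hg x)
    have h7 : (∑ x ∈ s, g x) ^ 2 ≤ (∑' x, g x) ^ 2 :=
      pow_le_pow_left₀ (Finset.sum_nonneg fun x _ => hg x) h6 2
    have h8 := mul_le_mul_of_nonneg_left h7 hT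
    linarith
  have hsum : Summable fun x => ‖f x‖ := summable_of_sum_le (fun x => norm_nonneg _) hfin
  refine ⟨hsum.of_norm, ?_⟩
  have h9 : ‖∑' x, f x‖ ≤ √R :=
    (norm_tsum_le_tsum_norm hsum).trans (hsum.tsum_le_of_sum_le hfin)
  calc ‖∑' x, f x‖ ^ 2 ≤ √R ^ 2 := pow_le_pow_left₀ (norm_nonneg _) h9 2
    _ = R := Real.sq_sqrt hR0

lemma msg_mem_mul {𝔟 : Ideal (𝓞 K)} {α : 𝓞 K} (hα : α ∈ 𝔟) (h0 : α ≠ 0) {m : Ideal (𝓞 K)}
    (h : m ∣ quo 𝔟 α) : α ∈ m * 𝔟 := by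
  have h1 := quo_spec hα h0
  have h2 : m * 𝔟 ∣ Ideal.span {α} := by
    rw [← h1, mul_comm m 𝔟]
    exact mul_dvd_mul_left 𝔟 h
  exact Ideal.dvd_span_singleton.mp h2

omit [NumberField K] in
lemma msg_quo_zero (𝔟 : Ideal (𝓞 K)) : quo 𝔟 (0 : 𝓞 K) = ⊥ := by
  unfold quo
  rw [dif_neg]
  simp

omit [NumberField K] in
lemma msg_inter {𝔮 𝔡 𝔟 : Ideal (𝓞 K)} (h : IsCoprime 𝔡 𝔮) {x : 𝓞 K} (h1 : x ∈ 𝔮 * 𝔟)
    (h2 : x ∈ 𝔡 * 𝔟) : x ∈ 𝔮 * 𝔡 * 𝔟 := by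
  obtain ⟨t, ht, s, hs, hst⟩ := Ideal.isCoprime_iff_exists.mp h
  have h3 : x = t * x + s * x := by rw [← add_mul, hst, one_mul]
  rw [h3]
  refine Ideal.add_mem _ ?_ ?_
  · have : t * x ∈ 𝔡 * (𝔮 * 𝔟) := Ideal.mul_mem_mul ht h1
    have e : 𝔡 * (𝔮 * 𝔟) = 𝔮 * 𝔡 * 𝔟 := by ring
    rwa [e] at this
  · have : s * x ∈ 𝔮 * (𝔡 * 𝔟) := Ideal.mul_mem_mul hs h2
    have e : 𝔮 * (𝔡 * 𝔟) = 𝔮 * 𝔡 * 𝔟 := by ring
    rwa [e] at this

lemma msg_qn_sub (y : InfinitePlace K → ℝ) (a b : K) :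
    qn (fun w => y w * w (a - b)) ≤
      2 * qn (fun w => y w * w a) + 2 * qn (fun w => y w * w b) := by
  unfold qn
  rw [Finset.mul_sum, Finset.mul_sum, ← Finset.sum_add_distrib]
  refine Finset.sum_le_sum fun w _ => ?_
  have h1 : w (a - b) ≤ w a + w b := by
    rw [← norm_embedding_eq w (a - b), ← norm_embedding_eq w a, ← norm_embedding_eq w b, map_sub]
    exact norm_sub_le _ _
  have h0 : 0 ≤ w (a - b) := apply_nonneg _ _
  have h3 : w (a - b) ^ 2 ≤ 2 * w a ^ 2 + 2 * w b ^ 2 := by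
    nlinarith [sq_nonneg (w a - w b)]
  have h4 : (0 : ℝ) ≤ w.mult * y w ^ 2 := by positivity
  nlinarith

lemma msg_qn_nonneg (y : InfinitePlace K → ℝ) : 0 ≤ qn y := by
  unfold qn
  positivity

/-- the key lower bound -/
lemma msg_key {𝔮 𝔟 : Ideal (𝓞 K)} (h𝔮 : 𝔮 ≠ ⊥) (h𝔟 : 𝔟 ≠ ⊥) {g : 𝓞 K} {ρ : 𝓞 K → 𝓞 K ⧸ 𝔮}
    (hρ : ∀ α ∈ 𝔟, ∀ a : 𝓞 K, ρ α = Ideal.Quotient.mk 𝔮 a ↔ α - a * g ∈ 𝔮 * 𝔟)
    {m m' : Ideal (𝓞 K)} (hm : m ≠ ⊥) (hmc : IsCoprime m 𝔮) {D : ℝ} (hD : 0 < D)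
    (hDm : D ≤ Ideal.absNorm (m ⊔ m')) (u : ℝ) (x : Fin (rank K) → ℝ) {α α' : 𝓞 K} (hα : α ∈ 𝔟)
    (hα' : α' ∈ 𝔟) (hne : α ≠ α') (he : ρ α = ρ α') (h1 : α ∈ m * 𝔟) (h2 : α' ∈ m' * 𝔟) :
    (Real.exp u * Ideal.absNorm 𝔮 * D) ^ (2 / (Module.finrank ℚ K : ℝ)) ≤
      2 * qn (fun w => Yv K u x w * w (α : K)) + 2 * qn (fun w => Yv K u x w * w (α' : K)) := by
  have h3 : α - α' ∈ 𝔮 * 𝔟 := by
    obtain ⟨a, ha⟩ := Ideal.Quotient.mk_surjective (ρ α)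
    have h4 := (hρ α hα a).mp ha.symm
    have h5 := (hρ α' hα' a).mp (by rw [← he, ha])
    have := Ideal.sub_mem _ h4 h5
    simpa using this
  have h4 : α - α' ∈ (m ⊔ m') * 𝔟 :=
    Ideal.sub_mem _ (Ideal.mul_mono_left le_sup_left h1) (Ideal.mul_mono_left le_sup_right h2)
  have hc : IsCoprime (m ⊔ m') 𝔮 := by
    rw [Ideal.isCoprime_iff_sup_eq] at hmc ⊢
    rw [eq_top_iff, ← hmc]
    exact sup_le_sup_right le_sup_left 𝔮
  have h5 := msg_inter hc h3 h4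
  have hd0 : m ⊔ m' ≠ ⊥ := by
    intro h
    rw [sup_eq_bot_iff] at h
    exact hm h.1
  have h6 := am_gm (𝔮 := 𝔮 * (m ⊔ m')) (𝔟 := 𝔟) (mul_ne_zero h𝔮 hd0) h𝔟 h5
    (sub_ne_zero.mpr hne) u x
  have h7 : (Real.exp u * Ideal.absNorm 𝔮 * D) ^ (2 / (Module.finrank ℚ K : ℝ)) ≤
      (Real.exp u * Ideal.absNorm (𝔮 * (m ⊔ m'))) ^ (2 / (Module.finrank ℚ K : ℝ)) := by
    apply Real.rpow_le_rpow (by positivity) _ (by positivity)
    rw [map_mul, Nat.cast_mul, mul_assoc]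
    gcongr
  refine (h7.trans h6).trans ?_
  have e : ((α - α' : 𝓞 K) : K) = (α : K) - (α' : K) := by push_cast; rfl
  rw [e]
  exact msg_qn_sub _ _ _

open scoped Classical in
/-- the majorant of the coefficients -/
noncomputable def msgW (𝔮 : Ideal (𝓞 K)) {ι : Type} (J : Finset ι) (n : ι → Ideal (𝓞 K))
    (a : ι → ℂ) (𝔠 : Ideal (𝓞 K)) : ℝ :=
  ∑ i ∈ J, if 𝔠 ≠ ⊥ ∧ IsCoprime 𝔠 𝔮 ∧ n i ∣ 𝔠 then ‖a i‖ else 0

omit [NumberField K] in
lemma msgW_nonneg (𝔮 : Ideal (𝓞 K)) {ι : Type} (J : Finset ι) (n : ι → Ideal (𝓞 K))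
    (a : ι → ℂ) (𝔠 : Ideal (𝓞 K)) : 0 ≤ msgW 𝔮 J n a 𝔠 := by
  unfold msgW
  refine Finset.sum_nonneg fun i _ => ?_
  split_ifs
  · positivity
  · exact le_rfl

omit [NumberField K] in
lemma msgW_le (𝔮 : Ideal (𝓞 K)) {ι : Type} (J : Finset ι) (n : ι → Ideal (𝓞 K))
    (a : ι → ℂ) (𝔠 : Ideal (𝓞 K)) : msgW 𝔮 J n a 𝔠 ≤ ∑ i ∈ J, ‖a i‖ := by
  unfold msgW
  refine Finset.sum_le_sum fun i _ => ?_
  split_ifs
  · exact le_rfl
  · positivity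

omit [NumberField K] in
lemma msg_bn_le (𝔮 : Ideal (𝓞 K)) {ι : Type} (J : Finset ι) (n : ι → Ideal (𝓞 K))
    (a : ι → ℂ) (𝔠 : Ideal (𝓞 K)) : ‖bn 𝔮 J n a 𝔠‖ ≤ msgW 𝔮 J n a 𝔠 := by
  unfold bn msgW
  split_ifs with h
  · refine (norm_sum_le _ _).trans (Finset.sum_le_sum fun i _ => ?_)
    by_cases hi : n i ∣ 𝔠
    · rw [if_pos hi, if_pos ⟨h.1, h.2, hi⟩]
    · rw [if_neg hi, if_neg (fun hh => hi hh.2.2), norm_zero]
  · rw [norm_zero]
    refine Finset.sum_nonneg fun i _ => ?_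
    split_ifs
    · positivity
    · exact le_rfl

omit [NumberField K] in
lemma msgW_exists (𝔮 : Ideal (𝓞 K)) {ι : Type} (J : Finset ι) (n : ι → Ideal (𝓞 K))
    (a : ι → ℂ) (𝔠 : Ideal (𝓞 K)) (h : msgW 𝔮 J n a 𝔠 ≠ 0) :
    ∃ i ∈ J, 𝔠 ≠ ⊥ ∧ n i ∣ 𝔠 := by
  unfold msgW at h
  obtain ⟨i, hi, hne⟩ := Finset.exists_ne_zero_of_sum_ne_zero h
  refine ⟨i, hi, ?_⟩
  by_contra hcon
  apply hne
  rw [if_neg]
  rintro ⟨h1, _, h2⟩
  exact hcon ⟨h1, h2⟩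

omit [NumberField K] in
/-- a sum over the elements of `𝔟` lying in `𝔠 ≤ 𝔟` -/
lemma msg_sub_ideal {𝔟 𝔠 : Ideal (𝓞 K)} (h : 𝔠 ≤ 𝔟) (e : 𝓞 K → ℝ)
    (hs : Summable fun α : 𝔠 => e α) [DecidablePred fun α : 𝓞 K => α ∈ 𝔠] :
    (Summable fun α : 𝔟 => if (α : 𝓞 K) ∈ 𝔠 then e α else 0) ∧
      ∑' α : 𝔟, (if (α : 𝓞 K) ∈ 𝔠 then e α else 0) = ∑' α : 𝔠, e α := by
  have hind : (𝔟 : Set (𝓞 K)).indicator (fun α => if α ∈ 𝔠 then e α else 0) =
      (𝔠 : Set (𝓞 K)).indicator e := by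
    funext α
    by_cases h1 : α ∈ 𝔠
    · rw [Set.indicator_of_mem (show α ∈ (𝔟 : Set (𝓞 K)) from h h1),
        Set.indicator_of_mem (show α ∈ (𝔠 : Set (𝓞 K)) from h1), if_pos h1]
    · rw [Set.indicator_of_notMem (show α ∉ (𝔠 : Set (𝓞 K)) from h1)]
      by_cases h2 : α ∈ 𝔟
      · rw [Set.indicator_of_mem (show α ∈ (𝔟 : Set (𝓞 K)) from h2), if_neg h1]
      · rw [Set.indicator_of_notMem (show α ∉ (𝔟 : Set (𝓞 K)) from h2)]
  constructor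
  · have h3 : Summable ((𝔠 : Set (𝓞 K)).indicator e) := summable_subtype_iff_indicator.mp hs
    rw [← hind] at h3
    exact summable_subtype_iff_indicator.mpr h3
  · have h4 := tsum_subtype (𝔟 : Set (𝓞 K)) (fun α => if α ∈ 𝔠 then e α else 0)
    have h5 := tsum_subtype (𝔠 : Set (𝓞 K)) e
    rw [hind, ← h5] at h4
    exact h4

theorem ms_gen_pr {κ : InfinitePlace K → ℤ} {𝔟 : Ideal (𝓞 K)} (h𝔟 : 𝔟 ≠ ⊥) :
    ∃ C c : ℝ, 0 ≤ C ∧ 0 < c ∧ ∀ (𝔮 : Ideal (𝓞 K)) (_ : 𝔮 ≠ ⊥) (g : 𝓞 K) (ρ : 𝓞 K → 𝓞 K ⧸ 𝔮)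
      (_ : ∀ α ∈ 𝔟, ∀ a : 𝓞 K, ρ α = Ideal.Quotient.mk 𝔮 a ↔ α - a * g ∈ 𝔮 * 𝔟)
      (ι : Type) (J : Finset ι) (n : ι → Ideal (𝓞 K)) (a : ι → ℂ) (D : ℝ) (_ : 0 < D)
      (_ : ∀ i ∈ J, n i ≠ ⊥ ∧ IsCoprime (n i) 𝔮)
      (_ : ∀ i ∈ J, ∀ j ∈ J, D ≤ Ideal.absNorm (n i ⊔ n j))
      (E : Finset (MulChar (𝓞 K ⧸ 𝔮) ℂ)) (u : ℝ), ∀ x ∈ Set.Icc (-1 : Fin (rank K) → ℝ) 1,
      ∑ χ ∈ E, ‖∑' α : 𝔟, bn 𝔮 J n a (quo 𝔟 α) * χ (ρ α) *
          Hf κ (Yv K u x) ((α : 𝓞 K) : K)‖ ^ 2 ≤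
        (Nat.card (𝓞 K ⧸ 𝔮)ˣ : ℝ) *
        (C * ∑' α : 𝔟, ‖bn 𝔮 J n a (quo 𝔟 α)‖ ^ 2 *
          Real.exp (-Real.pi * qn (fun w => Yv K u x w * w ((α : 𝓞 K) : K))) +
         C * (∑ i ∈ J, ‖a i‖) ^ 2 * (1 + Real.exp (-u) / D) ^ 2 *
          Real.exp (-c * (Real.exp u * Ideal.absNorm 𝔮 * D) ^
            (2 / (Module.finrank ℚ K : ℝ)))) := by
  classical
  have hpi := Real.pi_pos
  obtain ⟨CH, hCH, hH⟩ := Hf_le (K := K) κ
  obtain ⟨CL, hCL, hL⟩ := lattice_unif (K := K) (c := Real.pi / 4) (by positivity)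
  obtain ⟨CM, hCM, hMl⟩ := lattice_unif (K := K) (c := Real.pi) (by positivity)
  refine ⟨CH ^ 2 * (1 + CL ^ 2), Real.pi / 8, by positivity, by positivity, ?_⟩
  intro 𝔮 h𝔮 g ρ hρ ι J n a D hD hn hDn E u x hx
  set q : 𝓞 K → ℝ := fun α => qn (fun w => Yv K u x w * w (α : K)) with hq
  have hq0 : ∀ α, 0 ≤ q α := fun α => msg_qn_nonneg _
  set B : ℝ := ∑ i ∈ J, ‖a i‖ with hB
  have hB0 : 0 ≤ B := Finset.sum_nonneg fun i _ => norm_nonneg _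
  set Z : ℝ := (Real.exp u * Ideal.absNorm 𝔮 * D) ^ (2 / (Module.finrank ℚ K : ℝ)) with hZ
  set T : ℝ := CH ^ 2 * Real.exp (-(Real.pi / 8) * Z) with hT
  have hT0 : 0 ≤ T := by positivity
  have hHb : ∀ α : 𝓞 K, ‖Hf κ (Yv K u x) (α : K)‖ ≤ CH * Real.exp (-(Real.pi / 2) * q α) :=
    fun α => hH _ _ (Yv_pos u x)
  -- coefficients
  set W : 𝔟 → ℝ := fun α => msgW 𝔮 J n a (quo 𝔟 α) with hW
  have hW0 : ∀ α, 0 ≤ W α := fun α => msgW_nonneg _ _ _ _ _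
  have hWB : ∀ α, W α ≤ B := fun α => msgW_le _ _ _ _ _
  set f : 𝔟 → ℂ := fun α => bn 𝔮 J n a (quo 𝔟 α) * Hf κ (Yv K u x) ((α : 𝓞 K) : K) with hf
  set G : 𝔟 → ℝ := fun α => W α * Real.exp (-(Real.pi / 4) * q α) with hG
  have hG0 : ∀ α, 0 ≤ G α := fun α => mul_nonneg (hW0 α) (Real.exp_pos _).le
  have hfW : ∀ α, ‖f α‖ ≤ W α * (CH * Real.exp (-(Real.pi / 2) * q α)) := by
    intro α
    simp only [hf, norm_mul]
    exact mul_le_mul (msg_bn_le _ _ _ _ _) (hHb _) (norm_nonneg _) (hW0 α)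
  -- summability
  obtain ⟨hs1, -⟩ := hL 𝔟 h𝔟 u x
  obtain ⟨hsM, -⟩ := hMl 𝔟 h𝔟 u x
  have hGs : Summable G := by
    refine Summable.of_nonneg_of_le hG0 (fun α => ?_) (hs1.mul_left B)
    exact mul_le_mul_of_nonneg_right (hWB α) (Real.exp_pos _).le
  have hbs : Summable (fun α : 𝔟 => ‖bn 𝔮 J n a (quo 𝔟 α)‖ ^ 2 *
      Real.exp (-Real.pi * q α)) := by
    refine Summable.of_nonneg_of_le (fun α => by positivity) (fun α => ?_) (hsM.mul_left (B ^ 2))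
    refine mul_le_mul_of_nonneg_right ?_ (Real.exp_pos _).le
    exact pow_le_pow_left₀ (norm_nonneg _) ((msg_bn_le _ _ _ _ _).trans (hWB α)) 2
  have hfsq : ∀ α : 𝔟, ‖f α‖ ^ 2 ≤ CH ^ 2 * (‖bn 𝔮 J n a (quo 𝔟 α)‖ ^ 2 *
      Real.exp (-Real.pi * q α)) := by
    intro α
    have h1 : ‖f α‖ ≤ ‖bn 𝔮 J n a (quo 𝔟 α)‖ * (CH * Real.exp (-(Real.pi / 2) * q α)) := by
      simp only [hf, norm_mul]
      exact mul_le_mul_of_nonneg_left (hHb _) (norm_nonneg _)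
    refine (pow_le_pow_left₀ (norm_nonneg _) h1 2).trans (le_of_eq ?_)
    have h2 : Real.exp (-Real.pi * q α) = Real.exp (-(Real.pi / 2) * q α) ^ 2 := by
      rw [← Real.exp_nat_mul]
      congr 1
      push_cast
      ring
    rw [h2]
    ring
  have hfs : Summable fun α => ‖f α‖ ^ 2 :=
    Summable.of_nonneg_of_le (fun α => by positivity) hfsq (hbs.mul_left _)
  -- pairs
  have hpair : ∀ α α' : 𝔟, α ≠ α' → ρ α = ρ α' → ‖f α‖ * ‖f α'‖ ≤ T * (G α * G α') := by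
    intro α α' hne he
    have h1 : ‖f α‖ * ‖f α'‖ ≤ (W α * (CH * Real.exp (-(Real.pi / 2) * q α))) *
        (W α' * (CH * Real.exp (-(Real.pi / 2) * q α'))) :=
      mul_le_mul (hfW α) (hfW α') (norm_nonneg _) (by
        have := hW0 α
        positivity)
    refine h1.trans ?_
    by_cases hWα : W α = 0
    · simp [hWα, hG]
    by_cases hWα' : W α' = 0
    · simp [hWα', hG]
    obtain ⟨i, hi, hi1, hi2⟩ := msgW_exists _ _ _ _ _ hWα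
    obtain ⟨j, hj, hj1, hj2⟩ := msgW_exists _ _ _ _ _ hWα'
    have hα0 : (α : 𝓞 K) ≠ 0 := by
      intro h
      rw [h, msg_quo_zero] at hi1
      exact hi1 rfl
    have hα0' : (α' : 𝓞 K) ≠ 0 := by
      intro h
      rw [h, msg_quo_zero] at hj1
      exact hj1 rfl
    have hkey := msg_key h𝔮 h𝔟 hρ (hn i hi).1 (hn i hi).2 hD (hDn i hi j hj) u x α.2 α'.2
      (fun h => hne (Subtype.ext h)) he (msg_mem_mul α.2 hα0 hi2) (msg_mem_mul α'.2 hα0' hj2)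
    change Z ≤ 2 * q α + 2 * q α' at hkey
    have h2 : Real.exp (-(Real.pi / 2) * q α) * Real.exp (-(Real.pi / 2) * q α') ≤
        Real.exp (-(Real.pi / 8) * Z) * (Real.exp (-(Real.pi / 4) * q α) *
          Real.exp (-(Real.pi / 4) * q α')) := by
      rw [← Real.exp_add, ← Real.exp_add, ← Real.exp_add]
      apply Real.exp_le_exp.mpr
      nlinarith
    calc (W α * (CH * Real.exp (-(Real.pi / 2) * q α))) *
        (W α' * (CH * Real.exp (-(Real.pi / 2) * q α')))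
        = (W α * W α' * CH ^ 2) * (Real.exp (-(Real.pi / 2) * q α) *
          Real.exp (-(Real.pi / 2) * q α')) := by ring
      _ ≤ (W α * W α' * CH ^ 2) * (Real.exp (-(Real.pi / 8) * Z) *
          (Real.exp (-(Real.pi / 4) * q α) * Real.exp (-(Real.pi / 4) * q α'))) := by
          apply mul_le_mul_of_nonneg_left h2
          have := hW0 α
          have := hW0 α'
          positivity
      _ = T * (G α * G α') := by
          simp only [hT, hG]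
          ring
  -- the total mass of `G`
  have hDi : ∀ i ∈ J, D ≤ Ideal.absNorm (n i) := by
    intro i hi
    have := hDn i hi i hi
    rwa [sup_idem] at this
  have hGtot : ∑' α, G α ≤ B * (CL * (1 + Real.exp (-u) / D)) := by
    have h1 : ∀ i ∈ J, (Summable fun α : 𝔟 => ‖a i‖ * (if (α : 𝓞 K) ∈ n i * 𝔟 then
          Real.exp (-(Real.pi / 4) * q α) else 0)) ∧
        ∑' α : 𝔟, ‖a i‖ * (if (α : 𝓞 K) ∈ n i * 𝔟 then
          Real.exp (-(Real.pi / 4) * q α) else 0) ≤ ‖a i‖ * (CL * (1 + Real.exp (-u) / D)) := by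
      intro i hi
      obtain ⟨hs, hle⟩ := hL (n i * 𝔟) (mul_ne_zero (hn i hi).1 h𝔟) u x
      obtain ⟨h2, h3⟩ := msg_sub_ideal (𝔟 := 𝔟) (𝔠 := n i * 𝔟) Ideal.mul_le_right
        (fun α => Real.exp (-(Real.pi / 4) * q α)) hs
      refine ⟨h2.mul_left _, ?_⟩
      rw [tsum_mul_left]
      apply mul_le_mul_of_nonneg_left _ (norm_nonneg _)
      rw [h3]
      refine hle.trans ?_
      apply mul_le_mul_of_nonneg_left _ hCL
      have h4 : D ≤ Ideal.absNorm (n i * 𝔟) := by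
        rw [map_mul, Nat.cast_mul]
        have h5 : (1 : ℝ) ≤ Ideal.absNorm 𝔟 := by
          have : 0 < Ideal.absNorm 𝔟 :=
            Nat.pos_of_ne_zero (by rw [Ne, Ideal.absNorm_eq_zero_iff]; exact h𝔟)
          exact_mod_cast this
        have h6 := hDi i hi
        nlinarith
      have h7 : Real.exp (-u) / Ideal.absNorm (n i * 𝔟) ≤ Real.exp (-u) / D :=
        div_le_div_of_nonneg_left (Real.exp_pos _).le hD h4
      linarith
    have h2 : ∀ α : 𝔟, G α ≤ ∑ i ∈ J, ‖a i‖ * (if (α : 𝓞 K) ∈ n i * 𝔟 then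
          Real.exp (-(Real.pi / 4) * q α) else 0) := by
      intro α
      simp only [hG, hW, msgW, Finset.sum_mul]
      refine Finset.sum_le_sum fun i _ => ?_
      split_ifs with h3 h4
      · exact le_rfl
      · exfalso
        apply h4
        have hα0 : (α : 𝓞 K) ≠ 0 := by
          intro h
          rw [h, msg_quo_zero] at h3
          exact h3.1 rfl
        exact msg_mem_mul α.2 hα0 h3.2.2
      · rw [zero_mul]
        positivity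
      · rw [zero_mul, mul_zero]
    have h3 : Summable fun α : 𝔟 => ∑ i ∈ J, ‖a i‖ * (if (α : 𝓞 K) ∈ n i * 𝔟 then
          Real.exp (-(Real.pi / 4) * q α) else 0) :=
      summable_sum fun i hi => (h1 i hi).1
    refine (hGs.tsum_le_tsum h2 h3).trans ?_
    rw [Summable.tsum_finsetSum (fun i hi => (h1 i hi).1), hB, Finset.sum_mul]
    exact Finset.sum_le_sum fun i hi => (h1 i hi).2
  have hGtot0 : 0 ≤ ∑' α, G α := tsum_nonneg hG0
  -- residue classes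
  have hfinq : Finite (𝓞 K ⧸ 𝔮) := Ideal.finiteQuotientOfFreeOfNeBot 𝔮 h𝔮
  let _ : Fintype (𝓞 K ⧸ 𝔮) := Fintype.ofFinite _
  set F : 𝓞 K ⧸ 𝔮 → 𝔟 → ℂ := fun j α => if ρ α = j then f α else 0 with hF
  set GG : 𝓞 K ⧸ 𝔮 → 𝔟 → ℝ := fun j α => if ρ α = j then G α else 0 with hGG
  have hGG0 : ∀ j α, 0 ≤ GG j α := by
    intro j α
    simp only [hGG]
    split_ifs
    · exact hG0 α
    · exact le_rfl
  have hGGs : ∀ j, Summable (GG j) := fun j => Summable.of_nonneg_of_le (hGG0 j) (fun α => by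
    simp only [hGG]
    split_ifs
    · exact le_rfl
    · exact hG0 α) hGs
  have hFs2 : ∀ j, Summable fun α => ‖F j α‖ ^ 2 := fun j =>
    Summable.of_nonneg_of_le (fun α => by positivity) (fun α => by
      simp only [hF]
      split_ifs
      · exact le_rfl
      · simp) hfs
  have habs : ∀ j, Summable (F j) ∧
      ‖∑' α, F j α‖ ^ 2 ≤ ∑' α, ‖F j α‖ ^ 2 + T * (∑' α, GG j α) ^ 2 := by
    intro j
    refine msg_abs (F j) (GG j) T hT0 (hGG0 j) (hGGs j) (hFs2 j) ?_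
    intro α α' hne
    simp only [hF, hGG]
    by_cases h1 : ρ α = j
    · by_cases h2 : ρ α' = j
      · rw [if_pos h1, if_pos h2, if_pos h1, if_pos h2]
        exact hpair α α' hne (h1.trans h2.symm)
      · simp [h2]
    · simp [h1]
  -- rewrite the character sums
  have hchar : ∀ χ : MulChar (𝓞 K ⧸ 𝔮) ℂ,
      ∑' α : 𝔟, bn 𝔮 J n a (quo 𝔟 α) * χ (ρ α) * Hf κ (Yv K u x) ((α : 𝓞 K) : K) =
      ∑ j, χ j * ∑' α, F j α := by
    intro χ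
    have h1 : ∀ j, χ j * ∑' α, F j α = ∑' α, χ j * F j α := fun j => tsum_mul_left.symm
    simp only [h1]
    rw [← Summable.tsum_finsetSum (fun j _ => (habs j).1.mul_left _)]
    refine tsum_congr fun α => ?_
    simp only [hF]
    rw [Finset.sum_eq_single (ρ α)]
    · rw [if_pos rfl]
      simp only [hf]
      ring
    · intro j _ hj
      rw [if_neg (fun h => hj h.symm), mul_zero]
    · intro h
      exact absurd (Finset.mem_univ _) h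
  simp only [hchar]
  refine (parseval E (fun j => ∑' α, F j α)).trans ?_
  apply mul_le_mul_of_nonneg_left _ (Nat.cast_nonneg _)
  -- the sum over the residue classes
  have hd1 : ∑ j, ∑' α, ‖F j α‖ ^ 2 = ∑' α, ‖f α‖ ^ 2 := by
    rw [← Summable.tsum_finsetSum (fun j _ => hFs2 j)]
    refine tsum_congr fun α => ?_
    simp only [hF]
    rw [Finset.sum_eq_single (ρ α)]
    · rw [if_pos rfl]
    · intro j _ hj
      rw [if_neg (fun h => hj h.symm)]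
      simp
    · intro h
      exact absurd (Finset.mem_univ _) h
  have hd2 : ∑ j, ∑' α, GG j α = ∑' α, G α := by
    rw [← Summable.tsum_finsetSum (fun j _ => hGGs j)]
    refine tsum_congr fun α => ?_
    simp only [hGG]
    rw [Finset.sum_eq_single (ρ α)]
    · rw [if_pos rfl]
    · intro j _ hj
      rw [if_neg (fun h => hj h.symm)]
    · intro h
      exact absurd (Finset.mem_univ _) h
  have hd3 : ∑ j, (∑' α, GG j α) ^ 2 ≤ (∑' α, G α) ^ 2 := by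
    have h0 : ∀ j, 0 ≤ ∑' α, GG j α := fun j => tsum_nonneg (hGG0 j)
    calc ∑ j, (∑' α, GG j α) ^ 2 ≤ ∑ j, (∑' α, GG j α) * ∑ k, ∑' α, GG k α := by
          refine Finset.sum_le_sum fun j _ => ?_
          rw [pow_two]
          exact mul_le_mul_of_nonneg_left
            (Finset.single_le_sum (f := fun k => ∑' α, GG k α) (fun k _ => h0 k)
              (Finset.mem_univ j)) (h0 j)
      _ = (∑' α, G α) ^ 2 := by rw [← Finset.sum_mul, hd2, pow_two]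
  have hd4 : ∑' α, ‖f α‖ ^ 2 ≤ CH ^ 2 * ∑' α : 𝔟, ‖bn 𝔮 J n a (quo 𝔟 α)‖ ^ 2 *
      Real.exp (-Real.pi * q α) := by
    rw [← tsum_mul_left]
    exact hfs.tsum_le_tsum hfsq (hbs.mul_left _)
  have hS0 : 0 ≤ ∑' α : 𝔟, ‖bn 𝔮 J n a (quo 𝔟 α)‖ ^ 2 * Real.exp (-Real.pi * q α) :=
    tsum_nonneg fun α => by positivity
  have hd5 : (∑' α, G α) ^ 2 ≤ (B * (CL * (1 + Real.exp (-u) / D))) ^ 2 :=
    pow_le_pow_left₀ hGtot0 hGtot 2
  calc ∑ j, ‖∑' α, F j α‖ ^ 2 ≤ ∑ j, (∑' α, ‖F j α‖ ^ 2 + T * (∑' α, GG j α) ^ 2) :=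
        Finset.sum_le_sum fun j _ => (habs j).2
    _ = ∑' α, ‖f α‖ ^ 2 + T * ∑ j, (∑' α, GG j α) ^ 2 := by
        rw [Finset.sum_add_distrib, hd1, Finset.mul_sum]
    _ ≤ CH ^ 2 * ∑' α : 𝔟, ‖bn 𝔮 J n a (quo 𝔟 α)‖ ^ 2 * Real.exp (-Real.pi * q α) +
        T * (B * (CL * (1 + Real.exp (-u) / D))) ^ 2 := by
        have := mul_le_mul_of_nonneg_left (hd3.trans hd5) hT0
        linarith
    _ ≤ _ := by
        have e1 : T * (B * (CL * (1 + Real.exp (-u) / D))) ^ 2 =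
            CH ^ 2 * CL ^ 2 * B ^ 2 * (1 + Real.exp (-u) / D) ^ 2 *
              Real.exp (-(Real.pi / 8) * Z) := by
          simp only [hT]
          ring
        rw [e1]
        apply add_le_add
        · apply mul_le_mul_of_nonneg_right _ hS0
          nlinarith [sq_nonneg (CH * CL)]
        · have h1 : 0 ≤ B ^ 2 * (1 + Real.exp (-u) / D) ^ 2 * Real.exp (-(Real.pi / 8) * Z) := by
            positivity
          have h2 : CH ^ 2 * CL ^ 2 ≤ CH ^ 2 * (1 + CL ^ 2) := by nlinarith [sq_nonneg CH]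
          calc CH ^ 2 * CL ^ 2 * B ^ 2 * (1 + Real.exp (-u) / D) ^ 2 *
              Real.exp (-(Real.pi / 8) * Z) = (CH ^ 2 * CL ^ 2) *
              (B ^ 2 * (1 + Real.exp (-u) / D) ^ 2 * Real.exp (-(Real.pi / 8) * Z)) := by ring
            _ ≤ (CH ^ 2 * (1 + CL ^ 2)) *
              (B ^ 2 * (1 + Real.exp (-u) / D) ^ 2 * Real.exp (-(Real.pi / 8) * Z)) :=
                mul_le_mul_of_nonneg_right h2 h1
            _ = _ := by ring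

end Pool.Agent.KS

namespace Pool.Agent.KS

theorem ms_gen : type_of% @ms_gen_pr := @ms_gen_pr

end Pool.Agent.KS
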