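import Pool.Agent.Lib_helper92.KSA.Base
import Pool.Agent.Lib_helper92.KSA.MSG1

/-!
# Block MSG2: the mean square over the characters, with divisor-type coefficients
-/

namespace Pool.Agent.KS

open NumberField NumberField.InfinitePlace NumberField.Units Complex MeasureTheory Filter Topology
open Pool.Agent.HZ Pool.Agent.AS

variable {K : Type} [Field K] [NumberField K]

variable (K) in
/-- the Gaussian `exp(-π qn)` as a complex function -/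
noncomputable def MSG2_F (y : InfinitePlace K → ℝ) : ℂ := ((Real.exp (-Real.pi * qn y) : ℝ) : ℂ)

theorem MSG2_F_good : GoodF (MSG2_F K) 1 Real.pi := by
  refine ⟨zero_le_one, Real.pi_pos, ?_, ?_⟩
  · apply Continuous.continuousOn
    unfold MSG2_F qn
    fun_prop
  · intro y _
    rw [MSG2_F, Complex.norm_real, Real.norm_eq_abs, abs_of_pos (Real.exp_pos _), one_mul]

theorem MSG2_kint (u : ℝ) : kint K (MSG2_F K) u = ((kg K Real.pi u : ℝ) : ℂ) := by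
  unfold kint kg MSG2_F
  exact integral_ofReal

omit [NumberField K] in
theorem MSG2_quo_zero (𝔟 : Ideal (𝓞 K)) : quo 𝔟 0 = ⊥ := by
  unfold quo
  simp

/-- the pointwise identity -/
theorem MSG2_term {𝔮 : Ideal (𝓞 K)} (h𝔮 : 𝔮 ≠ ⊥) {κ : InfinitePlace K → ℤ}
    {lam : InfinitePlace K → ℝ}
    {χ : MulChar (𝓞 K ⧸ 𝔮) ℂ} {ψ : Ideal (𝓞 K) →* ℂ} (hψ : IsHecke 𝔮 κ lam χ ψ)
    {𝔟 : Ideal (𝓞 K)} (h𝔟 : 𝔟 ≠ ⊥) {g : 𝓞 K} {ρ : 𝓞 K → 𝓞 K ⧸ 𝔮} (hg : g ∈ 𝔟) (hg0 : g ≠ 0)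
    (hgc : IsCoprime (quo 𝔟 g) 𝔮)
    (hρ : ∀ α ∈ 𝔟, ∀ a : 𝓞 K, ρ α = Ideal.Quotient.mk 𝔮 a ↔ α - a * g ∈ 𝔮 * 𝔟)
    {b : Ideal (𝓞 K) → ℂ} (hb0 : b ⊥ = 0) (y : InfinitePlace K → ℝ) (hy : ∀ w, 0 < y w)
    (α : 𝔟) :
    b (quo 𝔟 α) * ψ (quo 𝔟 α) * Gf κ lam (fun w => y w * w ((α : 𝓞 K) : K)) =
      (tw κ lam ψ 𝔟 g * cexp (((∑ w, lam w * Real.log (y w) : ℝ) : ℂ) * I)) *
        (b (quo 𝔟 α) * χ (ρ α) * Hf κ y ((α : 𝓞 K) : K)) := by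
  by_cases h0 : (α : 𝓞 K) = 0
  · rw [h0, MSG2_quo_zero, hb0]
    simp
  · obtain ⟨a, ha⟩ := Ideal.Quotient.mk_surjective (ρ α)
    have h1 := (hρ α α.2 a).mp ha.symm
    have h2 := tw_eq h𝔮 hψ h𝔟 hg hg0 hgc α.2 h0 h1
    have h0' : ((α : 𝓞 K) : K) ≠ 0 := by simpa using h0
    rw [Gf_eq κ lam y hy h0', ← ha]
    have h3 : tw κ lam ψ 𝔟 (α : 𝓞 K) = ψ (quo 𝔟 α) * (psiInf κ lam ((α : 𝓞 K) : K))⁻¹ := rfl
    rw [h3] at h2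
    linear_combination (b (quo 𝔟 ↑α) * Hf κ y ((α : 𝓞 K) : K) *
      cexp (((∑ w, lam w * Real.log (y w) : ℝ) : ℂ) * I)) * h2

/-- Jensen on the unit cube -/
theorem MSG2_jensen {r : ℕ} {f : (Fin r → ℝ) → ℂ} (hf : IntegrableOn f (Set.Icc 0 1))
    (hf2 : IntegrableOn (fun x => ‖f x‖ ^ 2) (Set.Icc 0 1)) :
    ‖∫ x in Set.Icc (0 : Fin r → ℝ) 1, f x‖ ^ 2 ≤
      ∫ x in Set.Icc (0 : Fin r → ℝ) 1, ‖f x‖ ^ 2 := by
  have hvol : (volume : Measure (Fin r → ℝ)) (Set.Icc 0 1) = 1 := by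
    rw [Real.volume_Icc_pi]
    simp
  have : IsProbabilityMeasure (volume.restrict (Set.Icc (0 : Fin r → ℝ) 1)) :=
    ⟨by rw [Measure.restrict_apply_univ, hvol]⟩
  set μ := volume.restrict (Set.Icc (0 : Fin r → ℝ) 1) with hμ
  have h1 : ‖∫ x, f x ∂μ‖ ≤ ∫ x, ‖f x‖ ∂μ := norm_integral_le_integral_norm _
  set m := ∫ x, ‖f x‖ ∂μ with hm
  have hm0 : 0 ≤ m := integral_nonneg (fun x => norm_nonneg _)
  have hf' : Integrable f μ := hf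
  have hf2' : Integrable (fun x => ‖f x‖ ^ 2) μ := hf2
  have h2 : 0 ≤ ∫ x, (‖f x‖ - m) ^ 2 ∂μ := integral_nonneg (fun x => sq_nonneg _)
  have h3 : ∫ x, (‖f x‖ - m) ^ 2 ∂μ = (∫ x, ‖f x‖ ^ 2 ∂μ) - m ^ 2 := by
    have e : (fun x => (‖f x‖ - m) ^ 2) = fun x => (‖f x‖ ^ 2 - (2 * m) * ‖f x‖) + m ^ 2 := by
      funext x
      ring
    have i1 : Integrable (fun x => ‖f x‖ ^ 2 - (2 * m) * ‖f x‖) μ :=
      hf2'.sub (hf'.norm.const_mul _)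
    rw [e, integral_add i1 (integrable_const _),
      integral_sub hf2' (hf'.norm.const_mul _), integral_const_mul, ← hm]
    simp
    ring
  calc ‖∫ x, f x ∂μ‖ ^ 2 ≤ m ^ 2 := by
        exact pow_le_pow_left₀ (norm_nonneg _) h1 2
    _ ≤ ∫ x, ‖f x‖ ^ 2 ∂μ := by
        rw [h3] at h2
        linarith

omit [NumberField K] in
theorem MSG2_bn_bot (𝔮 : Ideal (𝓞 K)) {ι : Type} (J : Finset ι) (n : ι → Ideal (𝓞 K))
    (a : ι → ℂ) : bn 𝔮 J n a ⊥ = 0 := by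
  unfold bn
  simp

omit [NumberField K] in
theorem MSG2_bn_le (𝔮 : Ideal (𝓞 K)) {ι : Type} (J : Finset ι) (n : ι → Ideal (𝓞 K))
    (a : ι → ℂ) (𝔠 : Ideal (𝓞 K)) : ‖bn 𝔮 J n a 𝔠‖ ≤ ∑ i ∈ J, ‖a i‖ := by
  classical
  unfold bn
  split_ifs with h
  · refine (norm_sum_le _ _).trans (Finset.sum_le_sum fun i _ => ?_)
    split_ifs
    · exact le_rfl
    · rw [norm_zero]
      exact norm_nonneg _
  · rw [norm_zero]
    exact Finset.sum_nonneg fun i _ => norm_nonneg _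

/-- the mean square of the class sums -/
theorem MSG2_class (κ : InfinitePlace K → ℤ) {𝔟 : Ideal (𝓞 K)} (h𝔟 : 𝔟 ≠ ⊥) :
    ∃ C c : ℝ, 0 ≤ C ∧ 0 < c ∧ ∀ (𝔮 : Ideal (𝓞 K)) (_ : 𝔮 ≠ ⊥)
      (ι : Type) (J : Finset ι) (n : ι → Ideal (𝓞 K)) (a : ι → ℂ) (D : ℝ) (_ : 0 < D)
      (_ : ∀ i ∈ J, n i ≠ ⊥ ∧ IsCoprime (n i) 𝔮)
      (_ : ∀ i ∈ J, ∀ j ∈ J, D ≤ Ideal.absNorm (n i ⊔ n j))
      (E : Finset (MulChar (𝓞 K ⧸ 𝔮) ℂ)) (lam : MulChar (𝓞 K ⧸ 𝔮) ℂ → InfinitePlace K → ℝ)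
      (ψ : MulChar (𝓞 K ⧸ 𝔮) ℂ → (Ideal (𝓞 K) →* ℂ))
      (_ : ∀ χ ∈ E, IsHecke 𝔮 κ (lam χ) χ (ψ χ)) (u : ℝ),
      0 ≤ (Scl 𝔟 (fun 𝔠 => ((‖bn 𝔮 J n a 𝔠‖ ^ 2 : ℝ) : ℂ)) (MSG2_F K) u).re ∧
      ∑ χ ∈ E, ‖Scl 𝔟 (fun 𝔠 => bn 𝔮 J n a 𝔠 * ψ χ 𝔠) (Gf κ (lam χ)) u‖ ^ 2 ≤
        (Nat.card (𝓞 K ⧸ 𝔮)ˣ : ℝ) *
        (C * (Scl 𝔟 (fun 𝔠 => ((‖bn 𝔮 J n a 𝔠‖ ^ 2 : ℝ) : ℂ)) (MSG2_F K) u).re +
         C * (∑ i ∈ J, ‖a i‖) ^ 2 * ((1 + Real.exp (-u) / D) ^ 2 *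
          Real.exp (-c * (Real.exp u * Ideal.absNorm 𝔮 * D) ^
            (2 / (Module.finrank ℚ K : ℝ))))) := by
  classical
  obtain ⟨C, c, hC, hc, hms⟩ := ms_gen (K := K) (κ := κ) h𝔟
  obtain ⟨CG, hG⟩ := Gf_good (K := K) κ
  set N : ℝ := ((Ideal.absNorm 𝔟 : ℕ) : ℝ) with hN
  have hN1 : 1 ≤ N := by
    rw [hN]
    have : Ideal.absNorm 𝔟 ≠ 0 := by
      rw [Ne, Ideal.absNorm_eq_zero_iff]
      exact h𝔟
    exact_mod_cast Nat.one_le_iff_ne_zero.mpr this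
  have hN0 : 0 < N := by linarith
  set ν : ℝ := 2 / (Module.finrank ℚ K : ℝ) with hν
  have hν0 : 0 ≤ ν := by positivity
  have hT : 1 ≤ (torsionOrder K : ℝ) := by
    exact_mod_cast Nat.one_le_iff_ne_zero.mpr (torsionOrder_pos K).ne'
  set T : ℝ := (torsionOrder K : ℝ) with hTdef
  refine ⟨C * N ^ 2, c * N ^ (-ν), by positivity, by positivity, ?_⟩
  intro 𝔮 h𝔮 ι J n a D hD hJ hJJ E lam ψ hψ u
  have hb := MSG2_bn_le 𝔮 J n a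
  have hb0 := MSG2_bn_bot 𝔮 J n a
  set β : ℝ := ∑ i ∈ J, ‖a i‖ with hβ
  set b : Ideal (𝓞 K) → ℂ := bn 𝔮 J n a with hbdef
  have hβ0 : 0 ≤ β := (norm_nonneg _).trans (hb ⊥)
  -- the Gaussian side
  set b₂ : Ideal (𝓞 K) → ℂ := fun 𝔠 => ((‖b 𝔠‖ ^ 2 : ℝ) : ℂ) with hb₂
  have hb₂le : ∀ 𝔠, ‖b₂ 𝔠‖ ≤ β ^ 2 := by
    intro 𝔠
    rw [hb₂]
    simp only [Complex.norm_real, Real.norm_eq_abs, abs_of_nonneg (sq_nonneg ‖b 𝔠‖)]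
    exact pow_le_pow_left₀ (norm_nonneg _) (hb 𝔠) 2
  have hb₂0 : b₂ ⊥ = 0 := by
    rw [hb₂]
    simp [hb0]
  set u' : ℝ := u - Real.log N with hu'
  have huu : u' + Real.log N = u := by rw [hu']; ring
  obtain ⟨hSi, hSe⟩ := unfold_units h𝔟 (MSG2_F_good (K := K)) hb₂le hb₂0 1 (Or.inl rfl) u'
  set S : (Fin (rank K) → ℝ) → ℝ := fun x => ∑' α : 𝔟, ‖b (quo 𝔟 α)‖ ^ 2 *
    Real.exp (-Real.pi * qn (fun w => Yv K u' x w * w ((α : 𝓞 K) : K))) with hS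
  have hSc : (fun x : Fin (rank K) → ℝ => ∑' α : 𝔟, b₂ (quo 𝔟 α) *
      MSG2_F K (fun w => Yv K u' ((1 : ℝ) • x) w * w ((α : 𝓞 K) : K))) =
      fun x => ((S x : ℝ) : ℂ) := by
    funext x
    rw [hS]
    simp only [one_smul]
    rw [Complex.ofReal_tsum]
    apply tsum_congr
    intro α
    rw [hb₂, MSG2_F]
    push_cast
    ring
  rw [hSc] at hSi
  have hSi' : IntegrableOn S (Set.Icc 0 1) := by
    have h : Integrable (fun x => S x) (volume.restrict (Set.Icc 0 1)) := by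
      simpa using hSi.re
    exact h
  have hSe' : ((∫ x in Set.Icc (0 : Fin (rank K) → ℝ) 1, S x : ℝ) : ℂ) =
      (torsionOrder K : ℂ) * Scl 𝔟 b₂ (MSG2_F K) u := by
    have e : ∫ x in Set.Icc (0 : Fin (rank K) → ℝ) 1, ((S x : ℝ) : ℂ) =
        ((∫ x in Set.Icc (0 : Fin (rank K) → ℝ) 1, S x : ℝ) : ℂ) := integral_ofReal
    rw [← e, ← huu, ← hSe]
    congr 1
    exact hSc.symm
  have hS0 : ∀ x, 0 ≤ S x := fun x => tsum_nonneg (fun α => by positivity)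
  have hSre : ∫ x in Set.Icc (0 : Fin (rank K) → ℝ) 1, S x = T * (Scl 𝔟 b₂ (MSG2_F K) u).re := by
    have := congrArg Complex.re hSe'
    rw [Complex.ofReal_re] at this
    rw [this]
    simp [hTdef]
  have hR0 : 0 ≤ (Scl 𝔟 b₂ (MSG2_F K) u).re := by
    have h1 : 0 ≤ ∫ x in Set.Icc (0 : Fin (rank K) → ℝ) 1, S x := integral_nonneg hS0
    rw [hSre] at h1
    exact nonneg_of_mul_nonneg_right h1 (by linarith)
  refine ⟨hR0, ?_⟩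
  -- the theta functions
  set Θ : MulChar (𝓞 K ⧸ 𝔮) ℂ → (Fin (rank K) → ℝ) → ℂ := fun χ x => ∑' α : 𝔟,
    (b (quo 𝔟 α) * ψ χ (quo 𝔟 α)) *
      Gf κ (lam χ) (fun w => Yv K u' ((1 : ℝ) • x) w * w ((α : 𝓞 K) : K)) with hΘ
  have hψ1 : ∀ χ ∈ E, ∀ 𝔠, ‖ψ χ 𝔠‖ ≤ 1 := by
    intro χ hχ 𝔠
    by_cases h : IsCoprime 𝔠 𝔮
    · rw [(hψ χ hχ).norm_eq_one 𝔠 h]
    · rw [(hψ χ hχ).eq_zero 𝔠 h]
      simp
  have hunf : ∀ χ ∈ E, IntegrableOn (Θ χ) (Set.Icc 0 1) ∧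
      ∫ x in Set.Icc (0 : Fin (rank K) → ℝ) 1, Θ χ x =
        (torsionOrder K : ℂ) * Scl 𝔟 (fun 𝔠 => b 𝔠 * ψ χ 𝔠) (Gf κ (lam χ)) u := by
    intro χ hχ
    have hle : ∀ 𝔠, ‖b 𝔠 * ψ χ 𝔠‖ ≤ β := by
      intro 𝔠
      rw [norm_mul]
      calc ‖b 𝔠‖ * ‖ψ χ 𝔠‖ ≤ β * 1 :=
            mul_le_mul (hb 𝔠) (hψ1 χ hχ 𝔠) (norm_nonneg _) hβ0
        _ = β := mul_one β
    have h := unfold_units h𝔟 (hG (lam χ)) hle (by simp [hb0]) 1 (Or.inl rfl) u'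
    rw [huu] at h
    exact h
  -- the pointwise bound
  obtain ⟨g, ρ, hg, hg0, hgc, hρ⟩ := exists_res h𝔮 h𝔟
  set X : ℝ := Real.exp (-c * (Real.exp u' * Ideal.absNorm 𝔮 * D) ^ ν) with hX
  set R : (Fin (rank K) → ℝ) → ℝ := fun x => (Nat.card (𝓞 K ⧸ 𝔮)ˣ : ℝ) *
    (C * S x + C * β ^ 2 * (1 + Real.exp (-u') / D) ^ 2 * X) with hR
  have hpt : ∀ x ∈ Set.Icc (0 : Fin (rank K) → ℝ) 1, ∑ χ ∈ E, ‖Θ χ x‖ ^ 2 ≤ R x := by
    intro x hx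
    have hx' : x ∈ Set.Icc (-1 : Fin (rank K) → ℝ) 1 := by
      refine ⟨?_, hx.2⟩
      intro i
      have := hx.1 i
      simp only [Pi.neg_apply, Pi.one_apply, Pi.zero_apply] at this ⊢
      linarith
    have h1 := hms 𝔮 h𝔮 g ρ hρ ι J n a D hD hJ hJJ E u' x hx'
    refine le_trans (le_of_eq ?_) h1
    apply Finset.sum_congr rfl
    intro χ hχ
    have h2 : Θ χ x = (tw κ (lam χ) (ψ χ) 𝔟 g *
        cexp (((∑ w, lam χ w * Real.log (Yv K u' x w) : ℝ) : ℂ) * I)) *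
        ∑' α : 𝔟, b (quo 𝔟 α) * χ (ρ α) * Hf κ (Yv K u' x) ((α : 𝓞 K) : K) := by
      rw [hΘ]
      simp only [one_smul]
      rw [← tsum_mul_left]
      apply tsum_congr
      intro α
      exact MSG2_term h𝔮 (hψ χ hχ) h𝔟 hg hg0 hgc hρ hb0 (Yv K u' x) (fun w => Yv_pos u' x w) α
    rw [h2, norm_mul, norm_mul, tw_norm (hψ χ hχ) hg0 hgc, Complex.norm_exp_ofReal_mul_I,
      one_mul, one_mul]
  have hRi : IntegrableOn R (Set.Icc 0 1) := by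
    rw [hR]
    apply Integrable.const_mul
    apply Integrable.add
    · exact hSi'.const_mul _
    · have hvol : (volume : Measure (Fin (rank K) → ℝ)) (Set.Icc 0 1) = 1 := by
        rw [Real.volume_Icc_pi]
        simp
      exact integrableOn_const (by rw [hvol]; exact ENNReal.one_ne_top)
  have hΘ2 : ∀ χ ∈ E, IntegrableOn (fun x => ‖Θ χ x‖ ^ 2) (Set.Icc 0 1) := by
    intro χ hχ
    refine Integrable.mono' hRi ?_ ?_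
    · exact ((hunf χ hχ).1.aestronglyMeasurable.norm.pow 2)
    · rw [ae_restrict_iff' measurableSet_Icc]
      refine Filter.Eventually.of_forall (fun x hx => ?_)
      rw [Real.norm_eq_abs, abs_of_nonneg (sq_nonneg _)]
      exact (Finset.single_le_sum (f := fun χ => ‖Θ χ x‖ ^ 2) (fun i _ => sq_nonneg _) hχ).trans
        (hpt x hx)
  have hmain : ∑ χ ∈ E, ‖(torsionOrder K : ℂ) *
      Scl 𝔟 (fun 𝔠 => b 𝔠 * ψ χ 𝔠) (Gf κ (lam χ)) u‖ ^ 2 ≤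
      ∫ x in Set.Icc (0 : Fin (rank K) → ℝ) 1, R x := by
    calc ∑ χ ∈ E, ‖(torsionOrder K : ℂ) *
        Scl 𝔟 (fun 𝔠 => b 𝔠 * ψ χ 𝔠) (Gf κ (lam χ)) u‖ ^ 2
        ≤ ∑ χ ∈ E, ∫ x in Set.Icc (0 : Fin (rank K) → ℝ) 1, ‖Θ χ x‖ ^ 2 := by
          apply Finset.sum_le_sum
          intro χ hχ
          rw [← (hunf χ hχ).2]
          exact MSG2_jensen (hunf χ hχ).1 (hΘ2 χ hχ)
      _ = ∫ x in Set.Icc (0 : Fin (rank K) → ℝ) 1, ∑ χ ∈ E, ‖Θ χ x‖ ^ 2 := by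
          rw [integral_finsetSum]
          intro χ hχ
          exact hΘ2 χ hχ
      _ ≤ ∫ x in Set.Icc (0 : Fin (rank K) → ℝ) 1, R x := by
          apply setIntegral_mono_on _ hRi measurableSet_Icc hpt
          exact integrable_finsetSum _ (fun χ hχ => hΘ2 χ hχ)
  have hRint : ∫ x in Set.Icc (0 : Fin (rank K) → ℝ) 1, R x = (Nat.card (𝓞 K ⧸ 𝔮)ˣ : ℝ) *
      (C * (T * (Scl 𝔟 b₂ (MSG2_F K) u).re) + C * β ^ 2 * (1 + Real.exp (-u') / D) ^ 2 * X) := by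
    have hvol : (volume : Measure (Fin (rank K) → ℝ)) (Set.Icc 0 1) = 1 := by
      rw [Real.volume_Icc_pi]
      simp
    have hci : IntegrableOn (fun _ : Fin (rank K) → ℝ =>
        C * β ^ 2 * (1 + Real.exp (-u') / D) ^ 2 * X) (Set.Icc 0 1) :=
      integrableOn_const (by rw [hvol]; exact ENNReal.one_ne_top)
    rw [hR, integral_const_mul, integral_add (hSi'.const_mul _) hci, integral_const_mul, hSre,
      setIntegral_const]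
    simp [Measure.real, hvol]
  rw [hRint] at hmain
  -- change of variables
  have hexp : Real.exp (-u') = N * Real.exp (-u) := by
    rw [hu', neg_sub, Real.exp_sub, Real.exp_log hN0, Real.exp_neg]
    field_simp
  have h1 : (1 + Real.exp (-u') / D) ^ 2 ≤ N ^ 2 * (1 + Real.exp (-u) / D) ^ 2 := by
    rw [← mul_pow, hexp]
    apply pow_le_pow_left₀ (by positivity)
    rw [mul_add, mul_one, mul_div_assoc]
    linarith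
  have h2 : X = Real.exp (-(c * N ^ (-ν)) * (Real.exp u * Ideal.absNorm 𝔮 * D) ^ ν) := by
    rw [hX]
    congr 1
    have : Real.exp u' * (Ideal.absNorm 𝔮 : ℝ) * D =
        N⁻¹ * (Real.exp u * Ideal.absNorm 𝔮 * D) := by
      rw [hu', Real.exp_sub, Real.exp_log hN0]
      field_simp
    rw [this, Real.mul_rpow (by positivity) (by positivity), Real.inv_rpow hN0.le,
      ← Real.rpow_neg hN0.le]
    ring
  have hX0 : 0 < X := Real.exp_pos _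
  set Z : ℝ := Real.exp (-(c * N ^ (-ν)) * (Real.exp u * Ideal.absNorm 𝔮 * D) ^ ν) with hZ
  set Sr : ℝ := (Scl 𝔟 b₂ (MSG2_F K) u).re with hSr
  have hsum : ∑ χ ∈ E, ‖(torsionOrder K : ℂ) *
      Scl 𝔟 (fun 𝔠 => b 𝔠 * ψ χ 𝔠) (Gf κ (lam χ)) u‖ ^ 2 =
      T ^ 2 * ∑ χ ∈ E, ‖Scl 𝔟 (fun 𝔠 => b 𝔠 * ψ χ 𝔠) (Gf κ (lam χ)) u‖ ^ 2 := by
    rw [Finset.mul_sum]
    apply Finset.sum_congr rfl
    intro χ _
    rw [norm_mul, mul_pow]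
    congr 2
    rw [hTdef]
    simp
  rw [hsum] at hmain
  set W : ℝ := ∑ χ ∈ E, ‖Scl 𝔟 (fun 𝔠 => b 𝔠 * ψ χ 𝔠) (Gf κ (lam χ)) u‖ ^ 2 with hW
  have hcard : 0 ≤ (Nat.card (𝓞 K ⧸ 𝔮)ˣ : ℝ) := Nat.cast_nonneg _
  have hT0 : 0 < T := by linarith
  have hTT : T ≤ T ^ 2 := by nlinarith
  have h3 : T ^ 2 * W ≤ T ^ 2 * ((Nat.card (𝓞 K ⧸ 𝔮)ˣ : ℝ) * (C * N ^ 2 * Sr +
      C * N ^ 2 * β ^ 2 * ((1 + Real.exp (-u) / D) ^ 2 * Z))) := by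
    refine hmain.trans ?_
    rw [mul_left_comm (T ^ 2)]
    apply mul_le_mul_of_nonneg_left _ hcard
    rw [mul_add]
    apply add_le_add
    · have h4 : C * (T * Sr) ≤ C * (T ^ 2 * Sr) :=
        mul_le_mul_of_nonneg_left (mul_le_mul_of_nonneg_right hTT hR0) hC
      have h5 : C * (T ^ 2 * Sr) ≤ T ^ 2 * (C * N ^ 2 * Sr) := by
        have : 0 ≤ C * (T ^ 2 * Sr) := by positivity
        have hN2 : 1 ≤ N ^ 2 := by nlinarith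
        calc C * (T ^ 2 * Sr) = C * (T ^ 2 * Sr) * 1 := by ring
          _ ≤ C * (T ^ 2 * Sr) * N ^ 2 := mul_le_mul_of_nonneg_left hN2 this
          _ = _ := by ring
      exact h4.trans h5
    · rw [h2]
      have hZ0 : 0 < Z := Real.exp_pos _
      have h6 : C * β ^ 2 * (1 + Real.exp (-u') / D) ^ 2 * Z ≤
          C * β ^ 2 * (N ^ 2 * (1 + Real.exp (-u) / D) ^ 2) * Z := by
        apply mul_le_mul_of_nonneg_right _ hZ0.le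
        exact mul_le_mul_of_nonneg_left h1 (by positivity)
      have hT2 : 1 ≤ T ^ 2 := by nlinarith
      calc C * β ^ 2 * (1 + Real.exp (-u') / D) ^ 2 * Z ≤
          1 * (C * β ^ 2 * (N ^ 2 * (1 + Real.exp (-u) / D) ^ 2) * Z) := by rw [one_mul]; exact h6
        _ ≤ T ^ 2 * (C * β ^ 2 * (N ^ 2 * (1 + Real.exp (-u) / D) ^ 2) * Z) := by
            apply mul_le_mul_of_nonneg_right hT2
            positivity
        _ = _ := by ring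
  exact le_of_mul_le_mul_left h3 (by positivity)

theorem mean_sq_gen_pr (κ : InfinitePlace K → ℤ) :
    ∃ C c : ℝ, 0 ≤ C ∧ 0 < c ∧ ∀ (𝔮 : Ideal (𝓞 K)) (_ : 𝔮 ≠ ⊥)
      (ι : Type) (J : Finset ι) (n : ι → Ideal (𝓞 K)) (a : ι → ℂ) (D : ℝ) (_ : 0 < D)
      (_ : ∀ i ∈ J, n i ≠ ⊥ ∧ IsCoprime (n i) 𝔮)
      (_ : ∀ i ∈ J, ∀ j ∈ J, D ≤ Ideal.absNorm (n i ⊔ n j))
      (E : Finset (MulChar (𝓞 K ⧸ 𝔮) ℂ)) (lam : MulChar (𝓞 K ⧸ 𝔮) ℂ → InfinitePlace K → ℝ)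
      (ψ : MulChar (𝓞 K ⧸ 𝔮) ℂ → (Ideal (𝓞 K) →* ℂ))
      (_ : ∀ χ ∈ E, IsHecke 𝔮 κ (lam χ) χ (ψ χ)) (u : ℝ),
      ∑ χ ∈ E, ‖Dser (fun 𝔠 => bn 𝔮 J n a 𝔠 * ψ χ 𝔠) (Gf κ (lam χ)) u‖ ^ 2 ≤
        (Nat.card (𝓞 K ⧸ 𝔮)ˣ : ℝ) *
        (C * (Real.exp u * ∑' 𝔠 : Ideal (𝓞 K), ‖bn 𝔮 J n a 𝔠‖ ^ 2 *
            kg K Real.pi (u + Real.log (Ideal.absNorm 𝔠))) +
         C * (∑ i ∈ J, ‖a i‖) ^ 2 * (Real.exp u * (1 + Real.exp (-u) / D) ^ 2 *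
          Real.exp (-c * (Real.exp u * Ideal.absNorm 𝔮 * D) ^
            (2 / (Module.finrank ℚ K : ℝ))))) := by
  classical
  -- representatives of the classes
  have hrep : ∀ cl : ClassGroup (𝓞 K), ∃ I : Ideal (𝓞 K), ∃ h : I ≠ ⊥,
      ClassGroup.mk0 ⟨I, mem_nonZeroDivisors_of_ne_zero h⟩ = cl := by
    intro cl
    obtain ⟨I, hI⟩ := ClassGroup.mk0_surjective cl
    exact ⟨I, nonZeroDivisors.ne_zero I.2, hI⟩
  choose rep h0 hrep using hrep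
  choose Cc cc hCc hcc hcl using fun cl => MSG2_class κ (h0 cl)
  obtain ⟨CG, hG⟩ := Gf_good (K := K) κ
  -- the constants
  obtain ⟨cl₀, -, hmin⟩ := Finset.exists_min_image (Finset.univ : Finset (ClassGroup (𝓞 K))) cc
    ⟨1, Finset.mem_univ _⟩
  set h : ℝ := ((Fintype.card (ClassGroup (𝓞 K)) : ℕ) : ℝ) with hh
  have hh0 : 0 ≤ h := Nat.cast_nonneg _
  set CS : ℝ := ∑ cl, Cc cl with hCS
  have hCS0 : 0 ≤ CS := Finset.sum_nonneg (fun cl _ => hCc cl)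
  refine ⟨h * CS, cc cl₀, by positivity, hcc cl₀, ?_⟩
  intro 𝔮 h𝔮 ι J n a D hD hJ hJJ E lam ψ hψ u
  have hb := MSG2_bn_le 𝔮 J n a
  have hb0 := MSG2_bn_bot 𝔮 J n a
  have hcl := fun cl => hcl cl 𝔮 h𝔮 ι J n a D hD hJ hJJ E lam ψ hψ u
  set β : ℝ := ∑ i ∈ J, ‖a i‖ with hβ
  set b : Ideal (𝓞 K) → ℂ := bn 𝔮 J n a with hbdef
  have hβ0 : 0 ≤ β := (norm_nonneg _).trans (hb ⊥)
  have hψ1 : ∀ χ ∈ E, ∀ 𝔠, ‖ψ χ 𝔠‖ ≤ 1 := by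
    intro χ hχ 𝔠
    by_cases h : IsCoprime 𝔠 𝔮
    · rw [(hψ χ hχ).norm_eq_one 𝔠 h]
    · rw [(hψ χ hχ).eq_zero 𝔠 h]
      simp
  set X : ℝ := (Real.exp u * Ideal.absNorm 𝔮 * D) ^ (2 / (Module.finrank ℚ K : ℝ)) with hX
  have hX0 : 0 ≤ X := by positivity
  set b₂ : Ideal (𝓞 K) → ℂ := fun 𝔠 => ((‖b 𝔠‖ ^ 2 : ℝ) : ℂ) with hb₂
  have hb₂le : ∀ 𝔠, ‖b₂ 𝔠‖ ≤ β ^ 2 := by
    intro 𝔠
    rw [hb₂]
    simp only [Complex.norm_real, Real.norm_eq_abs, abs_of_nonneg (sq_nonneg ‖b 𝔠‖)]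
    exact pow_le_pow_left₀ (norm_nonneg _) (hb 𝔠) 2
  have hb₂0 : b₂ ⊥ = 0 := by
    rw [hb₂]
    simp [hb0]
  -- the diagonal
  have hdiag : ∑ cl, (Scl (rep cl) b₂ (MSG2_F K) u).re =
      ∑' 𝔠 : Ideal (𝓞 K), ‖b 𝔠‖ ^ 2 * kg K Real.pi (u + Real.log (Ideal.absNorm 𝔠)) := by
    have h1 := Dser_classes rep h0 hrep (MSG2_F_good (K := K)) hb₂le hb₂0 u
    unfold Dser at h1
    have h2 := mul_left_cancel₀ (Complex.ofReal_ne_zero.mpr (Real.exp_pos (u / 2)).ne') h1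
    rw [← Complex.re_sum, ← h2]
    have h3 : ∑' 𝔠 : Ideal (𝓞 K), b₂ 𝔠 * kint K (MSG2_F K) (u + Real.log (Ideal.absNorm 𝔠)) =
        ((∑' 𝔠 : Ideal (𝓞 K), ‖b 𝔠‖ ^ 2 * kg K Real.pi (u + Real.log (Ideal.absNorm 𝔠)) : ℝ) : ℂ) := by
      rw [Complex.ofReal_tsum]
      apply tsum_congr
      intro 𝔠
      rw [MSG2_kint, hb₂]
      push_cast
      ring
    rw [h3, Complex.ofReal_re]
  set Dg : ℝ := ∑' 𝔠 : Ideal (𝓞 K), ‖b 𝔠‖ ^ 2 * kg K Real.pi (u + Real.log (Ideal.absNorm 𝔠))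
    with hDg
  have hre0 : ∀ cl, 0 ≤ (Scl (rep cl) b₂ (MSG2_F K) u).re := fun cl =>
    (hcl cl).1
  have hcard : 0 ≤ (Nat.card (𝓞 K ⧸ 𝔮)ˣ : ℝ) := Nat.cast_nonneg _
  set Q : ℝ := (Nat.card (𝓞 K ⧸ 𝔮)ˣ : ℝ) with hQ
  set Z : ℝ := Real.exp (-(cc cl₀) * X) with hZ
  have hZ0 : 0 < Z := Real.exp_pos _
  -- each χ
  have hχ : ∀ χ ∈ E, ‖Dser (fun 𝔠 => b 𝔠 * ψ χ 𝔠) (Gf κ (lam χ)) u‖ ^ 2 ≤
      Real.exp u * (h * ∑ cl, ‖Scl (rep cl) (fun 𝔠 => b 𝔠 * ψ χ 𝔠) (Gf κ (lam χ)) u‖ ^ 2) := by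
    intro χ hχE
    have hle : ∀ 𝔠, ‖b 𝔠 * ψ χ 𝔠‖ ≤ β := by
      intro 𝔠
      rw [norm_mul]
      calc ‖b 𝔠‖ * ‖ψ χ 𝔠‖ ≤ β * 1 :=
            mul_le_mul (hb 𝔠) (hψ1 χ hχE 𝔠) (norm_nonneg _) hβ0
        _ = β := mul_one β
    rw [Dser_classes rep h0 hrep (hG (lam χ)) hle (by simp [hb0]) u, norm_mul, mul_pow]
    have e1 : ‖((Real.exp (u / 2) : ℝ) : ℂ)‖ ^ 2 = Real.exp u := by
      rw [Complex.norm_real, Real.norm_eq_abs, abs_of_pos (Real.exp_pos _), ← Real.exp_nat_mul]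
      congr 1
      push_cast
      ring
    rw [e1]
    apply mul_le_mul_of_nonneg_left _ (Real.exp_pos u).le
    calc ‖∑ cl, Scl (rep cl) (fun 𝔠 => b 𝔠 * ψ χ 𝔠) (Gf κ (lam χ)) u‖ ^ 2
        ≤ (∑ cl, ‖Scl (rep cl) (fun 𝔠 => b 𝔠 * ψ χ 𝔠) (Gf κ (lam χ)) u‖) ^ 2 :=
          pow_le_pow_left₀ (norm_nonneg _) (norm_sum_le _ _) 2
      _ ≤ _ := by
          have := sq_sum_le_card_mul_sum_sq (s := (Finset.univ : Finset (ClassGroup (𝓞 K))))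
            (f := fun cl => ‖Scl (rep cl) (fun 𝔠 => b 𝔠 * ψ χ 𝔠) (Gf κ (lam χ)) u‖)
          rw [Finset.card_univ] at this
          exact this
  have hcl' : ∀ cl, ∑ χ ∈ E, ‖Scl (rep cl) (fun 𝔠 => b 𝔠 * ψ χ 𝔠) (Gf κ (lam χ)) u‖ ^ 2 ≤
      Q * (CS * (Scl (rep cl) b₂ (MSG2_F K) u).re +
        Cc cl * (β ^ 2 * ((1 + Real.exp (-u) / D) ^ 2 * Z))) := by
    intro cl
    refine (hcl cl).2.trans ?_
    apply mul_le_mul_of_nonneg_left _ hcard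
    apply add_le_add
    · apply mul_le_mul_of_nonneg_right _ (hre0 cl)
      exact Finset.single_le_sum (f := Cc) (fun i _ => hCc i) (Finset.mem_univ cl)
    · rw [mul_assoc (Cc cl)]
      apply mul_le_mul_of_nonneg_left _ (hCc cl)
      apply mul_le_mul_of_nonneg_left _ (sq_nonneg β)
      apply mul_le_mul_of_nonneg_left _ (sq_nonneg _)
      rw [hZ]
      apply Real.exp_le_exp.mpr
      have := mul_le_mul_of_nonneg_right (hmin cl (Finset.mem_univ cl)) hX0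
      linarith
  calc ∑ χ ∈ E, ‖Dser (fun 𝔠 => b 𝔠 * ψ χ 𝔠) (Gf κ (lam χ)) u‖ ^ 2
      ≤ ∑ χ ∈ E, Real.exp u *
        (h * ∑ cl, ‖Scl (rep cl) (fun 𝔠 => b 𝔠 * ψ χ 𝔠) (Gf κ (lam χ)) u‖ ^ 2) :=
        Finset.sum_le_sum hχ
    _ = Real.exp u * (h * ∑ cl, ∑ χ ∈ E,
        ‖Scl (rep cl) (fun 𝔠 => b 𝔠 * ψ χ 𝔠) (Gf κ (lam χ)) u‖ ^ 2) := by
        rw [← Finset.mul_sum, ← Finset.mul_sum, Finset.sum_comm]
    _ ≤ Real.exp u * (h * ∑ cl, Q * (CS * (Scl (rep cl) b₂ (MSG2_F K) u).re +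
        Cc cl * (β ^ 2 * ((1 + Real.exp (-u) / D) ^ 2 * Z)))) := by
        apply mul_le_mul_of_nonneg_left _ (Real.exp_pos u).le
        apply mul_le_mul_of_nonneg_left _ hh0
        exact Finset.sum_le_sum (fun cl _ => hcl' cl)
    _ = Q * (h * CS * (Real.exp u * Dg) +
        h * CS * β ^ 2 * (Real.exp u * (1 + Real.exp (-u) / D) ^ 2 * Z)) := by
        rw [← Finset.mul_sum, Finset.sum_add_distrib, ← Finset.mul_sum, ← Finset.sum_mul, hdiag,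
          ← hCS]
        ring
    _ = _ := by
        rw [hZ]

end Pool.Agent.KS

namespace Pool.Agent.KS

theorem mean_sq_gen : type_of% @mean_sq_gen_pr := @mean_sq_gen_pr

end Pool.Agent.KS
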