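import Pool.Agent.Lib_helper92.KSA.Base
import Pool.Agent.Lib_helper92.KSA.BRG
import Pool.Agent.Lib_helper92.KSA.DGE
import Pool.Agent.Lib_helper92.KSA.FKE
import Pool.Agent.Lib_helper92.KSA.GDK
import Pool.Agent.Lib_helper92.KSA.MSW2
import Pool.Agent.Lib_helper92.KSA.WNF

namespace Pool.Agent.KS

open NumberField NumberField.InfinitePlace NumberField.Units Complex MeasureTheory Filter Topology
open Pool.Agent.HZ Pool.Agent.AS
open scoped ENNReal

variable {K : Type} [Field K] [NumberField K]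

theorem mfw_cube {c : ℝ} (hc : 0 < c) {n : ℕ} (hn : 0 < n) : ∃ M : ℝ, 0 ≤ M ∧ ∀ t : ℝ, 0 < t →
    t ^ 3 * Real.exp (-c * t ^ (2 / (n : ℝ))) ≤ M := by
  set m : ℕ := 2 * n with hm
  refine ⟨1 + (m.factorial : ℝ) / c ^ m, by positivity, fun t ht => ?_⟩
  have hpow0 : 0 < t ^ (2 / (n : ℝ)) := Real.rpow_pos_of_pos ht _
  have hM0 : 0 ≤ (m.factorial : ℝ) / c ^ m := by positivity
  rcases le_or_gt t 1 with h | h
  · have h1 : Real.exp (-c * t ^ (2 / (n : ℝ))) ≤ 1 := by
      rw [Real.exp_le_one_iff]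
      nlinarith
    have h2 : t ^ 3 ≤ 1 := pow_le_one₀ ht.le h
    calc t ^ 3 * Real.exp (-c * t ^ (2 / (n : ℝ))) ≤ 1 * 1 :=
          mul_le_mul h2 h1 (Real.exp_pos _).le zero_le_one
      _ ≤ _ := by linarith
  · have hx : 0 < c * t ^ (2 / (n : ℝ)) := mul_pos hc hpow0
    have h1 := Real.pow_div_factorial_le_exp (c * t ^ (2 / (n : ℝ))) hx.le m
    have h2 : (c * t ^ (2 / (n : ℝ))) ^ m = c ^ m * t ^ 4 := by
      rw [mul_pow]
      congr 1
      rw [← Real.rpow_natCast (t ^ (2 / (n : ℝ))) m, ← Real.rpow_mul ht.le]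
      have : 2 / (n : ℝ) * (m : ℝ) = ((4 : ℕ) : ℝ) := by
        rw [hm]
        have hn' : (n : ℝ) ≠ 0 := by exact_mod_cast hn.ne'
        push_cast
        field_simp
        norm_num
      rw [this, Real.rpow_natCast]
    rw [h2] at h1
    have hexp : Real.exp (-c * t ^ (2 / (n : ℝ))) = (Real.exp (c * t ^ (2 / (n : ℝ))))⁻¹ := by
      rw [← Real.exp_neg]
      congr 1
      ring
    have hcm : 0 < c ^ m := by positivity
    have hf : (0 : ℝ) < (m.factorial : ℝ) := by exact_mod_cast Nat.factorial_pos m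
    have h3 : (Real.exp (c * t ^ (2 / (n : ℝ))))⁻¹ ≤ (m.factorial : ℝ) / (c ^ m * t ^ 4) := by
      have h4 : 0 < c ^ m * t ^ 4 / (m.factorial : ℝ) := by positivity
      have h5 := inv_anti₀ h4 h1
      rwa [inv_div] at h5
    rw [hexp]
    calc t ^ 3 * (Real.exp (c * t ^ (2 / (n : ℝ))))⁻¹
        ≤ t ^ 3 * ((m.factorial : ℝ) / (c ^ m * t ^ 4)) :=
          mul_le_mul_of_nonneg_left h3 (by positivity)
      _ = (m.factorial : ℝ) / c ^ m * t⁻¹ := by
          field_simp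
      _ ≤ (m.factorial : ℝ) / c ^ m * 1 :=
          mul_le_mul_of_nonneg_left (inv_le_one_of_one_le₀ h.le) hM0
      _ ≤ _ := by linarith

theorem mfw_kg_nonneg (c u : ℝ) : 0 ≤ kg K c u := integral_nonneg (fun _ => (Real.exp_pos _).le)

theorem mean_fK_W_pr (κ : InfinitePlace K → ℤ) :
    ∃ C : ℝ, 0 ≤ C ∧ ∀ (𝔮 : Ideal (𝓞 K)) (_ : 𝔮 ≠ ⊥) (_ : 𝔮 ≠ ⊤)
      (E : Finset (MulChar (𝓞 K ⧸ 𝔮) ℂ)) (lam : MulChar (𝓞 K ⧸ 𝔮) ℂ → InfinitePlace K → ℝ)
      (ψ : MulChar (𝓞 K ⧸ 𝔮) ℂ → (Ideal (𝓞 K) →* ℂ))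
      (_ : ∀ χ ∈ E, IsHecke 𝔮 κ (lam χ) χ (ψ χ) ∧ ∑ w, lam χ w = 0) (L : ℝ) (_ : 1 ≤ L)
      (_ : 32 * L = Real.log (cond 𝔮))
      (W : ℝ → ℂ) (_ : Measurable W) (R : ℝ) (_ : ∀ v, ‖W v‖ ≤ R)
      (_ : ∀ v, v < 0 ∨ R < v → W v = 0),
      ENNReal.ofReal (∑ χ ∈ E,
          ‖∫ v, fK L (Real.log (cond 𝔮)) κ (lam χ) (ψ χ) v * W v‖ ^ 2) ≤
        ∫⁻ v, ∫⁻ v', ‖W v‖ₑ * ‖W v'‖ₑ * ENNReal.ofReal
          ((Nat.card (𝓞 K ⧸ 𝔮)ˣ : ℝ) *
            (C * (Real.exp ((v + v') / 2 - wn (Module.finrank ℚ K) v v') *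
                Diag (NK K) (kg K Real.pi) L (QK 𝔮) (wn (Module.finrank ℚ K) v v' - 16 * L)) +
             C * Real.exp (-((v + v') / 2)) / L)) := by
  obtain ⟨C1, c1, hC1, hc1, hms⟩ := mean_sq_W (K := K) κ
  obtain ⟨Cb, hCb, hball⟩ := ball_card (good_NK K)
  set n : ℕ := Module.finrank ℚ K with hndef
  have hn : 0 < n := Module.finrank_pos
  obtain ⟨M, hM, hMt⟩ := mfw_cube hc1 hn
  set d : ℝ := |(discr K : ℝ)| with hd
  have hd0 : 0 < d := abs_pos.mpr (Int.cast_ne_zero.mpr (discr_ne_zero K))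
  set C2 : ℝ := C1 * Cb ^ 4 * d ^ 3 * M with hC2
  have hC20 : 0 ≤ C2 := by positivity
  refine ⟨C1 + C2, by positivity, ?_⟩
  intro 𝔮 h𝔮 h𝔮' E lam ψ hψ L hL hLc W hW R hR hWz
  have hL0 : 0 < L := by linarith
  have hR0 : 0 ≤ R := le_trans (norm_nonneg _) (hR 0)
  obtain ⟨𝔏, nn, hn1, hn2, hn3, hn4⟩ := fK_eq2 (K := K) h𝔮 h𝔮' (κ := κ) hL0 (Real.log (cond 𝔮))
  have hpos : ∀ g : PK K →₀ ℕ, (0 : ℝ) < (nm (NK K) g : ℝ) := fun g => by
    exact_mod_cast nm_pos two_le_NK g
  have hone : ∀ g : PK K →₀ ℕ, (1 : ℝ) ≤ (nm (NK K) g : ℝ) := fun g => by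
    exact_mod_cast nm_pos two_le_NK g
  set J := JJ (NK K) L (QK 𝔮) with hJ
  set N𝔏 : ℝ := (nm (NK K) 𝔏 : ℝ) with hN𝔏
  have hN0 : 0 < N𝔏 := hpos 𝔏
  set D : ℝ := N𝔏 * Real.exp (-(2 * L)) with hD
  have hD0 : 0 < D := mul_pos hN0 (Real.exp_pos _)
  set s : ℝ := 16 * L + lK 𝔏 with hs
  have hsexp : Real.exp s = Real.exp (16 * L) * N𝔏 := by
    rw [hs, Real.exp_add, lK, Real.exp_log hN0]
  set b : Ideal (𝓞 K) → ℂ := bn 𝔮 J nn (fun j => (cc (NK K) L j : ℂ)) with hb
  set W' : ℝ → ℂ := fun u => W (u + s) with hW'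
  set R' : ℝ := R + |s| with hR'
  set φ : ℝ := (Nat.card (𝓞 K ⧸ 𝔮)ˣ : ℝ) with hφ
  have hφ0 : 0 ≤ φ := Nat.cast_nonneg _
  -- the left hand side
  have hlhs : ∑ χ ∈ E, ‖∫ v, fK L (Real.log (cond 𝔮)) κ (lam χ) (ψ χ) v * W v‖ ^ 2 =
      N𝔏 * ∑ χ ∈ E, ‖∫ u, Dser (fun 𝔠 => b 𝔠 * ψ χ 𝔠) (Gf κ (lam χ)) u * W' u‖ ^ 2 := by
    rw [Finset.mul_sum]
    refine Finset.sum_congr rfl (fun χ hχ => ?_)
    obtain ⟨θ, hθ, hθv⟩ := hn4 (lam χ) χ (ψ χ) (hψ χ hχ).1
    have h1 : ∀ v : ℝ, fK L (Real.log (cond 𝔮)) κ (lam χ) (ψ χ) v * W v =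
        (θ * (√N𝔏 : ℂ)) * ((fun u => Dser (fun 𝔠 => b 𝔠 * ψ χ 𝔠) (Gf κ (lam χ)) u * W' u)
          (v - s)) := by
      intro v
      rw [hθv v]
      have h2 : v - Real.log (cond 𝔮) / 2 - lK 𝔏 = v - s := by
        rw [← hLc, hs]
        ring
      simp only [hW', sub_add_cancel, h2]
      ring
    rw [integral_congr_ae (Eventually.of_forall h1), integral_const_mul,
      integral_sub_right_eq_self (fun u => Dser (fun 𝔠 => b 𝔠 * ψ χ 𝔠) (Gf κ (lam χ)) u * W' u) s,
      norm_mul, norm_mul, hθ, one_mul, mul_pow, Complex.norm_real, Real.norm_eq_abs, sq_abs,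
      Real.sq_sqrt hN0.le]
  -- apply the weighted mean square
  have hW'm : Measurable W' := hW.comp (measurable_id.add_const s)
  have hms1 := hms 𝔮 h𝔮 ((PK K →₀ ℕ) × (PK K →₀ ℕ)) J nn (fun j => |cc (NK K) L j|) D hD0
    (fun i hi => ⟨abs_nonneg _, hn2 i hi⟩) hn3 b
    (by
      intro 𝔠 h𝔠
      rw [hb, bn, if_neg]
      rintro ⟨h1, h2⟩
      rcases h𝔠 with h | h
      · exact h1 h
      · exact h h2)
    (by
      classical
      intro 𝔠
      rw [hb, bn]
      split_ifs with h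
      · refine (norm_sum_le _ _).trans (Finset.sum_le_sum (fun i _ => ?_))
        by_cases h2 : nn i ∣ 𝔠
        · rw [if_pos h2, if_pos h2, Complex.norm_real, Real.norm_eq_abs]
        · rw [if_neg h2, if_neg h2, norm_zero]
      · rw [norm_zero]
        exact Finset.sum_nonneg (fun i _ => by split_ifs <;> positivity))
    E lam ψ hψ W' hW'm R'
    (fun u => (hR _).trans (by rw [hR']; linarith [abs_nonneg s]))
    (by
      intro u hu
      apply hWz
      rw [hR'] at hu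
      rcases le_or_gt 0 u with h | h
      · right
        rw [abs_of_nonneg h] at hu
        have := neg_abs_le s
        linarith
      · left
        rw [abs_of_neg h] at hu
        have := le_abs_self s
        linarith)
  set S : ℝ := ∑ j ∈ J, |cc (NK K) L j| with hS
  have hS0 : 0 ≤ S := Finset.sum_nonneg (fun j _ => abs_nonneg _)
  -- the size of S
  have hcc : ∀ j, |cc (NK K) L j| ≤ 1 := by
    intro j
    rw [cc, abs_div, abs_mul, abs_of_pos (hpos j.2), div_le_one (hpos j.2)]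
    calc |be (NK K) L j.1| * |be (NK K) L j.2| ≤ 1 * 1 :=
          mul_le_mul (be_abs two_le_NK hL0 j.1) (be_abs two_le_NK hL0 j.2) (abs_nonneg _)
            zero_le_one
      _ ≤ _ := by rw [one_mul]; exact hone j.2
  have hSle : S ≤ Cb ^ 2 * Real.exp (4 * L) := by
    have h2 : S ≤ J.card := by
      calc S ≤ ∑ j ∈ J, (1 : ℝ) := Finset.sum_le_sum (fun j _ => hcc j)
        _ = J.card := by simp
    have h3 : (J.card : ℝ) ≤ ((ball (NK K) (Real.exp L)).card : ℝ) ^ 2 := by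
      have h4 : J.card ≤ (ball (NK K) (Real.exp L) ×ˢ ball (NK K) (Real.exp L)).card := by
        classical
        refine Finset.card_le_card (fun x hx => ?_)
        rw [hJ] at hx
        unfold JJ at hx
        rw [Finset.mem_filter] at hx
        exact hx.1
      rw [Finset.card_product] at h4
      rw [sq]
      exact_mod_cast h4
    have h5 := hball (Real.exp L) (Real.one_le_exp hL0.le)
    calc S ≤ ((ball (NK K) (Real.exp L)).card : ℝ) ^ 2 := h2.trans h3
      _ ≤ (Cb * Real.exp L ^ 2) ^ 2 := pow_le_pow_left₀ (by positivity) h5 2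
      _ = Cb ^ 2 * Real.exp (4 * L) := by
          have : Real.exp (4 * L) = Real.exp L ^ 4 := by
            rw [← Real.exp_nat_mul]
            norm_num
          rw [this]
          ring
  have hS2 : S ^ 2 ≤ Cb ^ 4 * Real.exp (8 * L) := by
    calc S ^ 2 ≤ (Cb ^ 2 * Real.exp (4 * L)) ^ 2 := pow_le_pow_left₀ hS0 hSle 2
      _ = Cb ^ 4 * Real.exp (8 * L) := by
          rw [mul_pow, ← Real.exp_nat_mul]
          push_cast
          ring_nf
  have hcond : 0 < HZ.cond 𝔮 := by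
    by_contra hcon
    push Not at hcon
    have h2 : HZ.cond 𝔮 = 0 := le_antisymm hcon (by
      rw [HZ.cond]
      positivity)
    rw [h2, Real.log_zero] at hLc
    linarith
  have hNq : (Ideal.absNorm 𝔮 : ℝ) = Real.exp (32 * L) / d := by
    rw [hLc, Real.exp_log hcond, HZ.cond, ← hd]
    field_simp
  -- the pointwise inequality
  have hpt : ∀ v v' : ℝ, 0 ≤ v → 0 ≤ v' →
      N𝔏 * (φ * (C1 * (Real.exp (((v - s) + (v' - s)) / 2) * ∑' 𝔠 : Ideal (𝓞 K), ‖b 𝔠‖ ^ 2 *
            kg K Real.pi (wn n (v - s) (v' - s) + Real.log (Ideal.absNorm 𝔠))) +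
          C1 * S ^ 2 * (Real.exp (-(((v - s) + (v' - s)) / 2)) / D ^ 2 *
            Real.exp (-c1 * (Real.exp (min (v - s) (v' - s)) * Ideal.absNorm 𝔮 * D) ^
              (2 / (n : ℝ)))))) ≤
        φ * ((C1 + C2) * (Real.exp ((v + v') / 2 - wn n v v') *
            Diag (NK K) (kg K Real.pi) L (QK 𝔮) (wn n v v' - 16 * L)) +
          (C1 + C2) * Real.exp (-((v + v') / 2)) / L) := by
    intro v v' hv hv'
    have hwn : wn n (v - s) (v' - s) = wn n v v' - 16 * L - lK 𝔏 := by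
      have := wn_shift hn v v' (-s)
      rw [← sub_eq_add_neg, ← sub_eq_add_neg] at this
      rw [this, hs]
      ring
    have hdiag := diag_eq (K := K) h𝔮 hL0 hn1 hn2 (wn n v v' - 16 * L)
    rw [← hwn, ← hN𝔏] at hdiag
    set Dg : ℝ := Diag (NK K) (kg K Real.pi) L (QK 𝔮) (wn n v v' - 16 * L) with hDg
    set Sb : ℝ := ∑' 𝔠 : Ideal (𝓞 K), ‖b 𝔠‖ ^ 2 *
      kg K Real.pi (wn n (v - s) (v' - s) + Real.log (Ideal.absNorm 𝔠)) with hSb
    have hdiag' : N𝔏 * (Real.exp (wn n (v - s) (v' - s)) * Sb) = Dg := hdiag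
    have hSb0 : 0 ≤ Sb := tsum_nonneg fun 𝔠 => mul_nonneg (by positivity) (mfw_kg_nonneg _ _)
    have hDg0 : 0 ≤ Dg := by
      rw [← hdiag']
      positivity
    have hfirst : N𝔏 * (C1 * (Real.exp (((v - s) + (v' - s)) / 2) * Sb)) =
        C1 * (Real.exp ((v + v') / 2 - wn n v v') * Dg) := by
      rw [← hdiag']
      have h2 : Real.exp (((v - s) + (v' - s)) / 2) =
          Real.exp ((v + v') / 2 - wn n v v') * Real.exp (wn n (v - s) (v' - s)) := by
        rw [← Real.exp_add, hwn, hs]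
        congr 1
        ring
      rw [h2]
      ring
    set y : ℝ := min v v' + 14 * L with hy
    have hmin0 : 0 ≤ min v v' := le_min hv hv'
    have he4 : Real.exp (min (v - s) (v' - s)) * Ideal.absNorm 𝔮 * D = Real.exp y / d := by
      have h2 : min (v - s) (v' - s) = min v v' - s := min_sub_sub_right v v' s
      rw [h2, Real.exp_sub, hsexp, hNq, hD]
      have h3 : Real.exp y = Real.exp (min v v') * Real.exp (32 * L) * Real.exp (-(2 * L)) /
          Real.exp (16 * L) := by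
        rw [← Real.exp_add, ← Real.exp_add, ← Real.exp_sub]
        congr 1
        rw [hy]
        ring
      rw [h3]
      field_simp
    set t : ℝ := Real.exp y / d with ht
    have ht0 : 0 < t := by positivity
    have hcube := hMt t ht0
    set X : ℝ := Real.exp (-c1 * t ^ (2 / (n : ℝ))) with hX
    have hX0 : 0 < X := Real.exp_pos _
    have he5 : N𝔏 * (Real.exp (-(((v - s) + (v' - s)) / 2)) / D ^ 2) =
        Real.exp (20 * L) * Real.exp (-((v + v') / 2)) := by
      have h2 : Real.exp (-(((v - s) + (v' - s)) / 2)) =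
          Real.exp (-((v + v') / 2)) * (Real.exp (16 * L) * N𝔏) := by
        rw [← hsexp, ← Real.exp_add]
        congr 1
        ring
      have h3 : Real.exp (20 * L) = Real.exp (16 * L) / Real.exp (-(2 * L)) ^ 2 := by
        rw [← Real.exp_nat_mul, ← Real.exp_sub]
        congr 1
        push_cast
        ring
      rw [h2, h3, hD]
      field_simp
    have hsecond : N𝔏 * (C1 * S ^ 2 * (Real.exp (-(((v - s) + (v' - s)) / 2)) / D ^ 2 *
        Real.exp (-c1 * (Real.exp (min (v - s) (v' - s)) * Ideal.absNorm 𝔮 * D) ^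
          (2 / (n : ℝ))))) ≤ C2 * Real.exp (-((v + v') / 2)) / L := by
      rw [he4]
      have hLy : L ≤ Real.exp y := by
        have := Real.add_one_le_exp y
        rw [hy] at this ⊢
        linarith
      calc N𝔏 * (C1 * S ^ 2 * (Real.exp (-(((v - s) + (v' - s)) / 2)) / D ^ 2 *
            Real.exp (-c1 * t ^ (2 / (n : ℝ)))))
          = C1 * S ^ 2 * ((N𝔏 * (Real.exp (-(((v - s) + (v' - s)) / 2)) / D ^ 2)) * X) := by
            rw [hX]
            ring
        _ = C1 * S ^ 2 * (Real.exp (20 * L) * Real.exp (-((v + v') / 2)) * X) := by rw [he5]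
        _ ≤ C1 * (Cb ^ 4 * Real.exp (8 * L)) *
            (Real.exp (20 * L) * Real.exp (-((v + v') / 2)) * X) := by
            gcongr
        _ = C1 * Cb ^ 4 * (Real.exp (28 * L) * Real.exp (-((v + v') / 2)) * X) := by
            have h6 : Real.exp (28 * L) = Real.exp (8 * L) * Real.exp (20 * L) := by
              rw [← Real.exp_add]
              congr 1
              ring
            rw [h6]
            ring
        _ ≤ C1 * Cb ^ 4 * ((Real.exp (3 * y) / L) * Real.exp (-((v + v') / 2)) * X) := by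
            have h7 : Real.exp (28 * L) ≤ Real.exp (3 * y) / L := by
              rw [le_div_iff₀ hL0]
              calc Real.exp (28 * L) * L ≤ Real.exp (2 * y) * Real.exp y := by
                    refine mul_le_mul (Real.exp_le_exp.mpr ?_) hLy hL0.le (Real.exp_pos _).le
                    rw [hy]
                    linarith
                _ = Real.exp (3 * y) := by
                    rw [← Real.exp_add]
                    congr 1
                    ring
            gcongr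
        _ = C1 * Cb ^ 4 * d ^ 3 * (t ^ 3 * X) * Real.exp (-((v + v') / 2)) / L := by
            have h8 : Real.exp (3 * y) = d ^ 3 * t ^ 3 := by
              have h9 : Real.exp (3 * y) = Real.exp y ^ 3 := by
                rw [← Real.exp_nat_mul]
                norm_num
              rw [ht, div_pow, h9]
              field_simp
            rw [h8]
            ring
        _ ≤ C1 * Cb ^ 4 * d ^ 3 * M * Real.exp (-((v + v') / 2)) / L := by
            gcongr
        _ = C2 * Real.exp (-((v + v') / 2)) / L := by rw [hC2]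
    calc N𝔏 * (φ * (C1 * (Real.exp (((v - s) + (v' - s)) / 2) * Sb) +
          C1 * S ^ 2 * (Real.exp (-(((v - s) + (v' - s)) / 2)) / D ^ 2 *
            Real.exp (-c1 * (Real.exp (min (v - s) (v' - s)) * Ideal.absNorm 𝔮 * D) ^
              (2 / (n : ℝ))))))
        = φ * (N𝔏 * (C1 * (Real.exp (((v - s) + (v' - s)) / 2) * Sb)) +
          N𝔏 * (C1 * S ^ 2 * (Real.exp (-(((v - s) + (v' - s)) / 2)) / D ^ 2 *
            Real.exp (-c1 * (Real.exp (min (v - s) (v' - s)) * Ideal.absNorm 𝔮 * D) ^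
              (2 / (n : ℝ)))))) := by ring
      _ ≤ φ * ((C1 + C2) * (Real.exp ((v + v') / 2 - wn n v v') * Dg) +
          (C1 + C2) * Real.exp (-((v + v') / 2)) / L) := by
          refine mul_le_mul_of_nonneg_left (add_le_add ?_ ?_) hφ0
          · rw [hfirst]
            exact mul_le_mul_of_nonneg_right (by linarith) (by positivity)
          · refine hsecond.trans (div_le_div_of_nonneg_right ?_ hL0.le)
            exact mul_le_mul_of_nonneg_right (by linarith) (Real.exp_pos _).le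
  -- conclusion
  rw [hlhs, ENNReal.ofReal_mul hN0.le]
  refine (mul_le_mul_right hms1 _).trans ?_
  set F : ℝ → ℝ → ℝ≥0∞ := fun u u' => ‖W' u‖ₑ * ‖W' u'‖ₑ * ENNReal.ofReal
    (φ * (C1 * (Real.exp ((u + u') / 2) * ∑' 𝔠 : Ideal (𝓞 K), ‖b 𝔠‖ ^ 2 *
        kg K Real.pi (wn n u u' + Real.log (Ideal.absNorm 𝔠))) +
      C1 * S ^ 2 * (Real.exp (-((u + u') / 2)) / D ^ 2 *
        Real.exp (-c1 * (Real.exp (min u u') * Ideal.absNorm 𝔮 * D) ^ (2 / (n : ℝ)))))) with hF
  have hshift : ∫⁻ u, ∫⁻ u', F u u' = ∫⁻ v, ∫⁻ v', F (v - s) (v' - s) := by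
    rw [← lintegral_sub_right_eq_self (fun u => ∫⁻ u', F u u') s]
    refine lintegral_congr (fun v => ?_)
    rw [← lintegral_sub_right_eq_self (fun u' => F (v - s) u') s]
  have hgoal : ENNReal.ofReal N𝔏 * ∫⁻ u, ∫⁻ u', F u u' ≤
      ∫⁻ v, ∫⁻ v', ‖W v‖ₑ * ‖W v'‖ₑ * ENNReal.ofReal
          (φ * ((C1 + C2) * (Real.exp ((v + v') / 2 - wn n v v') *
                Diag (NK K) (kg K Real.pi) L (QK 𝔮) (wn n v v' - 16 * L)) +
             (C1 + C2) * Real.exp (-((v + v') / 2)) / L)) := by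
    rw [hshift, ← lintegral_const_mul' _ _ ENNReal.ofReal_ne_top]
    refine lintegral_mono (fun v => ?_)
    simp only
    rw [← lintegral_const_mul' _ _ ENNReal.ofReal_ne_top]
    refine lintegral_mono (fun v' => ?_)
    simp only [hF, hW', sub_add_cancel]
    by_cases hv : v < 0
    · rw [hWz v (Or.inl hv)]
      simp
    · by_cases hv' : v' < 0
      · rw [hWz v' (Or.inl hv')]
        simp
      · push Not at hv hv'
        have h1 := hpt v v' hv hv'
        calc ENNReal.ofReal N𝔏 * (‖W v‖ₑ * ‖W v'‖ₑ * ENNReal.ofReal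
              (φ * (C1 * (Real.exp (((v - s) + (v' - s)) / 2) * ∑' 𝔠 : Ideal (𝓞 K),
                ‖b 𝔠‖ ^ 2 * kg K Real.pi (wn n (v - s) (v' - s) +
                  Real.log (Ideal.absNorm 𝔠))) +
              C1 * S ^ 2 * (Real.exp (-(((v - s) + (v' - s)) / 2)) / D ^ 2 *
                Real.exp (-c1 * (Real.exp (min (v - s) (v' - s)) * Ideal.absNorm 𝔮 * D) ^
                  (2 / (n : ℝ)))))))
            = ‖W v‖ₑ * ‖W v'‖ₑ * (ENNReal.ofReal N𝔏 * ENNReal.ofReal
              (φ * (C1 * (Real.exp (((v - s) + (v' - s)) / 2) * ∑' 𝔠 : Ideal (𝓞 K),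
                ‖b 𝔠‖ ^ 2 * kg K Real.pi (wn n (v - s) (v' - s) +
                  Real.log (Ideal.absNorm 𝔠))) +
              C1 * S ^ 2 * (Real.exp (-(((v - s) + (v' - s)) / 2)) / D ^ 2 *
                Real.exp (-c1 * (Real.exp (min (v - s) (v' - s)) * Ideal.absNorm 𝔮 * D) ^
                  (2 / (n : ℝ))))))) := by ring
          _ ≤ _ := by
              rw [← ENNReal.ofReal_mul hN0.le]
              gcongr
  exact hgoal

end Pool.Agent.KS

namespace Pool.Agent.KS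

theorem mean_fK_W : type_of% @mean_fK_W_pr := @mean_fK_W_pr

end Pool.Agent.KS
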