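import Pool.Agent.Lib_helper92.KSA.Base

/-!
# Block REF: the reference densities, uniformly in `λ`
-/

namespace Pool.Agent.KS

open NumberField NumberField.InfinitePlace NumberField.Units Complex MeasureTheory Filter Topology
open Pool.Agent.HZ Pool.Agent.AS
open scoped ENNReal

theorem ref_compact {X : Type*} [PseudoMetricSpace X] {S : Set (X × ℝ)} (hSc : IsCompact S)
    {G : X × ℝ → ℂ} (hGc : Continuous G) (hG : ∀ p, G p ≠ 0) :
    ∃ m δ : ℝ, 0 < m ∧ 0 < δ ∧ ∀ x : X,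
      (∀ t : ℝ, (x, t) ∈ S → m ≤ ‖G (x, t)‖) ∧
      ∀ t s : ℝ, (x, t) ∈ S → (x, s) ∈ S → |t - s| < δ → ‖G (x, t) - G (x, s)‖ ≤ m / 2 := by
  obtain ⟨m, hm, hmS⟩ : ∃ m : ℝ, 0 < m ∧ ∀ p ∈ S, m ≤ ‖G p‖ := by
    rcases S.eq_empty_or_nonempty with h | h
    · exact ⟨1, one_pos, fun p hp => by rw [h] at hp; exact hp.elim⟩
    · obtain ⟨p₀, hp₀, hmin⟩ := hSc.exists_isMinOn h hGc.norm.continuousOn
      exact ⟨‖G p₀‖, norm_pos_iff.2 (hG p₀), fun p hp => hmin hp⟩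
  have huc : UniformContinuousOn G S := hSc.uniformContinuousOn_of_continuous hGc.continuousOn
  rw [Metric.uniformContinuousOn_iff] at huc
  obtain ⟨δ, hδ, hδS⟩ := huc (m / 2) (by positivity)
  refine ⟨m, δ, hm, hδ, fun x => ⟨fun t ht => hmS _ ht, ?_⟩⟩
  intro t s ht hs hts
  have h1 := hδS _ ht _ hs (by
    rw [Prod.dist_eq, dist_self, max_eq_right dist_nonneg, Real.dist_eq]
    exact hts)
  rw [dist_eq_norm] at h1
  exact h1.le

variable {K : Type} [Field K] [NumberField K]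

theorem ref_gam_pr (κ : InfinitePlace K → ℤ) (T B : ℝ) : ∃ m δ : ℝ, 0 < m ∧ 0 < δ ∧
    ∀ lam : InfinitePlace K → ℝ, (∀ w, |lam w| ≤ B) →
      (∀ t : ℝ, |t| ≤ T → m ≤ ‖gam κ lam (1 / 2 + t * I)‖) ∧
      ∀ t s : ℝ, |t| ≤ T → |s| ≤ T → |t - s| < δ →
        ‖gam κ lam (1 / 2 + t * I) - gam κ lam (1 / 2 + s * I)‖ ≤ m / 2 := by
  have hSc : IsCompact ((Set.univ.pi fun _ => Set.Icc (-B) B) ×ˢ Set.Icc (-T) T :
      Set ((InfinitePlace K → ℝ) × ℝ)) :=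
    (isCompact_univ_pi fun _ => isCompact_Icc).prod isCompact_Icc
  obtain ⟨m, δ, hm, hδ, h⟩ := ref_compact hSc (gam_continuous κ)
    (fun p => gam_ne_zero κ p.1 p.2)
  have hmem : ∀ lam : InfinitePlace K → ℝ, (∀ w, |lam w| ≤ B) → ∀ t : ℝ, |t| ≤ T →
      (lam, t) ∈ ((Set.univ.pi fun _ => Set.Icc (-B) B) ×ˢ Set.Icc (-T) T :
      Set ((InfinitePlace K → ℝ) × ℝ)) := by
    intro lam hlam t ht
    exact ⟨fun w _ => abs_le.1 (hlam w), abs_le.1 ht⟩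
  refine ⟨m, δ, hm, hδ, fun lam hlam => ⟨fun t ht => (h lam).1 t (hmem lam hlam t ht), ?_⟩⟩
  intro t s ht hs hts
  exact (h lam).2 t s (hmem lam hlam t ht) (hmem lam hlam s hs) hts

end Pool.Agent.KS

namespace Pool.Agent.KS

theorem ref_gam : type_of% @ref_gam_pr := @ref_gam_pr

end Pool.Agent.KS
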