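import Pool.Agent.Lib_helper92.KSA.Base

/-!
# Block WIN: windows of the Gamma factor
-/

namespace Pool.Agent.KS

open NumberField NumberField.InfinitePlace NumberField.Units Complex MeasureTheory Filter Topology
open Pool.Agent.HZ Pool.Agent.AS

variable {K : Type} [Field K] [NumberField K]

/-- the abstract form: a continuous family of functions without zeros -/
theorem WIN_abs {X : Type} [PseudoMetricSpace X] {S : Set X} (hS : IsCompact S)
    {g : X × ℝ → ℂ} (hg : Continuous g) (h0 : ∀ p, g p ≠ 0) (T : ℝ) :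
    ∃ c₀ H₀ : ℝ, 0 < c₀ ∧ 0 < H₀ ∧ ∀ x ∈ S, ∀ t : ℝ, -T ≤ t → t ≤ T →
      ∀ H : ℝ, 0 ≤ H → H ≤ H₀ → c₀ * H ≤ ‖∫ s in t..(t + H), g (x, s)‖ := by
  set Q : Set (X × ℝ) := S ×ˢ Set.Icc (-T) (T + 1) with hQ
  have hQc : IsCompact Q := hS.prod isCompact_Icc
  -- a lower bound for the values
  obtain ⟨m, hm, hmQ⟩ : ∃ m : ℝ, 0 < m ∧ ∀ p ∈ Q, m ≤ ‖g p‖ := by
    rcases Q.eq_empty_or_nonempty with h | h
    · refine ⟨1, one_pos, fun p hp => ?_⟩
      rw [h] at hp
      exact absurd hp (Set.notMem_empty p)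
    · obtain ⟨p, hp, hmin⟩ := hQc.exists_isMinOn h hg.norm.continuousOn
      exact ⟨‖g p‖, norm_pos_iff.mpr (h0 p), fun q hq => hmin hq⟩
  have huc : UniformContinuousOn g Q := hQc.uniformContinuousOn_of_continuous hg.continuousOn
  rw [Metric.uniformContinuousOn_iff] at huc
  obtain ⟨δ, hδ, hδ'⟩ := huc (m / 2) (by linarith)
  refine ⟨m / 2, min (δ / 2) 1, by linarith, by positivity, ?_⟩
  intro x hx t ht1 ht2 H hH0 hH
  have hH1 : H ≤ 1 := hH.trans (min_le_right _ _)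
  have hH2 : H ≤ δ / 2 := hH.trans (min_le_left _ _)
  have hgc : Continuous fun s : ℝ => g (x, s) := hg.comp (by fun_prop)
  have htQ : (x, t) ∈ Q := ⟨hx, ⟨ht1, by simp only; linarith⟩⟩
  have hpt : ∀ s ∈ Set.uIoc t (t + H), ‖g (x, s) - g (x, t)‖ ≤ m / 2 := by
    intro s hs
    rw [Set.uIoc_of_le (by linarith)] at hs
    have hsQ : (x, s) ∈ Q := ⟨hx, ⟨by have := hs.1; simp only; linarith,
      by have := hs.2; simp only; linarith⟩⟩
    have hd : dist (x, s) (x, t) < δ := by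
      rw [Prod.dist_eq, dist_self, Real.dist_eq]
      refine max_lt hδ ?_
      rw [abs_of_nonneg (by have := hs.1; linarith)]
      have := hs.2
      linarith
    have := hδ' _ hsQ _ htQ hd
    rw [dist_eq_norm] at this
    exact this.le
  have hint := intervalIntegral.norm_integral_le_of_norm_le_const hpt
  rw [intervalIntegral.integral_sub (hgc.intervalIntegrable _ _)
    (continuous_const.intervalIntegrable _ _), intervalIntegral.integral_const] at hint
  have e1 : t + H - t = H := by ring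
  rw [e1, abs_of_nonneg hH0] at hint
  have h1 : ‖H • g (x, t)‖ ≤ ‖∫ s in t..(t + H), g (x, s)‖ +
      ‖(∫ s in t..(t + H), g (x, s)) - H • g (x, t)‖ := by
    have := norm_sub_norm_le (H • g (x, t)) (∫ s in t..(t + H), g (x, s))
    rw [norm_sub_rev] at this
    linarith
  have h2 : H * m ≤ ‖H • g (x, t)‖ := by
    rw [norm_smul, Real.norm_eq_abs, abs_of_nonneg hH0]
    exact mul_le_mul_of_nonneg_left (hmQ _ htQ) hH0
  nlinarith

theorem window_gam_pr (κ : InfinitePlace K → ℤ) (T B : ℝ) : ∃ c₀ H₀ : ℝ, 0 < c₀ ∧ 0 < H₀ ∧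
    ∀ lam : InfinitePlace K → ℝ, (∀ w, |lam w| ≤ B) → ∀ t : ℝ, -T ≤ t → t ≤ T →
      ∀ H : ℝ, 0 ≤ H → H ≤ H₀ →
        c₀ * H ≤ ‖∫ s in t..(t + H), gam κ lam (1 / 2 + s * I)‖ := by
  have hS : IsCompact (Set.Icc (fun _ : InfinitePlace K => -B) (fun _ => B)) := isCompact_Icc
  obtain ⟨c₀, H₀, hc, hH, h⟩ := WIN_abs hS (gam_continuous κ) (fun p => gam_ne_zero κ p.1 p.2) T
  refine ⟨c₀, H₀, hc, hH, ?_⟩
  intro lam hlam t ht1 ht2 H hH0 hH1
  refine h lam ?_ t ht1 ht2 H hH0 hH1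
  exact ⟨fun w => (abs_le.mp (hlam w)).1, fun w => (abs_le.mp (hlam w)).2⟩

end Pool.Agent.KS

namespace Pool.Agent.KS

theorem window_gam : type_of% @window_gam_pr := @window_gam_pr

end Pool.Agent.KS
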