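import Pool.Agent.Lib_helper92.KSA.BRG
import Pool.Agent.Lib_helper92.KSA.CHK
import Pool.Agent.Lib_helper92.KSA.DGE
import Pool.Agent.Lib_helper92.KSA.KPO
import Pool.Agent.Lib_helper92.KSA.ZKA
import Pool.Agent.Lib_helper92.KSA.ZK
import Pool.Agent.Lib_helper92.KSA.GDK
import Pool.Agent.Lib_helper92.KSA.DKE
import Pool.Agent.Lib_helper92.KSA.FKE
import Pool.Agent.Lib_helper92.KSA.LATU
import Pool.Agent.Lib_helper92.KSA.LNZ
import Pool.Agent.Lib_helper92.KSA.MDK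
import Pool.Agent.Lib_helper92.KSA.WNF
import Pool.Agent.Lib_helper92.KSA.SchurW
import Pool.Agent.Lib_helper92.KSA.MSW1
import Pool.Agent.Lib_helper92.KSA.MSW2
import Pool.Agent.Lib_helper92.KSA.MDW
import Pool.Agent.Lib_helper92.KSA.MSG1
import Pool.Agent.Lib_helper92.KSA.MSG2
import Pool.Agent.Lib_helper92.KSA.MFK
import Pool.Agent.Lib_helper92.KSA.MFW
import Pool.Agent.Lib_helper92.KSA.NZK
import Pool.Agent.Lib_helper92.KSA.REF
import Pool.Agent.Lib_helper92.KSA.SFK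
import Pool.Agent.Lib_helper92.KSA.WIN
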