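import Pool.Agent.Lib_helper24.KS.Defs
import Pool.Agent.Lib_helper92.ASA.All
import Pool.Agent.Lib_helper41.HZF.CLS
import Pool.Agent.Lib_helper41.HZF.INF
import Pool.Agent.Lib_helper41.HZF.KG
import Pool.Agent.Lib_helper41.HZF.LAM1
import Pool.Agent.Lib_helper41.HZF.LAM2
import Pool.Agent.Lib_helper41.HZF.LAT
import Pool.Agent.Lib_helper41.HZF.MSQ1
import Pool.Agent.Lib_helper41.HZF.MSQ3
import Pool.Agent.Lib_helper41.HZF.NFP
import Pool.Agent.Lib_helper41.HZF.RES
import Pool.Agent.Lib_helper41.HZF.SFE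
import Pool.Agent.Lib_helper41.HZF.SUM
import Pool.Agent.Lib_helper41.HZF.UNF2
import Pool.Agent.Lib_helper41.HZF.WGT
import Pool.Agent.Lib_helper41.HZF.YB

/-!
# Uniform theorem over number fields: base file of the assembled chain
-/

namespace Pool.Agent.KS

/-- `w_n(u,u')`: `e^{2 w/n}` is the mean of `e^{2u/n}` and `e^{2u'/n}`. -/
noncomputable def wn (n : ℕ) (u u' : ℝ) : ℝ :=
  (n / 2 : ℝ) * Real.log ((Real.exp (2 * u / n) + Real.exp (2 * u' / n)) / 2)

end Pool.Agent.KS
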