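import Pool.Agent.Lib_helper92.KSA.FinB
import Pool.Agent.Lib_helper24.ABS.FWE

/-!
# K-Selberg: the uniform theorem over number fields
-/

noncomputable section

namespace Pool.Agent.KS

open NumberField NumberField.InfinitePlace NumberField.Units Complex MeasureTheory Filter Topology
open Pool.Agent.HZ Pool.Agent.AS
open Pool.Agent.SQS (hat)
open Pool.Agent.ABS (Nice LData Piece oddZ Fam)
open scoped ENNReal

variable {K : Type} [Field K] [NumberField K]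

/-- uniform mass of the reference densities -/
theorem gK_mass (κ : InfinitePlace K → ℤ) : ∃ E : ℝ, 0 ≤ E ∧
    ∀ lam : InfinitePlace K → ℝ, ∫ u, ‖gK (K := K) κ lam u‖ ≤ E := by
  obtain ⟨C₁, hG⟩ := Gf_good (K := K) κ
  have hC1 : 0 ≤ C₁ := (hG 0).1
  obtain ⟨Ca, hCa0, hCa⟩ := kg_le (K := K) (c := Real.pi / 2) (by positivity) (A := 1 / 4)
    (by norm_num)
  obtain ⟨Cb, hCb0, hCb⟩ := kg_le (K := K) (c := Real.pi / 2) (by positivity) (A := 1)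
    (by norm_num)
  have hle : ∀ (lam : InfinitePlace K → ℝ) (u : ℝ),
      ‖gK κ lam u‖ ≤ C₁ * (Ca + Cb) * Real.exp (-(1 / 4 * |u|)) := by
    intro lam u
    have h1 := kint_le (hG lam) u
    have h2 : ‖gK κ lam u‖ ≤ Real.exp (u / 2) * (C₁ * kg K (Real.pi / 2) u) := by
      unfold gK
      rw [norm_mul, Complex.norm_real, Real.norm_of_nonneg (Real.exp_pos _).le]
      gcongr
    refine h2.trans ?_
    rcases le_or_gt 0 u with hu | hu
    · calc Real.exp (u / 2) * (C₁ * kg K (Real.pi / 2) u)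
          ≤ Real.exp (u / 2) * (C₁ * (Cb * Real.exp (-(1 * u)))) := by
            gcongr; exact hCb u
        _ = C₁ * Cb * (Real.exp (u / 2) * Real.exp (-(1 * u))) := by ring
        _ = C₁ * Cb * Real.exp (u / 2 + -(1 * u)) := by rw [Real.exp_add]
        _ ≤ C₁ * (Ca + Cb) * Real.exp (-(1 / 4 * |u|)) := by
            gcongr
            · linarith
            · rw [abs_of_nonneg hu]; linarith
    · calc Real.exp (u / 2) * (C₁ * kg K (Real.pi / 2) u)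
          ≤ Real.exp (u / 2) * (C₁ * (Ca * Real.exp (-(1 / 4 * u)))) := by
            gcongr; exact hCa u
        _ = C₁ * Ca * (Real.exp (u / 2) * Real.exp (-(1 / 4 * u))) := by ring
        _ = C₁ * Ca * Real.exp (u / 2 + -(1 / 4 * u)) := by rw [Real.exp_add]
        _ ≤ C₁ * (Ca + Cb) * Real.exp (-(1 / 4 * |u|)) := by
            gcongr
            · linarith
            · rw [abs_of_neg hu]; linarith
  set B : ℝ := C₁ * (Ca + Cb) with hB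
  have hB0 : 0 ≤ B := by positivity
  refine ⟨B * ∫ u : ℝ, Real.exp (-(1 / 4 * |u|)), ?_, fun lam => ?_⟩
  · have : 0 ≤ ∫ u : ℝ, Real.exp (-(1 / 4 * |u|)) := integral_nonneg fun u => by positivity
    positivity
  · rw [← integral_const_mul]
    exact integral_mono (gK_nice κ lam).int.norm
      ((fin_integrable_exp_abs (by norm_num : (0 : ℝ) < 1 / 4)).const_mul _) fun u => hle lam u

/-- the bad characters -/
def IsBadU (κ : InfinitePlace K → ℤ) (B a b h : ℝ) (m : ℕ) (𝔮 : Ideal (𝓞 K))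
    (χ : MulChar (𝓞 K ⧸ 𝔮) ℂ) : Prop :=
  IsPrim 𝔮 χ ∧ ∃ lam : InfinitePlace K → ℝ, (∀ w, |lam w| ≤ B) ∧ ∑ w, lam w = 0 ∧
    ∃ ψ : Ideal (𝓞 K) →* ℂ, IsHecke 𝔮 κ lam χ ψ ∧
      ¬ ∃ Λ : ℂ → ℂ, IsCompleted κ lam ψ Λ ∧ ∀ x : ℝ, a ≤ x → x + h ≤ b →
        (m : ℕ∞) < {t : ℝ | x < t ∧ t < x + h ∧
          Odd (analyticOrderNatAt Λ (1 / 2 + t * I))}.encard

theorem kselbergU (κ : InfinitePlace K → ℤ)
    (hκ : ∀ w : InfinitePlace K, w.IsReal → κ w = 0 ∨ κ w = 1) (T B : ℝ) :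
    ∃ C : ℝ, 0 < C ∧ ∀ 𝔮 : Ideal (𝓞 K), 𝔮 ≠ ⊥ → 𝔮 ≠ ⊤ → ∀ a b h H : ℝ, -T ≤ a → b ≤ T →
      0 < H → H ≤ h → h ≤ b - a →
      ∀ S : Finset (MulChar (𝓞 K ⧸ 𝔮) ℂ), (∀ χ ∈ S, IsBadU κ B a b h ⌊h / H⌋₊ 𝔮 χ) →
        (S.card : ℝ) ≤ C * (b - a) * Nat.card (𝓞 K ⧸ 𝔮)ˣ /
          (h * H * Real.log (Ideal.absNorm 𝔮)) := by
  obtain ⟨C₀, hC₀, hm⟩ := mellin_kint (K := K)
  set T' : ℝ := |T| + 2 with hT'
  obtain ⟨m, δ, hm0, hδ0, href⟩ := ref_gam (K := K) κ T' B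
  obtain ⟨E, hE0, hE⟩ := gK_mass (K := K) κ
  obtain ⟨C1, hC1, h1⟩ := S1K (K := K) κ
  obtain ⟨C2, hC2, h2⟩ := mean_DK_W (K := K) κ
  obtain ⟨C3, hC3, h3⟩ := S3K (K := K) κ
  have hC₀' : (C₀ : ℂ) ≠ 0 := by exact_mod_cast hC₀.ne'
  have hnC₀ : ‖(C₀ : ℂ)⁻¹‖ = C₀⁻¹ := by
    rw [norm_inv, Complex.norm_real, Real.norm_of_nonneg hC₀.le]
  set D : ℝ := C₀⁻¹ ^ 2 with hD
  have hD0 : 0 < D := by positivity
  set CE : ℝ := D * (C1 + C2 + C3) with hCE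
  have hCE0 : 0 ≤ CE := by positivity
  obtain ⟨C', hC', hend⟩ := Fam.uniform (C := CE) (c := 1 / 2) (T := T') (m := m) (δ := δ)
    (M := C₀⁻¹ * E) hCE0 (by norm_num) hm0 hδ0 (by positivity)
  refine ⟨32 * C' + 64 * |T| , by positivity,
    fun 𝔮 h𝔮 h𝔮' a b h H ha hb hH hHh hba S hS => ?_⟩
  have hh : 0 < h := lt_of_lt_of_le hH hHh
  have hba0 : 0 < b - a := lt_of_lt_of_le hh hba
  set Φ : ℝ := (Nat.card (𝓞 K ⧸ 𝔮)ˣ : ℝ) with hΦ
  have hΦ0 : 0 ≤ Φ := by positivity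
  have hcard : (S.card : ℝ) ≤ Φ := card_le_units h𝔮 S
  have hNq := two_le_norm h𝔮 h𝔮'
  have hlogN : 0 < Real.log (Ideal.absNorm 𝔮) := Real.log_pos (by exact_mod_cast hNq)
  rcases S.eq_empty_or_nonempty with rfl | hne
  · simp only [Finset.card_empty, Nat.cast_zero]; positivity
  -- the pieces
  have hS' : ∀ χ ∈ S, ∃ lam : InfinitePlace K → ℝ, ∃ ψ : Ideal (𝓞 K) →* ℂ, (∀ w, |lam w| ≤ B) ∧
      ∑ w, lam w = 0 ∧ IsHecke 𝔮 κ lam χ ψ ∧ ∃ X : LData, X.A = Real.log (cond 𝔮) ∧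
        (X.dens = fun u => (C₀ : ℂ)⁻¹ * Dser ψ (Gf κ lam) u) ∧
        ∃ x : ℝ, a ≤ x ∧ x + h ≤ b ∧ (oddZ X.Λ ∩ Set.Ioo x (x + h)).encard ≤ ⌊h / H⌋₊ := by
    intro χ hχ
    obtain ⟨hp, lam, hlB, hl0, ψ, hψ, hno⟩ := hS χ hχ
    obtain ⟨X, hX1, hX2, hX3⟩ := exists_ldata hC₀ hm hκ hl0 h𝔮 h𝔮' hp hψ
    refine ⟨lam, ψ, hlB, hl0, hψ, X, hX2, hX3, ?_⟩
    by_contra hcon
    push Not at hcon
    refine hno ⟨X.Λ, hX1, fun x hx hx' => ?_⟩
    have := hcon x hx hx'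
    have hset : {t : ℝ | x < t ∧ t < x + h ∧
        Odd (analyticOrderNatAt X.Λ (1 / 2 + t * I))} = oddZ X.Λ ∩ Set.Ioo x (x + h) := by
      ext t
      simp only [oddZ, Set.mem_ofPred_eq, Set.mem_inter_iff, Set.mem_Ioo]
      tauto
    rw [hset]
    exact this
  have hTa := le_abs_self T
  have hH2T : H ≤ 2 * |T| := by linarith
  set A : ℝ := Real.log (cond 𝔮) with hA
  have hAN : Real.log (Ideal.absNorm 𝔮) ≤ A := log_cond_ge h𝔮
  by_cases hA32 : 32 ≤ A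
  swap
  · -- small conductor
    refine hcard.trans ?_
    rw [le_div_iff₀ (by positivity), mul_comm]
    refine mul_le_mul_of_nonneg_right ?_ hΦ0
    calc h * H * Real.log (Ideal.absNorm 𝔮) ≤ (b - a) * (2 * |T|) * 32 := by
          apply mul_le_mul _ (by linarith) hlogN.le (by positivity)
          exact mul_le_mul hba hH2T hH.le hba0.le
      _ ≤ (32 * C' + 64 * |T|) * (b - a) := by nlinarith [mul_pos hC' hba0]
  set L : ℝ := A / 32 with hL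
  have hL1 : 1 ≤ L := by rw [hL]; linarith
  have hL0 : 0 < L := by linarith
  have hL32 : 32 * L = A := by rw [hL]; ring
  have : Nonempty LData := by
    obtain ⟨χ, hχ⟩ := hne
    obtain ⟨_, _, _, _, _, X, _⟩ := hS' χ hχ
    exact ⟨X⟩
  choose! lam ψ hlB hl0 hψ X hXA hXd hXx using hS'
  set P : MulChar (𝓞 K ⧸ 𝔮) ℂ → Piece := fun χ =>
    (X χ).piece (ball (NK K) (Real.exp L)) (bK L (ψ χ)) lK
      (fun u => (C₀ : ℂ)⁻¹ * gK κ (lam χ) u) ((gK_nice κ (lam χ)).const_mul _) with hP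
  have hψ2 : ∀ χ ∈ S, IsHecke 𝔮 κ (lam χ) χ (ψ χ) ∧ ∑ w, lam χ w = 0 := fun χ hχ =>
    ⟨hψ χ hχ, hl0 χ hχ⟩
  have hPf : ∀ χ ∈ S, ∀ v, (P χ).f v = (C₀ : ℂ)⁻¹ * fK L A κ (lam χ) (ψ χ) v := by
    intro χ hχ v
    exact piece_f (X χ) (hXA χ hχ) (hXd χ hχ) v
  have hPD : ∀ χ ∈ S, ∀ u, (P χ).D u - (P χ).g u =
      (C₀ : ℂ)⁻¹ * (DK L κ (lam χ) (ψ χ) u - gK κ (lam χ) u) := by
    intro χ hχ u
    have e : (P χ).D u = (C₀ : ℂ)⁻¹ * DK L κ (lam χ) (ψ χ) u := piece_D (X χ) (hXd χ hχ) u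
    have e' : (P χ).g u = (C₀ : ℂ)⁻¹ * gK κ (lam χ) u := rfl
    rw [e, e', ← mul_sub]
  have hlL : 32 * L = Real.log (cond 𝔮) := by rw [hL32]
  have hfam : Fam CE (1 / 2) T' m δ (C₀⁻¹ * E) S P L Φ := by
    refine ⟨hcard, ?_, ?_, ?_, ?_, ?_, ?_⟩
    · intro W hWm hWb hWs
      have e : ∀ χ ∈ S, ‖∫ v, (P χ).f v * W v‖ ^ 2 =
          D * ‖∫ v, fK L A κ (lam χ) (ψ χ) v * W v‖ ^ 2 := by
        intro χ hχ
        have e1 : (fun v => (P χ).f v * W v) = fun v =>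
            (C₀ : ℂ)⁻¹ * (fK L A κ (lam χ) (ψ χ) v * W v) := by
          funext v; rw [hPf χ hχ v]; ring
        rw [e1, integral_const_mul, norm_mul, hnC₀, mul_pow]
      rw [Finset.sum_congr rfl e, ← Finset.mul_sum]
      have h5 := h1 𝔮 h𝔮 h𝔮' S lam ψ hψ2 L hL1 hlL W hWm hWb (fun v hv => hWs v (by
        rcases hv with hv | hv
        · left; exact hv
        · right; linarith))
      have hI : 0 ≤ ∫ v, ‖W v‖ ^ 2 := integral_nonneg fun v => by positivity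
      calc D * ∑ χ ∈ S, ‖∫ v, fK L A κ (lam χ) (ψ χ) v * W v‖ ^ 2
          ≤ D * (C1 * Φ / L * ∫ v, ‖W v‖ ^ 2) := by gcongr
        _ = D * C1 * Φ / L * ∫ v, ‖W v‖ ^ 2 := by ring
        _ ≤ CE * Φ / L * ∫ v, ‖W v‖ ^ 2 := by
            gcongr
            rw [hCE]
            exact mul_le_mul_of_nonneg_left (by linarith) hD0.le
    · intro W hWm hWb hWs
      have e : ∀ χ ∈ S, ‖∫ v, ((P χ).D v - (P χ).g v) * W v‖ ^ 2 =
          D * ‖∫ v, (DK L κ (lam χ) (ψ χ) v - gK κ (lam χ) v) * W v‖ ^ 2 := by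
        intro χ hχ
        have e1 : (fun v => ((P χ).D v - (P χ).g v) * W v) = fun v =>
            (C₀ : ℂ)⁻¹ * ((DK L κ (lam χ) (ψ χ) v - gK κ (lam χ) v) * W v) := by
          funext v; rw [hPD χ hχ v]; ring
        rw [e1, integral_const_mul, norm_mul, hnC₀, mul_pow]
      rw [Finset.sum_congr rfl e, ← Finset.mul_sum]
      have h5 := h2 𝔮 h𝔮 h𝔮' S lam ψ hψ2 L hL1 hlL W hWm hWb (fun v hv => hWs v (by linarith))
      have hI : 0 ≤ ∫ v, ‖W v‖ ^ 2 := integral_nonneg fun v => by positivity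
      calc D * ∑ χ ∈ S, ‖∫ v, (DK L κ (lam χ) (ψ χ) v - gK κ (lam χ) v) * W v‖ ^ 2
          ≤ D * (C2 * Φ / L * ∫ v, ‖W v‖ ^ 2) := by gcongr
        _ = D * C2 * Φ / L * ∫ v, ‖W v‖ ^ 2 := by ring
        _ ≤ CE * Φ / L * ∫ v, ‖W v‖ ^ 2 := by
            gcongr
            rw [hCE]
            exact mul_le_mul_of_nonneg_left (by linarith) hD0.le
    · intro R hR t
      have e : ∀ χ ∈ S, ‖∫ v in Set.Ioc 0 R, (P χ).f v * cexp (t * v * I)‖ ^ 2 =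
          D * ‖∫ v in Set.Ioc 0 R, fK L A κ (lam χ) (ψ χ) v * cexp (t * v * I)‖ ^ 2 := by
        intro χ hχ
        have e1 : (fun v : ℝ => (P χ).f v * cexp (t * v * I)) = fun v : ℝ =>
            (C₀ : ℂ)⁻¹ * (fK L A κ (lam χ) (ψ χ) v * cexp (t * v * I)) := by
          funext v; rw [hPf χ hχ v]; ring
        rw [e1, integral_const_mul, norm_mul, hnC₀, mul_pow]
      rw [Finset.sum_congr rfl e, ← Finset.mul_sum]
      have h5 := h3 𝔮 h𝔮 h𝔮' S lam ψ hψ2 L hL1 hlL R hR t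
      calc D * ∑ χ ∈ S, ‖∫ v in Set.Ioc 0 R, fK L A κ (lam χ) (ψ χ) v * cexp (t * v * I)‖ ^ 2
          ≤ D * (C3 * Φ) := by gcongr
        _ = D * C3 * Φ := by ring
        _ ≤ CE * Φ := by
            gcongr
            rw [hCE]
            exact mul_le_mul_of_nonneg_left (by linarith) hD0.le
    · intro χ _
      have e : (fun u => ‖(P χ).g u‖) = fun u => C₀⁻¹ * ‖gK κ (lam χ) u‖ := by
        funext u
        show ‖(C₀ : ℂ)⁻¹ * gK κ (lam χ) u‖ = _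
        rw [norm_mul, hnC₀]
      rw [e, integral_const_mul]
      exact mul_le_mul_of_nonneg_left (hE _) (by positivity)
    · intro χ hχ t ht
      have e : hat (P χ).g t = gam κ (lam χ) (1 / 2 + t * I) := hat_gK hC₀ hm κ (lam χ) t
      rw [e]
      exact (href (lam χ) (hlB χ hχ)).1 t ht
    · intro χ hχ t s ht hs hts
      have e : hat (P χ).g t = gam κ (lam χ) (1 / 2 + t * I) := hat_gK hC₀ hm κ (lam χ) t
      have e' : hat (P χ).g s = gam κ (lam χ) (1 / 2 + s * I) := hat_gK hC₀ hm κ (lam χ) s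
      rw [e, e']
      exact (href (lam χ) (hlB χ hχ)).2 t s ht hs hts
  have hfinal := hend (MulChar (𝓞 K ⧸ 𝔮) ℂ) S P L Φ hL0 hfam a b h H (by linarith) (by linarith)
    hH hHh hba hXx
  refine hfinal.trans ?_
  have e1 : C' * (b - a) * Φ / (h * H * L) = 32 * C' * (b - a) * Φ / (h * H * A) := by
    rw [← hL32]; field_simp
  rw [e1]
  calc 32 * C' * (b - a) * Φ / (h * H * A)
      ≤ 32 * C' * (b - a) * Φ / (h * H * Real.log (Ideal.absNorm 𝔮)) := by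
        gcongr
    _ ≤ (32 * C' + 64 * |T|) * (b - a) * Φ / (h * H * Real.log (Ideal.absNorm 𝔮)) := by
        gcongr
        have : 0 ≤ 64 * |T| := by positivity
        linarith

end Pool.Agent.KS
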