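import Pool.Agent.Lib_helper92.KSA.FinU

/-!
# K-Selberg: the final theorem
-/

noncomputable section

namespace Pool.Agent.KS

open NumberField NumberField.InfinitePlace NumberField.Units Complex MeasureTheory Filter Topology
open Pool.Agent.HZ Pool.Agent.AS
open scoped ENNReal

/-- The number of `t` with `a < t < b` such that `1/2 + it` is a zero of odd order of `Λ`. -/
noncomputable def oddCrit (Λ : ℂ → ℂ) (a b : ℝ) : ℝ≥0∞ :=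
  ({t : ℝ | a < t ∧ t < b ∧ Odd (analyticOrderNatAt Λ (1 / 2 + t * I))}.encard : ℝ≥0∞)

/-- The number of all zeros `ρ` of `Λ` with `a < Im ρ < b`, counted with multiplicity. -/
noncomputable def allZer (Λ : ℂ → ℂ) (a b : ℝ) : ℝ≥0∞ :=
  ∑' ρ : {ρ : ℂ // a < ρ.im ∧ ρ.im < b}, (analyticOrderNatAt Λ ρ.1 : ℝ≥0∞)

variable (K : Type) [Field K] [NumberField K]

theorem finite_types (B : ℝ) : {κ : InfinitePlace K → ℤ | ∀ w, |(κ w : ℝ)| ≤ B}.Finite := by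
  have h : {κ : InfinitePlace K → ℤ | ∀ w, |(κ w : ℝ)| ≤ B} ⊆
      Set.pi Set.univ fun _ : InfinitePlace K => Set.Icc (-⌈B⌉) ⌈B⌉ := by
    intro κ hκ w _
    have h1 := abs_le.1 (hκ w)
    have h2 := Int.le_ceil B
    constructor
    · have : (-(⌈B⌉ : ℝ)) ≤ (κ w : ℝ) := by linarith
      exact_mod_cast this
    · have : (κ w : ℝ) ≤ (⌈B⌉ : ℝ) := by linarith
      exact_mod_cast this
  exact (Set.Finite.pi' fun _ => Set.finite_Icc _ _).subset (fun κ hκ w => h hκ w (Set.mem_univ w))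

theorem kselberg_final (T B : ℝ) : ∃ C : ℝ, 0 < C ∧ ∀ 𝔮 : Ideal (𝓞 K),
    2 ≤ Ideal.absNorm 𝔮 → ∀ a b h H : ℝ, -T ≤ a → b ≤ T → 0 < H → H ≤ h → h ≤ b - a →
      (Nat.card {χ : MulChar (𝓞 K ⧸ 𝔮) ℂ // IsPrim 𝔮 χ ∧
        ∃ (κ : InfinitePlace K → ℤ) (lam : InfinitePlace K → ℝ) (ψ : Ideal (𝓞 K) →* ℂ),
          (∀ w, |(κ w : ℝ)| ≤ B ∧ |lam w| ≤ B) ∧
          (∀ w : InfinitePlace K, w.IsReal → κ w = 0 ∨ κ w = 1) ∧ ∑ w, lam w = 0 ∧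
          IsHecke 𝔮 κ lam χ ψ ∧
          ¬ ∃ Λ : ℂ → ℂ, IsCompleted κ lam ψ Λ ∧ ∀ x : ℝ, a ≤ x → x + h ≤ b →
            ENNReal.ofReal (h / H) < oddCrit Λ x (x + h) ∧
            ENNReal.ofReal (h / (C * H * Real.log (Ideal.absNorm 𝔮))) * allZer Λ x (x + h) ≤
              oddCrit Λ x (x + h)} : ℝ) ≤
        C * (b - a) * Nat.card (𝓞 K ⧸ 𝔮)ˣ / (h * H * Real.log (Ideal.absNorm 𝔮)) := by
  classical
  have h1 : ∀ κ : InfinitePlace K → ℤ, ∃ C : ℝ, 0 < C ∧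
      ((∀ w : InfinitePlace K, w.IsReal → κ w = 0 ∨ κ w = 1) →
      ∀ 𝔮 : Ideal (𝓞 K), 𝔮 ≠ ⊥ → 𝔮 ≠ ⊤ → ∀ a b h H : ℝ, -T ≤ a → b ≤ T →
      0 < H → H ≤ h → h ≤ b - a →
      ∀ S : Finset (MulChar (𝓞 K ⧸ 𝔮) ℂ), (∀ χ ∈ S, IsBadU κ B a b h ⌊h / H⌋₊ 𝔮 χ) →
        (S.card : ℝ) ≤ C * (b - a) * Nat.card (𝓞 K ⧸ 𝔮)ˣ /
          (h * H * Real.log (Ideal.absNorm 𝔮))) := by
    intro κ
    by_cases hκ : ∀ w : InfinitePlace K, w.IsReal → κ w = 0 ∨ κ w = 1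
    · obtain ⟨C, hC, hh⟩ := kselbergU κ hκ T B
      exact ⟨C, hC, fun _ => hh⟩
    · exact ⟨1, one_pos, fun h => absurd h hκ⟩
  have h2 : ∀ κ : InfinitePlace K → ℤ, ∃ C : ℝ, 0 < C ∧
      ((∀ w : InfinitePlace K, w.IsReal → κ w = 0 ∨ κ w = 1) →
      ∀ (𝔮 : Ideal (𝓞 K)) (_ : 𝔮 ≠ ⊥) (_ : 𝔮 ≠ ⊤)
      (χ : MulChar (𝓞 K ⧸ 𝔮) ℂ) (_ : IsPrim 𝔮 χ) (lam : InfinitePlace K → ℝ)
      (_ : ∀ w, |lam w| ≤ B) (_ : ∑ w, lam w = 0) (ψ : Ideal (𝓞 K) →* ℂ)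
      (_ : IsHecke 𝔮 κ lam χ ψ) (Λ : ℂ → ℂ) (_ : IsCompleted κ lam ψ Λ),
      ∑' ρ : {ρ : ℂ // |ρ.im| ≤ T}, (analyticOrderNatAt Λ ρ.1 : ℝ≥0∞) ≤
        ENNReal.ofReal (C * Real.log (Ideal.absNorm 𝔮))) := by
    intro κ
    by_cases hκ : ∀ w : InfinitePlace K, w.IsReal → κ w = 0 ∨ κ w = 1
    · obtain ⟨C, hC, hh⟩ := zeros_le_K κ hκ T B
      exact ⟨C, hC, fun _ => hh⟩
    · exact ⟨1, one_pos, fun h => absurd h hκ⟩
  choose C1 hC1 h1 using h1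
  choose C2 hC2 h2 using h2
  set 𝒦 : Finset (InfinitePlace K → ℤ) := (finite_types K B).toFinset with h𝒦
  have hmem : ∀ κ : InfinitePlace K → ℤ, (∀ w, |(κ w : ℝ)| ≤ B) → κ ∈ 𝒦 := by
    intro κ hκ
    rw [h𝒦, Set.Finite.mem_toFinset]
    exact hκ
  set C : ℝ := 1 + (∑ κ ∈ 𝒦, C1 κ + ∑ κ ∈ 𝒦, C2 κ) with hCdef
  have hs1 : 0 ≤ ∑ κ ∈ 𝒦, C1 κ := Finset.sum_nonneg fun κ _ => (hC1 κ).le
  have hs2 : 0 ≤ ∑ κ ∈ 𝒦, C2 κ := Finset.sum_nonneg fun κ _ => (hC2 κ).le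
  have hC : 0 < C := by rw [hCdef]; linarith
  refine ⟨C, hC, fun 𝔮 hN a b h H ha hb hH hHh hba => ?_⟩
  have h𝔮 : 𝔮 ≠ ⊥ := by
    rintro rfl
    simp at hN
  have h𝔮' : 𝔮 ≠ ⊤ := by
    rintro rfl
    simp at hN
  have hh : 0 < h := hH.trans_le hHh
  have hba0 : 0 < b - a := lt_of_lt_of_le hh hba
  have hlog : 0 < Real.log (Ideal.absNorm 𝔮) := Real.log_pos (by exact_mod_cast hN)
  have := finite_quo h𝔮
  have : Fintype (MulChar (𝓞 K ⧸ 𝔮) ℂ) := Fintype.ofFinite _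
  set Φ : ℝ := (Nat.card (𝓞 K ⧸ 𝔮)ˣ : ℝ) with hΦ
  have hΦ0 : 0 ≤ Φ := by positivity
  set bad : (InfinitePlace K → ℤ) → Finset (MulChar (𝓞 K ⧸ 𝔮) ℂ) := fun κ =>
    Finset.univ.filter fun χ => (∀ w : InfinitePlace K, w.IsReal → κ w = 0 ∨ κ w = 1) ∧
      IsBadU κ B a b h ⌊h / H⌋₊ 𝔮 χ with hbad
  have hbadle : ∀ κ ∈ 𝒦, ((bad κ).card : ℝ) ≤ C1 κ * ((b - a) * Φ /
      (h * H * Real.log (Ideal.absNorm 𝔮))) := by
    intro κ _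
    rcases (bad κ).eq_empty_or_nonempty with he | ⟨χ, hχ⟩
    · rw [he, Finset.card_empty, Nat.cast_zero]
      have := (hC1 κ).le
      positivity
    · have hκ := (Finset.mem_filter.1 hχ).2.1
      have := h1 κ hκ 𝔮 h𝔮 h𝔮' a b h H ha hb hH hHh hba (bad κ)
        (fun χ hχ => (Finset.mem_filter.1 hχ).2.2)
      refine this.trans (le_of_eq ?_)
      ring
  -- the bad set is covered
  have hle : Nat.card {χ : MulChar (𝓞 K ⧸ 𝔮) ℂ // IsPrim 𝔮 χ ∧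
        ∃ (κ : InfinitePlace K → ℤ) (lam : InfinitePlace K → ℝ) (ψ : Ideal (𝓞 K) →* ℂ),
          (∀ w, |(κ w : ℝ)| ≤ B ∧ |lam w| ≤ B) ∧
          (∀ w : InfinitePlace K, w.IsReal → κ w = 0 ∨ κ w = 1) ∧ ∑ w, lam w = 0 ∧
          IsHecke 𝔮 κ lam χ ψ ∧
          ¬ ∃ Λ : ℂ → ℂ, IsCompleted κ lam ψ Λ ∧ ∀ x : ℝ, a ≤ x → x + h ≤ b →
            ENNReal.ofReal (h / H) < oddCrit Λ x (x + h) ∧
            ENNReal.ofReal (h / (C * H * Real.log (Ideal.absNorm 𝔮))) * allZer Λ x (x + h) ≤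
              oddCrit Λ x (x + h)} ≤ (𝒦.biUnion bad).card := by
    have hinj : ∀ χ : MulChar (𝓞 K ⧸ 𝔮) ℂ, (IsPrim 𝔮 χ ∧
        ∃ (κ : InfinitePlace K → ℤ) (lam : InfinitePlace K → ℝ) (ψ : Ideal (𝓞 K) →* ℂ),
          (∀ w, |(κ w : ℝ)| ≤ B ∧ |lam w| ≤ B) ∧
          (∀ w : InfinitePlace K, w.IsReal → κ w = 0 ∨ κ w = 1) ∧ ∑ w, lam w = 0 ∧
          IsHecke 𝔮 κ lam χ ψ ∧
          ¬ ∃ Λ : ℂ → ℂ, IsCompleted κ lam ψ Λ ∧ ∀ x : ℝ, a ≤ x → x + h ≤ b →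
            ENNReal.ofReal (h / H) < oddCrit Λ x (x + h) ∧
            ENNReal.ofReal (h / (C * H * Real.log (Ideal.absNorm 𝔮))) * allZer Λ x (x + h) ≤
              oddCrit Λ x (x + h)) → χ ∈ 𝒦.biUnion bad := by
      rintro χ ⟨hχ, κ, lam, ψ, hB, hκ, hlam, hψ, hno⟩
      rw [Finset.mem_biUnion]
      refine ⟨κ, hmem κ fun w => (hB w).1, ?_⟩
      rw [hbad, Finset.mem_filter]
      refine ⟨Finset.mem_univ _, hκ, hχ, lam, fun w => (hB w).2, hlam, ψ, hψ, ?_⟩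
      rintro ⟨Λ, hΛ, hx⟩
      refine hno ⟨Λ, hΛ, fun x hxa hxb => ?_⟩
      have hm := hx x hxa hxb
      set S : Set ℝ := {t : ℝ | x < t ∧ t < x + h ∧
          Odd (analyticOrderNatAt Λ (1 / 2 + t * I))} with hS
      have hodd : oddCrit Λ x (x + h) = (S.encard : ℝ≥0∞) := rfl
      have hcount : ((⌊h / H⌋₊ : ℕ) : ℝ≥0∞) + 1 ≤ (S.encard : ℝ≥0∞) := by
        have e1 : ((⌊h / H⌋₊ : ℕ) : ℕ∞) + 1 ≤ S.encard := Order.add_one_le_of_lt hm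
        have e2 := ENat.toENNReal_le.mpr e1
        simpa using e2
      have hgt : ENNReal.ofReal (h / H) < (S.encard : ℝ≥0∞) := by
        refine lt_of_lt_of_le ?_ hcount
        have e3 : h / H < (⌊h / H⌋₊ : ℝ) + 1 := Nat.lt_floor_add_one _
        have e4 : ENNReal.ofReal (h / H) < ENNReal.ofReal ((⌊h / H⌋₊ : ℝ) + 1) :=
          (ENNReal.ofReal_lt_ofReal_iff (by positivity)).mpr e3
        refine e4.trans_le (le_of_eq ?_)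
        rw [ENNReal.ofReal_add (by positivity) (by norm_num), ENNReal.ofReal_natCast,
          ENNReal.ofReal_one]
      refine ⟨by rw [hodd]; exact hgt, ?_⟩
      have hall : allZer Λ x (x + h) ≤
          ENNReal.ofReal (C2 κ * Real.log (Ideal.absNorm 𝔮)) := by
        refine le_trans ?_ (h2 κ hκ 𝔮 h𝔮 h𝔮' χ hχ lam (fun w => (hB w).2) hlam ψ hψ Λ hΛ)
        refine ENNReal.tsum_comp_le_tsum_of_injective
          (f := fun ρ : {ρ : ℂ // x < ρ.im ∧ ρ.im < x + h} =>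
            (⟨ρ.1, abs_le.mpr ⟨by linarith [ρ.2.1], by linarith [ρ.2.2]⟩⟩ :
              {ρ : ℂ // |ρ.im| ≤ T})) ?_
          (fun ρ : {ρ : ℂ // |ρ.im| ≤ T} => (analyticOrderNatAt Λ ρ.1 : ℝ≥0∞))
        intro a b hab
        exact Subtype.ext (congrArg (fun z : {ρ : ℂ // |ρ.im| ≤ T} => z.1) hab)
      have hC2C : C2 κ ≤ C := by
        have := Finset.single_le_sum (f := C2) (fun κ _ => (hC2 κ).le)
          (hmem κ fun w => (hB w).1)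
        rw [hCdef]; linarith
      calc ENNReal.ofReal (h / (C * H * Real.log (Ideal.absNorm 𝔮))) * allZer Λ x (x + h)
          ≤ ENNReal.ofReal (h / (C * H * Real.log (Ideal.absNorm 𝔮))) *
            ENNReal.ofReal (C2 κ * Real.log (Ideal.absNorm 𝔮)) := by gcongr
        _ = ENNReal.ofReal ((h / H) * (C2 κ / C)) := by
            rw [← ENNReal.ofReal_mul (by positivity)]
            congr 1
            field_simp
        _ ≤ ENNReal.ofReal (h / H) := by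
            apply ENNReal.ofReal_le_ofReal
            have e6 : C2 κ / C ≤ 1 := by rw [div_le_one hC]; exact hC2C
            calc h / H * (C2 κ / C) ≤ h / H * 1 := mul_le_mul_of_nonneg_left e6 (by positivity)
              _ = h / H := mul_one _
        _ ≤ oddCrit Λ x (x + h) := by rw [hodd]; exact hgt.le
    have := Nat.card_le_card_of_injective
      (fun χ : {χ : MulChar (𝓞 K ⧸ 𝔮) ℂ // IsPrim 𝔮 χ ∧
        ∃ (κ : InfinitePlace K → ℤ) (lam : InfinitePlace K → ℝ) (ψ : Ideal (𝓞 K) →* ℂ),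
          (∀ w, |(κ w : ℝ)| ≤ B ∧ |lam w| ≤ B) ∧
          (∀ w : InfinitePlace K, w.IsReal → κ w = 0 ∨ κ w = 1) ∧ ∑ w, lam w = 0 ∧
          IsHecke 𝔮 κ lam χ ψ ∧
          ¬ ∃ Λ : ℂ → ℂ, IsCompleted κ lam ψ Λ ∧ ∀ x : ℝ, a ≤ x → x + h ≤ b →
            ENNReal.ofReal (h / H) < oddCrit Λ x (x + h) ∧
            ENNReal.ofReal (h / (C * H * Real.log (Ideal.absNorm 𝔮))) * allZer Λ x (x + h) ≤
              oddCrit Λ x (x + h)} => (⟨χ.1, hinj χ.1 χ.2⟩ : {χ // χ ∈ 𝒦.biUnion bad}))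
      (fun χ χ' hh => Subtype.ext (congrArg (fun z => z.1) hh))
    rw [Nat.card_eq_fintype_card (α := {χ // χ ∈ 𝒦.biUnion bad}), Fintype.card_coe] at this
    exact this
  calc _ ≤ (((𝒦.biUnion bad).card : ℕ) : ℝ) := by exact_mod_cast hle
    _ ≤ ∑ κ ∈ 𝒦, ((bad κ).card : ℝ) := by exact_mod_cast Finset.card_biUnion_le
    _ ≤ ∑ κ ∈ 𝒦, C1 κ * ((b - a) * Φ / (h * H * Real.log (Ideal.absNorm 𝔮))) :=
        Finset.sum_le_sum hbadle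
    _ = (∑ κ ∈ 𝒦, C1 κ) * ((b - a) * Φ / (h * H * Real.log (Ideal.absNorm 𝔮))) := by
        rw [Finset.sum_mul]
    _ ≤ C * ((b - a) * Φ / (h * H * Real.log (Ideal.absNorm 𝔮))) := by
        gcongr
        rw [hCdef]; linarith
    _ = _ := by ring

end Pool.Agent.KS
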