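import Pool.Agent.Lib_helper92.KSA.Base
import Pool.Agent.Lib_helper92.KSA.BRG
import Pool.Agent.Lib_helper92.KSA.GDK
import Pool.Agent.Lib_helper92.KSA.MFW
import Pool.Agent.Lib_helper92.KSA.WNF

/-!
# Block SFK : the two consequences for `fK`
-/

namespace Pool.Agent.KS

open NumberField NumberField.InfinitePlace NumberField.Units Complex MeasureTheory Filter Topology
open Pool.Agent.HZ Pool.Agent.AS
open scoped ENNReal

/-! ### The kernel `exp(-|s|/2)` -/

/-- the kernel -/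
noncomputable def sfk_k (s : ℝ) : ℝ := Real.exp (-(|s| / 2))

theorem sfk_k_nonneg (s : ℝ) : 0 ≤ sfk_k s := (Real.exp_pos _).le

theorem sfk_k_continuous : Continuous sfk_k := by unfold sfk_k; fun_prop

theorem sfk_half_int : IntegrableOn (fun v : ℝ => Real.exp (-(v / 2))) (Set.Ioi 0) := by
  refine (integrableOn_exp_mul_Ioi (a := -(1 / 2)) (by norm_num) 0).congr_fun ?_
    measurableSet_Ioi
  intro s _
  simp only
  congr 1; ring

theorem sfk_k_integrable : Integrable sfk_k := by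
  have h1 : IntegrableOn sfk_k (Set.Ioi 0) := by
    refine sfk_half_int.congr_fun ?_ measurableSet_Ioi
    intro s hs
    simp only [sfk_k]
    rw [abs_of_pos hs]
  have h2 : IntegrableOn sfk_k (Set.Iic 0) := by
    have h3 : IntegrableOn sfk_k (Set.Ici 0) := Iff.mpr integrableOn_Ici_iff_integrableOn_Ioi h1
    have h4 : sfk_k = fun s => sfk_k (-s) := by
      funext s; simp [sfk_k]
    rw [h4]
    have := h3.comp_neg
    simpa using this
  rw [← integrableOn_univ, ← Set.Iic_union_Ioi (a := (0 : ℝ))]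
  exact h2.union h1

/-- the kernel with values in `[0,∞]` -/
noncomputable def sfk_kk (s : ℝ) : ℝ≥0∞ := ENNReal.ofReal (sfk_k s)

theorem sfk_kk_measurable : Measurable sfk_kk := sfk_k_continuous.measurable.ennreal_ofReal

theorem sfk_kk_int : ∫⁻ v, sfk_kk v = ENNReal.ofReal (∫ v, sfk_k v) :=
  (ofReal_integral_eq_lintegral_ofReal sfk_k_integrable
    (Eventually.of_forall fun v => sfk_k_nonneg v)).symm

theorem sfk_half_lint : ∫⁻ v, (Set.Ioi (0 : ℝ)).indicator
    (fun v => ENNReal.ofReal (Real.exp (-(v / 2)))) v = ENNReal.ofReal 2 := by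
  rw [lintegral_indicator measurableSet_Ioi,
    ← ofReal_integral_eq_lintegral_ofReal sfk_half_int
      (Eventually.of_forall fun v => (Real.exp_pos _).le)]
  congr 1
  have e : (fun v : ℝ => Real.exp (-(v / 2))) = fun v : ℝ => Real.exp (-(1 / 2) * v) := by
    funext v; congr 1; ring
  rw [e, integral_exp_mul_Ioi (by norm_num) 0]
  norm_num

/-! ### The Schur bound -/

theorem sfk_schur (w κ : ℝ → ℝ≥0∞) (hw : Measurable w) (hκ : Measurable κ) :
    ∫⁻ v, ∫⁻ v', w v * w v' * κ (v - v') ≤ 2 * ((∫⁻ u, κ u) * ∫⁻ v, w v ^ 2) := by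
  have hpt : ∀ v v', w v * w v' * κ (v - v') ≤ κ (v - v') * w v ^ 2 + κ (v - v') * w v' ^ 2 := by
    intro v v'
    rw [← mul_add, mul_comm]
    gcongr
    rcases le_total (w v) (w v') with h | h
    · calc w v * w v' ≤ w v' * w v' := by gcongr
        _ = w v' ^ 2 := by ring
        _ ≤ w v ^ 2 + w v' ^ 2 := le_add_self
    · calc w v * w v' ≤ w v * w v := by gcongr
        _ = w v ^ 2 := by ring
        _ ≤ w v ^ 2 + w v' ^ 2 := le_self_add
  have hw2 : Measurable fun v => w v ^ 2 := hw.pow_const 2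
  have hκl : ∀ v, Measurable fun v' => κ (v - v') := fun v =>
    hκ.comp (measurable_const.sub measurable_id)
  have hκr : ∀ v', Measurable fun v => κ (v - v') := fun v' =>
    hκ.comp (measurable_id.sub measurable_const)
  have hm1 : ∀ v, Measurable fun v' => κ (v - v') * w v ^ 2 := fun v => (hκl v).mul_const _
  have hM1 : Measurable fun v => ∫⁻ v', κ (v - v') * w v ^ 2 := by
    refine Measurable.lintegral_prod_right' (f := fun p : ℝ × ℝ => κ (p.1 - p.2) * w p.1 ^ 2) ?_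
    exact (hκ.comp (measurable_fst.sub measurable_snd)).mul (hw2.comp measurable_fst)
  calc ∫⁻ v, ∫⁻ v', w v * w v' * κ (v - v')
      ≤ ∫⁻ v, ∫⁻ v', (κ (v - v') * w v ^ 2 + κ (v - v') * w v' ^ 2) :=
        lintegral_mono fun v => lintegral_mono fun v' => hpt v v'
    _ = ∫⁻ v, ((∫⁻ v', κ (v - v') * w v ^ 2) + ∫⁻ v', κ (v - v') * w v' ^ 2) := by
        refine lintegral_congr fun v => ?_
        rw [lintegral_add_left (hm1 v)]
    _ = (∫⁻ v, ∫⁻ v', κ (v - v') * w v ^ 2) + ∫⁻ v, ∫⁻ v', κ (v - v') * w v' ^ 2 := by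
        rw [lintegral_add_left hM1]
    _ = (∫⁻ u, κ u) * (∫⁻ v, w v ^ 2) + (∫⁻ u, κ u) * ∫⁻ v, w v ^ 2 := by
        congr 1
        · have : ∀ v, ∫⁻ v', κ (v - v') * w v ^ 2 = (∫⁻ u, κ u) * w v ^ 2 := by
            intro v
            rw [lintegral_mul_const _ (hκl v), lintegral_sub_left_eq_self κ v]
          simp_rw [this]
          rw [lintegral_const_mul _ hw2]
        · rw [lintegral_lintegral_swap]
          · have : ∀ v', ∫⁻ v, κ (v - v') * w v' ^ 2 = (∫⁻ u, κ u) * w v' ^ 2 := by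
              intro v'
              rw [lintegral_mul_const _ (hκr v'), lintegral_sub_right_eq_self κ v']
            simp_rw [this]
            rw [lintegral_const_mul _ hw2]
          · exact ((hκ.comp (measurable_fst.sub measurable_snd)).mul
              (hw2.comp measurable_snd)).aemeasurable
    _ = 2 * ((∫⁻ u, κ u) * ∫⁻ v, w v ^ 2) := by ring

/-! ### Measurability of `Diag` -/

section
variable {P : Type}

theorem sfk_countable {N : P → ℕ} (hN : Good N) : Countable (P →₀ ℕ) := by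
  have h := (hN.summable 1 one_pos).countable_support
  have h2 : (Function.support fun g : P →₀ ℕ => (nm N g : ℝ) ^ (-(1 + 1) : ℝ)) = Set.univ := by
    ext g
    simp only [Function.mem_support, Set.mem_univ, iff_true]
    have : (0 : ℝ) < nm N g := by exact_mod_cast nm_pos hN.two_le g
    exact (Real.rpow_pos_of_pos this _).ne'
  rw [h2] at h
  exact Set.countable_univ_iff.mp h

theorem sfk_WW_measurable {N : P → ℕ} (hN : Good N) {k : ℝ → ℝ} {ρ : ℝ} (hk : Kern N k ρ)
    (Q : Finset P) : Measurable (WW N k Q) := by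
  classical
  have := sfk_countable hN
  have h1 : WW N k Q = fun w => (∑' g : P →₀ ℕ,
      ENNReal.ofReal (if Cop Q g then k (w + Real.log (nm N g)) else 0)).toReal := by
    funext w
    rw [ENNReal.tsum_toReal_eq (fun _ => ENNReal.ofReal_ne_top)]
    unfold WW
    refine tsum_congr fun g => ?_
    split_ifs
    · rw [ENNReal.toReal_ofReal (hk.nonneg _)]
    · simp
  rw [h1]
  refine Measurable.ennreal_toReal (Measurable.tsum fun g => ?_)
  refine Measurable.ennreal_ofReal ?_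
  by_cases hg : Cop Q g
  · simp only [if_pos hg]
    exact hk.cont.measurable.comp (measurable_id.add_const _)
  · simp only [if_neg hg]
    exact measurable_const

theorem sfk_Diag_measurable {N : P → ℕ} (hN : Good N) {k : ℝ → ℝ} {ρ : ℝ} (hk : Kern N k ρ)
    (L : ℝ) (Q : Finset P) : Measurable (Diag N k L Q) := by
  unfold Diag
  refine Real.continuous_exp.measurable.mul ?_
  refine Finset.measurable_sum _ fun j _ => Finset.measurable_sum _ fun j' _ => ?_
  exact measurable_const.mul ((sfk_WW_measurable hN hk Q).comp (measurable_id.add_const _))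

end

variable {K : Type} [Field K] [NumberField K]

theorem sfk_log {𝔮 : Ideal (𝓞 K)} (h𝔮 : 𝔮 ≠ ⊥) {L : ℝ} (hL : 32 * L = Real.log (cond 𝔮)) :
    ∑ p ∈ QK 𝔮, Real.log (NK K p) ≤ 32 * L := by
  refine (sum_log_QK h𝔮).trans ?_
  rw [hL]
  have hNa : (0 : ℝ) < Ideal.absNorm 𝔮 := by
    have : Ideal.absNorm 𝔮 ≠ 0 := by
      rw [Ne, Ideal.absNorm_eq_zero_iff]
      exact h𝔮
    positivity
  apply Real.log_le_log hNa
  unfold HZ.cond
  have h1 : (1 : ℝ) ≤ |(discr K : ℝ)| := by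
    have h2 : discr K ≠ 0 := discr_ne_zero K
    have h3 : 1 ≤ |discr K| := Int.one_le_abs h2
    exact_mod_cast h3
  nlinarith

theorem S1K_pr (κ : InfinitePlace K → ℤ) :
    ∃ C : ℝ, 0 ≤ C ∧ ∀ (𝔮 : Ideal (𝓞 K)) (_ : 𝔮 ≠ ⊥) (_ : 𝔮 ≠ ⊤)
      (E : Finset (MulChar (𝓞 K ⧸ 𝔮) ℂ)) (lam : MulChar (𝓞 K ⧸ 𝔮) ℂ → InfinitePlace K → ℝ)
      (ψ : MulChar (𝓞 K ⧸ 𝔮) ℂ → (Ideal (𝓞 K) →* ℂ))
      (_ : ∀ χ ∈ E, IsHecke 𝔮 κ (lam χ) χ (ψ χ) ∧ ∑ w, lam χ w = 0) (L : ℝ) (_ : 1 ≤ L)
      (_ : 32 * L = Real.log (cond 𝔮))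
      (W : ℝ → ℂ) (_ : Measurable W) (_ : ∃ R, ∀ v, ‖W v‖ ≤ R)
      (_ : ∀ v, v < 0 ∨ L / 2 < v → W v = 0),
      ∑ χ ∈ E, ‖∫ v, fK L (Real.log (cond 𝔮)) κ (lam χ) (ψ χ) v * W v‖ ^ 2 ≤
        C * (Nat.card (𝓞 K ⧸ 𝔮)ˣ : ℝ) / L * ∫ v, ‖W v‖ ^ 2 := by
  obtain ⟨C, hC, h⟩ := mean_fK_W κ
  have hG := good_NK K
  obtain ⟨ρ, hρ⟩ := kern_NK K
  obtain ⟨C2, hC2, h2⟩ := diag_small hG hρ
  set n : ℕ := Module.finrank ℚ K with hn
  have hn0 : 0 < n := Module.finrank_pos
  have hK0 : 0 ≤ ∫ u, sfk_k u := integral_nonneg sfk_k_nonneg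
  refine ⟨2 * ((C * ((2 : ℝ) ^ n * C2) + C) * ∫ u, sfk_k u), by positivity, ?_⟩
  intro 𝔮 h𝔮 h𝔮' E lam ψ hψ L hL hLq W hWm hWb hWs
  obtain ⟨R0, hR0⟩ := hWb
  have hL0 : 0 < L := by linarith
  set φ : ℝ := (Nat.card (𝓞 K ⧸ 𝔮)ˣ : ℝ) with hφ
  have hφ0 : 0 ≤ φ := by positivity
  have hlog := sfk_log h𝔮 hLq
  have hmain := h 𝔮 h𝔮 h𝔮' E lam ψ hψ L hL hLq W hWm (max R0 (L / 2))
    (fun v => (hR0 v).trans (le_max_left _ _))
    (fun v hv => hWs v (hv.imp id fun h' => lt_of_le_of_lt (le_max_right _ _) h'))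
  set A : ℝ := φ * ((C * ((2 : ℝ) ^ n * C2) + C) / L) with hA
  have hA0 : 0 ≤ A := by positivity
  have hpt : ∀ v v', ‖W v‖ₑ * ‖W v'‖ₑ * ENNReal.ofReal
          (φ * (C * (Real.exp ((v + v') / 2 - wn n v v') *
                Diag (NK K) (kg K Real.pi) L (QK 𝔮) (wn n v v' - 16 * L)) +
             C * Real.exp (-((v + v') / 2)) / L)) ≤
        ENNReal.ofReal A * (‖W v‖ₑ * ‖W v'‖ₑ * sfk_kk (v - v')) := by
    intro v v'
    by_cases hv : v < 0 ∨ L / 2 < v
    · rw [hWs v hv]; simp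
    by_cases hv' : v' < 0 ∨ L / 2 < v'
    · rw [hWs v' hv']; simp
    push Not at hv hv'
    have h3 : Diag (NK K) (kg K Real.pi) L (QK 𝔮) (wn n v v' - 16 * L) ≤ C2 / L := by
      apply h2 L (QK 𝔮) _ hL hlog
      have := (wn_le_max hn0 v v').trans (max_le hv.2 hv'.2)
      linarith
    have h4 := exp_mid_wn hn0 v v'
    have h5 : Real.exp (-((v + v') / 2)) ≤ sfk_k (v - v') := by
      unfold sfk_k
      apply Real.exp_le_exp.mpr
      have : |v - v'| ≤ v + v' := by
        rw [abs_le]; constructor <;> linarith [hv.1, hv'.1]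
      linarith
    have hk := sfk_k_nonneg (v - v')
    have h6 : φ * (C * (Real.exp ((v + v') / 2 - wn n v v') *
                Diag (NK K) (kg K Real.pi) L (QK 𝔮) (wn n v v' - 16 * L)) +
             C * Real.exp (-((v + v') / 2)) / L) ≤ A * sfk_k (v - v') := by
      have h7 : Real.exp ((v + v') / 2 - wn n v v') *
                Diag (NK K) (kg K Real.pi) L (QK 𝔮) (wn n v v' - 16 * L) ≤
          ((2 : ℝ) ^ n * sfk_k (v - v')) * (C2 / L) :=
        mul_le_mul h4 h3 (diag_nonneg hG hρ _ _ _) (by positivity)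
      calc φ * (C * (Real.exp ((v + v') / 2 - wn n v v') *
                Diag (NK K) (kg K Real.pi) L (QK 𝔮) (wn n v v' - 16 * L)) +
             C * Real.exp (-((v + v') / 2)) / L)
          ≤ φ * (C * (((2 : ℝ) ^ n * sfk_k (v - v')) * (C2 / L)) + C * sfk_k (v - v') / L) := by
            gcongr
        _ = A * sfk_k (v - v') := by rw [hA]; ring
    calc ‖W v‖ₑ * ‖W v'‖ₑ * ENNReal.ofReal _
        ≤ ‖W v‖ₑ * ‖W v'‖ₑ * ENNReal.ofReal (A * sfk_k (v - v')) := by gcongr
      _ = ENNReal.ofReal A * (‖W v‖ₑ * ‖W v'‖ₑ * sfk_kk (v - v')) := by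
          rw [ENNReal.ofReal_mul hA0]; unfold sfk_kk; ring
  have hWe : Measurable fun v => ‖W v‖ₑ := hWm.enorm
  have hWsq : ∫⁻ v, ‖W v‖ₑ ^ 2 = ENNReal.ofReal (∫ v, ‖W v‖ ^ 2) := by
    have hW2 : Integrable (fun v => ‖W v‖ ^ 2) := by
      have e : (fun v => ‖W v‖ ^ 2) = (Set.Icc 0 (L / 2)).indicator (fun v => ‖W v‖ ^ 2) := by
        funext v
        by_cases hv : v ∈ Set.Icc 0 (L / 2)
        · rw [Set.indicator_of_mem hv]
        · rw [Set.indicator_of_notMem hv, hWs]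
          · simp
          · by_contra hcon
            push Not at hcon
            exact hv hcon
      rw [e, integrable_indicator_iff measurableSet_Icc]
      refine Measure.integrableOn_of_bounded (M := R0 ^ 2) (by simp)
        (hWm.norm.pow_const 2).aestronglyMeasurable ?_
      filter_upwards with v
      rw [Real.norm_of_nonneg (by positivity)]
      exact pow_le_pow_left₀ (norm_nonneg _) (hR0 v) 2
    rw [ofReal_integral_eq_lintegral_ofReal hW2 (Eventually.of_forall fun v => by positivity)]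
    refine lintegral_congr fun v => ?_
    rw [ENNReal.ofReal_pow (norm_nonneg _), ofReal_norm]
  have hW0 : 0 ≤ ∫ v, ‖W v‖ ^ 2 := integral_nonneg fun v => by positivity
  have hcomb : ENNReal.ofReal (∑ χ ∈ E,
      ‖∫ v, fK L (Real.log (cond 𝔮)) κ (lam χ) (ψ χ) v * W v‖ ^ 2) ≤
      ENNReal.ofReal (A * (2 * ((∫ u, sfk_k u) * ∫ v, ‖W v‖ ^ 2))) := by
    refine hmain.trans ?_
    calc ∫⁻ v, ∫⁻ v', ‖W v‖ₑ * ‖W v'‖ₑ * ENNReal.ofReal
          (φ * (C * (Real.exp ((v + v') / 2 - wn n v v') *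
                Diag (NK K) (kg K Real.pi) L (QK 𝔮) (wn n v v' - 16 * L)) +
             C * Real.exp (-((v + v') / 2)) / L))
        ≤ ∫⁻ v, ∫⁻ v', ENNReal.ofReal A * (‖W v‖ₑ * ‖W v'‖ₑ * sfk_kk (v - v')) :=
          lintegral_mono fun v => lintegral_mono fun v' => hpt v v'
      _ = ENNReal.ofReal A * ∫⁻ v, ∫⁻ v', ‖W v‖ₑ * ‖W v'‖ₑ * sfk_kk (v - v') := by
          rw [← lintegral_const_mul' _ _ ENNReal.ofReal_ne_top]
          refine lintegral_congr fun v => ?_
          rw [lintegral_const_mul' _ _ ENNReal.ofReal_ne_top]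
      _ ≤ ENNReal.ofReal A * (2 * ((∫⁻ u, sfk_kk u) * ∫⁻ v, ‖W v‖ₑ ^ 2)) := by
          gcongr
          exact sfk_schur _ _ hWe sfk_kk_measurable
      _ = ENNReal.ofReal (A * (2 * ((∫ u, sfk_k u) * ∫ v, ‖W v‖ ^ 2))) := by
          rw [hWsq, sfk_kk_int, ← ENNReal.ofReal_mul hK0,
            ENNReal.ofReal_mul hA0, ENNReal.ofReal_mul (by norm_num : (0 : ℝ) ≤ 2)]
          norm_num
  have hfin := (ENNReal.ofReal_le_ofReal_iff (by positivity)).1 hcomb
  refine hfin.trans (le_of_eq ?_)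
  rw [hA]
  ring

theorem S3K_pr (κ : InfinitePlace K → ℤ) :
    ∃ C : ℝ, 0 ≤ C ∧ ∀ (𝔮 : Ideal (𝓞 K)) (_ : 𝔮 ≠ ⊥) (_ : 𝔮 ≠ ⊤)
      (E : Finset (MulChar (𝓞 K ⧸ 𝔮) ℂ)) (lam : MulChar (𝓞 K ⧸ 𝔮) ℂ → InfinitePlace K → ℝ)
      (ψ : MulChar (𝓞 K ⧸ 𝔮) ℂ → (Ideal (𝓞 K) →* ℂ))
      (_ : ∀ χ ∈ E, IsHecke 𝔮 κ (lam χ) χ (ψ χ) ∧ ∑ w, lam χ w = 0) (L : ℝ) (_ : 1 ≤ L)
      (_ : 32 * L = Real.log (cond 𝔮)) (R : ℝ) (_ : 0 < R) (t : ℝ),
      ∑ χ ∈ E, ‖∫ v in Set.Ioc 0 R, fK L (Real.log (cond 𝔮)) κ (lam χ) (ψ χ) v *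
          cexp (t * v * I)‖ ^ 2 ≤ C * (Nat.card (𝓞 K ⧸ 𝔮)ˣ : ℝ) := by
  obtain ⟨C, hC, h⟩ := mean_fK_W κ
  have hG := good_NK K
  obtain ⟨ρ, hρ⟩ := kern_NK K
  obtain ⟨C2, hC2, h2⟩ := diag_int hG hρ
  set n : ℕ := Module.finrank ℚ K with hn
  have hn0 : 0 < n := Module.finrank_pos
  have hK0 : 0 ≤ ∫ u, sfk_k u := integral_nonneg sfk_k_nonneg
  refine ⟨C * (2 : ℝ) ^ n * ((∫ u, sfk_k u) * C2) + C * (2 * 2), by positivity, ?_⟩
  intro 𝔮 h𝔮 h𝔮' E lam ψ hψ L hL hLq R hR t
  have hL0 : 0 < L := by linarith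
  set φ : ℝ := (Nat.card (𝓞 K ⧸ 𝔮)ˣ : ℝ) with hφ
  have hφ0 : 0 ≤ φ := by positivity
  have hlog := sfk_log h𝔮 hLq
  obtain ⟨hDi, hDle⟩ := h2 L (QK 𝔮) hL hlog
  set W : ℝ → ℂ := (Set.Ioc (0 : ℝ) R).indicator (fun v => cexp (t * v * I)) with hW
  have hWm : Measurable W := by
    refine Measurable.indicator ?_ measurableSet_Ioc
    fun_prop
  have hexp1 : ∀ v : ℝ, ‖cexp (t * v * I)‖ = 1 := by
    intro v
    have : (t : ℂ) * v * I = ((t * v : ℝ) : ℂ) * I := by push_cast; ring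
    rw [this, Complex.norm_exp_ofReal_mul_I]
  have hWb : ∀ v, ‖W v‖ ≤ 1 := by
    intro v
    simp only [hW]
    by_cases hv : v ∈ Set.Ioc 0 R
    · rw [Set.indicator_of_mem hv, hexp1]
    · rw [Set.indicator_of_notMem hv]; simp
  have hWs : ∀ v, v ∉ Set.Ioc 0 R → W v = 0 := fun v hv => Set.indicator_of_notMem hv _
  have hmain := h 𝔮 h𝔮 h𝔮' E lam ψ hψ L hL hLq W hWm (R + 1)
    (fun v => (hWb v).trans (by linarith))
    (fun v hv => hWs v (by
      rintro ⟨h0, h1⟩
      rcases hv with h' | h' <;> linarith))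
  have hint : ∀ χ, ∫ v in Set.Ioc 0 R, fK L (Real.log (cond 𝔮)) κ (lam χ) (ψ χ) v *
      cexp (t * v * I) = ∫ v, fK L (Real.log (cond 𝔮)) κ (lam χ) (ψ χ) v * W v := by
    intro χ
    rw [← integral_indicator measurableSet_Ioc]
    refine integral_congr_ae (Eventually.of_forall fun v => ?_)
    simp only [hW]
    by_cases hv : v ∈ Set.Ioc 0 R
    · rw [Set.indicator_of_mem hv, Set.indicator_of_mem hv]
    · rw [Set.indicator_of_notMem hv, Set.indicator_of_notMem hv, mul_zero]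
  simp_rw [hint]
  set D : ℝ → ℝ := fun y => Diag (NK K) (kg K Real.pi) L (QK 𝔮) (y - 16 * L) with hD
  have hDm : Measurable D :=
    (sfk_Diag_measurable hG hρ L (QK 𝔮)).comp (measurable_id.sub_const _)
  have hD0 : ∀ y, 0 ≤ D y := fun y => diag_nonneg hG hρ _ _ _
  set m : ℝ → ℝ≥0∞ := (Set.Ioi (0 : ℝ)).indicator (fun y => ENNReal.ofReal (D y)) with hm
  have hmm : Measurable m := hDm.ennreal_ofReal.indicator measurableSet_Ioi
  have hmint : ∫⁻ y, m y ≤ ENNReal.ofReal C2 := by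
    simp only [hm]
    rw [lintegral_indicator measurableSet_Ioi,
      ← ofReal_integral_eq_lintegral_ofReal hDi (Eventually.of_forall fun v => hD0 v)]
    exact ENNReal.ofReal_le_ofReal hDle
  set e : ℝ → ℝ≥0∞ := (Set.Ioi (0 : ℝ)).indicator
    (fun v => ENNReal.ofReal (Real.exp (-(v / 2)))) with he
  have hem : Measurable e := by
    refine Measurable.indicator ?_ measurableSet_Ioi
    fun_prop
  have hpt : ∀ v v', ‖W v‖ₑ * ‖W v'‖ₑ * ENNReal.ofReal
          (φ * (C * (Real.exp ((v + v') / 2 - wn n v v') *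
                Diag (NK K) (kg K Real.pi) L (QK 𝔮) (wn n v v' - 16 * L)) +
             C * Real.exp (-((v + v') / 2)) / L)) ≤
        ENNReal.ofReal (φ * C * 2 ^ n) * (sfk_kk (v - v') * m (wn n v v')) +
          ENNReal.ofReal (φ * C) * (e v * e v') := by
    intro v v'
    by_cases hv : v ∈ Set.Ioc 0 R
    swap
    · rw [hWs v hv]; simp
    by_cases hv' : v' ∈ Set.Ioc 0 R
    swap
    · rw [hWs v' hv']; simp
    have hwn : 0 < wn n v v' := lt_of_lt_of_le (by linarith [hv.1, hv'.1]) (mid_le_wn hn0 v v')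
    have h4 := exp_mid_wn hn0 v v'
    have hk := sfk_k_nonneg (v - v')
    have hW1 : ∀ v, ‖W v‖ₑ ≤ 1 := by
      intro v
      rw [← ofReal_norm, ← ENNReal.ofReal_one]
      exact ENNReal.ofReal_le_ofReal (hWb v)
    have h6 : φ * (C * (Real.exp ((v + v') / 2 - wn n v v') *
                Diag (NK K) (kg K Real.pi) L (QK 𝔮) (wn n v v' - 16 * L)) +
             C * Real.exp (-((v + v') / 2)) / L) ≤
        φ * C * 2 ^ n * (sfk_k (v - v') * D (wn n v v')) +
          φ * C * (Real.exp (-(v / 2)) * Real.exp (-(v' / 2))) := by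
      have h7 : Real.exp ((v + v') / 2 - wn n v v') *
                Diag (NK K) (kg K Real.pi) L (QK 𝔮) (wn n v v' - 16 * L) ≤
          ((2 : ℝ) ^ n * sfk_k (v - v')) * D (wn n v v') :=
        mul_le_mul_of_nonneg_right h4 (hD0 _)
      have h8 : C * Real.exp (-((v + v') / 2)) / L ≤
          C * (Real.exp (-(v / 2)) * Real.exp (-(v' / 2))) := by
        have e2 : Real.exp (-((v + v') / 2)) = Real.exp (-(v / 2)) * Real.exp (-(v' / 2)) := by
          rw [← Real.exp_add]; congr 1; ring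
        rw [e2]
        exact div_le_self (by positivity) hL
      calc φ * (C * (Real.exp ((v + v') / 2 - wn n v v') *
                Diag (NK K) (kg K Real.pi) L (QK 𝔮) (wn n v v' - 16 * L)) +
             C * Real.exp (-((v + v') / 2)) / L)
          ≤ φ * (C * (((2 : ℝ) ^ n * sfk_k (v - v')) * D (wn n v v')) +
              C * (Real.exp (-(v / 2)) * Real.exp (-(v' / 2)))) := by
            gcongr
        _ = _ := by ring
    have hDw := hD0 (wn n v v')
    calc ‖W v‖ₑ * ‖W v'‖ₑ * ENNReal.ofReal _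
        ≤ 1 * 1 * ENNReal.ofReal (φ * C * 2 ^ n * (sfk_k (v - v') * D (wn n v v')) +
          φ * C * (Real.exp (-(v / 2)) * Real.exp (-(v' / 2)))) := by
          gcongr
          · exact hW1 v
          · exact hW1 v'
      _ = _ := by
          rw [one_mul, one_mul, ENNReal.ofReal_add (by positivity) (by positivity),
            ENNReal.ofReal_mul (p := φ * C * 2 ^ n) (by positivity), ENNReal.ofReal_mul hk,
            ENNReal.ofReal_mul (p := φ * C)
              (q := Real.exp (-(v / 2)) * Real.exp (-(v' / 2))) (by positivity),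
            ENNReal.ofReal_mul (Real.exp_pos _).le]
          simp only [hm, he, sfk_kk]
          rw [Set.indicator_of_mem (Set.mem_Ioi.2 hwn), Set.indicator_of_mem (Set.mem_Ioi.2 hv.1),
            Set.indicator_of_mem (Set.mem_Ioi.2 hv'.1)]
  have hwnm : Measurable fun p : ℝ × ℝ => wn n p.1 p.2 := (wn_continuous hn0).measurable
  have hmeas1 : ∀ v, Measurable fun v' => sfk_kk (v - v') * m (wn n v v') := by
    intro v
    exact (sfk_kk_measurable.comp (measurable_const.sub measurable_id)).mul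
      (hmm.comp (hwnm.comp (measurable_const.prodMk measurable_id)))
  have hA1 : ∫⁻ v, ∫⁻ v', sfk_kk (v - v') * m (wn n v v') ≤
      ENNReal.ofReal ((∫ u, sfk_k u) * C2) := by
    have e1 : ∀ v, ∫⁻ v', sfk_kk (v - v') * m (wn n v v') =
        ∫⁻ s, sfk_kk (-s) * m (v + wn n 0 s) := by
      intro v
      rw [← lintegral_add_left_eq_self (fun v' => sfk_kk (v - v') * m (wn n v v')) v]
      refine lintegral_congr fun s => ?_
      have h3 : wn n v (v + s) = v + wn n 0 s := by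
        have := wn_shift hn0 0 s v
        rw [zero_add] at this
        rw [add_comm v s, this, add_comm]
      rw [h3]
      congr 2; ring
    simp_rw [e1]
    rw [lintegral_lintegral_swap]
    · have e2 : ∀ s, ∫⁻ v, sfk_kk (-s) * m (v + wn n 0 s) = sfk_kk (-s) * ∫⁻ v, m v := by
        intro s
        have hms : Measurable fun v => m (v + wn n 0 s) :=
          hmm.comp (measurable_id.add measurable_const)
        rw [lintegral_const_mul _ hms, lintegral_add_right_eq_self m (wn n 0 s)]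
      simp_rw [e2]
      have hκn : Measurable fun s => sfk_kk (-s) := sfk_kk_measurable.comp measurable_neg
      rw [lintegral_mul_const _ hκn, lintegral_neg_eq_self sfk_kk, sfk_kk_int,
        ENNReal.ofReal_mul hK0]
      gcongr
    · exact ((sfk_kk_measurable.comp (measurable_neg.comp measurable_snd)).mul
        (hmm.comp (measurable_fst.add
          ((hwnm.comp (measurable_const.prodMk measurable_id)).comp
            measurable_snd)))).aemeasurable
  have hA2 : ∫⁻ v, ∫⁻ v', e v * e v' = ENNReal.ofReal (2 * 2) := by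
    have e1 : ∀ v, ∫⁻ v', e v * e v' = e v * ENNReal.ofReal 2 := by
      intro v
      rw [← sfk_half_lint, ← he, lintegral_const_mul _ hem]
    simp_rw [e1]
    rw [lintegral_mul_const _ hem, sfk_half_lint, ← ENNReal.ofReal_mul (by norm_num)]
  have hcomb : ENNReal.ofReal (∑ χ ∈ E,
      ‖∫ v, fK L (Real.log (cond 𝔮)) κ (lam χ) (ψ χ) v * W v‖ ^ 2) ≤
      ENNReal.ofReal (φ * C * 2 ^ n * ((∫ u, sfk_k u) * C2) + φ * C * (2 * 2)) := by
    refine hmain.trans ?_
    calc ∫⁻ v, ∫⁻ v', ‖W v‖ₑ * ‖W v'‖ₑ * ENNReal.ofReal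
          (φ * (C * (Real.exp ((v + v') / 2 - wn n v v') *
                Diag (NK K) (kg K Real.pi) L (QK 𝔮) (wn n v v' - 16 * L)) +
             C * Real.exp (-((v + v') / 2)) / L))
        ≤ ∫⁻ v, ∫⁻ v', (ENNReal.ofReal (φ * C * 2 ^ n) * (sfk_kk (v - v') * m (wn n v v')) +
          ENNReal.ofReal (φ * C) * (e v * e v')) :=
          lintegral_mono fun v => lintegral_mono fun v' => hpt v v'
      _ = ∫⁻ v, (ENNReal.ofReal (φ * C * 2 ^ n) * (∫⁻ v', sfk_kk (v - v') * m (wn n v v')) +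
          ENNReal.ofReal (φ * C) * ∫⁻ v', e v * e v') := by
          refine lintegral_congr fun v => ?_
          rw [lintegral_add_left ((hmeas1 v).const_mul _),
            lintegral_const_mul' _ _ ENNReal.ofReal_ne_top,
            lintegral_const_mul' _ _ ENNReal.ofReal_ne_top]
      _ = ENNReal.ofReal (φ * C * 2 ^ n) * (∫⁻ v, ∫⁻ v', sfk_kk (v - v') * m (wn n v v')) +
          ENNReal.ofReal (φ * C) * ∫⁻ v, ∫⁻ v', e v * e v' := by
          have hmeas2 : Measurable fun v => ∫⁻ v', e v * e v' := by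
            have e1 : (fun v => ∫⁻ v', e v * e v') = fun v => e v * ∫⁻ v', e v' := by
              funext v
              rw [lintegral_const_mul _ hem]
            rw [e1]
            exact hem.mul_const _
          rw [lintegral_add_right _ (hmeas2.const_mul _),
            lintegral_const_mul' _ _ ENNReal.ofReal_ne_top,
            lintegral_const_mul' _ _ ENNReal.ofReal_ne_top]
      _ ≤ ENNReal.ofReal (φ * C * 2 ^ n) * ENNReal.ofReal ((∫ u, sfk_k u) * C2) +
          ENNReal.ofReal (φ * C) * ENNReal.ofReal (2 * 2) := by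
          rw [hA2]
          gcongr
      _ = _ := by
          rw [ENNReal.ofReal_add (by positivity) (by positivity),
            ENNReal.ofReal_mul (p := φ * C * 2 ^ n) (by positivity),
            ENNReal.ofReal_mul (p := φ * C) (q := 2 * 2) (by positivity)]
  have hfin := (ENNReal.ofReal_le_ofReal_iff (by positivity)).1 hcomb
  refine hfin.trans (le_of_eq ?_)
  ring

end Pool.Agent.KS

namespace Pool.Agent.KS

theorem S1K : type_of% @S1K_pr := @S1K_pr

theorem S3K : type_of% @S3K_pr := @S3K_pr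

end Pool.Agent.KS
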